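import Pool.Agent.Lib.MP_4ddf81_pr.Stm

/-!
# MP_4ddf81_pr : the average of the character over the variables of a permuted word
-/

namespace NilCut

namespace AvTr

lemma sucP_zero {m : ℕ} (σ : Equiv.Perm (Fin m)) : sucP σ 0 = 0 := by
  unfold sucP
  exact Equiv.Perm.decomposeFin_symm_apply_zero 0 σ

lemma sucP_succ {m : ℕ} (σ : Equiv.Perm (Fin m)) (l : Fin m) : sucP σ l.succ = (σ l).succ := by
  unfold sucP
  rw [Equiv.Perm.decomposeFin_symm_apply_succ]
  simp

lemma rot_cast {m : ℕ} (l : Fin m) : finRotate (m + 1) l.castSucc = l.succ := by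
  rw [finRotate_apply]
  apply Fin.ext
  simp

lemma rot_last {m : ℕ} : finRotate (m + 1) (Fin.last m) = 0 := by
  rw [finRotate_apply]
  simp

lemma casP_cast {m : ℕ} (σ : Equiv.Perm (Fin m)) (l : Fin m) :
    casP σ l.castSucc = (σ l).castSucc := by
  unfold casP
  rw [Equiv.Perm.mul_apply, Equiv.Perm.mul_apply, rot_cast, sucP_succ, Equiv.Perm.inv_eq_iff_eq,
    rot_cast]

lemma casP_last {m : ℕ} (σ : Equiv.Perm (Fin m)) :
    casP σ (Fin.last m) = Fin.last m := by
  unfold casP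
  rw [Equiv.Perm.mul_apply, Equiv.Perm.mul_apply, rot_last, sucP_zero, Equiv.Perm.inv_eq_iff_eq,
    rot_last]

variable {G : Type} [Group G]

/-- The dual representation, as matrices. -/
def dualRep {d : ℕ} (ρ : G →* Matrix (Fin d) (Fin d) ℂ) : G →* Matrix (Fin d) (Fin d) ℂ where
  toFun g := (ρ g⁻¹).transpose
  map_one' := by simp
  map_mul' g h := by
    rw [mul_inv_rev, map_mul, Matrix.transpose_mul]

lemma dualRep_apply {d : ℕ} (ρ : G →* Matrix (Fin d) (Fin d) ℂ) (g : G) (x y : Fin d) :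
    dualRep ρ g x y = ρ g⁻¹ y x := rfl

lemma expand (hE : S_Expand) {d m : ℕ} (ψ : G →* Matrix (Fin d) (Fin d) ℂ)
    (c : Fin (m + 1) → G) (z : Fin m → G) (x y : Fin d) :
    ψ (altW c z) x y = ∑ a : Fin (m + 1) → Fin d, ∑ b : Fin (m + 1) → Fin d,
      if a 0 = x ∧ b (Fin.last m) = y then
        (∏ i, ψ (c i) (a i) (b i)) * ∏ l : Fin m, ψ (z l) (b l.castSucc) (a l.succ)
      else 0 := by
  have h := hE d m (fun i => ψ (c i)) (fun l => ψ (z l)) x y
  rw [← h]
  unfold altW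
  rw [map_mul, map_list_prod, List.map_ofFn]
  simp only [Function.comp_def, map_mul]

lemma sum_pick {d m : ℕ} (F : (Fin (m + 1) → Fin d) → (Fin (m + 1) → Fin d) → ℂ)
    (N : Fin d → Fin d → ℂ) :
    ∑ x, ∑ y, (∑ a : Fin (m + 1) → Fin d, ∑ b : Fin (m + 1) → Fin d,
      if a 0 = x ∧ b (Fin.last m) = y then F a b else 0) * N x y =
    ∑ a : Fin (m + 1) → Fin d, ∑ b : Fin (m + 1) → Fin d, F a b * N (a 0) (b (Fin.last m)) := by
  calc _ = ∑ x, ∑ y, ∑ a : Fin (m + 1) → Fin d, ∑ b : Fin (m + 1) → Fin d,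
      (if a 0 = x then (if b (Fin.last m) = y then F a b * N x y else 0) else 0) := by
        refine Finset.sum_congr rfl fun x _ => Finset.sum_congr rfl fun y _ => ?_
        rw [Finset.sum_mul]
        refine Finset.sum_congr rfl fun a _ => ?_
        rw [Finset.sum_mul]
        refine Finset.sum_congr rfl fun b _ => ?_
        by_cases h1 : a 0 = x <;> by_cases h2 : b (Fin.last m) = y <;> simp [h1, h2]
    _ = ∑ a : Fin (m + 1) → Fin d, ∑ b : Fin (m + 1) → Fin d, ∑ x, ∑ y,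
      (if a 0 = x then (if b (Fin.last m) = y then F a b * N x y else 0) else 0) := by
        rw [← Finset.sum_product' (s := Finset.univ) (t := Finset.univ)]
        simp_rw [← Finset.sum_product' (s := (Finset.univ : Finset (Fin (m + 1) → Fin d)))
          (t := (Finset.univ : Finset (Fin (m + 1) → Fin d)))]
        rw [Finset.sum_comm]
        refine Finset.sum_congr rfl fun p _ => ?_
        exact Finset.sum_product' _ _ (fun x y =>
          if p.1 0 = x then (if p.2 (Fin.last m) = y then F p.1 p.2 * N x y else 0) else 0)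
    _ = _ := by
        refine Finset.sum_congr rfl fun a _ => Finset.sum_congr rfl fun b _ => ?_
        rw [Finset.sum_eq_single (a 0)]
        · rw [Finset.sum_eq_single (b (Fin.last m))]
          · simp
          · intro y _ hy
            simp [Ne.symm hy]
          · intro h; exact absurd (Finset.mem_univ _) h
        · intro x _ hx
          simp [Ne.symm hx]
        · intro h; exact absurd (Finset.mem_univ _) h

lemma cond_iff {d m : ℕ} (σ : Equiv.Perm (Fin m)) (a b a' b' : Fin (m + 1) → Fin d) :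
    ((a' 0 = a 0 ∧ b' (Fin.last m) = b (Fin.last m)) ∧
      ∀ l ∈ (Finset.univ : Finset (Fin m)), (b l.castSucc = b' (σ⁻¹ l).castSucc ∧
        a l.succ = a' (σ⁻¹ l).succ)) ↔
    (a' = a ∘ sucP σ ∧ b' = b ∘ casP σ) := by
  constructor
  · rintro ⟨⟨h1, h2⟩, h3⟩
    constructor
    · funext i
      refine Fin.cases ?_ (fun l => ?_) i
      · rw [Function.comp_apply, sucP_zero, h1]
      · rw [Function.comp_apply, sucP_succ, (h3 (σ l) (Finset.mem_univ _)).2]
        simp
    · funext i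
      refine Fin.lastCases ?_ (fun l => ?_) i
      · rw [Function.comp_apply, casP_last, h2]
      · rw [Function.comp_apply, casP_cast, (h3 (σ l) (Finset.mem_univ _)).1]
        simp
  · rintro ⟨rfl, rfl⟩
    refine ⟨⟨?_, ?_⟩, fun l _ => ⟨?_, ?_⟩⟩
    · rw [Function.comp_apply, sucP_zero]
    · rw [Function.comp_apply, casP_last]
    · rw [Function.comp_apply, casP_cast]; simp
    · rw [Function.comp_apply, sucP_succ]; simp

lemma sum_z [Fintype G] (hS : S_Schur) {d m : ℕ} (ρ : G →* Matrix (Fin d) (Fin d) ℂ)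
    (hρ : IsIrr ρ) (σ : Equiv.Perm (Fin m)) (a b a' b' : Fin (m + 1) → Fin d) :
    ∑ z : Fin m → G, (∏ l : Fin m, ρ (z l) (b l.castSucc) (a l.succ)) *
      (∏ l : Fin m, dualRep ρ ((z ∘ σ) l) (b' l.castSucc) (a' l.succ)) =
    if ∀ l ∈ (Finset.univ : Finset (Fin m)), (b l.castSucc = b' (σ⁻¹ l).castSucc ∧
        a l.succ = a' (σ⁻¹ l).succ) then ((Nat.card G : ℂ) / (d : ℂ)) ^ m else 0 := by
  have h1 : ∀ z : Fin m → G, (∏ l : Fin m, ρ (z l) (b l.castSucc) (a l.succ)) *
      (∏ l : Fin m, dualRep ρ ((z ∘ σ) l) (b' l.castSucc) (a' l.succ)) =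
      ∏ l : Fin m, (ρ (z l) (b l.castSucc) (a l.succ) *
        ρ (z l)⁻¹ (a' (σ⁻¹ l).succ) (b' (σ⁻¹ l).castSucc)) := by
    intro z
    rw [Finset.prod_mul_distrib]
    congr 1
    rw [← Equiv.prod_comp σ⁻¹]
    refine Finset.prod_congr rfl fun l _ => ?_
    rw [dualRep_apply, Function.comp_apply]
    simp
  rw [Finset.sum_congr rfl fun z _ => h1 z]
  have h2 := Finset.prod_univ_sum (fun _ : Fin m => (Finset.univ : Finset G))
    (fun l g => ρ g (b l.castSucc) (a l.succ) * ρ g⁻¹ (a' (σ⁻¹ l).succ) (b' (σ⁻¹ l).castSucc))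
  rw [Fintype.piFinset_univ] at h2
  rw [← h2]
  rw [Finset.prod_congr rfl fun l _ => hS G d ρ hρ (b l.castSucc) (a l.succ)
    (a' (σ⁻¹ l).succ) (b' (σ⁻¹ l).castSucc)]
  rw [Finset.prod_ite_zero, Finset.prod_const, Finset.card_univ, Fintype.card_fin]
  by_cases h : ∀ l ∈ (Finset.univ : Finset (Fin m)), (b l.castSucc = b' (σ⁻¹ l).castSucc ∧
        a l.succ = a' (σ⁻¹ l).succ)
  · rw [if_pos h, if_pos h]
  · rw [if_neg h, if_neg h]

end AvTr

open AvTr in
/-- The average of the character over the variables of a permuted word. -/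
theorem p_AvTr (hS : S_Schur) (hE : S_Expand) : S_AvTr := by
  intro G _ _ d ρ hρ m c σ
  have h1 : ∀ z : Fin m → G, (ρ (altW c z * (altW c (z ∘ σ))⁻¹)).trace =
      ∑ a : Fin (m + 1) → Fin d, ∑ b : Fin (m + 1) → Fin d,
      ∑ a' : Fin (m + 1) → Fin d, ∑ b' : Fin (m + 1) → Fin d,
        if a' 0 = a 0 ∧ b' (Fin.last m) = b (Fin.last m) then
          ((∏ i, ρ (c i) (a i) (b i)) * (∏ i, dualRep ρ (c i) (a' i) (b' i))) *
          ((∏ l : Fin m, ρ (z l) (b l.castSucc) (a l.succ)) *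
            (∏ l : Fin m, dualRep ρ ((z ∘ σ) l) (b' l.castSucc) (a' l.succ))) else 0 := by
    intro z
    have e1 : (ρ (altW c z * (altW c (z ∘ σ))⁻¹)).trace =
        ∑ x, ∑ y, ρ (altW c z) x y * dualRep ρ (altW c (z ∘ σ)) x y := by
      rw [map_mul, Matrix.trace]
      refine Finset.sum_congr rfl fun x _ => ?_
      rw [Matrix.diag_apply, Matrix.mul_apply]
      rfl
    rw [e1]
    simp_rw [expand hE ρ c z]
    refine (sum_pick (fun a b => (∏ i, ρ (c i) (a i) (b i)) *
      ∏ l : Fin m, ρ (z l) (b l.castSucc) (a l.succ))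
      (fun x y => dualRep ρ (altW c (z ∘ σ)) x y)).trans ?_
    refine Finset.sum_congr rfl fun a _ => Finset.sum_congr rfl fun b _ => ?_
    rw [expand hE (dualRep ρ) c (z ∘ σ), Finset.mul_sum]
    refine Finset.sum_congr rfl fun a' _ => ?_
    rw [Finset.mul_sum]
    refine Finset.sum_congr rfl fun b' _ => ?_
    by_cases h : a' 0 = a 0 ∧ b' (Fin.last m) = b (Fin.last m)
    · rw [if_pos h, if_pos h]; ring
    · rw [if_neg h, if_neg h, mul_zero]
  rw [Finset.sum_congr rfl fun z _ => h1 z]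
  -- move the sum over `z` inside
  rw [Finset.sum_comm]
  have h2 : ∀ a : Fin (m + 1) → Fin d,
      ∑ z : Fin m → G, ∑ b : Fin (m + 1) → Fin d,
      ∑ a' : Fin (m + 1) → Fin d, ∑ b' : Fin (m + 1) → Fin d,
        (if a' 0 = a 0 ∧ b' (Fin.last m) = b (Fin.last m) then
          ((∏ i, ρ (c i) (a i) (b i)) * (∏ i, dualRep ρ (c i) (a' i) (b' i))) *
          ((∏ l : Fin m, ρ (z l) (b l.castSucc) (a l.succ)) *
            (∏ l : Fin m, dualRep ρ ((z ∘ σ) l) (b' l.castSucc) (a' l.succ))) else 0) =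
      ∑ b : Fin (m + 1) → Fin d, ((∏ i, ρ (c i) (a i) (b i)) *
        (∏ i, dualRep ρ (c i) (a (sucP σ i)) (b (casP σ i)))) *
          ((Nat.card G : ℂ) / (d : ℂ)) ^ m := by
    intro a
    rw [Finset.sum_comm]
    refine Finset.sum_congr rfl fun b _ => ?_
    rw [Finset.sum_comm]
    have h3 : ∀ a' : Fin (m + 1) → Fin d, ∑ z : Fin m → G, ∑ b' : Fin (m + 1) → Fin d,
        (if a' 0 = a 0 ∧ b' (Fin.last m) = b (Fin.last m) then
          ((∏ i, ρ (c i) (a i) (b i)) * (∏ i, dualRep ρ (c i) (a' i) (b' i))) *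
          ((∏ l : Fin m, ρ (z l) (b l.castSucc) (a l.succ)) *
            (∏ l : Fin m, dualRep ρ ((z ∘ σ) l) (b' l.castSucc) (a' l.succ))) else 0) =
        ∑ b' : Fin (m + 1) → Fin d, if a' = a ∘ sucP σ ∧ b' = b ∘ casP σ then
          ((∏ i, ρ (c i) (a i) (b i)) * (∏ i, dualRep ρ (c i) (a' i) (b' i))) *
          ((Nat.card G : ℂ) / (d : ℂ)) ^ m else 0 := by
      intro a'
      rw [Finset.sum_comm]
      refine Finset.sum_congr rfl fun b' _ => ?_
      have h4 := cond_iff σ a b a' b'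
      by_cases h : a' 0 = a 0 ∧ b' (Fin.last m) = b (Fin.last m)
      · simp only [if_pos h]
        rw [← Finset.mul_sum, sum_z hS ρ hρ σ a b a' b']
        by_cases h' : ∀ l ∈ (Finset.univ : Finset (Fin m)), (b l.castSucc = b' (σ⁻¹ l).castSucc ∧
            a l.succ = a' (σ⁻¹ l).succ)
        · rw [if_pos h', if_pos (h4.1 ⟨h, h'⟩)]
        · rw [if_neg h', if_neg (fun h5 => h' (h4.2 h5).2), mul_zero]
      · simp only [if_neg h]
        rw [if_neg (fun h5 => h (h4.2 h5).1)]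
        simp
    rw [Finset.sum_congr rfl fun a' _ => h3 a']
    rw [Finset.sum_eq_single (a ∘ sucP σ), Finset.sum_eq_single (b ∘ casP σ)]
    · rw [if_pos ⟨rfl, rfl⟩]
      rfl
    · intro b' _ hb'
      rw [if_neg (fun h => hb' h.2)]
    · intro h; exact absurd (Finset.mem_univ _) h
    · intro a' _ ha'
      refine Finset.sum_eq_zero fun b' _ => ?_
      rw [if_neg (fun h => ha' h.1)]
    · intro h; exact absurd (Finset.mem_univ _) h
  rw [Finset.sum_congr rfl fun a _ => h2 a, Finset.mul_sum]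
  refine Finset.sum_congr rfl fun a _ => ?_
  rw [← Finset.sum_mul, mul_comm]
  congr 1
  have h5 : ∀ b : Fin (m + 1) → Fin d, (∏ i, ρ (c i) (a i) (b i)) *
      (∏ i, dualRep ρ (c i) (a (sucP σ i)) (b (casP σ i))) =
      ∏ i, (ρ (c i) (a i) (b i) * ρ (c ((casP σ)⁻¹ i))⁻¹ (b i) (a (phiP σ i))) := by
    intro b
    rw [Finset.prod_mul_distrib]
    congr 1
    rw [← Equiv.prod_comp (casP σ)⁻¹]
    refine Finset.prod_congr rfl fun i _ => ?_
    rw [dualRep_apply]
    unfold phiP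
    rw [Equiv.Perm.mul_apply]
    simp
  rw [Finset.sum_congr rfl fun b _ => h5 b]
  have h6 := Finset.prod_univ_sum (fun _ : Fin (m + 1) => (Finset.univ : Finset (Fin d)))
    (fun i x => ρ (c i) (a i) x * ρ (c ((casP σ)⁻¹ i))⁻¹ x (a (phiP σ i)))
  rw [Fintype.piFinset_univ] at h6
  rw [← h6]
  refine Finset.prod_congr rfl fun i _ => ?_
  rw [map_mul, Matrix.mul_apply]

end NilCut
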