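import Pool.Agent.Lib.MP_4ddf81_pr.Stm

/-!
# MP_4ddf81_pr : piece CenCount
-/

namespace NilCut

open scoped commutatorElement

theorem p_CenCount (hD : S_Dual2) : S_CenCount := by
  intro G _ _ i
  have hle : commutator (lc G i) ≤ (lc G (i + 1)).subgroupOf (lc G i) := by
    rw [commutator_def, Subgroup.commutator_le]
    intro a _ b _
    rw [Subgroup.mem_subgroupOf]
    have h : ((⁅a, b⁆ : lc G i) : G) = ⁅(a : G), (b : G)⁆ := rfl
    rw [h]
    exact Subgroup.commutator_mem_commutator a.2 (Subgroup.mem_top _)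
  have h2 := (hD (lc G i) _ hle).2
  rw [Lsz, Subgroup.relIndex, ← h2]
  refine Nat.card_congr (Equiv.subtypeEquivRight fun ξ => ?_)
  constructor
  · intro h a ha
    exact h a (Subgroup.mem_subgroupOf.1 ha)
  · intro h a ha
    exact h a (Subgroup.mem_subgroupOf.2 ha)

end NilCut
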