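import Pool.Agent.Lib.MP_4ddf81_pr.Stm

/-!
# MP_4ddf81_pr : Clifford theory for a subgroup of prime index
-/

namespace NilCut

namespace Clif

open Matrix

/-- Factorisation of an idempotent matrix. -/
theorem factor {D : ℕ} (e : Matrix (Fin D) (Fin D) ℂ) (he : e * e = e) :
    ∃ (d : ℕ) (A : Matrix (Fin D) (Fin d) ℂ) (B : Matrix (Fin d) (Fin D) ℂ),
      A * B = e ∧ B * A = 1 := by
  let f : (Fin D → ℂ) →ₗ[ℂ] (Fin D → ℂ) := Matrix.toLin' e
  have hf : ∀ v, f (f v) = f v := by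
    intro v
    have h1 : f ∘ₗ f = f := by
      change Matrix.toLin' e ∘ₗ Matrix.toLin' e = Matrix.toLin' e
      rw [← Matrix.toLin'_mul, he]
    exact LinearMap.congr_fun h1 v
  let b := Module.finBasis ℂ (LinearMap.range f)
  refine ⟨Module.finrank ℂ (LinearMap.range f), LinearMap.toMatrix' ((LinearMap.range f).subtype ∘ₗ
      b.equivFun.symm.toLinearMap),
    LinearMap.toMatrix' (b.equivFun.toLinearMap ∘ₗ f.rangeRestrict), ?_, ?_⟩
  · rw [← LinearMap.toMatrix'_comp]
    have h1 : ((LinearMap.range f).subtype ∘ₗ b.equivFun.symm.toLinearMap) ∘ₗ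
        (b.equivFun.toLinearMap ∘ₗ f.rangeRestrict) = f := by
      apply LinearMap.ext
      intro v
      change ((b.equivFun.symm (b.equivFun (f.rangeRestrict v)) : LinearMap.range f) :
        Fin D → ℂ) = f v
      rw [LinearEquiv.symm_apply_apply]
      rfl
    rw [h1]
    exact LinearMap.toMatrix'_toLin' e
  · rw [← LinearMap.toMatrix'_comp]
    have h1 : (b.equivFun.toLinearMap ∘ₗ f.rangeRestrict) ∘ₗ
        ((LinearMap.range f).subtype ∘ₗ b.equivFun.symm.toLinearMap) =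
        LinearMap.id := by
      apply LinearMap.ext
      intro v
      have h2 : f.rangeRestrict ((b.equivFun.symm v : LinearMap.range f) : Fin D → ℂ) =
          b.equivFun.symm v := by
        apply Subtype.ext
        obtain ⟨w, hw⟩ := (b.equivFun.symm v).2
        change f ((b.equivFun.symm v : LinearMap.range f) : Fin D → ℂ) =
          ((b.equivFun.symm v : LinearMap.range f) : Fin D → ℂ)
        rw [← hw, hf]
      change b.equivFun (f.rangeRestrict ((b.equivFun.symm v : LinearMap.range f) : Fin D → ℂ)) = v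
      rw [h2]
      exact LinearEquiv.apply_symm_apply _ v
    rw [h1]
    exact LinearMap.toMatrix'_id

/-- A matrix which commutes with a spanning set is scalar. -/
theorem scalar_of_span {D : ℕ} {ι : Type*} (ρ : ι → Matrix (Fin D) (Fin D) ℂ)
    (hρ : Submodule.span ℂ (Set.range ρ) = ⊤) (X : Matrix (Fin D) (Fin D) ℂ)
    (h : ∀ i, X * ρ i = ρ i * X) : ∃ c : ℂ, X = c • (1 : Matrix (Fin D) (Fin D) ℂ) := by
  have h1 : ∀ Y : Matrix (Fin D) (Fin D) ℂ, X * Y = Y * X := by
    intro Y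
    have hY : Y ∈ Submodule.span ℂ (Set.range ρ) := by rw [hρ]; exact Submodule.mem_top
    induction hY using Submodule.span_induction with
    | mem y hy =>
      obtain ⟨i, rfl⟩ := hy
      exact h i
    | zero => simp
    | add a b _ _ ha hb => rw [mul_add, add_mul, ha, hb]
    | smul c a _ ha => rw [Matrix.mul_smul, Matrix.smul_mul, ha]
  have h2 : X ∈ Set.range (Matrix.scalar (Fin D)) :=
    Matrix.mem_range_scalar_of_commute_single fun i j _ => (h1 _).symm
  obtain ⟨c, hc⟩ := h2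
  refine ⟨c, ?_⟩
  rw [← hc]
  ext i j
  simp [Matrix.scalar_apply, Matrix.diagonal_apply, Matrix.one_apply]

/-- The sum of a nontrivial power of the character. -/
theorem sum_pow_eq_zero {G : Type} [Group G] [Fintype G] (l : G →* ℂˣ) {q i : ℕ} (hq : q.Prime)
    (hl : l ≠ 1) (hlq : l ^ q = 1) (h0 : 0 < i) (hi : i < q) :
    (∃ x : G, ((l x : ℂˣ) : ℂ) ^ i ≠ 1) ∧ ∑ x : G, ((l x : ℂˣ) : ℂ) ^ i = 0 := by
  obtain ⟨x0, hx0⟩ : ∃ x, l x ≠ 1 := by
    by_contra hcon
    push Not at hcon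
    exact hl (MonoidHom.ext hcon)
  have hxq : l x0 ^ q = 1 := by
    have := DFunLike.congr_fun hlq x0
    simpa using this
  have hfact : Fact q.Prime := ⟨hq⟩
  have hord : orderOf (l x0) = q := orderOf_eq_prime hxq hx0
  have h1 : l x0 ^ i ≠ 1 := by
    intro h
    have h2 := orderOf_dvd_of_pow_eq_one h
    rw [hord] at h2
    exact absurd (Nat.le_of_dvd h0 h2) (by omega)
  have h2 : ((l x0 : ℂˣ) : ℂ) ^ i ≠ 1 := by
    intro h
    apply h1
    apply Units.ext
    simpa using h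
  refine ⟨⟨x0, h2⟩, ?_⟩
  have h3 : ∑ x : G, ((l x : ℂˣ) : ℂ) ^ i = ((l x0 : ℂˣ) : ℂ) ^ i * ∑ x : G, ((l x : ℂˣ) : ℂ) ^ i := by
    rw [Finset.mul_sum]
    rw [← Equiv.sum_comp (Equiv.mulLeft x0) fun x => ((l x : ℂˣ) : ℂ) ^ i]
    refine Finset.sum_congr rfl fun x _ => ?_
    simp [mul_pow]
  have h4 : (((l x0 : ℂˣ) : ℂ) ^ i - 1) * ∑ x : G, ((l x : ℂˣ) : ℂ) ^ i = 0 := by
    rw [sub_mul, one_mul, ← h3, sub_self]
  rcases mul_eq_zero.1 h4 with h5 | h5
  · exact absurd (sub_eq_zero.1 h5) h2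
  · exact h5

/-- The order of the kernel. -/
theorem card_ker {G : Type} [Group G] [Fintype G] (l : G →* ℂˣ) {q : ℕ} (hq : q.Prime)
    (hl : l ≠ 1) (hlq : l ^ q = 1) :
    (Nat.card l.ker : ℂ) = (q : ℂ)⁻¹ * (Nat.card G : ℂ) := by
  classical
  have hq0 : (q : ℂ) ≠ 0 := by exact_mod_cast hq.ne_zero
  have h1 : ∀ x : G, ∑ i ∈ Finset.range q, ((l x : ℂˣ) : ℂ) ^ i =
      if x ∈ l.ker then (q : ℂ) else 0 := by
    intro x
    by_cases hx : x ∈ l.ker
    · rw [if_pos hx]
      rw [MonoidHom.mem_ker] at hx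
      simp [hx]
    · rw [if_neg hx]
      have hx1 : ((l x : ℂˣ) : ℂ) ≠ 1 := by
        intro h
        exact hx (MonoidHom.mem_ker.2 (Units.ext h))
      have hxq : ((l x : ℂˣ) : ℂ) ^ q = 1 := by
        have := DFunLike.congr_fun hlq x
        simp only [MonoidHom.pow_apply, MonoidHom.one_apply] at this
        rw [← Units.val_pow_eq_pow_val, this, Units.val_one]
      rw [geom_sum_eq hx1, hxq]
      simp
  have h2 : ∑ x : G, ∑ i ∈ Finset.range q, ((l x : ℂˣ) : ℂ) ^ i = (Nat.card l.ker : ℂ) * q := by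
    rw [Finset.sum_congr rfl fun x _ => h1 x, ← Finset.sum_filter, Finset.sum_const,
      nsmul_eq_mul]
    congr 2
    rw [Nat.card_eq_fintype_card, Fintype.card_subtype]
  have h3 : ∑ x : G, ∑ i ∈ Finset.range q, ((l x : ℂˣ) : ℂ) ^ i = (Nat.card G : ℂ) := by
    rw [Finset.sum_comm]
    obtain ⟨r, hr⟩ : ∃ r, q = r + 1 := ⟨q - 1, by have := hq.pos; omega⟩
    rw [hr, Finset.sum_range_succ', Finset.sum_eq_zero]
    · simp
    · intro i hi
      exact (sum_pow_eq_zero l hq hl hlq (Nat.succ_pos i)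
        (by rw [Finset.mem_range] at hi; omega)).2
  rw [← h3, h2]
  field_simp

end Clif

open Clif in
/-- Clifford theory for a subgroup of prime index. -/
theorem p_Clif : S_Clif := by
  classical
  intro G _ _ D q hq hD ρ hρ l hl hlq g hg
  have hq0 : (q : ℂ) ≠ 0 := by exact_mod_cast hq.ne_zero
  -- powers of `T`
  have hinv : ∀ x : G, ρ x * ρ x⁻¹ = 1 := fun x => by rw [← map_mul, mul_inv_cancel, map_one]
  have hinv' : ∀ x : G, ρ x⁻¹ * ρ x = 1 := fun x => by rw [← map_mul, inv_mul_cancel, map_one]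
  have hpow : ∀ (i : ℕ) (x : G), (ρ g) ^ i * ρ x =
      ((l x : ℂˣ) : ℂ) ^ i • (ρ x * (ρ g) ^ i) := by
    intro i x
    induction i with
    | zero => simp
    | succ i ih =>
      rw [pow_succ' (ρ g) i, mul_assoc, ih, Matrix.mul_smul, ← mul_assoc, hg x,
        Matrix.smul_mul, smul_smul, mul_assoc, pow_succ]
  have hlx : ∀ x : G, ((l x : ℂˣ) : ℂ) ^ q = 1 := by
    intro x
    have := DFunLike.congr_fun hlq x
    simp only [MonoidHom.pow_apply, MonoidHom.one_apply] at this
    rw [← Units.val_pow_eq_pow_val, this, Units.val_one]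
  obtain ⟨c, hc⟩ := scalar_of_span (fun x : G => ρ x) hρ ((ρ g) ^ q) (by
    intro x
    rw [hpow, hlx, one_smul])
  have hDne : Nonempty (Fin D) := ⟨⟨0, hD⟩⟩
  have hc0 : c ≠ 0 := by
    rintro rfl
    rw [zero_smul] at hc
    have h1 : (ρ g) ^ q * (ρ g⁻¹) ^ q = 1 := by
      rw [← map_pow, ← map_pow, ← map_mul, inv_pow, mul_inv_cancel, map_one]
    rw [hc, zero_mul] at h1
    exact zero_ne_one h1
  obtain ⟨ζ, hζ⟩ := IsAlgClosed.exists_pow_nat_eq c hq.pos
  have hζ0 : ζ ≠ 0 := by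
    rintro rfl
    rw [zero_pow hq.ne_zero] at hζ
    exact hc0 hζ.symm
  -- the normalised matrix
  obtain ⟨T, hT⟩ : ∃ T : Matrix (Fin D) (Fin D) ℂ, T = ζ⁻¹ • ρ g := ⟨_, rfl⟩
  have hTq : T ^ q = 1 := by
    rw [hT, smul_pow, hc, smul_smul, inv_pow, hζ, inv_mul_cancel₀ hc0, one_smul]
  have hTx : ∀ (i : ℕ) (x : G), T ^ i * ρ x = ((l x : ℂˣ) : ℂ) ^ i • (ρ x * T ^ i) := by
    intro i x
    rw [hT, smul_pow, Matrix.smul_mul, hpow, Matrix.mul_smul, smul_comm]
  obtain ⟨e, he⟩ : ∃ e : Matrix (Fin D) (Fin D) ℂ,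
    e = (q : ℂ)⁻¹ • ∑ i ∈ Finset.range q, T ^ i := ⟨_, rfl⟩
  have hTS : T * ∑ i ∈ Finset.range q, T ^ i = ∑ i ∈ Finset.range q, T ^ i := by
    have h1 : T * ∑ i ∈ Finset.range q, T ^ i = ∑ i ∈ Finset.range q, T ^ (i + 1) := by
      rw [Finset.mul_sum]
      exact Finset.sum_congr rfl fun i _ => (pow_succ' T i).symm
    have h2 := Finset.sum_range_succ (fun i => T ^ i) q
    have h3 := Finset.sum_range_succ' (fun i => T ^ i) q
    rw [h1]
    rw [h2, hTq, pow_zero] at h3
    exact (add_right_cancel h3).symm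
  have hTe : T * e = e := by rw [he, Matrix.mul_smul, hTS]
  have heT : e * T = e := by
    have h1 : e * T = T * e := by
      rw [he, Matrix.mul_smul, Matrix.smul_mul, Finset.mul_sum, Finset.sum_mul]
      congr 1
      exact Finset.sum_congr rfl fun i _ => (pow_succ T i).symm.trans (pow_succ' T i)
    rw [h1, hTe]
  have hTie : ∀ i, T ^ i * e = e := by
    intro i
    induction i with
    | zero => simp
    | succ i ih => rw [pow_succ, mul_assoc, hTe, ih]
  have hee : e * e = e := by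
    nth_rewrite 1 [he]
    rw [Matrix.smul_mul, Finset.sum_mul, Finset.sum_congr rfl fun i _ => hTie i, Finset.sum_const,
      Finset.card_range, ← Nat.cast_smul_eq_nsmul ℂ, smul_smul, inv_mul_cancel₀ hq0, one_smul]
  -- the trace of `e`
  have htr : e.trace = (q : ℂ)⁻¹ * (D : ℂ) := by
    rw [he, Matrix.trace_smul, Matrix.trace_sum, smul_eq_mul]
    congr 1
    rw [Finset.sum_eq_single 0]
    · simp
    · intro i hi hi0
      obtain ⟨⟨x, hx⟩, -⟩ := sum_pow_eq_zero l hq hl hlq (Nat.pos_of_ne_zero hi0)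
        (Finset.mem_range.1 hi)
      have h1 : (T ^ i).trace = ((l x : ℂˣ) : ℂ) ^ i * (T ^ i).trace := by
        calc (T ^ i).trace = (T ^ i * ρ x * ρ x⁻¹).trace := by rw [mul_assoc, hinv, mul_one]
          _ = ((l x : ℂˣ) : ℂ) ^ i * (ρ x * T ^ i * ρ x⁻¹).trace := by
            rw [hTx, Matrix.smul_mul, Matrix.trace_smul, smul_eq_mul]
          _ = ((l x : ℂˣ) : ℂ) ^ i * (T ^ i).trace := by
            rw [Matrix.trace_mul_comm, ← mul_assoc, hinv', one_mul]
      have h2 : (((l x : ℂˣ) : ℂ) ^ i - 1) * (T ^ i).trace = 0 := by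
        rw [sub_mul, one_mul, ← h1, sub_self]
      rcases mul_eq_zero.1 h2 with h3 | h3
      · exact absurd (sub_eq_zero.1 h3) hx
      · exact h3
    · intro h
      exact absurd (Finset.mem_range.2 hq.pos) h
  -- the kernel
  have hcomm : ∀ x : G, x ∈ l.ker → e * ρ x = ρ x * e := by
    intro x hx
    rw [MonoidHom.mem_ker] at hx
    rw [he, Matrix.smul_mul, Matrix.mul_smul, Finset.sum_mul, Finset.mul_sum]
    congr 1
    refine Finset.sum_congr rfl fun i _ => ?_
    rw [hTx, hx]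
    simp
  have hzero : ∀ x : G, x ∉ l.ker → e * ρ x * e = 0 := by
    intro x hx
    have hx1 : ((l x : ℂˣ) : ℂ) ≠ 1 := fun h => hx (MonoidHom.mem_ker.2 (Units.ext h))
    have h1 : e * ρ x * e = ((l x : ℂˣ) : ℂ) • (e * ρ x * e) := by
      calc e * ρ x * e = e * T * ρ x * e := by rw [heT]
        _ = e * (T ^ 1 * ρ x) * e := by rw [pow_one, mul_assoc e T]
        _ = ((l x : ℂˣ) : ℂ) • (e * ρ x * (T * e)) := by
          rw [hTx, pow_one, pow_one, Matrix.mul_smul, Matrix.smul_mul]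
          simp only [mul_assoc]
        _ = _ := by rw [hTe]
    have h2 : (1 - ((l x : ℂˣ) : ℂ)) • (e * ρ x * e) = 0 := by
      rw [sub_smul, one_smul, ← h1, sub_self]
    rcases smul_eq_zero.1 h2 with h3 | h3
    · exact absurd (sub_eq_zero.1 h3).symm hx1
    · exact h3
  -- the sum over the group
  have hsum : ∑ y : G, ρ y⁻¹ * e * ρ y = (Nat.card l.ker : ℂ) • (1 : Matrix (Fin D) (Fin D) ℂ) := by
    have h1 : ∀ y : G, ρ y⁻¹ * e * ρ y =
        (q : ℂ)⁻¹ • ∑ i ∈ Finset.range q, ((l y : ℂˣ) : ℂ) ^ i • T ^ i := by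
      intro y
      rw [he, Matrix.mul_smul, Matrix.smul_mul, Finset.mul_sum, Finset.sum_mul]
      congr 1
      refine Finset.sum_congr rfl fun i _ => ?_
      rw [mul_assoc, hTx, Matrix.mul_smul, ← mul_assoc, hinv', one_mul]
    rw [Finset.sum_congr rfl fun y _ => h1 y, ← Finset.smul_sum, Finset.sum_comm,
      Finset.sum_congr rfl fun i _ => (Finset.sum_smul).symm, Finset.sum_eq_single 0]
    · rw [card_ker l hq hl hlq]
      simp [smul_smul]
    · intro i hi hi0
      rw [(sum_pow_eq_zero l hq hl hlq (Nat.pos_of_ne_zero hi0) (Finset.mem_range.1 hi)).2,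
        zero_smul]
    · intro h
      exact absurd (Finset.mem_range.2 hq.pos) h
  -- factorisation
  obtain ⟨d, A, B, hAB, hBA⟩ := factor e hee
  have hdtr : (d : ℂ) = (q : ℂ)⁻¹ * (D : ℂ) := by
    rw [← htr, ← hAB, Matrix.trace_mul_comm, hBA]
    simp
  have hqd : q * d = D := by
    have h1 : (q : ℂ) * (d : ℂ) = (D : ℂ) := by rw [hdtr, ← mul_assoc, mul_inv_cancel₀ hq0, one_mul]
    exact_mod_cast h1
  have hd : d = D / q := by rw [← hqd, Nat.mul_div_cancel_left d hq.pos]
  refine ⟨⟨d, hqd.symm⟩, ?_⟩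
  rw [← hd]
  have hBe : B * e = B := by rw [← hAB, ← Matrix.mul_assoc, hBA, Matrix.one_mul]
  have heA : e * A = A := by rw [← hAB, Matrix.mul_assoc, hBA, Matrix.mul_one]
  let ρ' : l.ker →* Matrix (Fin d) (Fin d) ℂ :=
    { toFun := fun x => B * ρ x * A
      map_one' := by
        simp [hBA]
      map_mul' := by
        intro x y
        have h1 : B * ρ x * A * (B * ρ y * A) = B * (ρ x * e) * ρ y * A := by
          rw [← hAB]
          simp only [Matrix.mul_assoc]
        rw [h1, ← hcomm x x.2]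
        have h2 : B * (e * ρ x) * ρ y * A = (B * e) * ρ x * ρ y * A := by
          simp only [Matrix.mul_assoc]
        rw [h2, hBe]
        rw [Subgroup.coe_mul, map_mul]
        simp only [Matrix.mul_assoc] }
  have hρ' : ∀ x : l.ker, ρ' x = B * ρ x * A := fun x => rfl
  refine ⟨ρ', ?_, ?_⟩
  · -- irreducibility
    unfold IsIrr at hρ ⊢
    rw [eq_top_iff]
    intro N _
    let Φ : Matrix (Fin D) (Fin D) ℂ →ₗ[ℂ] Matrix (Fin d) (Fin d) ℂ :=
      { toFun := fun X => B * X * A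
        map_add' := by intro X Y; rw [Matrix.mul_add, Matrix.add_mul]
        map_smul' := by
          intro a X
          rw [Matrix.mul_smul, Matrix.smul_mul]
          rfl }
    have h1 : N = Φ (A * N * B) := by
      change N = B * (A * N * B) * A
      calc N = (B * A) * N * (B * A) := by rw [hBA]; simp
        _ = _ := by simp only [Matrix.mul_assoc]
    rw [h1]
    have h2 : A * N * B ∈ Submodule.span ℂ (Set.range ρ) := by rw [hρ]; exact Submodule.mem_top
    have h3 : Φ (A * N * B) ∈ (Submodule.span ℂ (Set.range ρ)).map Φ :=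
      Submodule.mem_map_of_mem h2
    rw [Submodule.map_span] at h3
    refine Submodule.span_le.2 ?_ h3
    rintro _ ⟨_, ⟨x, rfl⟩, rfl⟩
    by_cases hx : x ∈ l.ker
    · exact Submodule.subset_span ⟨⟨x, hx⟩, rfl⟩
    · have h4 : Φ (ρ x) = 0 := by
        change B * ρ x * A = 0
        calc B * ρ x * A = (B * e) * ρ x * (e * A) := by rw [hBe, heA]
          _ = B * (e * ρ x * e) * A := by simp only [Matrix.mul_assoc]
          _ = 0 := by rw [hzero x hx]; simp
      rw [h4]
      exact Submodule.zero_mem _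
  · intro x
    have hconj : ∀ y : G, l (y * x * y⁻¹) = l x := by
      intro y
      rw [map_mul, map_mul, map_inv, mul_comm (l y), mul_assoc, mul_inv_cancel, mul_one]
    by_cases hx : x ∈ l.ker
    · have hmem : ∀ y : G, y * x * y⁻¹ ∈ l.ker := fun y => by
        rw [MonoidHom.mem_ker, hconj]; exact hx
      have h1 : ∀ y : G, (if h : y * x * y⁻¹ ∈ l.ker then (ρ' ⟨y * x * y⁻¹, h⟩).trace else 0) =
          (ρ x * (ρ y⁻¹ * e * ρ y)).trace := by
        intro y
        rw [dif_pos (hmem y), hρ']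
        change (B * ρ (y * x * y⁻¹) * A).trace = _
        rw [Matrix.mul_assoc, Matrix.trace_mul_comm, Matrix.mul_assoc, hAB, map_mul, map_mul]
        calc (ρ y * ρ x * ρ y⁻¹ * e).trace = (ρ y * (ρ x * ρ y⁻¹ * e)).trace := by
              simp only [mul_assoc]
          _ = (ρ x * ρ y⁻¹ * e * ρ y).trace := Matrix.trace_mul_comm _ _
          _ = _ := by simp only [mul_assoc]
      rw [Finset.sum_congr rfl fun y _ => h1 y, ← Matrix.trace_sum, ← Finset.mul_sum, hsum,
        Matrix.mul_smul, mul_one, Matrix.trace_smul, smul_eq_mul]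
    · have hmem : ∀ y : G, y * x * y⁻¹ ∉ l.ker := fun y => by
        rw [MonoidHom.mem_ker, hconj]; exact hx
      have h1 : ∀ y : G, (if h : y * x * y⁻¹ ∈ l.ker then (ρ' ⟨y * x * y⁻¹, h⟩).trace else 0) =
          0 := fun y => dif_neg (hmem y)
      rw [Finset.sum_congr rfl fun y _ => h1 y, Finset.sum_const_zero]
      have hx1 : ((l x : ℂˣ) : ℂ) ≠ 1 := fun h => hx (MonoidHom.mem_ker.2 (Units.ext h))
      have h2 : (ρ x).trace = ((l x : ℂˣ) : ℂ) * (ρ x).trace := by
        calc (ρ x).trace = (ρ g⁻¹ * (ρ g * ρ x)).trace := by rw [← mul_assoc, hinv', one_mul]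
          _ = (ρ g * ρ x * ρ g⁻¹).trace := Matrix.trace_mul_comm _ _
          _ = ((l x : ℂˣ) : ℂ) * (ρ x * ρ g * ρ g⁻¹).trace := by
            rw [hg, Matrix.smul_mul, Matrix.trace_smul, smul_eq_mul]
          _ = _ := by rw [mul_assoc, hinv, mul_one]
      have h3 : (((l x : ℂˣ) : ℂ) - 1) * (ρ x).trace = 0 := by
        rw [sub_mul, one_mul, ← h2, sub_self]
      rcases mul_eq_zero.1 h3 with h4 | h4
      · exact absurd (sub_eq_zero.1 h4) hx1
      · rw [h4, mul_zero]

end NilCut
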