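import Pool.Agent.Lib.MP_4ddf81_pr.Stm

/-!
# MP_4ddf81_pr, piece Clif2: restriction to the kernel of a twist is injective on characters
-/

set_option autoImplicit false

namespace NilCut

namespace Clif2

lemma index_eq {G : Type} [Group G] [Finite G] {q : ℕ} (hq : q.Prime) (l : G →* ℂˣ)
    (hl : l ≠ 1) (hlq : l ^ q = 1) : l.ker.index = q := by
  have : NeZero q := ⟨hq.ne_zero⟩
  rw [Subgroup.index_ker]
  have hle : l.range ≤ rootsOfUnity q ℂ := by
    rintro _ ⟨x, rfl⟩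
    rw [mem_rootsOfUnity]
    have := DFunLike.congr_fun hlq x
    simpa using this
  have hdvd : Nat.card l.range ∣ q := by
    have h1 := Subgroup.card_dvd_of_le hle
    rwa [Complex.card_rootsOfUnity] at h1
  rcases (Nat.dvd_prime hq).1 hdvd with h | h
  · exfalso
    apply hl
    have h2 : l.range = ⊥ := Subgroup.card_eq_one.1 h
    exact MonoidHom.range_eq_bot_iff.1 h2
  · exact h

end Clif2

theorem p_Clif2 (hC : S_Clif) : S_Clif2 := by
  classical
  intro G _ _ D q hq hD l hl hlq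
  have : Fintype G := Fintype.ofFinite G
  refine ⟨Clif2.index_eq hq l hl hlq, ?_⟩
  intro F hF hT
  have key : ∀ χ ∈ F, q ∣ D ∧ ∃ χ' : l.ker → ℂ, IsIrrChar l.ker (D / q) χ' ∧
      ∀ x : G, (Nat.card l.ker : ℂ) * χ x =
        ∑ y : G, (if h : y * x * y⁻¹ ∈ l.ker then χ' ⟨y * x * y⁻¹, h⟩ else 0) := by
    intro χ hχ
    obtain ⟨ρ, h1, h2, g, h3⟩ := hT χ hχ
    obtain ⟨h4, ρ', h5, h6⟩ := hC G D q hq hD ρ h1 l hl hlq g h3
    refine ⟨h4, fun x => (ρ' x).trace, ⟨ρ', h5, fun _ => rfl⟩, ?_⟩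
    intro x
    rw [h2 x]
    exact h6 x
  obtain ⟨χ₀, hχ₀⟩ := hF
  refine ⟨(key χ₀ hχ₀).1, ?_⟩
  choose f hf using fun χ : {χ // χ ∈ F} => (key χ.1 χ.2).2
  have hinj : Function.Injective f := by
    intro χ₁ χ₂ h
    apply Subtype.ext
    funext x
    have h1 := (hf χ₁).2 x
    have h2 := (hf χ₂).2 x
    rw [← h] at h2
    have hc : (Nat.card l.ker : ℂ) ≠ 0 := by
      exact_mod_cast Nat.card_pos.ne'
    exact mul_left_cancel₀ hc (h1.trans h2.symm)
  refine ⟨Finset.univ.image f, ?_, ?_⟩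
  · rw [Finset.card_image_of_injective _ hinj]
    simp
  · intro χ hχ
    obtain ⟨χ₁, _, rfl⟩ := Finset.mem_image.1 hχ
    exact (hf χ₁).1

end NilCut
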