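import Pool.Agent.Lib.MP_4ddf81_pr.Stm

/-!
# MP_4ddf81_pr : piece Dual1
-/

namespace NilCut

/-- Characters of the Abelianization as characters of the group. -/
def Dual1.c (G : Type) [Group G] : (Abelianization G →* ℂˣ) →* (G →* ℂˣ) :=
  MonoidHom.compHom' (Abelianization.of : G →* Abelianization G)

theorem Dual1.c_apply (G : Type) [Group G] (φ : Abelianization G →* ℂˣ) (x : G) :
    Dual1.c G φ x = φ (Abelianization.of x) := rfl

theorem Dual1.of_surj (G : Type) [Group G] :
    Function.Surjective (Abelianization.of : G →* Abelianization G) :=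
  QuotientGroup.mk'_surjective _

theorem Dual1.c_bij (G : Type) [Group G] : Function.Bijective (Dual1.c G) := by
  constructor
  · intro φ ψ h
    ext x
    have := DFunLike.congr_fun h x
    exact congrArg Units.val this
  · intro l
    refine ⟨Abelianization.lift l, ?_⟩
    ext x
    rw [Dual1.c_apply, Abelianization.lift_apply_of]

theorem p_Dual1 : S_Dual1 := by
  intro G _ _ Y
  have hfin : Finite (Abelianization G →* ℂˣ) := by
    apply Nat.finite_of_card_ne_zero
    rw [CommGroup.card_monoidHom_of_hasEnoughRootsOfUnity]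
    exact Nat.card_pos.ne'
  have hfinG : Finite (G →* ℂˣ) := Finite.of_surjective _ (Dual1.c_bij G).2
  let Y' : Subgroup (Abelianization G →* ℂˣ) := Y.comap (Dual1.c G)
  let B : Subgroup (Abelianization G) :=
    (CommGroup.subgroupOrderIsoSubgroupMonoidHom (Abelianization G) ℂ).symm (OrderDual.toDual Y')
  have hB : ∀ g, g ∈ B ↔ ∀ φ ∈ Y', φ g = 1 := fun g =>
    CommGroup.mem_subgroupOrderIsoSubgroupMonoidHom_symm_iff ℂ Y' g
  have hann : ann (Y : Set (G →* ℂˣ)) = B.comap Abelianization.of := by
    ext x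
    simp only [ann, Subgroup.mem_iInf, Subgroup.mem_comap, hB, MonoidHom.mem_ker]
    constructor
    · intro h φ hφ
      exact h (Dual1.c G φ) hφ
    · intro h l hl
      obtain ⟨φ, rfl⟩ := (Dual1.c_bij G).2 l
      exact h φ hl
  have hiso : CommGroup.subgroupOrderIsoSubgroupMonoidHom (Abelianization G) ℂ B =
      OrderDual.toDual Y' :=
    (CommGroup.subgroupOrderIsoSubgroupMonoidHom (Abelianization G) ℂ).apply_symm_apply _
  have hcard : Nat.card Y' = Nat.card Y := by
    apply Nat.card_congr
    refine Equiv.ofBijective (fun y : Y' => (⟨Dual1.c G y, y.2⟩ : Y)) ⟨?_, ?_⟩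
    · intro a b h
      exact Subtype.ext ((Dual1.c_bij G).1 (congrArg Subtype.val h))
    · rintro ⟨l, hl⟩
      obtain ⟨φ, rfl⟩ := (Dual1.c_bij G).2 l
      exact ⟨⟨φ, hl⟩, rfl⟩
  refine ⟨inferInstance, ?_, ?_⟩
  · rw [hann, Subgroup.index_comap_of_surjective _ (Dual1.of_surj G), ← hcard]
    have h1 := CommGroup.card_subgroupOrderIsoSubgroupMonoidHom ℂ B
    rw [hiso] at h1
    exact h1.symm
  · intro l hl
    obtain ⟨φ, rfl⟩ := (Dual1.c_bij G).2 l
    have h1 : φ ∈ (CommGroup.subgroupOrderIsoSubgroupMonoidHom (Abelianization G) ℂ B).ofDual := by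
      rw [CommGroup.mem_subgroupOrderIsoSubgroupMonoidHom_iff]
      intro g hg
      obtain ⟨x, rfl⟩ := Dual1.of_surj G g
      exact hl x (by rw [hann]; exact hg)
    rw [hiso] at h1
    exact h1

end NilCut
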