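import Pool.Agent.Lib.MP_4ddf81_pr.Stm

/-!
# MP_4ddf81_pr: duality for the quotient by a subgroup that contains the commutator subgroup
-/

namespace NilCut

open scoped commutatorElement

namespace Dual2

theorem normal {G : Type} [Group G] {A : Subgroup G} (h : commutator G ≤ A) : A.Normal := by
  refine ⟨fun a ha g => ?_⟩
  have h1 : ⁅g, a⁆ ∈ A := h (Subgroup.commutator_mem_commutator (Subgroup.mem_top g)
    (Subgroup.mem_top a))
  have h2 : g * a * g⁻¹ = ⁅g, a⁆ * a := by
    rw [commutatorElement_def]
    group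
  rw [h2]
  exact A.mul_mem h1 ha

/-- the commutative quotient -/
abbrev quoComm {G : Type} [Group G] (A : Subgroup G) [A.Normal] (h : commutator G ≤ A) :
    CommGroup (G ⧸ A) :=
  { (inferInstance : Group (G ⧸ A)) with
    mul_comm := by
      intro x y
      induction x using QuotientGroup.induction_on with
      | H x =>
        induction y using QuotientGroup.induction_on with
        | H y =>
          rw [← QuotientGroup.mk_mul, ← QuotientGroup.mk_mul, QuotientGroup.eq]
          have h1 : ⁅y⁻¹, x⁻¹⁆ ∈ A := h (Subgroup.commutator_mem_commutator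
            (Subgroup.mem_top _) (Subgroup.mem_top _))
          have h2 : (x * y)⁻¹ * (y * x) = ⁅y⁻¹, x⁻¹⁆ := by
            rw [commutatorElement_def]
            group
          rw [h2]
          exact h1 }

/-- characters of the quotient -/
noncomputable def equiv {G : Type} [Group G] (A : Subgroup G) [A.Normal] :
    (G ⧸ A →* ℂˣ) ≃ {l : G →* ℂˣ // ∀ a ∈ A, l a = 1} where
  toFun φ := ⟨φ.comp (QuotientGroup.mk' A), fun a ha => by
    rw [MonoidHom.comp_apply, (QuotientGroup.eq_one_iff a).mpr ha |> fun h => (h : QuotientGroup.mk' A a = 1),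
      map_one]⟩
  invFun l := QuotientGroup.lift A l.1 l.2
  left_inv φ := by
    apply MonoidHom.ext
    intro x
    induction x using QuotientGroup.induction_on with
    | H x => rfl
  right_inv l := by
    apply Subtype.ext
    apply MonoidHom.ext
    intro x
    rfl

end Dual2

theorem p_Dual2 : S_Dual2 := by
  intro G _ _ A hA
  have := Dual2.normal hA
  let : CommGroup (G ⧸ A) := Dual2.quoComm A hA
  have : Finite (G ⧸ A) := inferInstance
  have : NeZero (Monoid.exponent (G ⧸ A)) := ⟨Monoid.exponent_ne_zero_of_finite⟩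
  have : HasEnoughRootsOfUnity ℂ (Monoid.exponent (G ⧸ A)) := inferInstance
  refine ⟨fun x hx => ?_, ?_⟩
  · have h1 : (x : G ⧸ A) ≠ 1 := fun h => hx ((QuotientGroup.eq_one_iff x).mp h)
    obtain ⟨φ, hφ⟩ := CommGroup.exists_apply_ne_one_of_hasEnoughRootsOfUnity (G ⧸ A) ℂ h1
    exact ⟨(Dual2.equiv A φ).1, (Dual2.equiv A φ).2, hφ⟩
  · rw [← Nat.card_congr (Dual2.equiv A)]
    exact CommGroup.card_monoidHom_of_hasEnoughRootsOfUnity (G ⧸ A) ℂ

end NilCut
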