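import Pool.Agent.Lib.MP_4ddf81_pr.Stm

/-! # Existence of a small admissible time -/

namespace NilCut

theorem p_Exist : S_Exist := by
  intro G _ _ k hL hx
  set L : ℝ := Real.log (Nat.card G) with hLdef
  set x : ℝ := (k : ℝ) / L with hxdef
  have hLpos : 0 < L := by linarith
  have hxpos : 0 < x := lt_of_lt_of_le (Real.exp_pos 2) hx
  have hlogx : 2 ≤ Real.log x := by
    rw [Real.le_log_iff_exp_le hxpos]; exact hx
  have hlogpos : 0 < Real.log x := by linarith
  have hkx : (k : ℝ) = x * L := by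
    rw [hxdef]; field_simp
  have hcard : 0 < (Nat.card G : ℝ) := by
    have : 0 < Nat.card G := Nat.card_pos
    exact_mod_cast this
  have hexpL : Real.exp L = Nat.card G := Real.exp_log hcard
  set n : ℕ := ⌈L / Real.log x⌉₊ with hn
  have hLx : 0 < L / Real.log x := div_pos hLpos hlogpos
  have hn1 : 1 ≤ n := Nat.one_le_iff_ne_zero.2 (Nat.ceil_pos.2 hLx).ne'
  have hnR : L / Real.log x ≤ (n : ℝ) := Nat.le_ceil _
  have hnL : (n : ℝ) ≤ L := by
    have h1 : (n : ℝ) < L / Real.log x + 1 := Nat.ceil_lt_add_one hLx.le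
    have h2 : L / Real.log x ≤ L / 2 := div_le_div_of_nonneg_left hLpos.le (by norm_num) hlogx
    linarith
  have hLn : L ≤ (n : ℝ) * Real.log x := by
    rw [div_le_iff₀ hlogpos] at hnR; exact hnR
  -- `|G| ≤ x ^ n`
  have hGx : (Nat.card G : ℝ) ≤ x ^ n := by
    rw [← hexpL]
    have : x ^ n = Real.exp ((n : ℝ) * Real.log x) := by
      rw [← Real.log_pow, Real.exp_log (pow_pos hxpos n)]
    rw [this]
    exact Real.exp_le_exp.2 hLn
  have hxk : x ≤ (k : ℝ) := by
    rw [hkx]
    nlinarith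
  have hkpos : 0 < (k : ℝ) := lt_of_lt_of_le hxpos hxk
  have hkey : (Nat.card G : ℝ) * (n : ℝ) ^ n ≤ (k : ℝ) ^ n := by
    calc (Nat.card G : ℝ) * (n : ℝ) ^ n ≤ x ^ n * L ^ n := by
          apply mul_le_mul hGx _ (by positivity) (by positivity)
          exact pow_le_pow_left₀ (by positivity) hnL n
      _ = (k : ℝ) ^ n := by rw [← mul_pow, ← hkx]
  refine ⟨hn1, ?_, ?_⟩
  · have : (Nat.card G : ℝ) ≤ (k : ℝ) ^ n :=
      hGx.trans (pow_le_pow_left₀ hxpos.le hxk n)
    exact_mod_cast this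
  · intro H
    have h1 : Nat.card (Abelianization H) ≤ Nat.card G := by
      have ha : Nat.card (Abelianization H) ≤ Nat.card H :=
        Nat.card_le_card_of_surjective _ (QuotientGroup.mk'_surjective (commutator H))
      exact ha.trans (Nat.le_of_dvd Nat.card_pos (Subgroup.card_subgroup_dvd_card H))
    have hi : 1 ≤ H.index := Nat.one_le_iff_ne_zero.2 H.index_ne_zero_of_finite
    have hkey' : Nat.card G * n ^ n ≤ k ^ n := by exact_mod_cast hkey
    calc Nat.card (Abelianization H) * n ^ n ≤ Nat.card G * n ^ n :=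
          Nat.mul_le_mul_right _ h1
      _ ≤ k ^ n := hkey'
      _ ≤ (k * H.index) ^ n := Nat.pow_le_pow_left (Nat.le_mul_of_pos_right _ hi) n

end NilCut
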