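import Pool.Agent.Lib.MP_4ddf81_pr.Stm

/-!
# MP_4ddf81_pr: entries of an alternating product of matrices
-/

namespace NilCut

namespace Expand

theorem sum_cons {d m : ℕ} (F : (Fin (m + 1) → Fin d) → ℂ) :
    ∑ a, F a = ∑ a0 : Fin d, ∑ a' : Fin m → Fin d, F (Fin.cons a0 a') := by
  rw [← (Fin.consEquiv (fun _ : Fin (m + 1) => Fin d)).sum_comp, Fintype.sum_prod_type]
  rfl

/-- the summand -/
noncomputable def T {d m : ℕ} (C : Fin (m + 1) → Matrix (Fin d) (Fin d) ℂ)
    (X : Fin m → Matrix (Fin d) (Fin d) ℂ) (a b : Fin (m + 1) → Fin d) : ℂ :=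
  (∏ i, C i (a i) (b i)) * ∏ l : Fin m, X l (b l.castSucc) (a l.succ)

theorem T_cons {d m : ℕ} (C : Fin (m + 2) → Matrix (Fin d) (Fin d) ℂ)
    (X : Fin (m + 1) → Matrix (Fin d) (Fin d) ℂ) (a0 b0 : Fin d) (a b : Fin (m + 1) → Fin d) :
    T C X (Fin.cons a0 a) (Fin.cons b0 b) =
      C 0 a0 b0 * (X 0 b0 (a 0) * T (fun i => C i.succ) (fun l => X l.succ) a b) := by
  unfold T
  have h1 : ∏ i, C i ((Fin.cons a0 a : Fin (m + 2) → Fin d) i)
      ((Fin.cons b0 b : Fin (m + 2) → Fin d) i) = C 0 a0 b0 * ∏ i, C i.succ (a i) (b i) := by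
    rw [Fin.prod_univ_succ]
    simp only [Fin.cons_zero, Fin.cons_succ]
  have h2 : ∏ l : Fin (m + 1), X l ((Fin.cons b0 b : Fin (m + 2) → Fin d) l.castSucc)
      ((Fin.cons a0 a : Fin (m + 2) → Fin d) l.succ) =
      X 0 b0 (a 0) * ∏ l : Fin m, X l.succ (b l.castSucc) (a l.succ) := by
    rw [Fin.prod_univ_succ]
    simp only [Fin.cons_zero, Fin.cons_succ, Fin.castSucc_zero, ← Fin.succ_castSucc]
  rw [h1, h2]
  ring

theorem main (d : ℕ) : ∀ (m : ℕ) (C : Fin (m + 1) → Matrix (Fin d) (Fin d) ℂ)
    (X : Fin m → Matrix (Fin d) (Fin d) ℂ) (x y : Fin d),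
    (C 0 * (List.ofFn fun l : Fin m => X l * C l.succ).prod) x y =
      ∑ a : Fin (m + 1) → Fin d, ∑ b : Fin (m + 1) → Fin d,
        if a 0 = x ∧ b (Fin.last m) = y then T C X a b else 0 := by
  intro m
  induction m with
  | zero =>
    intro C X x y
    simp only [List.ofFn_zero, List.prod_nil, mul_one]
    rw [sum_cons, Finset.sum_eq_single x, Fintype.sum_unique, sum_cons, Finset.sum_eq_single y,
      Fintype.sum_unique]
    · rw [if_pos]
      · unfold T
        simp
      · exact ⟨rfl, rfl⟩
    · intro b _ hb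
      rw [Fintype.sum_unique, if_neg]
      rintro ⟨-, h⟩
      exact hb h
    · intro h
      exact absurd (Finset.mem_univ y) h
    · intro a _ ha
      rw [Fintype.sum_unique]
      refine Finset.sum_eq_zero fun b _ => if_neg ?_
      rintro ⟨h, -⟩
      exact ha h
    · intro h
      exact absurd (Finset.mem_univ x) h
  | succ m ih =>
    intro C X x y
    rw [List.ofFn_succ, List.prod_cons, mul_assoc, Matrix.mul_apply]
    have h1 : ∀ u, (X 0 * (C (Fin.succ 0) *
        (List.ofFn fun l : Fin m => X l.succ * C l.succ.succ).prod)) u y =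
        ∑ v, X 0 u v * ∑ a : Fin (m + 1) → Fin d, ∑ b : Fin (m + 1) → Fin d,
          if a 0 = v ∧ b (Fin.last m) = y then T (fun i => C i.succ) (fun l => X l.succ) a b
          else 0 := by
      intro u
      rw [Matrix.mul_apply]
      exact Finset.sum_congr rfl fun v _ => by
        rw [← ih (fun i => C i.succ) (fun l => X l.succ) v y]
    rw [Finset.sum_congr rfl fun u _ => by rw [h1 u]]
    have hR := sum_cons (fun a : Fin (m + 2) → Fin d => ∑ b : Fin (m + 2) → Fin d,
        if a 0 = x ∧ b (Fin.last (m + 1)) = y then T C X a b else 0)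
    rw [Finset.sum_eq_single x] at hR
    · rw [hR]
      -- the right hand side
      have h2 : ∀ a' : Fin (m + 1) → Fin d, ∀ b0 : Fin d, ∀ b' : Fin (m + 1) → Fin d,
          (if (Fin.cons x a' : Fin (m + 2) → Fin d) 0 = x ∧
            (Fin.cons b0 b' : Fin (m + 2) → Fin d) (Fin.last (m + 1)) = y then
            T C X (Fin.cons x a') (Fin.cons b0 b') else 0) =
          C 0 x b0 * (X 0 b0 (a' 0) * if b' (Fin.last m) = y then
            T (fun i => C i.succ) (fun l => X l.succ) a' b' else 0) := by
        intro a' b0 b'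
        rw [← Fin.succ_last, Fin.cons_succ, Fin.cons_zero, T_cons]
        by_cases hb : b' (Fin.last m) = y
        · rw [if_pos ⟨rfl, hb⟩, if_pos hb]
        · rw [if_neg (fun h => hb h.2), if_neg hb]
          ring
      have h3 : ∀ a' : Fin (m + 1) → Fin d, (∑ b : Fin (m + 2) → Fin d,
          if (Fin.cons x a' : Fin (m + 2) → Fin d) 0 = x ∧ b (Fin.last (m + 1)) = y then
            T C X (Fin.cons x a') b else 0) =
          ∑ b0, ∑ b' : Fin (m + 1) → Fin d, C 0 x b0 * (X 0 b0 (a' 0) *
            if b' (Fin.last m) = y then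
              T (fun i => C i.succ) (fun l => X l.succ) a' b' else 0) := by
        intro a'
        rw [sum_cons]
        exact Finset.sum_congr rfl fun b0 _ => Finset.sum_congr rfl fun b' _ => h2 a' b0 b'
      rw [Finset.sum_congr rfl fun a' _ => h3 a', Finset.sum_comm]
      refine Finset.sum_congr rfl fun u _ => ?_
      simp only [← Finset.mul_sum]
      congr 1
      -- collect the value of `a' 0`
      have h4 : ∀ v, X 0 u v * ∑ a : Fin (m + 1) → Fin d, ∑ b : Fin (m + 1) → Fin d,
          (if a 0 = v ∧ b (Fin.last m) = y then T (fun i => C i.succ) (fun l => X l.succ) a b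
          else 0) = ∑ a : Fin (m + 1) → Fin d, if a 0 = v then
            X 0 u (a 0) * ∑ b : Fin (m + 1) → Fin d, (if b (Fin.last m) = y then
              T (fun i => C i.succ) (fun l => X l.succ) a b else 0) else 0 := by
        intro v
        rw [Finset.mul_sum]
        refine Finset.sum_congr rfl fun a _ => ?_
        by_cases ha : a 0 = v
        · rw [if_pos ha, ha]
          congr 1
          refine Finset.sum_congr rfl fun b _ => ?_
          by_cases hb : b (Fin.last m) = y
          · rw [if_pos ⟨rfl, hb⟩, if_pos hb]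
          · rw [if_neg (fun h => hb h.2), if_neg hb]
        · rw [if_neg ha]
          rw [Finset.sum_eq_zero fun b _ => if_neg (fun h => ha h.1), mul_zero]
      rw [Finset.sum_congr rfl fun v _ => h4 v, Finset.sum_comm]
      refine Finset.sum_congr rfl fun a _ => ?_
      rw [Finset.sum_ite_eq, if_pos (Finset.mem_univ _)]
    · intro a0 _ ha0
      refine Finset.sum_eq_zero fun a' _ => Finset.sum_eq_zero fun b _ => if_neg ?_
      rintro ⟨h, -⟩
      exact ha0 h
    · intro h
      exact absurd (Finset.mem_univ x) h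

end Expand

theorem p_Expand : S_Expand := by
  intro d m C X x y
  exact Expand.main d m C X x y

end NilCut
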