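import Pool.Agent.Lib.MP_4ddf81_pr.Stm

/-!
# MP_4ddf81_pr : Burnside count of the colourings fixed by permutations
-/

namespace NilCut

namespace Fix

open Equiv.Perm

theorem fix_zero (d m : ℕ) (e : Equiv.Perm (Fin m)) :
    fixN d (decomposeFin.symm ((0 : Fin (m + 1)), e)) = d * fixN d e := by
  have E : {q : Fin (m + 1) → Fin d // ∀ a, q (decomposeFin.symm ((0 : Fin (m + 1)), e) a) = q a} ≃
      Fin d × {p : Fin m → Fin d // ∀ a, p (e a) = p a} :=
    { toFun := fun q => (q.1 0, ⟨fun x => q.1 x.succ, fun a => by
        have := q.2 a.succ
        rw [decomposeFin_symm_apply_succ, Equiv.swap_self] at this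
        simpa using this⟩)
      invFun := fun r => ⟨Fin.cons r.1 r.2.1, fun a => by
        refine Fin.cases ?_ (fun x => ?_) a
        · rw [decomposeFin_symm_apply_zero]
        · rw [decomposeFin_symm_apply_succ, Equiv.swap_self]
          simpa using r.2.2 x⟩
      left_inv := fun q => by
        ext a
        refine Fin.cases ?_ (fun x => ?_) a <;> simp
      right_inv := fun r => by
        ext <;> simp }
  unfold fixN
  rw [Nat.card_congr E, Nat.card_prod, Nat.card_eq_fintype_card (α := Fin d), Fintype.card_fin]

theorem fix_succ (d m : ℕ) (b : Fin m) (e : Equiv.Perm (Fin m)) :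
    fixN d (decomposeFin.symm (b.succ, e)) = fixN d e := by
  have E : {q : Fin (m + 1) → Fin d // ∀ a, q (decomposeFin.symm (b.succ, e) a) = q a} ≃
      {p : Fin m → Fin d // ∀ a, p (e a) = p a} :=
    { toFun := fun q => ⟨fun x => q.1 x.succ, fun a => by
        have h0 := q.2 0
        rw [decomposeFin_symm_apply_zero] at h0
        have h := q.2 a.succ
        rw [decomposeFin_symm_apply_succ] at h
        by_cases hab : e a = b
        · rw [hab, Equiv.swap_apply_right] at h
          rw [hab]
          exact h0.trans h
        · rw [Equiv.swap_apply_of_ne_of_ne (Fin.succ_ne_zero _)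
            (fun hc => hab (Fin.succ_injective _ hc))] at h
          exact h⟩
      invFun := fun r => ⟨Fin.cons (r.1 b) r.1, fun a => by
        refine Fin.cases ?_ (fun x => ?_) a
        · rw [decomposeFin_symm_apply_zero]
          simp
        · rw [decomposeFin_symm_apply_succ]
          by_cases hab : e x = b
          · rw [hab, Equiv.swap_apply_right]
            have := r.2 x
            rw [hab] at this
            simpa using this
          · rw [Equiv.swap_apply_of_ne_of_ne (Fin.succ_ne_zero _)
              (fun hc => hab (Fin.succ_injective _ hc))]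
            simpa using r.2 x⟩
      left_inv := fun q => by
        have h0 := q.2 0
        rw [decomposeFin_symm_apply_zero] at h0
        ext a
        refine Fin.cases ?_ (fun x => ?_) a
        · simp [h0]
        · simp
      right_inv := fun r => by
        ext
        simp }
  unfold fixN
  rw [Nat.card_congr E]

end Fix

/-- Burnside count. -/
theorem p_Fix : S_Fix := by
  intro m d
  induction m with
  | zero =>
    rw [Finset.range_zero, Finset.prod_empty, Fintype.sum_unique]
    unfold fixN
    rw [Nat.card_eq_one_iff_unique]
    refine ⟨⟨fun a b => ?_⟩, ⟨⟨fun x => x.elim0, fun x => x.elim0⟩⟩⟩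
    ext x
    exact x.elim0
  | succ m ih =>
    rw [Finset.prod_range_succ, ← ih,
      ← Equiv.sum_comp (Equiv.Perm.decomposeFin (n := m)).symm, Fintype.sum_prod_type,
      Fin.sum_univ_succ]
    simp only [Fix.fix_zero, Fix.fix_succ]
    rw [← Finset.mul_sum, Finset.sum_const, Finset.card_univ, Fintype.card_fin, smul_eq_mul]
    ring

end NilCut
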