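import Pool.Agent.Lib.MP_4ddf81_pr.Stm

/-!
# MP_4ddf81_pr : left normed commutators generate
-/

namespace NilCut

open scoped commutatorElement

namespace Gen

variable {G : Type} [Group G]

lemma lncE_update (h : ℕ → G) (x : G) (j i : ℕ) (hji : j < i) :
    lncE (Function.update h i x) j = lncE h j := by
  induction j with
  | zero =>
    apply Subtype.ext
    change Function.update h i x 0 = h 0
    rw [Function.update_of_ne (by omega)]
  | succ j ih =>
    change brk (lncE (Function.update h i x) j) (Function.update h i x (j + 1)) =
      brk (lncE h j) (h (j + 1))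
    rw [ih (by omega), Function.update_of_ne (by omega)]

lemma lncE_update_succ (h : ℕ → G) (x : G) (j : ℕ) :
    lncE (Function.update h (j + 1) x) (j + 1) = brk (lncE h j) x := by
  change brk (lncE (Function.update h (j + 1) x) j) (Function.update h (j + 1) x (j + 1)) = _
  rw [lncE_update h x j (j + 1) (by omega), Function.update_self]

end Gen

open Gen in
/-- Left normed commutators generate. -/
theorem p_Gen (hF : S_Form) : S_Gen := by
  intro G _ j
  induction j with
  | zero =>
    intro ξ _ hξ
    have h1 : ∃ a : lc G 0, ξ a ≠ 1 := by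
      by_contra hcon
      push Not at hcon
      exact hξ (MonoidHom.ext fun a => by rw [hcon a]; rfl)
    obtain ⟨a, ha⟩ := h1
    exact ⟨fun _ => (a : G), ha⟩
  | succ j ih =>
    intro ξ hC hξ
    by_contra hcon
    push Not at hcon
    obtain ⟨β, hβ⟩ := hF G j ξ hC
    have key : ∀ (a : lc G j) (x : G), ξ (brk a x) = 1 := by
      intro a x
      have hz : ∀ b : lc G j, ((MonoidHom.eval x).comp β) b = ξ (brk b x) := fun b => hβ b x
      rw [← hz]
      have hone : (MonoidHom.eval x).comp β = 1 := by
        by_contra hne
        have hcen : Cen ((MonoidHom.eval x).comp β) := by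
          intro g hg
          rw [hz]
          apply hC
          exact Subgroup.commutator_mem_commutator hg (Subgroup.mem_top x)
        obtain ⟨h, hh⟩ := ih _ hcen hne
        apply hh
        rw [hz, ← lncE_update_succ]
        exact hcon _
      rw [hone]
      rfl
    apply hξ
    have hle : lc G (j + 1) ≤ (ξ.ker).map (lc G (j + 1)).subtype := by
      change ⁅lc G j, (⊤ : Subgroup G)⁆ ≤ _
      rw [Subgroup.commutator_le]
      intro g hg x _
      exact ⟨brk ⟨g, hg⟩ x, MonoidHom.mem_ker.2 (key ⟨g, hg⟩ x), rfl⟩
    apply MonoidHom.ext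
    intro g
    obtain ⟨b, hb, hbg⟩ := hle g.2
    have : b = g := Subtype.ext hbg
    rw [← this]
    exact MonoidHom.mem_ker.1 hb

end NilCut
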