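import Pool.Agent.Lib.MP_4ddf81_pr.Stm

/-!
# MP_4ddf81_pr : the growth lemma
-/

namespace NilCut

namespace Grow

variable {A Y : Type} [Group A] [CommGroup Y] {ι : Type} [Fintype ι]

/-- the product of the homomorphisms of a list -/
noncomputable def pr (β : ι → (A →* Y)) (L : List ι) : A →* Y := (L.map β).prod

/-- `i` is good for the list `L` -/
def Gd (β : ι → (A →* Y)) (i : ι) (L : List ι) : Prop :=
  ∃ a, (∀ i' ∈ L, β i' a = 1) ∧ β i a ≠ 1

open Classical in
/-- lists of length `r`, every entry is good for the following ones -/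
noncomputable def T (β : ι → (A →* Y)) : ℕ → Finset (List ι)
  | 0 => {[]}
  | r + 1 => ((Finset.univ ×ˢ T β r).filter (fun p => Gd β p.1 p.2)).image
      (fun p => p.1 :: p.2)

lemma mem_T_succ (β : ι → (A →* Y)) (r : ℕ) (L : List ι) :
    L ∈ T β (r + 1) ↔ ∃ i L', L = i :: L' ∧ L' ∈ T β r ∧ Gd β i L' := by
  classical
  simp only [T, Finset.mem_image, Finset.mem_filter, Finset.mem_product, Finset.mem_univ,
    true_and, Prod.exists]
  constructor
  · rintro ⟨i, L', ⟨h1, h2⟩, rfl⟩
    exact ⟨i, L', rfl, h1, h2⟩
  · rintro ⟨i, L', rfl, h1, h2⟩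
    exact ⟨i, L', ⟨h1, h2⟩, rfl⟩

lemma len_T (β : ι → (A →* Y)) : ∀ (r : ℕ) (L : List ι), L ∈ T β r → L.length = r := by
  intro r
  induction r with
  | zero => intro L hL; simp only [T, Finset.mem_singleton] at hL; simp [hL]
  | succ r ih =>
    intro L hL
    obtain ⟨i, L', rfl, h1, -⟩ := (mem_T_succ β r L).1 hL
    simp [ih L' h1]

omit [Fintype ι] in
lemma cons_inj : Function.Injective (fun p : ι × List ι => p.1 :: p.2) := by
  rintro ⟨i, L⟩ ⟨j, M⟩ h
  simp only [List.cons.injEq] at h
  exact Prod.ext h.1 h.2

lemma card_T_succ (β : ι → (A →* Y)) (r : ℕ) (k : ℕ)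
    (h : ∀ L ∈ T β r, k ≤ 2 * Nat.card {i // Gd β i L}) :
    k * (T β r).card ≤ 2 * (T β (r + 1)).card := by
  classical
  have h1 : (T β (r + 1)).card = ∑ L ∈ T β r, Nat.card {i // Gd β i L} := by
    rw [T, Finset.card_image_of_injective _ cons_inj, Finset.card_filter,
      Finset.sum_product_right]
    refine Finset.sum_congr rfl fun L _ => ?_
    rw [Nat.card_eq_fintype_card, Fintype.card_subtype, Finset.card_filter]
  rw [h1, Finset.mul_sum, mul_comm, ← smul_eq_mul]
  exact Finset.card_nsmul_le_sum _ _ _ h

omit [Fintype ι] in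
lemma pr_mem (β : ι → (A →* Y)) (Hs : Finset (A →* Y)) (h1 : 1 ∈ Hs)
    (hc : ∀ i, ∀ h ∈ Hs, β i * h ∈ Hs) (L : List ι) : pr β L ∈ Hs := by
  induction L with
  | nil => simpa [pr] using h1
  | cons i L ih => simpa [pr] using hc i _ ih

omit [Fintype ι] in
lemma range_pr [Finite A] (β : ι → (A →* Y)) (Q : ℕ) (hQ : ∀ i, Nat.card (β i).range ≤ Q)
    (L : List ι) : Nat.card (pr β L).range ≤ Q ^ L.length := by
  induction L with
  | nil =>
    have : (pr β ([] : List ι)).range = ⊥ := by
      rw [Subgroup.eq_bot_iff_forall]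
      rintro x ⟨a, rfl⟩
      simp [pr]
    rw [this]
    simp
  | cons i L ih =>
    have hfr : ∀ f : A →* Y, Finite f.range := fun f => by
      have : Finite (Set.range f) := Set.finite_range _
      exact this
    have := hfr (β i)
    have := hfr (pr β L)
    have h1 : Nat.card (pr β (i :: L)).range ≤
        Nat.card ((β i).range × (pr β L).range) := by
      let s : (β i).range × (pr β L).range → Y := fun p => (p.1 : Y) * p.2
      have hs : ((pr β (i :: L)).range : Set Y) ⊆ Set.range s := by
        rintro x ⟨a, rfl⟩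
        refine ⟨(⟨β i a, a, rfl⟩, ⟨pr β L a, a, rfl⟩), ?_⟩
        simp [s, pr]
      have hfin : (Set.range s).Finite := Set.finite_range s
      calc Nat.card (pr β (i :: L)).range = ((pr β (i :: L)).range : Set Y).ncard := rfl
        _ ≤ (Set.range s).ncard := Set.ncard_le_ncard hs hfin
        _ = Nat.card (Set.range s) := rfl
        _ ≤ Nat.card ((β i).range × (pr β L).range) :=
          Nat.card_le_card_of_surjective (Set.rangeFactorization s)
            Set.rangeFactorization_surjective
    rw [Nat.card_prod] at h1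
    refine h1.trans ?_
    rw [List.length_cons, pow_succ, mul_comm]
    exact Nat.mul_le_mul ih (hQ i)

open Classical in
lemma upper [Finite A] (β : ι → (A →* Y)) (Q m P : ℕ) (hQ1 : 1 ≤ Q)
    (hQ : ∀ i, Nat.card (β i).range ≤ Q)
    (hP : ∀ l : Y, l ≠ 1 → Nat.card {i // l ∈ (β i).range} ≤ P) :
    ∀ r ≤ m, ∀ θ : A →* Y, ((T β r).filter (fun L => pr β L = θ)).card ≤ (Q ^ m * P) ^ r := by
  intro r
  induction r with
  | zero =>
    intro _ θ
    rw [pow_zero]
    refine (Finset.card_filter_le _ _).trans ?_
    simp [T]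
  | succ r ih =>
    intro hr θ
    have ih := ih (by omega)
    set B : Finset ι := Finset.univ.filter (fun i => ∃ y : Y, y ≠ 1 ∧ y ∈ θ.range ∧
      y ∈ (β i).range) with hB
    rcases Finset.eq_empty_or_nonempty ((T β (r + 1)).filter (fun L => pr β L = θ)) with he | hne
    · rw [he]; simp
    obtain ⟨L0, hL0⟩ := hne
    rw [Finset.mem_filter] at hL0
    have hθ : Nat.card θ.range ≤ Q ^ m := by
      have h1 := range_pr β Q hQ L0
      rw [hL0.2, len_T β _ _ hL0.1] at h1
      exact h1.trans (Nat.pow_le_pow_right hQ1 hr)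
    have hBc : B.card ≤ Q ^ m * P := by
      have hfin : (θ.range : Set Y).Finite := by
        have : (θ.range : Set Y) = Set.range θ := by ext; simp
        rw [this]; exact Set.finite_range θ
      set S : Finset Y := hfin.toFinset.filter (fun y => y ≠ 1) with hS
      have hsub : B ⊆ S.biUnion (fun y => Finset.univ.filter (fun i => y ∈ (β i).range)) := by
        intro i hi
        rw [hB, Finset.mem_filter] at hi
        obtain ⟨-, y, hy1, hy2, hy3⟩ := hi
        rw [Finset.mem_biUnion]
        refine ⟨y, ?_, by simpa using hy3⟩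
        rw [hS, Finset.mem_filter]
        exact ⟨by simpa using hy2, hy1⟩
      have hSc : S.card ≤ Q ^ m := by
        refine (Finset.card_filter_le _ _).trans ?_
        refine le_trans (le_of_eq ?_) hθ
        rw [← Set.ncard_eq_toFinset_card _ hfin]
        rfl
      refine (Finset.card_le_card hsub).trans ?_
      refine (Finset.card_biUnion_le_card_mul _ _ P ?_).trans (Nat.mul_le_mul_right P hSc)
      intro y hy
      rw [hS, Finset.mem_filter] at hy
      have := hP y hy.2
      rwa [Nat.card_eq_fintype_card, Fintype.card_subtype] at this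
    have hsub : (T β (r + 1)).filter (fun L => pr β L = θ) ⊆
        B.biUnion (fun i => ((T β r).filter (fun L => pr β L = (β i)⁻¹ * θ)).image
          (fun L => i :: L)) := by
      intro L hL
      rw [Finset.mem_filter, mem_T_succ] at hL
      obtain ⟨⟨i, L', rfl, h1, a, h2, h3⟩, h4⟩ := hL
      have h5 : pr β L' a = 1 := by
        have : ∀ M : List ι, (∀ i' ∈ M, β i' a = 1) → pr β M a = 1 := by
          intro M
          induction M with
          | nil => intro _; simp [pr]
          | cons j M ihM =>
            intro hM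
            have e1 := ihM fun i' hi' => hM i' (List.mem_cons_of_mem _ hi')
            have e2 := hM j List.mem_cons_self
            simp only [pr, List.map_cons, List.prod_cons, MonoidHom.mul_apply] at e1 ⊢
            rw [e1, e2, one_mul]
        exact this L' h2
      have h6 : pr β (i :: L') = β i * pr β L' := by simp [pr]
      rw [Finset.mem_biUnion]
      refine ⟨i, ?_, ?_⟩
      · rw [hB, Finset.mem_filter]
        refine ⟨Finset.mem_univ _, β i a, h3, ⟨a, ?_⟩, ⟨a, rfl⟩⟩
        rw [← h4, h6, MonoidHom.mul_apply, h5, mul_one]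
      · rw [Finset.mem_image]
        refine ⟨L', ?_, rfl⟩
        rw [Finset.mem_filter]
        refine ⟨h1, ?_⟩
        rw [← h4, h6, inv_mul_cancel_left]
    refine (Finset.card_le_card hsub).trans ?_
    refine (Finset.card_biUnion_le_card_mul _ _ ((Q ^ m * P) ^ r) ?_).trans ?_
    · intro i _
      exact Finset.card_image_le.trans (ih _)
    · rw [pow_succ, mul_comm]
      exact Nat.mul_le_mul_left _ hBc

end Grow

open Grow in
theorem p_Grow : S_Grow := by
  classical
  intro A Y _ _ _ ι _ β Hs Q m X P h1 hc hX hQ hP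
  by_contra hcon
  push Not at hcon
  obtain ⟨hbig, hJ⟩ := hcon
  apply absurd hbig
  push Not
  rcases isEmpty_or_nonempty ι with he | hne
  · rcases Nat.eq_zero_or_pos m with rfl | hm
    · simp only [pow_zero, one_mul, mul_one]
      exact (Finset.card_pos.2 ⟨1, h1⟩).trans_le hX
    · rw [Nat.card_of_isEmpty, zero_pow hm.ne']
      exact Nat.zero_le _
  obtain ⟨i0⟩ := hne
  have hQ1 : 1 ≤ Q := by
    refine le_trans ?_ (hQ i0)
    have : Finite (β i0).range := by
      have : Finite (Set.range (β i0)) := Set.finite_range _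
      exact this
    exact Nat.card_pos
  -- lower bound
  have hlow : ∀ r ≤ m, (Nat.card ι) ^ r ≤ 2 ^ r * (T β r).card := by
    intro r
    induction r with
    | zero => intro _; simp [T]
    | succ r ih =>
      intro hr
      have ih := ih (by omega)
      have hk := card_T_succ β r (Nat.card ι) (by
        intro L hL
        have hlen := len_T β r L hL
        have hcard : L.toFinset.card < m :=
          (List.toFinset_card_le L).trans_lt (by omega)
        have h2 := hJ L.toFinset hcard
        have h3 : Nat.card {i // Gd β i L} +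
            Nat.card {i // ∀ a : A, (∀ i' ∈ L.toFinset, β i' a = 1) → β i a = 1} =
            Nat.card ι := by
          rw [Nat.card_eq_fintype_card, Nat.card_eq_fintype_card, Nat.card_eq_fintype_card,
            Fintype.card_subtype, Fintype.card_subtype]
          have : (Finset.univ.filter fun i => ∀ a : A, (∀ i' ∈ L.toFinset, β i' a = 1) →
              β i a = 1) = Finset.univ.filter fun i => ¬ Gd β i L := by
            ext i
            simp only [Finset.mem_filter, Finset.mem_univ, true_and, Gd, List.mem_toFinset]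
            push Not
            simp
          rw [this, Finset.card_filter_add_card_filter_not]
          rfl
        omega)
      calc (Nat.card ι) ^ (r + 1) = (Nat.card ι) ^ r * Nat.card ι := pow_succ _ _
        _ ≤ (2 ^ r * (T β r).card) * Nat.card ι := Nat.mul_le_mul_right _ ih
        _ = 2 ^ r * (Nat.card ι * (T β r).card) := by ring
        _ ≤ 2 ^ r * (2 * (T β (r + 1)).card) := Nat.mul_le_mul_left _ hk
        _ = 2 ^ (r + 1) * (T β (r + 1)).card := by ring
  have hup : (T β m).card ≤ X * (Q ^ m * P) ^ m := by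
    have hsub : T β m ⊆ Hs.biUnion (fun θ => (T β m).filter (fun L => pr β L = θ)) := by
      intro L hL
      rw [Finset.mem_biUnion]
      exact ⟨pr β L, pr_mem β Hs h1 hc L, by simpa using hL⟩
    refine (Finset.card_le_card hsub).trans ?_
    refine (Finset.card_biUnion_le_card_mul _ _ _ ?_).trans (Nat.mul_le_mul_right _ hX)
    intro θ _
    exact upper β Q m P hQ1 hQ hP m le_rfl θ
  calc (Nat.card ι) ^ m ≤ 2 ^ m * (T β m).card := hlow m le_rfl
    _ ≤ 2 ^ m * (X * (Q ^ m * P) ^ m) := Nat.mul_le_mul_left _ hup
    _ ≤ 2 ^ m * (X * (Q ^ (2 * m) * P) ^ m) := by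
        refine Nat.mul_le_mul_left _ (Nat.mul_le_mul_left _ (Nat.pow_le_pow_left ?_ m))
        exact Nat.mul_le_mul_right _ (Nat.pow_le_pow_right hQ1 (by omega))
    _ = 2 ^ m * X * (Q ^ (2 * m) * P) ^ m := by ring

end NilCut
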