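import Pool.Agent.Lib.MP_4ddf81_pr.Stm

/-!
# MP_4ddf81_pr : piece Indep
-/

namespace NilCut

theorem Indep.aux (G : Type) [Group G] (C : Type) [CommGroup C] (t : ℕ) :
    ∀ (s : Finset ℕ), s.card = t → ∀ (F : (ℕ → G) → C),
    (∀ i ∈ s, ∀ h : ℕ → G, ∃ l : G →* C, ∀ g, l g = F (Function.update h i g)) →
    ∀ R : ℕ → Subgroup G,
    (∀ m ≤ t, R m ⊔ (⨅ l ∈ Finset.range m, R l) = ⊤) →
    (∀ m ≤ t, ∀ h : ℕ → G, (∀ i ∈ s, h i ∈ R m) → F h = 1) →
    ∀ h, F h = 1 := by
  induction t with
  | zero =>
    intro s hs F _ R _ hF h
    have h0 : s = ∅ := Finset.card_eq_zero.1 hs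
    subst h0
    exact hF 0 le_rfl h (by simp)
  | succ t ih =>
    intro s hs F hm R hR hF
    set S : Subgroup G := ⨅ l ∈ Finset.range (t + 1), R l with hS
    have hSR : ∀ m ≤ t, S ≤ R m := by
      intro m hm'
      rw [hS]
      exact iInf₂_le m (Finset.mem_range.2 (by omega))
    have htop : R (t + 1) ⊔ S = ⊤ := hR (t + 1) le_rfl
    -- the claim
    have key : ∀ J : Finset ℕ, J ⊆ s → ∀ h : ℕ → G,
        (∀ i ∈ s, i ∉ J → h i ∈ R (t + 1) ∨ h i ∈ S) → F h = 1 := by
      intro J
      induction J using Finset.induction_on with
      | empty =>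
        intro _ h hh
        by_cases hall : ∀ i ∈ s, h i ∈ R (t + 1)
        · exact hF (t + 1) le_rfl h hall
        · push Not at hall
          obtain ⟨i0, hi0, hn⟩ := hall
          have hi0S : h i0 ∈ S := by
            rcases hh i0 hi0 (by simp) with h1 | h1
            · exact absurd h1 hn
            · exact h1
          have hcard : (s.erase i0).card = t := by
            rw [Finset.card_erase_of_mem hi0, hs]; rfl
          have h2 := ih (s.erase i0) hcard
            (fun h' => F (Function.update h' i0 (h i0))) ?_ R
            (fun m hm' => hR m (by omega)) ?_ h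
          · simpa using h2
          · intro i hi h'
            obtain ⟨hne, his⟩ := Finset.mem_erase.1 hi
            obtain ⟨l, hl⟩ := hm i his (Function.update h' i0 (h i0))
            refine ⟨l, fun g => ?_⟩
            rw [hl g]
            show F _ = F _
            rw [Function.update_comm hne]
          · intro m hm' h' hh'
            refine hF m (by omega) _ ?_
            intro i hi
            by_cases hii : i = i0
            · subst hii
              rw [Function.update_self]
              exact hSR m hm' hi0S
            · rw [Function.update_of_ne hii]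
              exact hh' i (Finset.mem_erase.2 ⟨hii, hi⟩)
      | insert i J hiJ ihJ =>
        intro hJs h hh
        have his : i ∈ s := hJs (Finset.mem_insert_self i J)
        have hJs' : J ⊆ s := fun x hx => hJs (Finset.mem_insert_of_mem hx)
        obtain ⟨l, hl⟩ := hm i his h
        have hker : ∀ g : G, (g ∈ R (t + 1) ∨ g ∈ S) → g ∈ l.ker := by
          intro g hg
          rw [MonoidHom.mem_ker, hl g]
          refine ihJ hJs' _ ?_
          intro x hx hxJ
          by_cases hxi : x = i
          · subst hxi
            rw [Function.update_self]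
            exact hg
          · rw [Function.update_of_ne hxi]
            exact hh x hx (by simp [hxi, hxJ])
        have hle : R (t + 1) ⊔ S ≤ l.ker :=
          sup_le (fun g hg => hker g (Or.inl hg)) (fun g hg => hker g (Or.inr hg))
        rw [htop] at hle
        have h3 : h i ∈ l.ker := hle (Subgroup.mem_top _)
        rw [MonoidHom.mem_ker, hl (h i)] at h3
        simpa using h3
    intro h
    exact key s (Finset.Subset.refl _) h (fun i hi hn => absurd hi hn)

theorem p_Indep : S_Indep := by
  intro G _ C _ s F hm R hR hF
  exact Indep.aux G C s.card s rfl F hm R hR hF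

end NilCut
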