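import Pool.Agent.Lib.MP_4ddf81_pr.Stm

/-! The popular character for a family of right kernels. -/

namespace NilCut

namespace Ker

theorem Lsz_pos (G : Type) [Group G] [Finite G] (i : ℕ) : 0 < Lsz G i := by
  unfold Lsz Subgroup.relIndex
  exact Nat.pos_of_ne_zero Subgroup.index_ne_zero_of_finite

/-- the number of the thick positions -/
theorem thick {G : Type} [Group G] [Finite G] (hLp : S_Lprod) {j E t : ℕ} (hE : 1 ≤ E)
    (ht : (Nat.card G) ^ 2 < E ^ t) (s : Finset ℕ) (hs : ∀ a ∈ s, a < j)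
    (hs2 : ∀ a ∈ s, E < Lsz G a * Lsz G (a + 1)) : s.card < t := by
  classical
  by_contra hcon
  push Not at hcon
  have hpos : 0 < ∏ a ∈ Finset.range (j + 1), Lsz G a :=
    Finset.prod_pos fun a _ => Lsz_pos G a
  have h1 : E ^ s.card ≤ (∏ a ∈ s, Lsz G a) * ∏ a ∈ s, Lsz G (a + 1) := by
    rw [← Finset.prod_mul_distrib, ← Finset.prod_const]
    exact Finset.prod_le_prod (fun _ _ => Nat.zero_le _) fun a ha => (hs2 a ha).le
  have h2 : ∏ a ∈ s, Lsz G a ≤ ∏ a ∈ Finset.range (j + 1), Lsz G a := by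
    refine Nat.le_of_dvd hpos (Finset.prod_dvd_prod_of_subset _ _ _ ?_)
    intro a ha
    have := hs a ha
    exact Finset.mem_range.2 (by omega)
  have h3 : ∏ a ∈ s, Lsz G (a + 1) ≤ ∏ a ∈ Finset.range (j + 1), Lsz G a := by
    have h4 : ∏ a ∈ s, Lsz G (a + 1) = ∏ a ∈ s.image (fun a => a + 1), Lsz G a := by
      rw [Finset.prod_image]
      intro a _ b _ e
      simpa using e
    rw [h4]
    refine Nat.le_of_dvd hpos (Finset.prod_dvd_prod_of_subset _ _ _ ?_)
    intro a ha
    obtain ⟨b, hb, rfl⟩ := Finset.mem_image.1 ha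
    have := hs b hb
    exact Finset.mem_range.2 (by omega)
  have h5 := hLp G (j + 1)
  have h6 : (∏ a ∈ s, Lsz G a) * ∏ a ∈ s, Lsz G (a + 1) ≤ Nat.card G ^ 2 := by
    rw [pow_two]
    exact Nat.mul_le_mul (h2.trans h5) (h3.trans h5)
  have h7 : E ^ t ≤ E ^ s.card := Nat.pow_le_pow_right hE hcon
  omega

/-- counting through a set of characters -/
theorem count {ι Λ : Type} [Fintype ι] [DecidableEq Λ] (S : Finset Λ) (Y : ι → Set Λ) (P : ℕ)
    (one : Λ) (hP : ∀ l : Λ, l ≠ one → Nat.card {i // l ∈ Y i} ≤ P) (I : Finset ι)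
    (hI : ∀ i ∈ I, ∃ l ∈ S, l ≠ one ∧ l ∈ Y i) : I.card ≤ S.card * P := by
  classical
  have h1 : I ⊆ (S.filter fun l => l ≠ one).biUnion fun l =>
      Finset.univ.filter fun i => l ∈ Y i := by
    intro i hi
    obtain ⟨l, hl, hne, hY⟩ := hI i hi
    rw [Finset.mem_biUnion]
    exact ⟨l, Finset.mem_filter.2 ⟨hl, hne⟩, Finset.mem_filter.2 ⟨Finset.mem_univ _, hY⟩⟩
  have h2 : ((S.filter fun l => l ≠ one).biUnion fun l =>
      Finset.univ.filter fun i => l ∈ Y i).card ≤ (S.filter fun l => l ≠ one).card * P := by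
    refine Finset.card_biUnion_le_card_mul _ _ _ fun l hl => ?_
    have h3 := hP l (Finset.mem_filter.1 hl).2
    rwa [Nat.card_eq_fintype_card, Fintype.card_subtype] at h3
  exact (Finset.card_le_card h1).trans (h2.trans
    (Nat.mul_le_mul_right _ (Finset.card_filter_le _ _)))

theorem index_inf {G : Type} [Group G] {Q : ℕ} (R : ℕ → Subgroup G) (m : ℕ)
    (hR : ∀ l < m, (R l).index ≤ Q) : (⨅ l ∈ Finset.range m, R l).index ≤ Q ^ m := by
  induction m with
  | zero => simp
  | succ m ih =>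
    have h1 : (⨅ l ∈ Finset.range (m + 1), R l) = R m ⊓ ⨅ l ∈ Finset.range m, R l := by
      rw [Finset.range_add_one, Finset.iInf_insert]
    rw [h1, pow_succ, mul_comm]
    refine Subgroup.index_inf_le.trans ?_
    exact Nat.mul_le_mul (hR m (Nat.lt_succ_self m)) (ih fun l hl => hR l (by omega))

/-- greedy choice -/
theorem greedy {G ι : Type} [Group G] (R : ι → Subgroup G) (I : Finset ι) (n : ℕ)
    (i₀ : ι) (h : ∀ m ≤ n, ∀ f : ℕ → ι, (∀ l < m, f l ∈ I) →
      ∃ i ∈ I, R i ⊔ (⨅ l ∈ Finset.range m, R (f l)) = ⊤) :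
    ∀ k ≤ n + 1, ∃ f : ℕ → ι, ∀ m < k, f m ∈ I ∧
      R (f m) ⊔ (⨅ l ∈ Finset.range m, R (f l)) = ⊤ := by
  classical
  intro k
  induction k with
  | zero =>
    intro _
    exact ⟨fun _ => i₀, fun m hm => absurd hm (Nat.not_lt_zero m)⟩
  | succ k ih =>
    intro hk
    obtain ⟨f, hf⟩ := ih (by omega)
    obtain ⟨i, hi, e⟩ := h k (by omega) f fun l hl => (hf l hl).1
    refine ⟨Function.update f k i, fun m hm => ?_⟩
    have hcongr : ∀ m ≤ k, (⨅ l ∈ Finset.range m, R (Function.update f k i l)) =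
        ⨅ l ∈ Finset.range m, R (f l) := by
      intro m hm
      refine iInf_congr fun l => iInf_congr fun hl => ?_
      have : l < m := Finset.mem_range.1 hl
      rw [Function.update_of_ne (by omega)]
    rcases Nat.lt_succ_iff_lt_or_eq.1 hm with h1 | h1
    · rw [hcongr m h1.le, Function.update_of_ne (by omega)]
      exact hf m h1
    · subst h1
      rw [hcongr m le_rfl, Function.update_self]
      exact ⟨hi, e⟩

theorem comm_le_ann {G : Type} [Group G] (Y : Set (G →* ℂˣ)) : commutator G ≤ ann Y := by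
  unfold ann
  exact le_iInf₂ fun l _ => Abelianization.commutator_subset_ker l

end Ker

theorem p_Ker (hF : S_Form) (hThin : S_Thin) (hLp : S_Lprod) (hD1 : S_Dual1) (hD2 : S_Dual2)
    (hR : S_Repl) (hI : S_Indep) (hM : S_Mult) (hG : S_Gen) : S_Ker := by
  classical
  intro G _ _ j ξ hξ hξ1 ι _ Y Q E t P hE ht hQ hP hker
  have hfin : Finite (G →* ℂˣ) := by
    have h := (hD1 G ⊤).1
    exact Finite.of_equiv _ Subgroup.topEquiv.toEquiv
  have _ : Fintype (G →* ℂˣ) := Fintype.ofFinite _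
  -- the thick positions
  set s' : Finset ℕ := (Finset.range j).filter fun a => E < Lsz G a * Lsz G (a + 1) with hs'
  have hs'card : s'.card < t := Ker.thick (G := G) hLp hE ht s'
    (fun a ha => Finset.mem_range.1 (Finset.mem_filter.1 ha).1)
    (fun a ha => (Finset.mem_filter.1 ha).2)
  set s : Finset ℕ := insert 0 (s'.image fun a => a + 1) with hs
  have hscard : s.card ≤ t := by
    have h1 := Finset.card_insert_le 0 (s'.image fun a => a + 1)
    have h2 := Finset.card_image_le (s := s') (f := fun a => a + 1)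
    rw [← hs] at h1
    omega
  have hsj : ∀ a ∈ s, a ≤ j := by
    intro a ha
    rw [hs, Finset.mem_insert, Finset.mem_image] at ha
    rcases ha with rfl | ⟨b, hb, rfl⟩
    · exact Nat.zero_le _
    · have := Finset.mem_range.1 (Finset.mem_filter.1 hb).1
      omega
  -- the characters at the thin positions
  let L : ℕ → Finset (G →* ℂˣ) := fun a => Finset.univ.filter fun l =>
    ∃ (m : lc G a) (ζ : lc G (a + 1) →* ℂˣ), Cen ζ ∧ ∀ x, l x = ζ (brk m x)
  have hL : ∀ a, (L a).card ≤ Lsz G a * Lsz G (a + 1) := by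
    intro a
    have h1 := hThin G a
    have h2 : {l : G →* ℂˣ | ∃ (m : lc G a) (ζ : lc G (a + 1) →* ℂˣ), Cen ζ ∧
        ∀ x, l x = ζ (brk m x)} = (L a : Set (G →* ℂˣ)) := by
      ext l
      simp [L]
    rw [h2, Set.ncard_coe_finset] at h1
    exact h1
  let Λ : Finset (G →* ℂˣ) :=
    ((Finset.range j).filter fun a => ¬ E < Lsz G a * Lsz G (a + 1)).biUnion L
  have hΛ : Λ.card ≤ j * E := by
    have h1 : Λ.card ≤
        ((Finset.range j).filter fun a => ¬ E < Lsz G a * Lsz G (a + 1)).card * E := by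
      refine Finset.card_biUnion_le_card_mul _ _ _ fun a ha => ?_
      have h2 := (Finset.mem_filter.1 ha).2
      have h3 := hL a
      omega
    refine h1.trans (Nat.mul_le_mul_right _ ?_)
    exact (Finset.card_filter_le _ _).trans (le_of_eq (Finset.card_range j))
  set I₁ : Finset ι := Finset.univ.filter fun i => ∃ l ∈ Λ, l ≠ 1 ∧ l ∈ Y i with hI₁
  set I₂ : Finset ι := Finset.univ.filter fun i => ¬ ∃ l ∈ Λ, l ≠ 1 ∧ l ∈ Y i with hI₂
  have hcard : I₁.card + I₂.card = Nat.card ι := by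
    rw [hI₁, hI₂, Finset.card_filter_add_card_filter_not, Finset.card_univ,
      Nat.card_eq_fintype_card]
  have hI₁c : I₁.card ≤ j * E * P := by
    refine (Ker.count Λ (fun i => (Y i : Set (G →* ℂˣ))) P 1 hP I₁ ?_).trans
      (Nat.mul_le_mul_right _ hΛ)
    intro i hi
    exact (Finset.mem_filter.1 hi).2
  -- the replacement
  have hrep : ∀ i ∈ I₂, ∀ h : ℕ → G, (∀ a ∈ s, h a ∈ ann (Y i : Set (G →* ℂˣ))) →
      ξ (lncE h j) = 1 := by
    intro i hi h hh
    have hi2 := (Finset.mem_filter.1 hi).2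
    refine hR G j ξ hξ (ann (Y i : Set (G →* ℂˣ))) (fun a => a ∈ s)
      (Finset.mem_insert_self _ _) ?_ (hker i) h (fun a _ ha => hh a ha)
    intro a haj hath m ζ hζ hx
    obtain ⟨β, hβ⟩ := hF G a ζ hζ
    have h1 : β m ∈ Y i := by
      refine (hD1 G (Y i)).2.2 (β m) fun x hxa => ?_
      rw [hβ]
      exact hx x hxa
    have h2 : β m ∈ Λ := by
      refine Finset.mem_biUnion.2 ⟨a, Finset.mem_filter.2 ⟨Finset.mem_range.2 haj, ?_⟩,
        Finset.mem_filter.2 ⟨Finset.mem_univ _, m, ζ, hζ, fun x => hβ m x⟩⟩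
      intro hlt
      apply hath
      exact Finset.mem_insert_of_mem (Finset.mem_image.2
        ⟨a, Finset.mem_filter.2 ⟨Finset.mem_range.2 haj, hlt⟩, rfl⟩)
    have h3 : β m = 1 := by
      by_contra hne
      exact hi2 ⟨β m, h2, hne, h1⟩
    intro x
    rw [← hβ, h3]
    rfl
  -- the second part
  have hI₂c : I₂.card ≤ Q ^ t * P := by
    rcases Finset.eq_empty_or_nonempty I₂ with he | ⟨i₀, hi₀⟩
    · rw [he]; exact Nat.zero_le _
    have hQ1 : 1 ≤ Q := by
      have := (hD1 G (Y i₀)).1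
      exact le_trans Nat.card_pos (hQ i₀)
    -- no long sequence
    have hex : ∃ m ≤ s.card, ∃ f : ℕ → ι, (∀ l < m, f l ∈ I₂) ∧
        ∀ i ∈ I₂, ann (Y i : Set (G →* ℂˣ)) ⊔
          (⨅ l ∈ Finset.range m, ann (Y (f l) : Set (G →* ℂˣ))) ≠ ⊤ := by
      by_contra hcon
      push Not at hcon
      obtain ⟨f, hf⟩ := Ker.greedy (fun i => ann (Y i : Set (G →* ℂˣ))) I₂ s.card i₀
        (fun m hm f hf => hcon m hm f hf) (s.card + 1) le_rfl
      obtain ⟨h, hh⟩ := hG G j ξ hξ hξ1
      apply hh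
      refine hI G ℂˣ s (fun h => ξ (lncE h j)) ?_ (fun m => ann (Y (f m) : Set (G →* ℂˣ)))
        ?_ ?_ h
      · intro i hi h
        exact hM G j ξ hξ i (hsj i hi) h
      · intro m hm
        exact (hf m (by omega)).2
      · intro m hm h hh
        exact hrep (f m) (hf m (by omega)).1 h hh
    obtain ⟨m, hm, f, hf, hne⟩ := hex
    set S : Subgroup G := ⨅ l ∈ Finset.range m, ann (Y (f l) : Set (G →* ℂˣ)) with hS
    have hSidx : S.index ≤ Q ^ t := by
      have h1 := Ker.index_inf (Q := Q) (fun l => ann (Y (f l) : Set (G →* ℂˣ))) m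
        (fun l _ => by rw [(hD1 G (Y (f l))).2.1]; exact hQ (f l))
      exact h1.trans (Nat.pow_le_pow_right hQ1 (hm.trans hscard))
    have hSc : commutator G ≤ S := le_iInf₂ fun l _ => Ker.comm_le_ann _
    have hcS := (hD2 G S hSc).2
    rw [Nat.card_eq_fintype_card, Fintype.card_subtype] at hcS
    refine (Ker.count (Finset.univ.filter fun l : G →* ℂˣ => ∀ a ∈ S, l a = 1)
      (fun i => (Y i : Set (G →* ℂˣ))) P 1 hP I₂ ?_).trans
      (Nat.mul_le_mul_right _ (by rw [hcS]; exact hSidx))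
    intro i hi
    have h1 : ∃ x, x ∉ ann (Y i : Set (G →* ℂˣ)) ⊔ S := by
      by_contra hcon
      push Not at hcon
      exact hne i hi ((Subgroup.eq_top_iff' _).2 hcon)
    obtain ⟨x, hx⟩ := h1
    obtain ⟨l, hl, hlx⟩ := (hD2 G (ann (Y i : Set (G →* ℂˣ)) ⊔ S)
      (hSc.trans le_sup_right)).1 x hx
    refine ⟨l, Finset.mem_filter.2 ⟨Finset.mem_univ _, fun a ha =>
      hl a (Subgroup.mem_sup_right ha)⟩, ?_, ?_⟩
    · rintro rfl
      exact hlx rfl
    · exact (hD1 G (Y i)).2.2 l fun y hy => hl y (Subgroup.mem_sup_left hy)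
  calc Nat.card ι = I₁.card + I₂.card := hcard.symm
    _ ≤ j * E * P + Q ^ t * P := Nat.add_le_add hI₁c hI₂c
    _ = (j * E + Q ^ t) * P := by ring

end NilCut
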