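import Pool.Agent.Lib.MP_4ddf81_pr.Stm

/-!
# MP_4ddf81_pr : piece L1
-/

namespace NilCut
namespace L1

variable {G : Type} [Group G]

/-- representative of a left coset -/
noncomputable def rp (H : Subgroup G) (c : G ⧸ H) : G := Quotient.out c

theorem mk_rp (H : Subgroup G) (c : G ⧸ H) : (QuotientGroup.mk (rp H c) : G ⧸ H) = c :=
  Quotient.out_eq' c

/-- the Schreier element -/
noncomputable def sch {k : ℕ} (Z : Fin k → G) (H : Subgroup G) (p : (G ⧸ H) × Fin k) : H :=
  ⟨(rp H (Z p.2 • p.1))⁻¹ * (Z p.2 * rp H p.1), by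
    rw [← QuotientGroup.eq, mk_rp]
    conv_lhs => rw [← mk_rp H p.1]
    rfl⟩

theorem word_form {k : ℕ} (Z : Fin k → G) (H : Subgroup G) (l : List (Fin k)) :
    ∃ (m : Multiset ((G ⧸ H) × Fin k)) (c : G ⧸ H) (hh : H), m.card = l.length ∧
      (l.map Z).prod = rp H c * hh * (rp H (QuotientGroup.mk 1))⁻¹ ∧
      Abelianization.of hh = (m.map fun p => Abelianization.of (sch Z H p)).prod := by
  induction l with
  | nil =>
    refine ⟨0, QuotientGroup.mk 1, 1, by simp, by simp, by simp⟩
  | cons i l ih =>
    obtain ⟨m, c, hh, h1, h2, h3⟩ := ih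
    refine ⟨(c, i) ::ₘ m, Z i • c, sch Z H (c, i) * hh, by simp [h1], ?_, ?_⟩
    · rw [List.map_cons, List.prod_cons, h2]
      simp only [sch, Subgroup.coe_mul]
      group
    · rw [map_mul, h3, Multiset.map_cons, Multiset.prod_cons]

/-- value of a padded multiset -/
noncomputable def vl {k n : ℕ} (Z : Fin k → G) (H : Subgroup G)
    (s : Sym (Option ((G ⧸ H) × Fin k)) n) : Abelianization H :=
  ((s : Multiset (Option ((G ⧸ H) × Fin k))).map
    fun o => o.elim 1 fun p => Abelianization.of (sch Z H p)).prod

/-- representative of a class in the Abelianization -/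
noncomputable def lft (H : Subgroup G) (a : Abelianization H) : H := Quotient.out a

theorem of_lft (H : Subgroup G) (a : Abelianization H) : Abelianization.of (lft H a) = a :=
  Quotient.out_eq' a

/-- the parametrisation of the reached elements -/
noncomputable def par {k n : ℕ} (Z : Fin k → G) (H : Subgroup G)
    (x : Sym (Option ((G ⧸ H) × Fin k)) n × (G ⧸ H) × commutator H) : G :=
  rp H x.2.1 * ((lft H (vl Z H x.1) * (x.2.2 : H) : H) : G) * (rp H (QuotientGroup.mk 1))⁻¹

theorem reach_sub {k n : ℕ} (Z : Fin k → G) (H : Subgroup G) :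
    reach Z n ⊆ Set.range (par (n := n) Z H) := by
  rintro g ⟨n', hn', w, hw⟩
  obtain ⟨m, c, hh, h1, h2, h3⟩ := word_form Z H (List.ofFn w)
  rw [List.length_ofFn] at h1
  have h4 : ((List.ofFn w).map Z).prod = g := by
    rw [← hw]
    unfold wprod
    rw [List.map_ofFn]
    rfl
  let s : Sym (Option ((G ⧸ H) × Fin k)) n :=
    ⟨m.map some + Multiset.replicate (n - n') none, by
      rw [Multiset.card_add, Multiset.card_map, Multiset.card_replicate, h1]
      omega⟩
  have hs : vl Z H s = Abelianization.of hh := by
    unfold vl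
    rw [h3]
    change ((m.map some + Multiset.replicate (n - n') none).map _).prod = _
    rw [Multiset.map_add, Multiset.prod_add, Multiset.map_map, Multiset.map_replicate,
      Multiset.prod_replicate]
    simp only [Option.elim_none, one_pow, mul_one]
    rfl
  have hu : (lft H (vl Z H s))⁻¹ * hh ∈ commutator H := by
    rw [← Abelianization.ker_of, MonoidHom.mem_ker, map_mul, map_inv, of_lft, hs]
    simp
  refine ⟨(s, c, ⟨_, hu⟩), ?_⟩
  unfold par
  rw [← h4, h2]
  simp

end L1

open L1 in
theorem p_L1 : S_L1 := by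
  intro G _ _ k Z n H
  classical
  have : Fintype (G ⧸ H) := Fintype.ofFinite _
  have h1 : Nat.card (reach Z n) ≤
      Nat.card (Sym (Option ((G ⧸ H) × Fin k)) n × (G ⧸ H) × commutator H) := by
    calc Nat.card (reach Z n) ≤ Nat.card (Set.range (par (n := n) Z H)) :=
          Nat.card_mono (Set.toFinite _) (reach_sub Z H)
      _ ≤ _ := Finite.card_range_le _
  have h2 : Nat.card (Sym (Option ((G ⧸ H) × Fin k)) n) =
      Nat.choose (k * H.index + n) n := by
    rw [Nat.card_eq_fintype_card, Sym.card_sym_eq_choose, Fintype.card_option,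
      Fintype.card_prod, Fintype.card_fin, ← Nat.card_eq_fintype_card]
    have : Nat.card (G ⧸ H) = H.index := rfl
    rw [this, mul_comm H.index k]
    congr 1
    omega
  have h3 : Nat.card H = Nat.card (Abelianization H) * Nat.card (commutator H) :=
    Subgroup.card_eq_card_quotient_mul_card_subgroup (commutator H)
  have h4 : Nat.card H * H.index = Nat.card G := H.card_mul_index
  have h5 : Nat.card (G ⧸ H) = H.index := rfl
  rw [Nat.card_prod, Nat.card_prod, h2, h5] at h1
  calc Nat.card (reach Z n) * Nat.card (Abelianization H)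
      ≤ (Nat.choose (k * H.index + n) n * (H.index * Nat.card (commutator H))) *
          Nat.card (Abelianization H) := Nat.mul_le_mul_right _ h1
    _ = (Nat.card (Abelianization H) * Nat.card (commutator H) * H.index) *
          Nat.choose (k * H.index + n) n := by ring
    _ = Nat.card G * Nat.choose (k * H.index + n) n := by rw [← h3, h4]

end NilCut
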