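import Pool.Agent.Lib.MP_4ddf81_pr.Stm

/-! The number of the words of length at most `n`. -/

namespace NilCut

namespace L2

theorem geom {k : ℕ} (hk : 2 ≤ k) (n : ℕ) : ∑ i ∈ Finset.range (n + 1), k ^ i ≤ 2 * k ^ n := by
  induction n with
  | zero => simp
  | succ n ih =>
    rw [Finset.sum_range_succ]
    have h : 2 * k ^ n ≤ k ^ (n + 1) := by
      rw [pow_succ, mul_comm]
      exact Nat.mul_le_mul_left _ hk
    omega

end L2

theorem p_L2 : S_L2 := by
  classical
  intro G _ _ k Z n hk
  have h1 : reach Z n ⊆ ((Finset.range (n + 1)).biUnion fun n' =>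
      Finset.univ.image fun w : Fin n' → Fin k => wprod Z w : Finset G) := by
    rintro g ⟨n', hn', w, hw⟩
    rw [Finset.mem_coe, Finset.mem_biUnion]
    exact ⟨n', Finset.mem_range.2 (by omega), Finset.mem_image.2 ⟨w, Finset.mem_univ _, hw⟩⟩
  have h2 := Nat.card_mono (Finset.finite_toSet _) h1
  rw [Nat.card_coe_set_eq, Nat.card_coe_set_eq, Set.ncard_coe_finset] at h2
  rw [Nat.card_coe_set_eq]
  refine h2.trans (Finset.card_biUnion_le.trans ?_)
  refine le_trans (Finset.sum_le_sum fun i _ => ?_) (L2.geom hk n)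
  refine Finset.card_image_le.trans (le_of_eq ?_)
  rw [Finset.card_univ, Fintype.card_fun, Fintype.card_fin, Fintype.card_fin]

end NilCut
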