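import Pool.Agent.Lib.MP_4ddf81_pr.Stm

/-!
# MP_4ddf81_pr : the level of an irreducible character of a nilpotent group
-/

namespace NilCut

open scoped commutatorElement

namespace Lev

variable {G : Type} [Group G] {D : ℕ}

/-- the scalar elements -/
def Zs (ρ : G →* Matrix (Fin D) (Fin D) ℂ) : Subgroup G where
  carrier := {g | ∀ x, ρ g * ρ x = ρ x * ρ g}
  mul_mem' := by
    intro a b ha hb x
    rw [map_mul, mul_assoc, hb x, ← mul_assoc, ha x, mul_assoc]
  one_mem' := by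
    intro x
    simp
  inv_mem' := by
    intro a ha x
    have h1 : ρ a⁻¹ * ρ a = 1 := by rw [← map_mul]; simp
    have h2 : ρ a * ρ a⁻¹ = 1 := by rw [← map_mul]; simp
    calc ρ a⁻¹ * ρ x = ρ a⁻¹ * (ρ x * ρ a) * ρ a⁻¹ := by
          rw [mul_assoc, mul_assoc, h2, mul_one]
      _ = ρ a⁻¹ * (ρ a * ρ x) * ρ a⁻¹ := by rw [ha x]
      _ = ρ x * ρ a⁻¹ := by rw [← mul_assoc, h1, one_mul]

lemma scal {ρ : G →* Matrix (Fin D) (Fin D) ℂ} (hρ : IsIrr ρ) {g : G} (hg : g ∈ Zs ρ) :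
    ∃ c : ℂ, ρ g = c • (1 : Matrix (Fin D) (Fin D) ℂ) := by
  have hall : ∀ M : Matrix (Fin D) (Fin D) ℂ, Commute M (ρ g) := by
    intro M
    have hM : M ∈ Submodule.span ℂ (Set.range ρ) := by rw [hρ]; trivial
    induction hM using Submodule.span_induction with
    | mem x hx => obtain ⟨y, rfl⟩ := hx; exact (hg y).symm
    | zero => exact Commute.zero_left _
    | add a b _ _ ha hb => exact ha.add_left hb
    | smul c a _ ha => exact ha.smul_left c
  have h1 := Matrix.mem_range_scalar_of_commute_single (M := ρ g)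
    (fun i j _ => hall (Matrix.single i j 1))
  obtain ⟨c, hc⟩ := h1
  refine ⟨c, ?_⟩
  rw [← hc, Matrix.smul_one_eq_diagonal]
  rfl

lemma top_not {ρ : G →* Matrix (Fin D) (Fin D) ℂ} (hD : 2 ≤ D) (hρ : IsIrr ρ) :
    ¬ (⊤ : Subgroup G) ≤ Zs ρ := by
  intro h
  have hall : ∀ M : Matrix (Fin D) (Fin D) ℂ, M ⟨0, by omega⟩ ⟨1, by omega⟩ = 0 := by
    intro M
    have hM : M ∈ Submodule.span ℂ (Set.range ρ) := by rw [hρ]; trivial
    induction hM using Submodule.span_induction with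
    | mem x hx =>
      obtain ⟨y, rfl⟩ := hx
      obtain ⟨c, hc⟩ := scal hρ (h (Subgroup.mem_top y))
      rw [hc]
      simp
    | zero => simp
    | add a b _ _ ha hb => rw [Matrix.add_apply, ha, hb, add_zero]
    | smul c a _ ha => rw [Matrix.smul_apply, ha, smul_zero]
  have := hall (Matrix.single ⟨0, by omega⟩ ⟨1, by omega⟩ 1)
  rw [Matrix.single_apply_same] at this
  exact one_ne_zero this

lemma lc_const (i : ℕ) (h : lc G (i + 1) = lc G i) : ∀ k, lc G (i + k) = lc G i := by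
  intro k
  induction k with
  | zero => rfl
  | succ k ih =>
    have h1 : lc G (i + (k + 1)) = ⁅lc G (i + k), (⊤ : Subgroup G)⁆ := rfl
    have h2 : lc G (i + 1) = ⁅lc G i, (⊤ : Subgroup G)⁆ := rfl
    rw [h1, ih, ← h2, h]

lemma lc_le (i : ℕ) : lc G (i + 1) ≤ lc G i :=
  (⊤ : Subgroup G).lowerCentralSeries_antitone (Nat.le_succ i)

lemma two_pow_le [Finite G] (j : ℕ) (h : lc G (j + 1) ≠ lc G j) :
    ∀ i ≤ j + 1, 2 ^ i * Nat.card (lc G i) ≤ Nat.card G := by
  intro i
  induction i with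
  | zero =>
    intro _
    rw [pow_zero, one_mul]
    exact Nat.card_le_card_of_injective _ Subtype.val_injective
  | succ i ih =>
    intro hi
    have ih := ih (by omega)
    have hne : lc G (i + 1) ≠ lc G i := by
      intro he
      have h1 := lc_const i he (j - i)
      have h2 := lc_const i he (j + 1 - i)
      rw [show i + (j - i) = j by omega] at h1
      rw [show i + (j + 1 - i) = j + 1 by omega] at h2
      exact h (h2.trans h1.symm)
    have hdvd := Subgroup.card_dvd_of_le (lc_le (G := G) i)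
    have hlt : Nat.card (lc G (i + 1)) ≠ Nat.card (lc G i) := by
      intro he
      apply hne
      exact Subgroup.eq_of_le_of_card_ge (lc_le i) he.ge
    obtain ⟨q, hq⟩ := hdvd
    have hpos : 0 < Nat.card (lc G i) := Nat.card_pos
    have hq2 : 2 ≤ q := by
      rcases q with _ | _ | q
      · simp at hq; omega
      · simp at hq; exact absurd hq.symm hlt
      · omega
    calc 2 ^ (i + 1) * Nat.card (lc G (i + 1)) = 2 ^ i * (Nat.card (lc G (i + 1)) * 2) := by ring
      _ ≤ 2 ^ i * (Nat.card (lc G (i + 1)) * q) :=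
        Nat.mul_le_mul_left _ (Nat.mul_le_mul_left _ hq2)
      _ = 2 ^ i * Nat.card (lc G i) := by rw [hq]
      _ ≤ Nat.card G := ih

/-- the scalar as a homomorphism -/
noncomputable def om0 (ρ : G →* Matrix (Fin D) (Fin D) ℂ) (hρ : IsIrr ρ) (hD : 2 ≤ D) (j : ℕ)
    (hj : lc G (j + 1) ≤ Zs ρ) : lc G (j + 1) →* ℂ where
  toFun g := ρ g ⟨0, by omega⟩ ⟨0, by omega⟩
  map_one' := by simp
  map_mul' := by
    intro a b
    obtain ⟨c, hc⟩ := scal hρ (hj a.2)
    obtain ⟨d, hd⟩ := scal hρ (hj b.2)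
    rw [Subgroup.coe_mul, map_mul, hc, hd]
    simp [mul_comm]

lemma om0_spec (ρ : G →* Matrix (Fin D) (Fin D) ℂ) (hρ : IsIrr ρ) (hD : 2 ≤ D) (j : ℕ)
    (hj : lc G (j + 1) ≤ Zs ρ) (g : lc G (j + 1)) :
    ρ g = (((om0 ρ hρ hD j hj).toHomUnits g : ℂˣ) : ℂ) • (1 : Matrix (Fin D) (Fin D) ℂ) := by
  obtain ⟨c, hc⟩ := scal hρ (hj g.2)
  rw [MonoidHom.coe_toHomUnits]
  change ρ g = (ρ g ⟨0, by omega⟩ ⟨0, by omega⟩) • (1 : Matrix (Fin D) (Fin D) ℂ)
  rw [hc]
  simp

lemma ncard_le {j : ℕ} [Finite G] (ρ : G →* Matrix (Fin D) (Fin D) ℂ) (hD : 2 ≤ D)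
    (ω : lc G (j + 1) →* ℂˣ)
    (htw : ∀ l ∈ Yset ω, ∃ g : G, ∀ x, ρ g * ρ x = ((l x : ℂˣ) : ℂ) • (ρ x * ρ g)) :
    (Yset ω).ncard ≤ D ^ 2 := by
  classical
  choose! gl hgl using htw
  let F : (G →* ℂˣ) → (G →* ℂ) := fun l => (Units.coeHom ℂ).comp l
  have hF : Function.Injective F := by
    intro l l' h
    ext x
    exact DFunLike.congr_fun h x
  have hli : LinearIndependent ℂ (fun l : Yset ω => ρ (gl l)) := by
    rw [linearIndependent_iff']
    intro s c hs l hl
    by_contra hc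
    have hM : ρ (gl l) ≠ 0 := by
      intro h0
      have h1 : ρ (gl l) * ρ (gl (l : G →* ℂˣ))⁻¹ = 1 := by rw [← map_mul]; simp
      rw [h0, zero_mul] at h1
      have h2 := congrFun (congrFun h1 ⟨0, by omega⟩) ⟨0, by omega⟩
      simp at h2
    obtain ⟨a, b, hab⟩ : ∃ a b, ρ (gl l) a b ≠ 0 := by
      by_contra hcon
      push Not at hcon
      exact hM (by ext a b; exact hcon a b)
    -- twisted relation
    have hx : ∀ x : G, ∑ i ∈ s, (c i * ρ (gl i) a b) * ((i : G →* ℂˣ) x : ℂ) = 0 := by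
      intro x
      have h1 : ∀ i ∈ s, c i • (ρ x⁻¹ * ρ (gl i) * ρ x) =
          (c i * ((i : G →* ℂˣ) x : ℂ)) • ρ (gl i) := by
        intro i _
        rw [mul_assoc, hgl i i.2 x, mul_smul_comm, ← mul_assoc, ← map_mul]
        simp [smul_smul]
      have h2 : ∑ i ∈ s, c i • (ρ x⁻¹ * ρ (gl i) * ρ x) = 0 := by
        have h3 : ∑ i ∈ s, c i • (ρ x⁻¹ * ρ (gl i) * ρ x) =
            ρ x⁻¹ * (∑ i ∈ s, c i • ρ (gl i)) * ρ x := by
          rw [Finset.mul_sum, Finset.sum_mul]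
          refine Finset.sum_congr rfl fun i _ => ?_
          rw [mul_smul_comm, smul_mul_assoc]
        rw [h3, hs]
        simp
      rw [Finset.sum_congr rfl h1] at h2
      have h4 := congrFun (congrFun h2 a) b
      rw [Matrix.sum_apply, Matrix.zero_apply] at h4
      rw [← h4]
      refine Finset.sum_congr rfl fun i _ => ?_
      rw [Matrix.smul_apply, smul_eq_mul]
      ring
    have hchar := (linearIndependent_monoidHom G ℂ).comp (fun i : Yset ω => F i)
      (fun i i' h => Subtype.ext (hF h))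
    rw [linearIndependent_iff'] at hchar
    have h5 := hchar s (fun i => c i * ρ (gl i) a b) (by
      ext x
      rw [Finset.sum_apply]
      simpa [F] using hx x) l hl
    rcases mul_eq_zero.1 h5 with h | h
    · exact hc h
    · exact hab h
  have hfin : Finite (Yset ω) := by
    have : (Yset ω).Finite := by
      have hs : Yset ω ⊆ Set.range (fun g : lc G j =>
          if h : ∃ l : G →* ℂˣ, ∀ x, l x = ω (brk g x) then h.choose else 1) := by
        rintro l ⟨g, hg⟩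
        refine ⟨g, ?_⟩
        have hex : ∃ l : G →* ℂˣ, ∀ x, l x = ω (brk g x) := ⟨l, hg⟩
        simp only [hex, dif_pos]
        ext x
        rw [hex.choose_spec x, hg x]
      exact (Set.finite_range _).subset hs
    exact this
  have := Fintype.ofFinite (Yset ω)
  have h6 := hli.fintype_card_le_finrank
  rw [Module.finrank_matrix] at h6
  simp only [Fintype.card_fin, Module.finrank_self, mul_one] at h6
  rw [← Nat.card_coe_set_eq, Nat.card_eq_fintype_card, sq]
  exact h6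

end Lev

open Lev in
theorem p_Lev (hF : S_Form) : S_Lev := by
  classical
  intro G _ _ hnil D hD χ hχ
  obtain ⟨ρ, hρ, htr⟩ := hχ
  have hex : ∃ n, lc G n ≤ Zs ρ := by
    obtain ⟨n, hn⟩ := Subgroup.nilpotent_iff_lowerCentralSeries.1 hnil
    refine ⟨n, ?_⟩
    rw [lc, hn]
    exact bot_le
  have hn := Nat.find_spec hex
  have hmin : ∀ m < Nat.find hex, ¬ lc G m ≤ Zs ρ := fun m hm => Nat.find_min hex hm
  generalize Nat.find hex = n at hn hmin
  rcases n with _ | j
  · exact absurd hn (top_not hD hρ)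
  have hj := hmin j (Nat.lt_succ_self j)
  have hne : lc G (j + 1) ≠ lc G j := fun h => hj (h ▸ hn)
  refine ⟨j, ?_, (om0 ρ hρ hD j hn).toHomUnits, ?_⟩
  · refine le_trans ?_ (two_pow_le j hne (j + 1) le_rfl)
    exact Nat.le_mul_of_pos_right _ Nat.card_pos
  set ω := (om0 ρ hρ hD j hn).toHomUnits with hω
  have hsp : ∀ g : lc G (j + 1), ρ g = ((ω g : ℂˣ) : ℂ) • (1 : Matrix (Fin D) (Fin D) ℂ) :=
    om0_spec ρ hρ hD j hn
  have hinj : ∀ g : lc G (j + 1), ρ g = 1 → ω g = 1 := by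
    intro g hg
    have h1 := hsp g
    rw [hg] at h1
    have h2 := congrFun (congrFun h1 ⟨0, by omega⟩) ⟨0, by omega⟩
    simp only [Matrix.one_apply_eq, Matrix.smul_apply, smul_eq_mul, mul_one] at h2
    exact Units.ext h2.symm
  have hcen : Cen ω := by
    intro g hg
    apply hinj
    have hle : lc G (j + 1 + 1) ≤ ρ.ker := by
      change ⁅lc G (j + 1), (⊤ : Subgroup G)⁆ ≤ ρ.ker
      rw [Subgroup.commutator_le]
      intro a ha b _
      rw [MonoidHom.mem_ker, commutatorElement_def, map_mul, map_mul, map_mul, hn ha b]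
      have h1 : ρ a * ρ a⁻¹ = 1 := by rw [← map_mul]; simp
      have h2 : ρ b * ρ b⁻¹ = 1 := by rw [← map_mul]; simp
      rw [mul_assoc (ρ b), h1, mul_one, h2]
    exact MonoidHom.mem_ker.1 (hle hg)
  have htw : ∀ (g : lc G j) (x : G),
      ρ g * ρ x = ((ω (brk g x) : ℂˣ) : ℂ) • (ρ x * ρ g) := by
    intro g x
    have h1 : (g : G) * x = ⁅(g : G), x⁆ * (x * g) := by
      rw [commutatorElement_def]; group
    have h2 : ρ ⁅(g : G), x⁆ = ((ω (brk g x) : ℂˣ) : ℂ) • (1 : Matrix (Fin D) (Fin D) ℂ) :=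
      hsp (brk g x)
    rw [← map_mul, h1, map_mul, h2, smul_mul_assoc, one_mul, map_mul]
  have htwl : ∀ l ∈ Yset ω, ∃ g : G, ∀ x, ρ g * ρ x = ((l x : ℂˣ) : ℂ) • (ρ x * ρ g) := by
    rintro l ⟨g, hg⟩
    refine ⟨g, fun x => ?_⟩
    rw [hg x]
    exact htw g x
  refine ⟨hcen, ncard_le ρ hD ω htwl, ?_, ?_⟩
  · obtain ⟨β, hβ⟩ := hF G j ω hcen
    obtain ⟨g, hg, hgZ⟩ := SetLike.not_le_iff_exists.1 hj
    refine ⟨β ⟨g, hg⟩, ⟨⟨g, hg⟩, fun x => hβ _ x⟩, ?_⟩
    intro h1
    apply hgZ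
    intro x
    have h2 := htw ⟨g, hg⟩ x
    rw [← hβ, h1] at h2
    simpa using h2
  · intro l hl
    exact ⟨ρ, hρ, htr, htwl l hl⟩

end NilCut
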