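import Pool.Agent.Lib.MP_4ddf81_pr.Stm

/-!
# MP_4ddf81_pr : piece LimLow
-/

namespace NilCut

open Filter Topology

theorem p_LimLow : S_LimLow := by
  intro k N ε hε0 hε1 hN hk
  have hy : Tendsto (fun n => (N n : ℝ) / (k n : ℝ)) atTop (𝓝 0) := by
    have := hk.inv_tendsto_atTop
    refine this.congr fun n => ?_
    simp [inv_div]
  have hN2 : Tendsto N atTop atTop := tendsto_natCast_atTop_iff.1 hN
  have hgeo : Tendsto (fun n => 2 * ((1 : ℝ) / 2) ^ (N n)) atTop (𝓝 0) := by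
    have h1 : Tendsto (fun m : ℕ => 2 * ((1 : ℝ) / 2) ^ m) atTop (𝓝 (2 * 0)) :=
      (tendsto_pow_atTop_nhds_zero_of_lt_one (by norm_num) (by norm_num)).const_mul 2
    rw [mul_zero] at h1
    exact h1.comp hN2
  have hδ : (0 : ℝ) < (1 / 32 : ℝ) ^ (4 / ε) := Real.rpow_pos_of_pos (by norm_num) _
  have e1 : ∀ᶠ n in atTop, (N n : ℝ) / (k n : ℝ) < (1 / 32 : ℝ) ^ (4 / ε) :=
    hy.eventually (gt_mem_nhds hδ)
  have e2 : ∀ᶠ n in atTop, (N n : ℝ) / (k n : ℝ) < 1 := hy.eventually (gt_mem_nhds one_pos)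
  have e3 : ∀ᶠ n in atTop, (1 : ℝ) ≤ (k n : ℝ) / (N n : ℝ) := hk.eventually_ge_atTop 1
  have e4 : ∀ᶠ n in atTop, 4 / ε ≤ (N n : ℝ) := hN.eventually_ge_atTop (4 / ε)
  refine squeeze_zero' ?_ ?_ hgeo
  · exact Eventually.of_forall fun n => by positivity
  · filter_upwards [e1, e2, e3, e4] with n h1 h2 h3 h4
    have hNpos : (0 : ℝ) < (N n : ℝ) := lt_of_lt_of_le (by positivity) h4
    have hkpos : (0 : ℝ) < (k n : ℝ) := by
      rcases (Nat.cast_nonneg (α := ℝ) (k n)).lt_or_eq with h | h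
      · exact h
      · rw [← h] at h3
        norm_num at h3
    set y : ℝ := (N n : ℝ) / (k n : ℝ) with hydef
    have hy0 : 0 < y := by positivity
    set e : ℕ := N n - 1 - ⌊(1 - ε / 2) * (N n : ℝ)⌋₊ with hedef
    have he : (ε / 4) * (N n : ℝ) ≤ (e : ℝ) := by
      have f1 : (⌊(1 - ε / 2) * (N n : ℝ)⌋₊ : ℝ) ≤ (1 - ε / 2) * (N n : ℝ) :=
        Nat.floor_le (by
          apply mul_nonneg _ hNpos.le
          linarith)
      have f2 : N n ≤ e + 1 + ⌊(1 - ε / 2) * (N n : ℝ)⌋₊ := by omega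
      have f3 : (N n : ℝ) ≤ (e : ℝ) + 1 + (⌊(1 - ε / 2) * (N n : ℝ)⌋₊ : ℝ) := by
        exact_mod_cast f2
      have f4 : 1 ≤ (ε / 4) * (N n : ℝ) := by
        have := mul_le_mul_of_nonneg_left h4 (by positivity : (0 : ℝ) ≤ ε / 4)
        have f5 : ε / 4 * (4 / ε) = 1 := by field_simp
        linarith
      nlinarith
    have g1 : y ^ e ≤ (y ^ (ε / 4)) ^ (N n) := by
      rw [← Real.rpow_natCast y e, ← Real.rpow_natCast (y ^ (ε / 4)) (N n),
        ← Real.rpow_mul hy0.le]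
      exact Real.rpow_le_rpow_of_exponent_ge hy0 h2.le he
    have g2 : y ^ (ε / 4) ≤ 1 / 32 := by
      calc y ^ (ε / 4) ≤ ((1 / 32 : ℝ) ^ (4 / ε)) ^ (ε / 4) :=
            Real.rpow_le_rpow hy0.le h1.le (by positivity)
        _ = 1 / 32 := by
          rw [← Real.rpow_mul (by norm_num)]
          have : 4 / ε * (ε / 4) = 1 := by field_simp
          rw [this, Real.rpow_one]
    calc 2 * (16 : ℝ) ^ (N n) * y ^ e ≤ 2 * (16 : ℝ) ^ (N n) * (y ^ (ε / 4)) ^ (N n) := by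
          gcongr
      _ = 2 * (16 * y ^ (ε / 4)) ^ (N n) := by rw [mul_pow]; ring
      _ ≤ 2 * (1 / 2) ^ (N n) := by
          gcongr
          linarith

end NilCut
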