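import Pool.Agent.Lib.MP_4ddf81_pr.Stm

/-! The analytic limit for the upper bound (MP_4ddf81_pr). -/

namespace NilCut

open Filter Topology

namespace LimUp

lemma small (δ : ℝ) (hδ : 0 < δ) : ∀ᶠ x : ℝ in atTop,
    1 + 9 * Real.log x + 108 * (1 + Real.sqrt x) * Real.log x ^ 2 ≤
      δ * (x / (4 * Real.log x)) := by
  have h1 : (fun x : ℝ => Real.log x ^ (3 : ℝ)) =o[atTop] fun x => x ^ (1 / 2 : ℝ) :=
    isLittleO_log_rpow_rpow_atTop 3 (by norm_num)
  have h2 := h1.bound (show (0 : ℝ) < δ / (4 * 226) by positivity)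
  filter_upwards [h2, eventually_ge_atTop (Real.exp 1)] with x hx hxe
  have hx0 : 0 < x := lt_of_lt_of_le (Real.exp_pos 1) hxe
  have hl : 1 ≤ Real.log x := by
    rw [Real.le_log_iff_exp_le hx0]; exact hxe
  have hx1 : 1 ≤ x := le_trans (by
    have := Real.add_one_le_exp (1 : ℝ); linarith) hxe
  have hs : 1 ≤ Real.sqrt x := by
    rw [show (1 : ℝ) = Real.sqrt 1 by simp]
    exact Real.sqrt_le_sqrt hx1
  have hss : Real.sqrt x * Real.sqrt x = x := Real.mul_self_sqrt hx0.le
  have hx' : Real.log x ^ 3 ≤ δ / (4 * 226) * Real.sqrt x := by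
    have h3 : Real.log x ^ (3 : ℝ) = Real.log x ^ 3 := by
      rw [show (3 : ℝ) = ((3 : ℕ) : ℝ) by norm_num, Real.rpow_natCast]
    rw [h3, ← Real.sqrt_eq_rpow, Real.norm_eq_abs, Real.norm_eq_abs,
      abs_of_nonneg (by positivity), abs_of_nonneg (Real.sqrt_nonneg x)] at hx
    exact hx
  have hlog0 : 0 < 4 * Real.log x := by linarith
  rw [← mul_div_assoc, le_div_iff₀ hlog0]
  set l := Real.log x with hldef
  set s := Real.sqrt x with hsdef
  have e1 : 1 + 9 * l + 108 * (1 + s) * l ^ 2 ≤ 226 * s * l ^ 2 := by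
    have a1 : 1 ≤ s * l ^ 2 := by nlinarith [mul_self_nonneg (l - 1)]
    have a2 : l ≤ s * l ^ 2 := by nlinarith [mul_nonneg (sub_nonneg.mpr hs) (sq_nonneg l)]
    have a3 : l ^ 2 ≤ s * l ^ 2 := by nlinarith [sq_nonneg l]
    nlinarith
  calc (1 + 9 * l + 108 * (1 + s) * l ^ 2) * (4 * l)
      ≤ (226 * s * l ^ 2) * (4 * l) := mul_le_mul_of_nonneg_right e1 hlog0.le
    _ = (4 * 226) * s * l ^ 3 := by ring
    _ ≤ (4 * 226) * s * (δ / (4 * 226) * s) := by
        apply mul_le_mul_of_nonneg_left hx'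
        positivity
    _ = δ * (s * s) := by ring
    _ = δ * x := by rw [hss]

end LimUp

set_option maxHeartbeats 4000000 in
theorem p_LimUp : S_LimUp := by
  intro L k N ε hε hL hN hkN hLk hLN
  have hT : Tendsto (fun n => Real.exp (-(ε / 2 * (N n : ℝ)))) atTop (𝓝 0) := by
    apply Real.tendsto_exp_atBot.comp
    apply tendsto_neg_atTop_atBot.comp
    exact hN.const_mul_atTop (by positivity)
  refine squeeze_zero' (Eventually.of_forall fun n => by positivity) ?_ hT
  set c : ℝ := max 1 (4 * Real.log 64 / ε) with hc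
  filter_upwards [hL.eventually (LimUp.small (ε / 4) (by positivity)),
    hL.eventually (eventually_ge_atTop 4), hN.eventually (eventually_ge_atTop 1),
    hkN.eventually (eventually_ge_atTop (Real.exp c)), hLk, hLN] with n h1 h2 h3 h4 h5 h6
  have hNpos : (0 : ℝ) < N n := by linarith
  have hkpos : (0 : ℝ) < k n := by
    by_contra hcon
    have h0 : (k n : ℝ) / (N n : ℝ) ≤ 0 := div_nonpos_of_nonpos_of_nonneg (not_lt.mp hcon) hNpos.le
    have := Real.exp_pos c
    linarith
  have hratio : c ≤ Real.log ((k n : ℝ) / (N n : ℝ)) := by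
    rw [Real.le_log_iff_exp_le (by positivity)]
    exact h4
  have hr1 : 1 ≤ Real.log ((k n : ℝ) / (N n : ℝ)) := le_trans (le_max_left _ _) hratio
  have hr2 : 4 * Real.log 64 / ε ≤ Real.log ((k n : ℝ) / (N n : ℝ)) :=
    le_trans (le_max_right _ _) hratio
  set X : ℝ := (N n : ℝ) * Real.log ((k n : ℝ) / (N n : ℝ)) with hX
  have hXN : (N n : ℝ) ≤ X := by
    rw [hX]
    nlinarith
  have hlogsub : Real.log ((k n : ℝ) / (N n : ℝ)) = Real.log (k n) - Real.log (N n) :=
    Real.log_div hkpos.ne' hNpos.ne'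
  have hLpos : 0 < L n := by linarith
  have hlogL2 : 2 * Real.log 2 ≤ Real.log (L n) := by
    have : Real.log 4 ≤ Real.log (L n) := Real.log_le_log (by norm_num) h2
    have h42 : Real.log 4 = 2 * Real.log 2 := by
      rw [show (4 : ℝ) = 2 ^ 2 by norm_num, Real.log_pow]; norm_num
    linarith
  have hlog2 : (0.69 : ℝ) < Real.log 2 := by
    have := Real.log_two_gt_d9; linarith
  have hlog2' : Real.log 2 < 0.7 := by
    have := Real.log_two_lt_d9; linarith
  have hlogL1 : 1 ≤ Real.log (L n) := by linarith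
  have hNk : (N n : ℝ) ≤ (k n : ℝ) := by
    have h7 : (1 : ℝ) ≤ (k n : ℝ) / (N n : ℝ) := by
      have h8 := Real.add_one_le_exp c
      have h9 : (1 : ℝ) ≤ c := le_max_left _ _
      linarith
    rwa [le_div_iff₀ hNpos, one_mul] at h7
  have hlogN0 : 0 ≤ Real.log (N n) := Real.log_nonneg h3
  -- lower bound for X
  have key : L n / (4 * Real.log (L n)) ≤ X ∧ (N n : ℝ) ≤ L n ^ 2 := by
    rcases le_total ((k n : ℝ)) (L n ^ 2) with hcase | hcase
    · have hlogk : Real.log (k n) ≤ 2 * Real.log (L n) := by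
        have := Real.log_le_log hkpos hcase
        rwa [Real.log_pow, Nat.cast_ofNat] at this
      refine ⟨?_, le_trans hNk hcase⟩
      rw [div_le_iff₀ (by linarith)]
      have h7 : L n ≤ (N n : ℝ) * (2 * Real.log (L n)) :=
        le_trans h5 (mul_le_mul_of_nonneg_left hlogk hNpos.le)
      nlinarith
    · have h7 := h6 hcase
      have hlogk : 2 * Real.log (L n) ≤ Real.log (k n) := by
        have := Real.log_le_log (by positivity) hcase
        rwa [Real.log_pow, Nat.cast_ofNat] at this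
      have hlogN : Real.log (N n) ≤ Real.log 2 + Real.log (L n) := by
        rw [← Real.log_mul (by norm_num) hLpos.ne']
        exact Real.log_le_log hNpos h7
      have h8 : Real.log (k n) / 4 ≤ Real.log ((k n : ℝ) / (N n : ℝ)) := by
        rw [hlogsub]; linarith
      refine ⟨?_, by nlinarith⟩
      have h9 : L n / 4 ≤ X := by
        rw [hX]
        have h10 : (N n : ℝ) * (Real.log (k n) / 4) ≤
          (N n : ℝ) * Real.log ((k n : ℝ) / (N n : ℝ)) := mul_le_mul_of_nonneg_left h8 hNpos.le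
        linarith
      refine le_trans ?_ h9
      rw [div_le_div_iff₀ (by linarith) (by norm_num)]
      nlinarith
  obtain ⟨hX1, hNL⟩ := key
  have hlog2N : Real.log (2 * (N n : ℝ)) ≤ 3 * Real.log (L n) := by
    have h7 : Real.log (2 * (N n : ℝ)) ≤ Real.log (2 * L n ^ 2) :=
      Real.log_le_log (by linarith) (by linarith)
    have h8 : Real.log (2 * L n ^ 2) = Real.log 2 + 2 * Real.log (L n) := by
      rw [Real.log_mul (by norm_num) (by positivity), Real.log_pow]; norm_num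
    linarith
  have hlog2N0 : 0 ≤ Real.log (2 * (N n : ℝ)) := Real.log_nonneg (by linarith)
  have hexp1 : (64 : ℝ) ^ (N n) = Real.exp ((N n : ℝ) * Real.log 64) := by
    rw [mul_comm, Real.exp_mul, Real.exp_log (by norm_num), Real.rpow_natCast]
  have hexp2 : ((N n : ℝ) / (k n : ℝ)) ^ (ε * (N n : ℝ)) = Real.exp (-(ε * X)) := by
    rw [Real.rpow_def_of_pos (by positivity), Real.log_div hNpos.ne' hkpos.ne', hX, hlogsub]
    congr 1
    ring
  have hb0 : 0 ≤ 12 * (1 + Real.sqrt (L n)) * Real.log (2 * (N n : ℝ)) ^ 2 := by positivity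
  have hfac : 1 + (2 * (N n : ℝ)) ^ 3 * Real.exp (12 * (1 + Real.sqrt (L n)) *
      Real.log (2 * (N n : ℝ)) ^ 2) ≤ Real.exp (Real.log 2 + 3 * Real.log (2 * (N n : ℝ)) +
        12 * (1 + Real.sqrt (L n)) * Real.log (2 * (N n : ℝ)) ^ 2) := by
    rw [Real.exp_add, Real.exp_add, Real.exp_log (by norm_num)]
    have h7 : Real.exp (3 * Real.log (2 * (N n : ℝ))) = (2 * (N n : ℝ)) ^ 3 := by
      rw [mul_comm, Real.exp_mul, Real.exp_log (by linarith)]
      rw [show (3 : ℝ) = ((3 : ℕ) : ℝ) by norm_num, Real.rpow_natCast]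
    rw [h7]
    have h8 : 1 ≤ Real.exp (12 * (1 + Real.sqrt (L n)) * Real.log (2 * (N n : ℝ)) ^ 2) :=
      Real.one_le_exp hb0
    have h9 : 1 ≤ (2 * (N n : ℝ)) ^ 3 := one_le_pow₀ (by linarith)
    nlinarith
  have hsq : Real.log (2 * (N n : ℝ)) ^ 2 ≤ (3 * Real.log (L n)) ^ 2 :=
    pow_le_pow_left₀ hlog2N0 hlog2N 2
  have hs0 : 0 ≤ Real.sqrt (L n) := Real.sqrt_nonneg _
  have hmain : Real.log 2 + 3 * Real.log (2 * (N n : ℝ)) +
      12 * (1 + Real.sqrt (L n)) * Real.log (2 * (N n : ℝ)) ^ 2 ≤ ε / 4 * X := by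
    have h7 : ε / 4 * (L n / (4 * Real.log (L n))) ≤ ε / 4 * X :=
      mul_le_mul_of_nonneg_left hX1 (by positivity)
    have h8 : 12 * (1 + Real.sqrt (L n)) * Real.log (2 * (N n : ℝ)) ^ 2 ≤
        12 * (1 + Real.sqrt (L n)) * (3 * Real.log (L n)) ^ 2 :=
      mul_le_mul_of_nonneg_left hsq (by positivity)
    have h9 : 12 * (1 + Real.sqrt (L n)) * (3 * Real.log (L n)) ^ 2 =
        108 * (1 + Real.sqrt (L n)) * Real.log (L n) ^ 2 := by ring
    linarith
  have hN64 : (N n : ℝ) * Real.log 64 ≤ ε / 4 * X := by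
    rw [div_le_iff₀ hε] at hr2
    rw [hX]
    nlinarith
  rw [hexp1, hexp2, ← Real.exp_add]
  refine le_trans (mul_le_mul_of_nonneg_left hfac (Real.exp_pos _).le) ?_
  rw [← Real.exp_add]
  apply Real.exp_le_exp.mpr
  nlinarith

end NilCut
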