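import Pool.Agent.Lib.MP_4ddf81_pr.Stm

/-!
# MP_4ddf81_pr: linear characters
-/

namespace NilCut

namespace Lin

theorem card_hom (G : Type) [Group G] [Finite G] :
    Nat.card (G →* ℂˣ) = Nat.card (Abelianization (⊤ : Subgroup G)) := by
  have h1 : Nat.card (G →* ℂˣ) = Nat.card (Abelianization G →* ℂˣ) :=
    Nat.card_congr Abelianization.lift
  have h2 : Nat.card (Abelianization (⊤ : Subgroup G)) = Nat.card (Abelianization G) :=
    Nat.card_congr (Subgroup.topEquiv (G := G)).abelianizationCongr.toEquiv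
  have : NeZero (Monoid.exponent (Abelianization G)) := ⟨Monoid.exponent_ne_zero_of_finite⟩
  rw [h1, h2]
  exact CommGroup.card_monoidHom_of_hasEnoughRootsOfUnity (Abelianization G) ℂ

theorem exists_hom {G : Type} [Group G] {χ : G → ℂ} (h : IsIrrChar G 1 χ) :
    ∃ l : G →* ℂˣ, ∀ g, ((l g : ℂˣ) : ℂ) = χ g := by
  obtain ⟨ρ, -, hρ⟩ := h
  let f : G →* ℂ :=
    { toFun := fun g => ρ g 0 0
      map_one' := by simp
      map_mul' := fun g k => by
        rw [map_mul, Matrix.mul_apply]
        simp }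
  refine ⟨f.toHomUnits, fun g => ?_⟩
  rw [MonoidHom.coe_toHomUnits, hρ g, Matrix.trace_fin_one]
  rfl

end Lin

theorem p_Lin : S_Lin := by
  intro G _ _ F hF
  rw [← Lin.card_hom G]
  have hpos : Nat.card (G →* ℂˣ) ≠ 0 := by
    rw [Lin.card_hom G]
    exact Nat.card_pos.ne'
  have : Finite (G →* ℂˣ) := Nat.finite_of_card_ne_zero hpos
  choose f hf using fun χ : {χ // χ ∈ F} => Lin.exists_hom (hF χ.1 χ.2)
  have hinj : Function.Injective f := by
    intro χ χ' h
    apply Subtype.ext
    funext g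
    rw [← hf χ g, ← hf χ' g, h]
  have h1 := Nat.card_le_card_of_injective f hinj
  rwa [Nat.card_eq_fintype_card, Fintype.card_coe] at h1

end NilCut
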