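import Pool.Agent.Lib.MP_4ddf81_pr.Stm

set_option autoImplicit false

namespace NilCut

open Filter Topology

theorem p_Low (hI : S_LowIneq) (hL : S_LimLow) (hS : S_Reg) : S_Low := by
  intro G _ _ k hreg ε hε hε1 δ hδ
  obtain ⟨hN, -, -⟩ := hS G k hreg
  have hkN := hreg.sub
  have hlim := hL k (fun n => nStar (G n) (k n)) ε hε hε1 hN hkN
  have e1 : ∀ᶠ n in atTop, (2 : ℝ) ≤ (nStar (G n) (k n) : ℝ) := hN.eventually_ge_atTop 2
  have e2 : ∀ᶠ n in atTop, 2 / ε ≤ (nStar (G n) (k n) : ℝ) := hN.eventually_ge_atTop _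
  have e3 : ∀ᶠ n in atTop, (1 : ℝ) ≤ (k n : ℝ) / (nStar (G n) (k n) : ℝ) :=
    hkN.eventually_ge_atTop 1
  have e4 := hlim.eventually (gt_mem_nhds hδ)
  filter_upwards [e1, e2, e3, e4] with n h1 h2 h3 h4 Z
  have hN2 : 2 ≤ nStar (G n) (k n) := by exact_mod_cast h1
  have hNk : nStar (G n) (k n) ≤ k n := by
    rw [le_div_iff₀ (by linarith), one_mul] at h3
    exact_mod_cast h3
  have hgood : ¬ good (G n) (k n) (nStar (G n) (k n) - 1) := by
    have h5 : nStar (G n) (k n) - 1 < sInf {m | good (G n) (k n) m} := by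
      have : nStar (G n) (k n) - 1 < nStar (G n) (k n) := by omega
      exact this
    exact Nat.notMem_of_lt_sInf h5
  have hfl : ⌊(1 - ε / 2) * (nStar (G n) (k n) : ℝ)⌋₊ + 1 ≤ nStar (G n) (k n) := by
    have h6 : (0 : ℝ) ≤ (1 - ε / 2) * (nStar (G n) (k n) : ℝ) :=
      mul_nonneg (by linarith) (by linarith)
    have h7 := Nat.floor_le h6
    have h8 : 2 ≤ ε * (nStar (G n) (k n) : ℝ) := by
      rw [div_le_iff₀ hε] at h2
      linarith
    have h9 : ((⌊(1 - ε / 2) * (nStar (G n) (k n) : ℝ)⌋₊ + 1 : ℕ) : ℝ) ≤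
        (nStar (G n) (k n) : ℝ) := by
      push_cast
      linarith
    exact_mod_cast h9
  exact (hI (G n) (k n) (nStar (G n) (k n)) _ Z (by omega) hNk hN2 hfl hgood).trans h4.le

end NilCut
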