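import Pool.Agent.Lib.MP_4ddf81_pr.Stm

/-!
# MP_4ddf81_pr: the number of the reached elements before the cutoff time
-/

namespace NilCut

namespace LowIneq

/-- the binomial estimate -/
theorem choose_bound (K M n : ℕ) (hn : n ≤ M) (hM : 1 ≤ M) (hK : M ≤ K) :
    (Nat.choose (K + n) n : ℝ) * ((M : ℝ) ^ M / (K : ℝ) ^ M) ≤
      6 ^ M * ((M : ℝ) / (K : ℝ)) ^ (M - n) := by
  have hM0 : (0 : ℝ) < M := by exact_mod_cast hM
  have hK0 : (0 : ℝ) < K := by exact_mod_cast (by omega : 0 < K)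
  have hnK : (n : ℝ) ≤ K := by exact_mod_cast hn.trans hK
  have h1 : (Nat.choose (K + n) n : ℝ) ≤ (2 * (K : ℝ)) ^ n / (n.factorial : ℝ) := by
    refine (Nat.choose_le_pow_div n (K + n)).trans ?_
    refine div_le_div_of_nonneg_right ?_ (by positivity)
    push_cast
    exact pow_le_pow_left₀ (by positivity) (by linarith) n
  have h2 : (M : ℝ) ^ n / (n.factorial : ℝ) ≤ 3 ^ M := by
    refine (Real.pow_div_factorial_le_exp (M : ℝ) hM0.le n).trans ?_
    have h3 : Real.exp (M : ℝ) = Real.exp 1 ^ M := by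
      rw [← Real.exp_nat_mul, mul_one]
    rw [h3]
    exact pow_le_pow_left₀ (Real.exp_pos 1).le Real.exp_one_lt_three.le M
  have h4 : (M : ℝ) ^ M = (M : ℝ) ^ n * (M : ℝ) ^ (M - n) := by
    rw [← pow_add, Nat.add_sub_cancel' hn]
  have h5 : (K : ℝ) ^ M = (K : ℝ) ^ n * (K : ℝ) ^ (M - n) := by
    rw [← pow_add, Nat.add_sub_cancel' hn]
  have hf : (0 : ℝ) < (n.factorial : ℝ) := by exact_mod_cast n.factorial_pos
  calc (Nat.choose (K + n) n : ℝ) * ((M : ℝ) ^ M / (K : ℝ) ^ M)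
      ≤ (2 * (K : ℝ)) ^ n / (n.factorial : ℝ) * ((M : ℝ) ^ M / (K : ℝ) ^ M) :=
        mul_le_mul_of_nonneg_right h1 (by positivity)
    _ = 2 ^ n * ((M : ℝ) ^ n / (n.factorial : ℝ)) * ((M : ℝ) / (K : ℝ)) ^ (M - n) := by
      rw [h4, h5, div_pow, mul_pow]
      field_simp
    _ ≤ 2 ^ M * 3 ^ M * ((M : ℝ) / (K : ℝ)) ^ (M - n) := by
      refine mul_le_mul_of_nonneg_right ?_ (by positivity)
      refine mul_le_mul (pow_le_pow_right₀ (by norm_num) hn) h2 (by positivity) (by positivity)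
    _ = 6 ^ M * ((M : ℝ) / (K : ℝ)) ^ (M - n) := by
      rw [← mul_pow]
      norm_num

end LowIneq

theorem p_LowIneq (h1 : S_L1) (h2 : S_L2) : S_LowIneq := by
  intro G _ _ k N n Z hk hNk hN hn hgood
  obtain ⟨M, rfl⟩ : ∃ M, N = M + 1 := ⟨N - 1, by omega⟩
  rw [Nat.add_sub_cancel] at hgood ⊢
  have hM : 1 ≤ M := by omega
  have hnM : n ≤ M := by omega
  have hk0 : (0 : ℝ) < k := by exact_mod_cast (by omega : 0 < k)
  have hG : (0 : ℝ) < (Nat.card G : ℝ) := by exact_mod_cast Nat.card_pos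
  have hM0 : (0 : ℝ) < M := by exact_mod_cast hM
  set y : ℝ := ((M + 1 : ℕ) : ℝ) / (k : ℝ) with hy
  have hy0 : 0 < y := by positivity
  have h16 : (1 : ℝ) ≤ 16 ^ (M + 1) := one_le_pow₀ (by norm_num)
  by_cases hc : Nat.card G ≤ k ^ M
  · -- a subgroup with a large abelianisation
    obtain ⟨H, hH⟩ : ∃ H : Subgroup G,
        (k * H.index) ^ M < Nat.card (Abelianization H) * M ^ M := by
      by_contra hcon
      push Not at hcon
      exact hgood ⟨hM, hc, hcon⟩
    have hD : 1 ≤ H.index := Nat.one_le_iff_ne_zero.mpr H.index_ne_zero_of_finite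
    set K : ℕ := k * H.index with hK
    have hkK : k ≤ K := by
      rw [hK]
      exact Nat.le_mul_of_pos_right k hD
    have hK0 : (0 : ℝ) < K := by exact_mod_cast (by omega : 0 < K)
    have hA : (0 : ℝ) < (Nat.card (Abelianization H) : ℝ) := by exact_mod_cast Nat.card_pos
    have e1 : (Nat.card (reach Z n) : ℝ) / (Nat.card G : ℝ) ≤
        (Nat.choose (K + n) n : ℝ) / (Nat.card (Abelianization H) : ℝ) := by
      rw [div_le_div_iff₀ hG hA]
      have := h1 G k Z n H
      rw [mul_comm (Nat.choose (K + n) n : ℝ)]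
      exact_mod_cast this
    have e2 : (1 : ℝ) / (Nat.card (Abelianization H) : ℝ) ≤ (M : ℝ) ^ M / (K : ℝ) ^ M := by
      rw [div_le_div_iff₀ hA (by positivity), one_mul, mul_comm]
      have : ((K : ℝ)) ^ M < (Nat.card (Abelianization H) : ℝ) * (M : ℝ) ^ M := by
        exact_mod_cast hH
      linarith
    have e3 := LowIneq.choose_bound K M n hnM hM (by omega)
    have e4 : ((M : ℝ) / (K : ℝ)) ^ (M - n) ≤ y ^ (M - n) := by
      refine pow_le_pow_left₀ (by positivity) ?_ _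
      rw [hy]
      have hkK' : (k : ℝ) ≤ K := by exact_mod_cast hkK
      have : (M : ℝ) ≤ ((M + 1 : ℕ) : ℝ) := by push_cast; linarith
      exact div_le_div₀ (by positivity) this hk0 hkK'
    calc (Nat.card (reach Z n) : ℝ) / (Nat.card G : ℝ)
        ≤ (Nat.choose (K + n) n : ℝ) * (1 / (Nat.card (Abelianization H) : ℝ)) := by
          rw [mul_one_div]
          exact e1
      _ ≤ (Nat.choose (K + n) n : ℝ) * ((M : ℝ) ^ M / (K : ℝ) ^ M) :=
          mul_le_mul_of_nonneg_left e2 (by positivity)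
      _ ≤ 6 ^ M * ((M : ℝ) / (K : ℝ)) ^ (M - n) := e3
      _ ≤ (2 * 16 ^ (M + 1)) * y ^ (M - n) := by
        refine mul_le_mul ?_ e4 (by positivity) (by positivity)
        have e5 : (6 : ℝ) ^ M ≤ 16 ^ M := pow_le_pow_left₀ (by norm_num) (by norm_num) M
        have e6 : (16 : ℝ) ^ M ≤ 16 ^ (M + 1) := pow_le_pow_right₀ (by norm_num) (by omega)
        linarith
  · push Not at hc
    have hc' : (k : ℝ) ^ M ≤ (Nat.card G : ℝ) := by exact_mod_cast hc.le
    have e1 : (Nat.card (reach Z n) : ℝ) ≤ 2 * (k : ℝ) ^ n := by exact_mod_cast h2 G k Z n hk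
    have e2 : (k : ℝ) ^ M = (k : ℝ) ^ n * (k : ℝ) ^ (M - n) := by
      rw [← pow_add, Nat.add_sub_cancel' hnM]
    calc (Nat.card (reach Z n) : ℝ) / (Nat.card G : ℝ)
        ≤ 2 * (k : ℝ) ^ n / (k : ℝ) ^ M :=
          div_le_div₀ (by positivity) e1 (by positivity) hc'
      _ = 2 * (1 / (k : ℝ)) ^ (M - n) := by
        rw [e2, div_pow, one_pow]
        field_simp
      _ ≤ 2 * 16 ^ (M + 1) * y ^ (M - n) := by
        have e3 : (1 / (k : ℝ)) ^ (M - n) ≤ y ^ (M - n) := by
          refine pow_le_pow_left₀ (by positivity) ?_ _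
          rw [hy]
          refine div_le_div_of_nonneg_right ?_ hk0.le
          push_cast
          linarith
        have e4 : 0 ≤ y ^ (M - n) := by positivity
        nlinarith

end NilCut
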