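import Pool.Agent.Lib.MP_4ddf81_pr.Stm

/-! The product of the orders of the factors of the lower central series. -/

namespace NilCut

namespace Lprod

theorem lc_le (G : Type) [Group G] (i : ℕ) : lc G (i + 1) ≤ lc G i :=
  Subgroup.lowerCentralSeries_antitone (⊤ : Subgroup G) (Nat.le_succ i)

theorem prod_relIndex (G : Type) [Group G] (j : ℕ) :
    ∏ i ∈ Finset.range j, Lsz G i = (lc G j).index := by
  induction j with
  | zero =>
    have h : lc G 0 = ⊤ := rfl
    rw [h, Subgroup.index_top]
    rfl
  | succ j ih =>
    rw [Finset.prod_range_succ, ih, mul_comm]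
    exact Subgroup.relIndex_mul_index (lc_le G j)

end Lprod

theorem p_Lprod : S_Lprod := by
  intro G _ _ j
  rw [Lprod.prod_relIndex]
  exact Nat.le_of_dvd Nat.card_pos (Subgroup.index_dvd_card _)

end NilCut
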