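import Pool.Agent.Lib.MP_4ddf81_pr.Stm

/-!
# MP_4ddf81_pr, piece Main: assembly of the cutoff theorem
-/

set_option autoImplicit false

open Filter Topology

namespace NilCut

namespace Main

lemma card_fun' (G : Type) [Fintype G] (k : ℕ) :
    Nat.card (Fin k → G) = Nat.card G ^ k := by
  classical
  rw [Nat.card_eq_fintype_card, Nat.card_eq_fintype_card, Fintype.card_fun, Fintype.card_fin]

lemma prob_all {G : Type} [Group G] [Fintype G] (k : ℕ) (P : (Fin k → G) → Prop)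
    (h : ∀ Z, P Z) : prob G k P = 1 := by
  unfold prob
  have h1 : Nat.card {Z : Fin k → G // P Z} = Nat.card (Fin k → G) :=
    Nat.card_congr (Equiv.subtypeUnivEquiv h)
  rw [h1]
  have : (Nat.card (Fin k → G) : ℝ) ≠ 0 := by
    exact_mod_cast Nat.card_pos.ne'
  exact div_self this

lemma prob_le {G : Type} [Group G] [Fintype G] (k : ℕ) (P : (Fin k → G) → Prop) :
    prob G k P ≤ 1 := by
  unfold prob
  have h0 : (0 : ℝ) < Nat.card (Fin k → G) := by
    exact_mod_cast Nat.card_pos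
  rw [div_le_one h0]
  exact_mod_cast Finite.card_subtype_le P

lemma tv_nonneg {G : Type} [Group G] [Fintype G] {k : ℕ} (Z : Fin k → G) (n : ℕ) :
    0 ≤ tvStep Z n := by
  unfold tvStep
  positivity

/-- Markov -/
lemma markov {G : Type} [Group G] [Fintype G] (k : ℕ) (P : (Fin k → G) → Prop) (f : (Fin k → G) → ℝ)
    (hf : ∀ Z, 0 ≤ f Z) {δ : ℝ} (hδ : 0 < δ) (h : ∀ Z, f Z ≤ δ / 2 → P Z) :
    1 - (2 / δ) * ((∑ Z : Fin k → G, f Z) / (Nat.card G : ℝ) ^ k) ≤ prob G k P := by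
  classical
  unfold prob
  have hcard : (Nat.card (Fin k → G) : ℝ) = (Nat.card G : ℝ) ^ k := by
    rw [card_fun']; push_cast; rfl
  have h0 : (0 : ℝ) < (Nat.card G : ℝ) ^ k := by
    have : (0 : ℝ) < Nat.card G := by exact_mod_cast Nat.card_pos
    positivity
  have h1 : (Nat.card {Z : Fin k → G // P Z} : ℝ) =
      ((Finset.univ.filter P).card : ℝ) := by
    rw [Nat.card_eq_fintype_card, Fintype.card_subtype]
  have h2 : ((Finset.univ.filter P).card : ℝ) + ((Finset.univ.filter (fun Z => ¬ P Z)).card : ℝ) =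
      (Nat.card G : ℝ) ^ k := by
    rw [← hcard, Nat.card_eq_fintype_card, ← Finset.card_univ]
    exact_mod_cast Finset.card_filter_add_card_filter_not (s := (Finset.univ : Finset (Fin k → G)))
      (p := P)
  have h3 : (δ / 2) * ((Finset.univ.filter (fun Z => ¬ P Z)).card : ℝ) ≤ ∑ Z : Fin k → G, f Z := by
    calc (δ / 2) * ((Finset.univ.filter (fun Z => ¬ P Z)).card : ℝ)
        = ∑ Z ∈ Finset.univ.filter (fun Z => ¬ P Z), δ / 2 := by
          rw [Finset.sum_const, nsmul_eq_mul, mul_comm]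
      _ ≤ ∑ Z ∈ Finset.univ.filter (fun Z => ¬ P Z), f Z := by
          refine Finset.sum_le_sum fun Z hZ => ?_
          by_contra hcon
          exact (Finset.mem_filter.1 hZ).2 (h Z (not_le.1 hcon).le)
      _ ≤ ∑ Z, f Z := Finset.sum_le_sum_of_subset_of_nonneg (Finset.filter_subset _ _)
          (fun Z _ _ => hf Z)
  rw [h1, hcard, le_div_iff₀ h0, sub_mul, one_mul, mul_assoc, div_mul_cancel₀ _ h0.ne']
  have h4 : ((Finset.univ.filter (fun Z => ¬ P Z)).card : ℝ) ≤ (2 / δ) * ∑ Z : Fin k → G, f Z := by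
    have h5 := mul_le_mul_of_nonneg_left h3 (by positivity : (0 : ℝ) ≤ 2 / δ)
    have h6 : (2 / δ) * ((δ / 2) * ((Finset.univ.filter (fun Z => ¬ P Z)).card : ℝ)) =
        ((Finset.univ.filter (fun Z => ¬ P Z)).card : ℝ) := by
      field_simp
    rwa [h6] at h5
  linarith

lemma exp_lim {N : ℕ → ℝ} (hN : Tendsto N atTop atTop) {a : ℝ} (ha : 0 < a) {δ : ℝ} (hδ : 0 < δ) :
    ∀ᶠ n in atTop, Real.exp (-(a * N n)) ≤ δ := by
  have h1 : Tendsto (fun n => Real.exp (-(a * N n))) atTop (𝓝 0) :=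
    Real.tendsto_exp_neg_atTop_nhds_zero.comp (Tendsto.const_mul_atTop ha hN)
  exact (h1.eventually (gt_mem_nhds hδ)).mono fun n hn => le_of_lt hn

lemma k_pos {G : ℕ → Type} [∀ n, Group (G n)] [∀ n, Fintype (G n)] {k : ℕ → ℕ}
    (hR : Reg G k) : ∀ᶠ n in atTop, 0 < k n := by
  filter_upwards [hR.sub.eventually_ge_atTop 1] with n hn
  rcases Nat.eq_zero_or_pos (k n) with h | h
  · rw [h] at hn
    norm_num at hn
  · exact h

end Main

theorem p_Main (hT2 : S_T2) (hT3 : S_T3) (hP1 : S_P1) (hP2 : S_P2) (hU : S_Up) (hLo : S_Low)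
    (hS : S_Reg) : S_Main := by
  intro G _ _ k hnil hR
  have hN := (hS G k hR).1
  have hk := Main.k_pos hR
  constructor
  · intro ε hε hε1 δ hδ
    have h1ε : 0 < 1 - ε := by linarith
    have hr : 1 < (1 - ε / 2) / (1 - ε) := by
      rw [lt_div_iff₀ h1ε]; linarith
    set d : ℝ := min 1 ((1 - ε / 2) / (1 - ε) - 1) with hd
    have hd0 : 0 < d := lt_min one_pos (by linarith)
    have hd1 : d ≤ 1 := min_le_left _ _
    have hd2 : 1 + d ≤ (1 - ε / 2) / (1 - ε) := by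
      have := min_le_right 1 ((1 - ε / 2) / (1 - ε) - 1)
      rw [← hd] at this
      linarith
    have hexp := Main.exp_lim hN (a := d ^ 2 * (1 - ε) / 8) (by positivity)
      (δ := δ / 2) (by positivity)
    have hlow := hLo G k hR ε hε hε1 (δ / 2) (by positivity)
    refine tendsto_const_nhds.congr' ?_
    filter_upwards [hexp, hlow, hk] with n h1 h2 h3
    symm
    apply Main.prob_all
    intro Z
    have hNn : (0 : ℝ) ≤ (nStar (G n) (k n) : ℝ) := Nat.cast_nonneg _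
    have ht : 0 ≤ (1 - ε) * (nStar (G n) (k n) : ℝ) := by positivity
    have h4 : (1 + d) * ((1 - ε) * (nStar (G n) (k n) : ℝ)) ≤
        (⌊(1 - ε / 2) * (nStar (G n) (k n) : ℝ)⌋₊ : ℝ) + 1 := by
      calc (1 + d) * ((1 - ε) * (nStar (G n) (k n) : ℝ))
          ≤ (1 - ε / 2) / (1 - ε) * ((1 - ε) * (nStar (G n) (k n) : ℝ)) :=
            mul_le_mul_of_nonneg_right hd2 ht
        _ = (1 - ε / 2) * (nStar (G n) (k n) : ℝ) := by field_simp
        _ ≤ _ := (Nat.lt_floor_add_one _).le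
    have h5 := hP2 _ d _ ht hd0.le hd1 h4
    have h6 := hT3 (G n) (k n) Z ((1 - ε) * (nStar (G n) (k n) : ℝ))
      ⌊(1 - ε / 2) * (nStar (G n) (k n) : ℝ)⌋₊ h3 ht
    have h7 := h2 Z
    have h8 : Real.exp (-(d ^ 2 * ((1 - ε) * (nStar (G n) (k n) : ℝ)) / 8)) =
        Real.exp (-(d ^ 2 * (1 - ε) / 8 * (nStar (G n) (k n) : ℝ))) := by
      congr 1; ring
    rw [h8] at h5
    linarith
  · intro ε hε δ hδ
    set ε' : ℝ := min ε 1 with hε'
    have hε'0 : 0 < ε' := lt_min hε one_pos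
    have hε'1 : ε' ≤ 1 := min_le_right _ _
    have hε'2 : ε' ≤ ε := min_le_left _ _
    have h1ε : 0 < 1 + ε := by linarith
    set d : ℝ := 1 - (1 + ε' / 2) / (1 + ε) with hd
    have hfr : (1 + ε' / 2) / (1 + ε) < 1 := by
      rw [div_lt_one h1ε]; linarith
    have hfr0 : 0 < (1 + ε' / 2) / (1 + ε) := by positivity
    have hd0 : 0 < d := by rw [hd]; linarith
    have hd1 : d ≤ 1 := by rw [hd]; linarith
    have hexp := Main.exp_lim hN (a := d ^ 2 * (1 + ε) / 4) (by positivity)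
      (δ := δ / 2) (by positivity)
    have hup := hU G k hnil hR ε' hε'0 hε'1
    have hlim : Tendsto (fun n => 1 - (2 / δ) * ((∑ Z : Fin (k n) → G n,
        tvStep Z ⌈(1 + ε' / 2) * (nStar (G n) (k n) : ℝ)⌉₊) / (Nat.card (G n) : ℝ) ^ (k n)))
        atTop (𝓝 1) := by
      have := (hup.const_mul (2 / δ)).const_sub 1
      simpa using this
    refine tendsto_of_tendsto_of_tendsto_of_le_of_le' hlim tendsto_const_nhds ?_
      (Eventually.of_forall fun n => Main.prob_le _ _)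
    filter_upwards [hexp, hk] with n h1 h3
    apply Main.markov (k n) _ _ (fun Z => Main.tv_nonneg Z _) hδ
    intro Z hZ
    have hNn : (0 : ℝ) ≤ (nStar (G n) (k n) : ℝ) := Nat.cast_nonneg _
    have ht : 0 ≤ (1 + ε) * (nStar (G n) (k n) : ℝ) := by positivity
    have h4 : (⌈(1 + ε' / 2) * (nStar (G n) (k n) : ℝ)⌉₊ : ℝ) ≤
        (1 - d) * ((1 + ε) * (nStar (G n) (k n) : ℝ)) + 1 := by
      have e : (1 - d) * ((1 + ε) * (nStar (G n) (k n) : ℝ)) =
          (1 + ε' / 2) * (nStar (G n) (k n) : ℝ) := by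
        rw [hd]; field_simp; ring
      rw [e]
      exact (Nat.ceil_lt_add_one (by positivity)).le
    have h5 := hP1 _ d _ ht hd0.le hd1 h4
    have h6 := hT2 (G n) (k n) Z ((1 + ε) * (nStar (G n) (k n) : ℝ))
      ⌈(1 + ε' / 2) * (nStar (G n) (k n) : ℝ)⌉₊ h3 ht
    have h8 : Real.exp (-(d ^ 2 * ((1 + ε) * (nStar (G n) (k n) : ℝ)) / 4)) =
        Real.exp (-(d ^ 2 * (1 + ε) / 4 * (nStar (G n) (k n) : ℝ))) := by
      congr 1; ring
    rw [h8] at h5
    linarith

end NilCut
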