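import Pool.Agent.Lib.MP_4ddf81_pr.Stm

/-! Multilinearity of the left normed commutator (MP_4ddf81_pr). -/

namespace NilCut

namespace Mult

open scoped commutatorElement

variable {G : Type} [Group G]

lemma lncE_congr (h h' : ℕ → G) (j : ℕ) (hh : ∀ i ≤ j, h i = h' i) :
    lncE h j = lncE h' j := by
  induction j with
  | zero =>
    apply Subtype.ext
    exact hh 0 le_rfl
  | succ j ih =>
    have h1 := ih (fun i hi => hh i (Nat.le_succ_of_le hi))
    have h2 := hh (j + 1) le_rfl
    show brk (lncE h j) (h (j + 1)) = brk (lncE h' j) (h' (j + 1))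
    rw [h1, h2]

lemma brk_mem {j : ℕ} (a : lc G j) (ha : (a : G) ∈ lc G (j + 1)) (x : G) :
    (brk a x : G) ∈ lc G (j + 1 + 1) :=
  Subgroup.commutator_mem_commutator ha (Subgroup.mem_top x)

end Mult

theorem p_Mult (hF : S_Form) : S_Mult := by
  intro G _ j
  induction j with
  | zero =>
    intro ξ _ i hi h
    have hi0 : i = 0 := Nat.le_zero.mp hi
    subst hi0
    refine ⟨MonoidHom.mk' (fun g => ξ ⟨g, Subgroup.mem_top g⟩) ?_, ?_⟩
    · intro x y
      rw [← map_mul]
      rfl
    · intro g
      rw [MonoidHom.mk'_apply]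
      congr 1
  | succ j ih =>
    intro ξ hξ i hi h
    obtain ⟨β, hβ⟩ := hF G j ξ hξ
    rcases Nat.lt_or_ge j i with hji | hij
    · have hi' : i = j + 1 := le_antisymm hi hji
      subst hi'
      refine ⟨β (lncE h j), fun g => ?_⟩
      rw [hβ]
      show ξ (brk (lncE h j) g) = ξ (brk (lncE (Function.update h (j + 1) g) j)
        (Function.update h (j + 1) g (j + 1)))
      rw [Function.update_self, Mult.lncE_congr (Function.update h (j + 1) g) h j
        (fun i hi => Function.update_of_ne (by omega) _ _)]
    · have hζ : Cen (j := j) (MonoidHom.mk' (fun a => β a (h (j + 1)))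
          (fun x y => by rw [map_mul]; rfl)) := by
        intro a ha
        rw [MonoidHom.mk'_apply, hβ]
        exact hξ _ (Mult.brk_mem a ha _)
      obtain ⟨l, hl⟩ := ih _ hζ i hij h
      refine ⟨l, fun g => ?_⟩
      rw [hl g, MonoidHom.mk'_apply, hβ]
      show ξ (brk (lncE (Function.update h i g) j) (h (j + 1))) =
        ξ (brk (lncE (Function.update h i g) j) (Function.update h i g (j + 1)))
      rw [Function.update_of_ne (show j + 1 ≠ i by omega)]

end NilCut
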