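import Pool.Agent.Lib.MP_4ddf81_pr.Stm

/-!
# MP_4ddf81_pr : piece N
-/

namespace NilCut

theorem N.ineq (L LM D q E : ℝ) (hLM0 : 0 ≤ LM) (hLM : LM ≤ L) (hq : 2 ≤ q) (hE : 1 ≤ E)
    (hD : D = q * E) :
    (8 * Real.sqrt L + 7) * Real.log D + 12 * (1 + Real.sqrt LM) * Real.log E ^ 2 ≤
      12 * (1 + Real.sqrt L) * Real.log D ^ 2 := by
  have hlog : Real.log D = Real.log q + Real.log E := by
    rw [hD, Real.log_mul (by linarith) (by linarith)]
  have hq0 : (0.69 : ℝ) ≤ Real.log q := by
    have h1 : Real.log 2 ≤ Real.log q := Real.log_le_log (by norm_num) hq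
    have h2 := Real.log_two_gt_d9
    linarith
  have hE0 : 0 ≤ Real.log E := Real.log_nonneg hE
  have hs : Real.sqrt LM ≤ Real.sqrt L := Real.sqrt_le_sqrt hLM
  have hs0 : 0 ≤ Real.sqrt LM := Real.sqrt_nonneg _
  rw [hlog]
  set μ := Real.log q
  set ν := Real.log E
  set s := Real.sqrt L
  set s' := Real.sqrt LM
  have hs1 : 0 ≤ s := le_trans hs0 hs
  have h1 : 12 * (1 + s') * ν ^ 2 ≤ 12 * (1 + s) * ν ^ 2 := by
    have : 0 ≤ ν ^ 2 := sq_nonneg _
    nlinarith
  have h2 : (8 * s + 7) * (μ + ν) ≤ 12 * (1 + s) * (μ * (μ + 2 * ν)) := by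
    have h3 : (8 * s + 7) ≤ 12 * (1 + s) * 0.69 := by nlinarith
    have h4 : 12 * (1 + s) * 0.69 ≤ 12 * (1 + s) * μ := by
      apply mul_le_mul_of_nonneg_left hq0; positivity
    have h5 : (8 * s + 7) * (μ + ν) ≤ 12 * (1 + s) * μ * (μ + ν) :=
      mul_le_mul_of_nonneg_right (h3.trans h4) (by linarith)
    have h6 : 12 * (1 + s) * μ * (μ + ν) ≤ 12 * (1 + s) * (μ * (μ + 2 * ν)) := by
      have : 0 ≤ 12 * (1 + s) * (μ * ν) := by
        have : 0 ≤ μ * ν := mul_nonneg (by linarith) hE0
        positivity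
      nlinarith
    exact h5.trans h6
  nlinarith

theorem N.aux (hS : S_Step) (hC : S_Clif2) (hLin : S_Lin) (D : ℕ) :
    ∀ (G : Type) [Group G] [Finite G], Group.IsNilpotent G →
    1 ≤ D → ∀ F : Finset (G → ℂ), F.Nonempty → (∀ χ ∈ F, IsIrrChar G D χ) →
    ∃ H : Subgroup G, H.index = D ∧
      (F.card : ℝ) ≤ Real.exp (12 * (1 + Real.sqrt (Real.log (Nat.card G))) *
        Real.log D ^ 2) * (Nat.card (Abelianization H) : ℝ) := by
  induction D using Nat.strong_induction_on with
  | _ D ih =>
    intro G _ _ hnil hD F hF hFi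
    rcases Nat.lt_or_ge D 2 with hD1 | hD2
    · have hD' : D = 1 := by omega
      subst hD'
      refine ⟨⊤, Subgroup.index_top, ?_⟩
      have h1 := hLin G F hFi
      simp only [Nat.cast_one, Real.log_one]
      norm_num
      exact_mod_cast h1
    · obtain ⟨q, l, F₁, hq, hl, hlq, hsub, hne, htw, hcard⟩ := hS G hnil D hD2 F hF hFi
      obtain ⟨hidx, hC2⟩ := hC G D q hq (by omega) l hl hlq
      obtain ⟨hqD, F', hF'c, hF'i⟩ := hC2 F₁ hne htw
      have hqpos : 0 < q := hq.pos
      have hDq : D / q < D := Nat.div_lt_self (by omega) hq.one_lt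
      have hDq1 : 1 ≤ D / q := Nat.div_pos (Nat.le_of_dvd (by omega) hqD) hqpos
      have hF'ne : F'.Nonempty := by
        rw [← Finset.card_pos, hF'c, Finset.card_pos]; exact hne
      haveI : Group.IsNilpotent G := hnil
      obtain ⟨H', hH'i, hH'c⟩ := ih (D / q) hDq l.ker inferInstance hDq1 F' hF'ne hF'i
      have hDeq : D = q * (D / q) := (Nat.mul_div_cancel' hqD).symm
      refine ⟨H'.map l.ker.subtype, ?_, ?_⟩
      · rw [Subgroup.index_map_subtype, hH'i, hidx]
        rw [mul_comm]; exact hDeq.symm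
      · have hab : Nat.card (Abelianization (H'.map l.ker.subtype)) =
            Nat.card (Abelianization H') := by
          refine (Nat.card_congr ?_).symm
          exact ((H'.equivMapOfInjective l.ker.subtype
            (Subgroup.subtype_injective _)).abelianizationCongr).toEquiv
        rw [hab]
        have hMG : Nat.card l.ker ≤ Nat.card G :=
          Nat.card_le_card_of_injective (fun x : l.ker => (x : G)) Subtype.val_injective
        have hM1 : (1 : ℝ) ≤ (Nat.card l.ker : ℝ) := by
          exact_mod_cast Nat.card_pos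
        have hin := N.ineq (Real.log (Nat.card G)) (Real.log (Nat.card l.ker)) (D : ℝ) (q : ℝ)
          ((D / q : ℕ) : ℝ) (Real.log_nonneg hM1)
          (Real.log_le_log (by linarith) (by exact_mod_cast hMG)) (by exact_mod_cast hq.two_le)
          (by exact_mod_cast hDq1) (by exact_mod_cast hDeq)
        calc (F.card : ℝ) ≤ Real.exp ((8 * Real.sqrt (Real.log (Nat.card G)) + 7) *
              Real.log D) * (F₁.card : ℝ) := hcard
          _ = Real.exp ((8 * Real.sqrt (Real.log (Nat.card G)) + 7) *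
              Real.log D) * (F'.card : ℝ) := by rw [hF'c]
          _ ≤ Real.exp ((8 * Real.sqrt (Real.log (Nat.card G)) + 7) *
              Real.log D) * (Real.exp (12 * (1 + Real.sqrt (Real.log (Nat.card l.ker))) *
                Real.log ((D / q : ℕ) : ℝ) ^ 2) * (Nat.card (Abelianization H') : ℝ)) :=
              mul_le_mul_of_nonneg_left hH'c (Real.exp_pos _).le
          _ = Real.exp ((8 * Real.sqrt (Real.log (Nat.card G)) + 7) *
              Real.log D + 12 * (1 + Real.sqrt (Real.log (Nat.card l.ker))) *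
                Real.log ((D / q : ℕ) : ℝ) ^ 2) * (Nat.card (Abelianization H') : ℝ) := by
              rw [Real.exp_add]; ring
          _ ≤ _ := by
              apply mul_le_mul_of_nonneg_right (Real.exp_le_exp.2 hin)
              positivity

theorem p_N (hS : S_Step) (hC : S_Clif2) (hLin : S_Lin) : S_N := by
  intro G _ _ hnil D hD F hF hFi
  exact N.aux hS hC hLin D G hnil hD F hF hFi

end NilCut
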