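import Pool.Agent.Lib.MP_4ddf81_pr.Stm

/-!
# MP_4ddf81_pr : piece P1
-/

namespace NilCut

theorem p_P1 : S_P1 := by
  intro t δ n ht hδ hδ1 hn
  set x : ℝ := 1 - δ / 2 with hx
  have hx0 : 0 < x := by rw [hx]; linarith
  have hx1 : x ≤ 1 := by rw [hx]; linarith
  set a : ℝ := (1 - δ) * t with ha
  have ha0 : 0 ≤ a := mul_nonneg (by linarith) ht
  have h1 : ∀ i ∈ Finset.range n, pois t i ≤
      Real.exp (-t) * x ^ (-a) * ((t * x) ^ i / (i.factorial : ℝ)) := by
    intro i hi
    have hi' : (i : ℝ) + 1 ≤ n := by exact_mod_cast Finset.mem_range.1 hi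
    have hia : (i : ℝ) + -a ≤ 0 := by linarith
    have h2 : (1 : ℝ) ≤ x ^ i * x ^ (-a) := by
      rw [← Real.rpow_natCast x i, ← Real.rpow_add hx0]
      exact Real.one_le_rpow_of_pos_of_le_one_of_nonpos hx0 hx1 hia
    have h3 : 0 ≤ pois t i := by unfold pois; positivity
    calc pois t i = pois t i * 1 := (mul_one _).symm
      _ ≤ pois t i * (x ^ i * x ^ (-a)) := mul_le_mul_of_nonneg_left h2 h3
      _ = _ := by unfold pois; rw [mul_pow]; ring
  have h4 : ∑ i ∈ Finset.range n, (t * x) ^ i / (i.factorial : ℝ) ≤ Real.exp (t * x) :=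
    Real.sum_le_exp_of_nonneg (by positivity) n
  have h5 : 0 ≤ Real.exp (-t) * x ^ (-a) := by positivity
  calc ∑ i ∈ Finset.range n, pois t i
      ≤ ∑ i ∈ Finset.range n, Real.exp (-t) * x ^ (-a) * ((t * x) ^ i / (i.factorial : ℝ)) :=
        Finset.sum_le_sum h1
    _ = Real.exp (-t) * x ^ (-a) * ∑ i ∈ Finset.range n, (t * x) ^ i / (i.factorial : ℝ) := by
        rw [Finset.mul_sum]
    _ ≤ Real.exp (-t) * x ^ (-a) * Real.exp (t * x) := mul_le_mul_of_nonneg_left h4 h5
    _ = Real.exp (-t + Real.log x * (-a) + t * x) := by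
        rw [Real.rpow_def_of_pos hx0, ← Real.exp_add, ← Real.exp_add]
    _ ≤ Real.exp (-(δ ^ 2 * t / 4)) := by
        apply Real.exp_le_exp.2
        have hlog : 1 - x⁻¹ ≤ Real.log x := Real.one_sub_inv_le_log_of_pos hx0
        have h6 : Real.log x * (-a) ≤ (x⁻¹ - 1) * a := by nlinarith
        have h7 : (x⁻¹ - 1) * a - t * (1 - x) + δ ^ 2 * t / 4 ≤ 0 := by
          have h8 : x⁻¹ - 1 = (δ / 2) / x := by
            field_simp
            rw [hx]; ring
          have h9 : (x⁻¹ - 1) * a - t * (1 - x) + δ ^ 2 * t / 4 =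
              -(δ ^ 3 * t / 8) / x := by
            rw [h8, ha]
            field_simp
            rw [hx]; ring
          rw [h9]
          have : 0 ≤ δ ^ 3 * t / 8 / x := by positivity
          rw [neg_div]
          linarith
        nlinarith

end NilCut
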