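import Pool.Agent.Lib.MP_4ddf81_pr.Stm

/-!
# MP_4ddf81_pr : upper Poisson tail
-/

namespace NilCut

namespace P2

lemma hasSum_pois_mul (t x : ℝ) :
    HasSum (fun i => pois t i * x ^ i) (Real.exp (-t) * Real.exp (t * x)) := by
  have h := (NormedSpace.expSeries_div_hasSum_exp (t * x)).mul_left (Real.exp (-t))
  rw [← Real.exp_eq_exp_ℝ] at h
  refine h.congr_fun ?_
  intro i
  unfold pois
  rw [mul_pow]
  ring

lemma pois_nonneg {t : ℝ} (ht : 0 ≤ t) (i : ℕ) : 0 ≤ pois t i := by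
  unfold pois
  positivity

lemma chernoff (t x : ℝ) (n : ℕ) (ht : 0 ≤ t) (hx : 1 ≤ x) :
    1 ≤ ∑ i ∈ Finset.range (n + 1), pois t i +
      (x ^ (n + 1))⁻¹ * (Real.exp (-t) * Real.exp (t * x)) := by
  have h1 : HasSum (fun i => pois t i) 1 := by
    have h := hasSum_pois_mul t 1
    simp only [one_pow, mul_one] at h
    rwa [← Real.exp_add, neg_add_cancel, Real.exp_zero] at h
  have h2 : HasSum (fun i => if i ∈ Finset.range (n + 1) then pois t i else 0)
      (∑ i ∈ Finset.range (n + 1), pois t i) := by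
    have h : HasSum (fun i => if i ∈ Finset.range (n + 1) then pois t i else 0)
        (∑ i ∈ Finset.range (n + 1), if i ∈ Finset.range (n + 1) then pois t i else 0) :=
      hasSum_sum_of_ne_finset_zero (by intro b hb; simp only [if_neg hb])
    rwa [Finset.sum_congr rfl (fun i hi => if_pos hi)] at h
  have h3 := (hasSum_pois_mul t x).mul_left (x ^ (n + 1))⁻¹
  refine hasSum_le ?_ h1 (h2.add h3)
  intro i
  have hp := pois_nonneg ht i
  have hx0 : 0 < x := by linarith
  by_cases hi : i ∈ Finset.range (n + 1)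
  · simp only [if_pos hi]
    have : 0 ≤ (x ^ (n + 1))⁻¹ * (pois t i * x ^ i) := by positivity
    linarith
  · simp only [if_neg hi, zero_add]
    have hi' : n + 1 ≤ i := by simpa using hi
    have h4 : x ^ (n + 1) ≤ x ^ i := pow_le_pow_right₀ hx hi'
    have h5 : 0 < x ^ (n + 1) := by positivity
    have h6 : pois t i * 1 ≤ pois t i * ((x ^ (n + 1))⁻¹ * x ^ i) := by
      apply mul_le_mul_of_nonneg_left _ hp
      rw [inv_mul_eq_div, le_div_iff₀ h5]
      linarith
    calc pois t i = pois t i * 1 := (mul_one _).symm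
      _ ≤ pois t i * ((x ^ (n + 1))⁻¹ * x ^ i) := h6
      _ = _ := by ring

end P2

open P2 in
/-- Upper Poisson tail. -/
theorem p_P2 : S_P2 := by
  intro t δ n ht hδ hδ1 hn
  have hx : 1 ≤ 1 + δ / 2 := by linarith
  have hx0 : 0 < 1 + δ / 2 := by linarith
  have h := chernoff t (1 + δ / 2) n ht hx
  have hlog := Real.one_sub_inv_le_log_of_pos hx0
  have hlog0 : 0 ≤ Real.log (1 + δ / 2) := Real.log_nonneg hx
  have h1 : ((1 + δ / 2) ^ (n + 1))⁻¹ * (Real.exp (-t) * Real.exp (t * (1 + δ / 2))) ≤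
      Real.exp (-(δ ^ 2 * t / 8)) := by
    have e1 : ((1 + δ / 2) ^ (n + 1))⁻¹ = Real.exp (-((n + 1 : ℝ) * Real.log (1 + δ / 2))) := by
      rw [Real.exp_neg, mul_comm, Real.exp_mul, Real.exp_log hx0]
      norm_cast
    rw [e1, ← Real.exp_add, ← Real.exp_add]
    apply Real.exp_le_exp.2
    have h2 : (1 + δ) * t * Real.log (1 + δ / 2) ≤ ((n : ℝ) + 1) * Real.log (1 + δ / 2) :=
      mul_le_mul_of_nonneg_right hn hlog0
    have h3 : (1 + δ) * t * (1 - (1 + δ / 2)⁻¹) ≤ (1 + δ) * t * Real.log (1 + δ / 2) :=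
      mul_le_mul_of_nonneg_left hlog (by positivity)
    have h4 : -((1 + δ) * t * (1 - (1 + δ / 2)⁻¹)) + t * (δ / 2) ≤ -(δ ^ 2 * t / 8) := by
      have e2 : (1 + δ) * t * (1 - (1 + δ / 2)⁻¹) = (1 + δ) * t * (δ / 2) / (1 + δ / 2) := by
        field_simp
        ring
      rw [e2]
      have e3 : -((1 + δ) * t * (δ / 2) / (1 + δ / 2)) + t * (δ / 2) =
          -(t * δ ^ 2 / (4 * (1 + δ / 2))) := by
        field_simp
        ring
      rw [e3]
      have : δ ^ 2 * t / 8 ≤ t * δ ^ 2 / (4 * (1 + δ / 2)) := by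
        rw [div_le_div_iff₀ (by norm_num) (by positivity)]
        have : 0 ≤ t * δ ^ 2 := by positivity
        nlinarith
      linarith
    nlinarith
  linarith

end NilCut
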