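import Pool.Agent.Lib.MP_4ddf81_pr.Stm

/-! The sum over all permutations of the coincidence probabilities. -/

namespace NilCut

namespace Perm

/-- count of the coincidences by the regular character -/
theorem count {G : Type} [Group G] [Fintype G] (P : Planch G) {m : ℕ}
    (hA : S_AvTr) (c : Fin (m + 1) → G) (σ : Equiv.Perm (Fin m)) :
    (Nat.card G : ℂ) * (Nat.card {z : Fin m → G // altW c z = altW c (z ∘ σ)} : ℂ) =
      ∑ i, (P.d i : ℂ) * (((Nat.card G : ℂ) / (P.d i : ℂ)) ^ m *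
        ∑ p : Fin (m + 1) → Fin (P.d i),
          ∏ a, P.ρ i (c a * (c ((casP σ)⁻¹ a))⁻¹) (p a) (p (phiP σ a))) := by
  classical
  have e1 : (Nat.card G : ℂ) * (Nat.card {z : Fin m → G // altW c z = altW c (z ∘ σ)} : ℂ) =
      ∑ z : Fin m → G, if altW c z * (altW c (z ∘ σ))⁻¹ = 1 then (Nat.card G : ℂ) else 0 := by
    have e0 : Nat.card {z : Fin m → G // altW c z = altW c (z ∘ σ)} =
        (Finset.univ.filter fun z : Fin m → G => altW c z * (altW c (z ∘ σ))⁻¹ = 1).card := by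
      rw [Nat.card_eq_fintype_card, Fintype.card_subtype]
      simp only [mul_inv_eq_one]
    rw [e0, ← Finset.sum_filter, Finset.sum_const, nsmul_eq_mul, mul_comm]
  rw [e1]
  have e2 : ∀ z : Fin m → G,
      (if altW c z * (altW c (z ∘ σ))⁻¹ = 1 then (Nat.card G : ℂ) else 0) =
        ∑ i, (P.d i : ℂ) * (P.ρ i (altW c z * (altW c (z ∘ σ))⁻¹)).trace := by
    intro z
    have h := P.planch (altW c z * (altW c (z ∘ σ))⁻¹)
    rw [h]
  rw [Finset.sum_congr rfl fun z _ => e2 z, Finset.sum_comm]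
  refine Finset.sum_congr rfl fun i _ => ?_
  rw [← Finset.mul_sum, hA G (P.d i) (P.ρ i) (P.irr i) m c σ]

/-- the bound for one permutation -/
theorem bound {G : Type} [Group G] [Fintype G] (P : Planch G) {m : ℕ}
    (hL : S_Loops) (hA : S_AvTr) (c : Fin (m + 1) → G) (σ : Equiv.Perm (Fin m)) :
    (Nat.card G : ℝ) * (Nat.card {z : Fin m → G // altW c z = altW c (z ∘ σ)} : ℝ) ≤
      ∑ i, (P.d i : ℝ) * (((Nat.card G : ℝ) / (P.d i : ℝ)) ^ m *
        (fixN (P.d i) (phiP σ) : ℝ)) := by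
  have h := congrArg norm (count P hA c σ)
  rw [norm_mul, Complex.norm_natCast, Complex.norm_natCast] at h
  rw [h]
  refine (norm_sum_le _ _).trans (Finset.sum_le_sum fun i _ => ?_)
  rw [norm_mul, norm_mul, norm_pow, norm_div, Complex.norm_natCast, Complex.norm_natCast]
  have h2 := hL G (P.d i) (P.ρ i) (m + 1) (phiP σ) (fun a => c a * (c ((casP σ)⁻¹ a))⁻¹)
  gcongr

/-- the sum over the permutations of the number of the fixed colourings -/
theorem sumFix (hF : S_Fix) (hP : S_Phi) (m d : ℕ) :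
    ∑ σ : Equiv.Perm (Fin m), (fixN d (phiP σ) : ℝ) ≤
      ∏ j ∈ Finset.range (m + 1), ((d : ℝ) + (j : ℝ)) := by
  classical
  have h1 : ∑ σ : Equiv.Perm (Fin m), (fixN d (phiP σ) : ℝ) ≤
      ∑ φ : Equiv.Perm (Fin (m + 1)), (fixN d φ : ℝ) := by
    rw [← Finset.sum_image (s := Finset.univ) (g := (phiP : Equiv.Perm (Fin m) → _))
      (f := fun φ => (fixN d φ : ℝ)) (fun x _ y _ h => hP m h)]
    exact Finset.sum_le_sum_of_subset_of_nonneg (Finset.subset_univ _)
      (fun _ _ _ => Nat.cast_nonneg _)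
  refine h1.trans (le_of_eq ?_)
  have h2 := hF (m + 1) d
  have h3 := congrArg (fun n : ℕ => (n : ℝ)) h2
  push_cast at h3
  exact h3

/-- the product formula for one degree -/
theorem degree {d : ℕ} (hd : 0 < d) (m : ℕ) (N : ℝ) :
    (d : ℝ) * ((N / (d : ℝ)) ^ m * ∏ j ∈ Finset.range (m + 1), ((d : ℝ) + (j : ℝ))) =
      N ^ m * ((d : ℝ) ^ 2 * ∏ j ∈ Finset.range m, (1 + ((j : ℝ) + 1) / (d : ℝ))) := by
  have hd' : (d : ℝ) ≠ 0 := by positivity
  have h1 : ∏ j ∈ Finset.range (m + 1), ((d : ℝ) + (j : ℝ)) =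
      (d : ℝ) ^ m * (∏ j ∈ Finset.range m, (1 + ((j : ℝ) + 1) / (d : ℝ))) * (d : ℝ) := by
    rw [Finset.prod_range_succ']
    have h2 : ∏ j ∈ Finset.range m, ((d : ℝ) + ((j + 1 : ℕ) : ℝ)) =
        (d : ℝ) ^ m * ∏ j ∈ Finset.range m, (1 + ((j : ℝ) + 1) / (d : ℝ)) := by
      rw [← Finset.card_range m, ← Finset.prod_const, Finset.card_range,
        ← Finset.prod_mul_distrib]
      refine Finset.prod_congr rfl fun j _ => ?_
      push_cast
      field_simp
    rw [h2]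
    simp
  rw [h1, div_pow]
  field_simp

end Perm

theorem p_Perm (hL : S_Loops) (hF : S_Fix) (hP : S_Phi) (hA : S_AvTr) : S_Perm := by
  classical
  intro G _ _ P m c
  calc ∑ σ : Equiv.Perm (Fin m), (Nat.card G : ℝ) *
      (Nat.card {z : Fin m → G // altW c z = altW c (z ∘ σ)} : ℝ)
      ≤ ∑ σ : Equiv.Perm (Fin m), ∑ i, (P.d i : ℝ) * (((Nat.card G : ℝ) / (P.d i : ℝ)) ^ m *
        (fixN (P.d i) (phiP σ) : ℝ)) := Finset.sum_le_sum fun σ _ => Perm.bound P hL hA c σ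
    _ = ∑ i, (P.d i : ℝ) * (((Nat.card G : ℝ) / (P.d i : ℝ)) ^ m *
        ∑ σ : Equiv.Perm (Fin m), (fixN (P.d i) (phiP σ) : ℝ)) := by
      rw [Finset.sum_comm]
      refine Finset.sum_congr rfl fun i _ => ?_
      rw [Finset.mul_sum, Finset.mul_sum]
    _ ≤ ∑ i, (P.d i : ℝ) * (((Nat.card G : ℝ) / (P.d i : ℝ)) ^ m *
        ∏ j ∈ Finset.range (m + 1), ((P.d i : ℝ) + (j : ℝ))) := by
      refine Finset.sum_le_sum fun i _ => ?_
      have h := Perm.sumFix hF hP m (P.d i)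
      gcongr
    _ = (Nat.card G : ℝ) ^ m * P.S m := by
      unfold Planch.S
      rw [Finset.mul_sum]
      exact Finset.sum_congr rfl fun i _ => Perm.degree (P.pos i) m _

end NilCut
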