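import Pool.Agent.Lib.MP_4ddf81_pr.Stm

/-!
# MP_4ddf81_pr : the map `σ ↦ φ_σ` is injective
-/

namespace NilCut

namespace Phi

lemma sucP_zero {m : ℕ} (σ : Equiv.Perm (Fin m)) : sucP σ 0 = 0 := by
  unfold sucP
  simp

lemma sucP_succ {m : ℕ} (σ : Equiv.Perm (Fin m)) (l : Fin m) :
    sucP σ l.succ = (σ l).succ := by
  unfold sucP
  simp

lemma rot_castSucc {m : ℕ} (l : Fin m) : finRotate (m + 1) l.castSucc = l.succ := by
  rw [finRotate_apply]
  ext
  simp

lemma casP_castSucc {m : ℕ} (σ : Equiv.Perm (Fin m)) (l : Fin m) :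
    casP σ l.castSucc = (σ l).castSucc := by
  unfold casP
  rw [Equiv.Perm.mul_apply, Equiv.Perm.mul_apply, rot_castSucc, sucP_succ, ← rot_castSucc]
  exact (finRotate (m + 1)).symm_apply_apply _

lemma phiP_cas {m : ℕ} (σ : Equiv.Perm (Fin m)) (i : Fin (m + 1)) :
    phiP σ (casP σ i) = sucP σ i := by
  unfold phiP
  rw [Equiv.Perm.mul_apply]
  exact congrArg _ ((casP σ).symm_apply_apply _)

end Phi

open Phi in
theorem p_Phi : S_Phi := by
  intro m σ τ h
  have key : ∀ (n : ℕ) (hn : n < m), σ ⟨n, hn⟩ = τ ⟨n, hn⟩ := by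
    intro n
    induction n with
    | zero =>
      intro hn
      obtain ⟨m, rfl⟩ : ∃ m', m = m' + 1 := ⟨m - 1, by omega⟩
      have h1 := phiP_cas σ (Fin.castSucc ⟨0, hn⟩)
      have h2 := phiP_cas τ (Fin.castSucc ⟨0, hn⟩)
      have e : (Fin.castSucc (⟨0, hn⟩ : Fin (m + 1))) = 0 := rfl
      rw [casP_castSucc, e, sucP_zero] at h1 h2
      rw [h, ← h2] at h1
      exact Fin.castSucc_injective _ ((phiP τ).injective h1)
    | succ n ih =>
      intro hn
      have hn' : n < m := by omega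
      have h1 := phiP_cas σ (Fin.castSucc ⟨n + 1, hn⟩)
      have h2 := phiP_cas τ (Fin.castSucc ⟨n + 1, hn⟩)
      have e : (Fin.castSucc (⟨n + 1, hn⟩ : Fin m)) = Fin.succ ⟨n, hn'⟩ := rfl
      rw [casP_castSucc, e, sucP_succ] at h1 h2
      rw [h, ih hn', ← h2] at h1
      exact Fin.castSucc_injective _ ((phiP τ).injective h1)
  ext i
  rw [key i.1 i.2]

end NilCut
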