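import Pool.Agent.Lib.MP_4ddf81_pr.Stm

/-!
# MP_4ddf81_pr : piece Reg
-/

namespace NilCut

open Filter Topology

theorem p_Reg (hE : S_Exist) : S_Reg := by
  intro G _ _ k hR
  set L : ℕ → ℝ := fun n => Real.log (Nat.card (G n)) with hL
  have hLt : Tendsto L atTop atTop := Real.tendsto_log_atTop.comp hR.card
  have h2 : ∀ᶠ n in atTop, L n ≤ (nStar (G n) (k n) : ℝ) * Real.log (k n) := by
    filter_upwards [hR.adm] with n hn
    have hc : (0 : ℝ) < (Nat.card (G n) : ℝ) := by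
      have : 0 < Nat.card (G n) := Nat.card_pos
      exact_mod_cast this
    have h3 : (Nat.card (G n) : ℝ) ≤ (k n : ℝ) ^ (nStar (G n) (k n)) := by
      exact_mod_cast hn.2.1
    have h4 := Real.log_le_log hc h3
    rwa [Real.log_pow] at h4
  refine ⟨?_, h2, ?_⟩
  · rw [tendsto_atTop]
    intro C
    have hC : 0 < 1 / (max C 0 + 1) := by positivity
    have h5 : ∀ᶠ n in atTop, Real.log (k n) / L n < 1 / (max C 0 + 1) :=
      (tendsto_order.1 hR.small).2 _ hC
    filter_upwards [h2, h5, hLt.eventually_gt_atTop 0] with n h2 h5 h6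
    have h7 : 1 ≤ (nStar (G n) (k n) : ℝ) * (Real.log (k n) / L n) := by
      rw [← mul_div_assoc, le_div_iff₀ h6, one_mul]
      exact h2
    have hN : (0 : ℝ) ≤ (nStar (G n) (k n) : ℝ) := Nat.cast_nonneg _
    have h8 : (nStar (G n) (k n) : ℝ) * (Real.log (k n) / L n) ≤
        (nStar (G n) (k n) : ℝ) * (1 / (max C 0 + 1)) :=
      mul_le_mul_of_nonneg_left h5.le hN
    have h9 : 1 ≤ (nStar (G n) (k n) : ℝ) / (max C 0 + 1) := by
      calc (1 : ℝ) ≤ _ := h7.trans h8
        _ = _ := by ring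
    have h10 : (0 : ℝ) < max C 0 + 1 := by positivity
    rw [le_div_iff₀ h10, one_mul] at h9
    linarith [le_max_left C 0]
  · filter_upwards [hLt.eventually_ge_atTop (Real.exp 2 + 2)] with n hn hk
    change L n ^ 2 ≤ (k n : ℝ) at hk
    have he : (0 : ℝ) < Real.exp 2 := Real.exp_pos 2
    have hL2 : 2 ≤ L n := by linarith
    have hL0 : 0 < L n := by linarith
    have h3 : Real.exp 2 ≤ (k n : ℝ) / L n := by
      rw [le_div_iff₀ hL0]
      nlinarith
    have h4 := hE (G n) (k n) hL2 h3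
    have h5 : nStar (G n) (k n) ≤ ⌈L n / Real.log ((k n : ℝ) / L n)⌉₊ := Nat.sInf_le h4
    have h6 : 2 ≤ Real.log ((k n : ℝ) / L n) := by
      rw [Real.le_log_iff_exp_le (lt_of_lt_of_le he h3)]
      exact h3
    have h7 : L n / Real.log ((k n : ℝ) / L n) ≤ L n / 2 :=
      div_le_div_of_nonneg_left hL0.le (by norm_num) h6
    have h8 : 0 ≤ L n / Real.log ((k n : ℝ) / L n) := div_nonneg hL0.le (by linarith)
    have h9 : (⌈L n / Real.log ((k n : ℝ) / L n)⌉₊ : ℝ) < L n / Real.log ((k n : ℝ) / L n) + 1 :=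
      Nat.ceil_lt_add_one h8
    have h10 : (nStar (G n) (k n) : ℝ) ≤ (⌈L n / Real.log ((k n : ℝ) / L n)⌉₊ : ℝ) := by
      exact_mod_cast h5
    change (nStar (G n) (k n) : ℝ) ≤ 2 * L n
    linarith

end NilCut
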