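import Pool.Agent.Lib.MP_4ddf81_pr.Stm

/-!
# MP_4ddf81_pr : piece Repl
-/

namespace NilCut

open scoped commutatorElement

namespace Repl

variable {G : Type} [Group G]

theorem lc_normal (i : ℕ) : (lc G i).Normal := by
  unfold lc
  infer_instance

theorem comm_mem {i : ℕ} {a : G} (ha : a ∈ lc G i) (x : G) : ⁅a, x⁆ ∈ lc G (i + 1) :=
  Subgroup.commutator_mem_commutator ha (Subgroup.mem_top x)

theorem lncE_congr {h h' : ℕ → G} : ∀ i : ℕ, (∀ a ≤ i, h a = h' a) → lncE h i = lncE h' i
  | 0, hh => by
      apply Subtype.ext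
      exact hh 0 le_rfl
  | i + 1, hh => by
      change brk (lncE h i) (h (i + 1)) = brk (lncE h' i) (h' (i + 1))
      rw [lncE_congr i (fun a ha => hh a (by omega)), hh (i + 1) le_rfl]

/-- the next term inside `lc G (i+1)` -/
def N (G : Type) [Group G] (i : ℕ) : Subgroup (lc G (i + 1)) := (lc G (i + 2)).subgroupOf _

theorem mem_N {i : ℕ} {g : lc G (i + 1)} : g ∈ N G i ↔ (g : G) ∈ lc G (i + 2) :=
  Subgroup.mem_subgroupOf

instance (i : ℕ) : (N G i).Normal := by
  have := lc_normal (G := G) (i + 2)
  unfold N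
  infer_instance

/-- `x ↦ [m, x]` modulo the next term -/
def phi {i : ℕ} (m : lc G i) : G →* (lc G (i + 1) ⧸ N G i) :=
  MonoidHom.mk' (fun x => (QuotientGroup.mk (brk m x) : lc G (i + 1) ⧸ N G i)) (by
    intro x y
    rw [← QuotientGroup.mk_mul]
    symm
    rw [QuotientGroup.eq, mem_N]
    have h1 : (((brk m x * brk m y)⁻¹ * brk m (x * y) : lc G (i + 1)) : G) =
        ⁅(⁅(m : G), y⁆)⁻¹, x⁆ := by
      change (⁅(m : G), x⁆ * ⁅(m : G), y⁆)⁻¹ * ⁅(m : G), x * y⁆ = _
      simp only [commutatorElement_def]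
      group
    rw [h1]
    exact comm_mem ((lc G (i + 1)).inv_mem (comm_mem m.2 y)) x)

theorem phi_apply {i : ℕ} (m : lc G i) (x : G) :
    phi m x = (QuotientGroup.mk (brk m x) : lc G (i + 1) ⧸ N G i) := rfl

end Repl

open Repl in
theorem p_Repl (hF : S_Form) (hD : S_Dual2) : S_Repl := by
  intro G _ _ j ξ hξ R th h0 H K h hh
  have key : ∀ i, i ≤ j → ∃ h' : ℕ → G, (∀ a ≤ i, h' a ∈ R) ∧
      ((lncE h i : G))⁻¹ * (lncE h' i : G) ∈ lc G (i + 1) := by
    intro i
    induction i with
    | zero =>
      intro _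
      refine ⟨fun _ => h 0, fun a _ => hh 0 (Nat.zero_le _) h0, ?_⟩
      change (h 0)⁻¹ * h 0 ∈ _
      rw [inv_mul_cancel]
      exact Subgroup.one_mem _
    | succ i ih =>
      intro hij
      obtain ⟨h', hR, hcong⟩ := ih (by omega)
      -- find the new entry
      have hx : ∃ x' ∈ R, (⁅(lncE h' i : G), h (i + 1)⁆)⁻¹ * ⁅(lncE h' i : G), x'⁆ ∈
          lc G (i + 2) := by
        by_cases ht : th (i + 1)
        · refine ⟨h (i + 1), hh (i + 1) hij ht, ?_⟩
          rw [inv_mul_cancel]
          exact Subgroup.one_mem _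
        · set m := lncE h' i with hm
          let A : Subgroup (lc G (i + 1)) :=
            (R.map (phi m)).comap (QuotientGroup.mk' (N G i))
          have hA : ∀ c : lc G (i + 1), c ∈ A ↔
              ∃ x' ∈ R, phi m x' = (QuotientGroup.mk c : lc G (i + 1) ⧸ N G i) := by
            intro c
            exact Subgroup.mem_map
          have hNA : ∀ c : lc G (i + 1), (c : G) ∈ lc G (i + 2) → c ∈ A := by
            intro c hc
            rw [hA]
            refine ⟨1, R.one_mem, ?_⟩
            rw [map_one]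
            symm
            rw [QuotientGroup.eq_one_iff]
            exact mem_N.2 hc
          have hcomm : commutator (lc G (i + 1)) ≤ A := by
            rw [commutator_def, Subgroup.commutator_le]
            intro a _ b _
            apply hNA
            exact comm_mem a.2 (b : G)
          obtain ⟨hsep, -⟩ := hD (lc G (i + 1)) A hcomm
          by_cases hmem : brk m (h (i + 1)) ∈ A
          · obtain ⟨x', hx'R, hx'⟩ := (hA _).1 hmem
            refine ⟨x', hx'R, ?_⟩
            rw [phi_apply] at hx'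
            exact mem_N.1 (QuotientGroup.eq.1 hx'.symm)
          · exfalso
            obtain ⟨ζ, hζ1, hζ2⟩ := hsep _ hmem
            apply hζ2
            refine H i (by omega) ht m ζ (fun g hg => hζ1 g (hNA g hg)) (fun x hx => ?_) _
            exact hζ1 _ ((hA _).2 ⟨x, hx, rfl⟩)
      obtain ⟨x', hx'R, hx'⟩ := hx
      refine ⟨Function.update h' (i + 1) x', ?_, ?_⟩
      · intro a ha
        by_cases hai : a = i + 1
        · rw [hai, Function.update_self]
          exact hx'R
        · rw [Function.update_of_ne hai]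
          exact hR a (by omega)
      · have e1 : lncE (Function.update h' (i + 1) x') i = lncE h' i := by
          apply lncE_congr
          intro a ha
          rw [Function.update_of_ne (by omega)]
        have e2 : (lncE (Function.update h' (i + 1) x') (i + 1) : G) =
            ⁅(lncE h' i : G), x'⁆ := by
          change ⁅(lncE (Function.update h' (i + 1) x') i : G),
            Function.update h' (i + 1) x' (i + 1)⁆ = _
          rw [e1, Function.update_self]
        have e3 : (lncE h (i + 1) : G) = ⁅(lncE h i : G), h (i + 1)⁆ := rfl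
        rw [e2, e3]
        set m : G := (lncE h i : G) with hm
        set m' : G := (lncE h' i : G) with hm'
        set x := h (i + 1) with hxd
        have e4 : (⁅m, x⁆)⁻¹ * ⁅m', x'⁆ =
            ((⁅m, x⁆⁻¹ * m) * ⁅m⁻¹ * m', x⁆ * (⁅m, x⁆⁻¹ * m)⁻¹) *
              ((⁅m', x⁆)⁻¹ * ⁅m', x'⁆) := by
          simp only [commutatorElement_def]
          group
        change (⁅m, x⁆)⁻¹ * ⁅m', x'⁆ ∈ lc G (i + 2)
        rw [e4]
        refine (lc G (i + 2)).mul_mem ?_ hx'
        exact (lc_normal (i + 2)).conj_mem _ (comm_mem hcong x) _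
  obtain ⟨h', hR, hcong⟩ := key j le_rfl
  have h1 : ξ ((lncE h j)⁻¹ * lncE h' j) = 1 := hξ _ hcong
  rw [map_mul, map_inv, inv_mul_eq_one] at h1
  rw [h1]
  exact K h' hR

end NilCut
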