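import Pool.Agent.Lib.MP_4ddf81_pr.Stm

/-!
# MP_4ddf81_pr : the bound for `P.S m` for a nilpotent group
-/

namespace NilCut

namespace SBound

/-- The characters of degree `D` of a complete set. -/
theorem cnt_bound {G : Type} [Group G] [Fintype G] (hN : S_N) (hnil : Group.IsNilpotent G)
    (P : Planch G) (k N D : ℕ) (hg : good G k N) (hD : 1 ≤ D) :
    (Nat.card {i : P.ι // P.d i = D} : ℝ) * (N : ℝ) ^ N ≤
      Real.exp (12 * (1 + Real.sqrt (Real.log (Nat.card G))) * Real.log D ^ 2) *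
        ((k : ℝ) * (D : ℝ)) ^ N := by
  classical
  rcases isEmpty_or_nonempty {i : P.ι // P.d i = D} with he | hne
  · rw [Nat.card_of_isEmpty]
    simp only [Nat.cast_zero, zero_mul]
    positivity
  · let χ : {i : P.ι // P.d i = D} → (G → ℂ) := fun i g => (P.ρ i.1 g).trace
    have hχ : Function.Injective χ := by
      intro i j hij
      apply Subtype.ext
      apply P.inj
      intro g
      exact congrFun hij g
    let F : Finset (G → ℂ) := Finset.univ.image χ
    have hFc : F.card = Nat.card {i : P.ι // P.d i = D} := by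
      rw [Finset.card_image_of_injective _ hχ, Nat.card_eq_fintype_card, Finset.card_univ]
    have hFn : F.Nonempty := Finset.univ_nonempty.image χ
    have hFi : ∀ c ∈ F, IsIrrChar G D c := by
      intro c hc
      obtain ⟨⟨i, hi⟩, -, rfl⟩ := Finset.mem_image.1 hc
      subst hi
      exact ⟨P.ρ i, P.irr i, fun g => rfl⟩
    obtain ⟨H, hH, hc⟩ := hN G hnil D hD F hFn hFi
    have h2 := hg.2.2 H
    rw [hH] at h2
    have h3 : (Nat.card (Abelianization H) : ℝ) * (N : ℝ) ^ N ≤ ((k : ℝ) * (D : ℝ)) ^ N := by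
      exact_mod_cast h2
    rw [hFc] at hc
    calc (Nat.card {i : P.ι // P.d i = D} : ℝ) * (N : ℝ) ^ N
        ≤ (Real.exp (12 * (1 + Real.sqrt (Real.log (Nat.card G))) * Real.log D ^ 2) *
          (Nat.card (Abelianization H) : ℝ)) * (N : ℝ) ^ N := by
            apply mul_le_mul_of_nonneg_right hc (by positivity)
      _ = Real.exp (12 * (1 + Real.sqrt (Real.log (Nat.card G))) * Real.log D ^ 2) *
          ((Nat.card (Abelianization H) : ℝ) * (N : ℝ) ^ N) := by ring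
      _ ≤ _ := by
            apply mul_le_mul_of_nonneg_left h3 (by positivity)

/-- The exchange of the powers. -/
theorem pow_bound (k N n m D : ℕ) (ε : ℝ) (hε : 0 ≤ ε) (hN : 2 ≤ N) (hnk : 2 * n ≤ k)
    (hn : n ≤ 2 * N) (hNk : N ≤ k) (hm : m ≤ n) (hmN : (1 + ε) * (N : ℝ) ≤ (m : ℝ))
    (hD : 1 ≤ D) :
    ((k : ℝ) * (D : ℝ)) ^ N * (2 * (m : ℝ) / (D : ℝ)) ^ m ≤
      (N : ℝ) ^ N * ((64 : ℝ) ^ N * ((N : ℝ) / (k : ℝ)) ^ (ε * (N : ℝ)) *
        ((k : ℝ) - (n : ℝ)) ^ m) := by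
  have hN0 : (0 : ℝ) < N := by exact_mod_cast (by omega : 0 < N)
  have hk0 : (0 : ℝ) < k := by exact_mod_cast (by omega : 0 < k)
  have hD0 : (0 : ℝ) < D := by exact_mod_cast (by omega : 0 < D)
  have hD1 : (1 : ℝ) ≤ D := by exact_mod_cast hD
  have hkn : (k : ℝ) / 2 ≤ (k : ℝ) - n := by
    have : (2 : ℝ) * n ≤ k := by exact_mod_cast hnk
    linarith
  have hNm : N ≤ m := by
    have h1 : (N : ℝ) ≤ m := by nlinarith
    exact_mod_cast h1
  obtain ⟨e, rfl⟩ := Nat.exists_eq_add_of_le hNm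
  have hem : ε * (N : ℝ) ≤ (e : ℝ) := by
    push_cast at hmN
    linarith
  have hy1 : (N : ℝ) / (k : ℝ) ≤ 1 := by
    rw [div_le_one hk0]
    exact_mod_cast hNk
  have hy0 : 0 < (N : ℝ) / (k : ℝ) := by positivity
  -- the power `y ^ e`
  have hye : ((N : ℝ) / (k : ℝ)) ^ e ≤ ((N : ℝ) / (k : ℝ)) ^ (ε * (N : ℝ)) := by
    rw [← Real.rpow_natCast]
    exact Real.rpow_le_rpow_of_exponent_ge hy0 hy1 hem
  have h2m : (2 : ℝ) * ((N + e : ℕ) : ℝ) ≤ 4 * N := by
    have : N + e ≤ 2 * N := by omega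
    have h : ((N + e : ℕ) : ℝ) ≤ 2 * N := by exact_mod_cast this
    linarith
  have h8 : (8 : ℝ) ^ (N + e) ≤ 64 ^ N := by
    have : (64 : ℝ) ^ N = 8 ^ (2 * N) := by
      rw [pow_mul]; norm_num
    rw [this]
    apply pow_le_pow_right₀ (by norm_num)
    omega
  calc ((k : ℝ) * (D : ℝ)) ^ N * (2 * ((N + e : ℕ) : ℝ) / (D : ℝ)) ^ (N + e)
      ≤ ((k : ℝ) * (D : ℝ)) ^ N * (4 * N / (D : ℝ)) ^ (N + e) := by
        apply mul_le_mul_of_nonneg_left _ (by positivity)
        apply pow_le_pow_left₀ (by positivity)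
        apply div_le_div_of_nonneg_right h2m hD0.le
    _ = (N : ℝ) ^ N * (8 ^ (N + e) * (((N : ℝ) / k) ^ e * (1 / D) ^ e) *
          ((k : ℝ) / 2) ^ (N + e)) := by
        have h8' : (8 : ℝ) ^ (N + e) = 4 ^ (N + e) * 2 ^ (N + e) := by
          rw [← mul_pow]; norm_num
        rw [h8']
        simp only [div_pow, mul_pow, pow_add, one_pow]
        field_simp
    _ ≤ (N : ℝ) ^ N * (64 ^ N * (((N : ℝ) / k) ^ (ε * (N : ℝ)) * 1) *
          ((k : ℝ) - (n : ℝ)) ^ (N + e)) := by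
        apply mul_le_mul_of_nonneg_left _ (by positivity)
        apply mul_le_mul _ _ (by positivity) (by positivity)
        · apply mul_le_mul h8 _ (by positivity) (by positivity)
          apply mul_le_mul hye _ (by positivity) (by positivity)
          apply pow_le_one₀ (by positivity)
          rw [div_le_one hD0]
          exact hD1
        · exact pow_le_pow_left₀ (by positivity) hkn _
    _ = _ := by ring

end SBound

theorem p_SBound (hD : S_Sdeg) (hN : S_N) : S_SBound := by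
  classical
  intro G _ _ hnil P k N n m ε hg hε hN2 hnk hn hNk hm hmN
  have hN0 : (0 : ℝ) < N := by exact_mod_cast (by omega : 0 < N)
  have hk0 : (0 : ℝ) < k := by exact_mod_cast (by omega : 0 < k)
  have hNm : N ≤ m := by
    have h1 : (N : ℝ) ≤ m := by nlinarith
    exact_mod_cast h1
  have hL : 0 ≤ Real.sqrt (Real.log (Nat.card G)) := Real.sqrt_nonneg _
  set E : ℝ := Real.exp (12 * (1 + Real.sqrt (Real.log (Nat.card G))) *
      Real.log (2 * (N : ℝ)) ^ 2) with hE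
  set V : ℝ := ((k : ℝ) - (n : ℝ)) ^ m with hV
  set Y : ℝ := (64 : ℝ) ^ N * ((N : ℝ) / (k : ℝ)) ^ (ε * (N : ℝ)) with hY
  have hkn : (k : ℝ) / 2 ≤ (k : ℝ) - n := by
    have : (2 : ℝ) * n ≤ k := by exact_mod_cast hnk
    linarith
  have hV0 : 0 < V := pow_pos (by linarith [half_pos hk0]) _
  have hY0 : 0 < Y := by positivity
  -- the term with the order of the group
  have h1 : (Nat.card G : ℝ) * 2 ^ m ≤ Y * V := by
    have hb := SBound.pow_bound k N n m 1 ε hε hN2 hnk hn hNk hm hmN le_rfl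
    simp only [Nat.cast_one, mul_one, div_one] at hb
    have hG : (Nat.card G : ℝ) ≤ (k : ℝ) ^ N := by exact_mod_cast hg.2.1
    have hm1 : (N : ℝ) ^ N ≤ (m : ℝ) ^ m := by
      calc (N : ℝ) ^ N ≤ (m : ℝ) ^ N :=
            pow_le_pow_left₀ hN0.le (by exact_mod_cast hNm) _
        _ ≤ (m : ℝ) ^ m := pow_le_pow_right₀ (by exact_mod_cast (by omega : 1 ≤ m)) hNm
    have h3 : (N : ℝ) ^ N * ((Nat.card G : ℝ) * 2 ^ m) ≤ (N : ℝ) ^ N * (Y * V) := by
      calc (N : ℝ) ^ N * ((Nat.card G : ℝ) * 2 ^ m)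
          ≤ (m : ℝ) ^ m * ((k : ℝ) ^ N * 2 ^ m) := by
            apply mul_le_mul hm1 _ (by positivity) (by positivity)
            exact mul_le_mul_of_nonneg_right hG (by positivity)
        _ = (k : ℝ) ^ N * (2 * (m : ℝ)) ^ m := by rw [mul_pow]; ring
        _ ≤ _ := by
            refine hb.trans (le_of_eq ?_)
            rw [hY, hV]
    exact le_of_mul_le_mul_left h3 (by positivity)
  -- the other terms
  have h2 : ∀ D ∈ Finset.Icc 1 m, (D : ℝ) ^ 2 * (Nat.card {i : P.ι // P.d i = D} : ℝ) *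
      (2 * (m : ℝ) / (D : ℝ)) ^ m ≤ (2 * (N : ℝ)) ^ 2 * E * (Y * V) := by
    intro D hDm
    rw [Finset.mem_Icc] at hDm
    have hD0 : (0 : ℝ) < D := by exact_mod_cast hDm.1
    have hD1 : (1 : ℝ) ≤ D := by exact_mod_cast hDm.1
    have hD2 : (D : ℝ) ≤ 2 * N := by
      have : D ≤ 2 * N := by omega
      exact_mod_cast this
    have hc := SBound.cnt_bound hN hnil P k N D hg hDm.1
    have hb := SBound.pow_bound k N n m D ε hε hN2 hnk hn hNk hm hmN hDm.1
    have hEE : Real.exp (12 * (1 + Real.sqrt (Real.log (Nat.card G))) * Real.log D ^ 2) ≤ E := by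
      apply Real.exp_le_exp.2
      apply mul_le_mul_of_nonneg_left _ (by positivity)
      apply pow_le_pow_left₀ (Real.log_nonneg hD1)
      exact Real.log_le_log hD0 hD2
    have h3 : (N : ℝ) ^ N * ((D : ℝ) ^ 2 * (Nat.card {i : P.ι // P.d i = D} : ℝ) *
      (2 * (m : ℝ) / (D : ℝ)) ^ m) ≤ (N : ℝ) ^ N * ((2 * (N : ℝ)) ^ 2 * E * (Y * V)) := by
      calc (N : ℝ) ^ N * ((D : ℝ) ^ 2 * (Nat.card {i : P.ι // P.d i = D} : ℝ) *
          (2 * (m : ℝ) / (D : ℝ)) ^ m)
          = (D : ℝ) ^ 2 * ((Nat.card {i : P.ι // P.d i = D} : ℝ) * (N : ℝ) ^ N) *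
          (2 * (m : ℝ) / (D : ℝ)) ^ m := by ring
        _ ≤ (D : ℝ) ^ 2 * (Real.exp (12 * (1 + Real.sqrt (Real.log (Nat.card G))) *
              Real.log D ^ 2) * ((k : ℝ) * (D : ℝ)) ^ N) * (2 * (m : ℝ) / (D : ℝ)) ^ m := by
            apply mul_le_mul_of_nonneg_right _ (by positivity)
            exact mul_le_mul_of_nonneg_left hc (by positivity)
        _ = (D : ℝ) ^ 2 * Real.exp (12 * (1 + Real.sqrt (Real.log (Nat.card G))) *
              Real.log D ^ 2) * (((k : ℝ) * (D : ℝ)) ^ N * (2 * (m : ℝ) / (D : ℝ)) ^ m) := by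
            ring
        _ ≤ (2 * (N : ℝ)) ^ 2 * E * ((N : ℝ) ^ N * (Y * V)) := by
            apply mul_le_mul _ hb (by positivity) (by positivity)
            apply mul_le_mul _ hEE (by positivity) (by positivity)
            exact pow_le_pow_left₀ hD0.le hD2 _
        _ = _ := by ring
    exact le_of_mul_le_mul_left h3 (by positivity)
  have h4 := Finset.sum_le_card_nsmul (Finset.Icc 1 m) _ _ h2
  rw [nsmul_eq_mul, Nat.card_Icc] at h4
  have hm2 : ((m + 1 - 1 : ℕ) : ℝ) ≤ 2 * N := by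
    have : m + 1 - 1 ≤ 2 * N := by omega
    exact_mod_cast this
  calc P.S m ≤ _ := hD G P m
    _ ≤ Y * V + ((m + 1 - 1 : ℕ) : ℝ) * ((2 * (N : ℝ)) ^ 2 * E * (Y * V)) := add_le_add h1 h4
    _ ≤ Y * V + (2 * N) * ((2 * (N : ℝ)) ^ 2 * E * (Y * V)) := by
        have : 0 ≤ (2 * (N : ℝ)) ^ 2 * E * (Y * V) := by positivity
        nlinarith
    _ = Y * (1 + (2 * (N : ℝ)) ^ 3 * E) * V := by ring

end NilCut
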