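import Pool.Agent.Lib.MP_4ddf81_pr.Stm

/-! Schur orthogonality of matrix entries (MP_4ddf81_pr). -/

namespace NilCut

namespace Schur

variable {G : Type} [Group G] [Fintype G] {d : ℕ}

/-- The averaged matrix `∑ z, ρ z * E * ρ z⁻¹`. -/
noncomputable def avg (ρ : G →* Matrix (Fin d) (Fin d) ℂ) (E : Matrix (Fin d) (Fin d) ℂ) :
    Matrix (Fin d) (Fin d) ℂ := ∑ z : G, ρ z * E * ρ z⁻¹

lemma avg_comm_gen (ρ : G →* Matrix (Fin d) (Fin d) ℂ) (E : Matrix (Fin d) (Fin d) ℂ) (g : G) :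
    ρ g * avg ρ E = avg ρ E * ρ g := by
  unfold avg
  rw [Finset.mul_sum, Finset.sum_mul]
  refine Fintype.sum_equiv (Equiv.mulLeft g) _ _ (fun z => ?_)
  simp only [Equiv.coe_mulLeft, mul_inv_rev, map_mul, Matrix.mul_assoc]
  rw [← map_mul ρ g⁻¹ g, inv_mul_cancel, map_one, Matrix.mul_one]

lemma avg_comm (ρ : G →* Matrix (Fin d) (Fin d) ℂ) (h : IsIrr ρ)
    (E M : Matrix (Fin d) (Fin d) ℂ) : M * avg ρ E = avg ρ E * M := by
  have hM : M ∈ Submodule.span ℂ (Set.range ρ) := by
    rw [h]; exact Submodule.mem_top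
  induction hM using Submodule.span_induction with
  | mem x hx =>
    obtain ⟨g, rfl⟩ := hx
    exact avg_comm_gen ρ E g
  | zero => simp
  | add x y _ _ hx hy => rw [add_mul, mul_add, hx, hy]
  | smul a x _ hx => rw [Matrix.smul_mul, Matrix.mul_smul, hx]

lemma avg_scalar (ρ : G →* Matrix (Fin d) (Fin d) ℂ) (h : IsIrr ρ)
    (E : Matrix (Fin d) (Fin d) ℂ) : ∃ x : ℂ, avg ρ E = x • (1 : Matrix (Fin d) (Fin d) ℂ) := by
  have h1 : avg ρ E ∈ Set.range (Matrix.scalar (Fin d)) := by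
    apply Matrix.mem_range_scalar_of_commute_single
    intro i j _
    exact avg_comm ρ h E _
  obtain ⟨x, hx⟩ := h1
  refine ⟨x, ?_⟩
  rw [← hx, Matrix.scalar_apply, Matrix.smul_one_eq_diagonal]

lemma avg_trace (ρ : G →* Matrix (Fin d) (Fin d) ℂ) (E : Matrix (Fin d) (Fin d) ℂ) :
    (avg ρ E).trace = (Nat.card G : ℂ) * E.trace := by
  unfold avg
  rw [Matrix.trace_sum]
  have : ∀ z : G, (ρ z * E * ρ z⁻¹).trace = E.trace := by
    intro z
    rw [Matrix.trace_mul_comm, ← Matrix.mul_assoc, ← map_mul, inv_mul_cancel, map_one,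
      Matrix.one_mul]
  simp [this]

lemma avg_entry (ρ : G →* Matrix (Fin d) (Fin d) ℂ) (a b c e : Fin d) :
    avg ρ (Matrix.single b c 1) a e = ∑ z : G, ρ z a b * ρ z⁻¹ c e := by
  unfold avg
  rw [Matrix.sum_apply]
  refine Finset.sum_congr rfl (fun z _ => ?_)
  rw [Matrix.mul_apply, Finset.sum_eq_single c]
  · rw [Matrix.mul_apply, Finset.sum_eq_single b]
    · simp
    · intro j _ hj
      simp [hj.symm]
    · intro hb; exact absurd (Finset.mem_univ _) hb
  · intro j _ hj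
    have : (ρ z * Matrix.single b c (1 : ℂ)) a j = 0 := by
      rw [Matrix.mul_apply]
      refine Finset.sum_eq_zero (fun k _ => ?_)
      simp [hj.symm]
    rw [this, zero_mul]
  · intro hb; exact absurd (Finset.mem_univ _) hb

end Schur

theorem p_Schur : S_Schur := by
  intro G _ _ d ρ h a b c e
  have hd : (d : ℂ) ≠ 0 := by
    have : 0 < d := Fin.pos a
    exact_mod_cast this.ne'
  obtain ⟨x, hx⟩ := Schur.avg_scalar ρ h (Matrix.single b c 1)
  rw [← Schur.avg_entry ρ a b c e, hx]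
  have ht := Schur.avg_trace ρ (Matrix.single b c 1)
  rw [hx, Matrix.trace_smul, Matrix.trace_one, Fintype.card_fin, smul_eq_mul] at ht
  by_cases hbc : b = c
  · subst hbc
    rw [Matrix.trace_single_eq_same, mul_one] at ht
    by_cases hae : a = e
    · subst hae
      simp only [Matrix.smul_apply, Matrix.one_apply_eq, smul_eq_mul, mul_one, and_self, if_true]
      rw [eq_div_iff hd, ht]
    · simp [hae, Matrix.one_apply_ne hae]
  · rw [Matrix.trace_single_eq_of_ne _ _ _ hbc, mul_zero] at ht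
    have hx0 : x = 0 := by
      rcases mul_eq_zero.mp ht with h0 | h0
      · exact h0
      · exact absurd h0 hd
    simp [hx0, hbc]

end NilCut
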