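import Pool.Agent.Lib.MP_4ddf81_pr.Stm

/-!
# MP_4ddf81_pr : splitting of the sum `P.S m` according to the degrees
-/

namespace NilCut

namespace Sdeg

lemma sum_sq {G : Type} [Group G] [Fintype G] (P : Planch G) :
    ∑ i, (P.d i : ℝ) ^ 2 = (Nat.card G : ℝ) := by
  have h := P.planch 1
  simp only [map_one, Matrix.trace_one, Fintype.card_fin, if_true] at h
  have h2 : ((∑ i, (P.d i : ℝ) ^ 2 : ℝ) : ℂ) = ((Nat.card G : ℝ) : ℂ) := by
    push_cast
    rw [← h]
    exact Finset.sum_congr rfl fun i _ => by ring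
  exact_mod_cast h2

lemma prod_big {m d : ℕ} (h : m < d) :
    ∏ j ∈ Finset.range m, (1 + ((j : ℝ) + 1) / (d : ℝ)) ≤ 2 ^ m := by
  have hd : (0 : ℝ) < d := by exact_mod_cast (by omega : 0 < d)
  have := Finset.prod_le_prod (s := Finset.range m)
    (f := fun j : ℕ => 1 + ((j : ℝ) + 1) / (d : ℝ)) (g := fun _ => (2 : ℝ))
    (fun j _ => by positivity) (fun j hj => by
      have hj' : ((j : ℝ) + 1) ≤ d := by
        have := Finset.mem_range.1 hj
        exact_mod_cast (by omega : j + 1 ≤ d)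
      have : ((j : ℝ) + 1) / d ≤ 1 := (div_le_one hd).2 hj'
      show 1 + ((j : ℝ) + 1) / d ≤ 2
      linarith)
  simpa using this

lemma prod_small {m d : ℕ} (hd : 0 < d) (h : d ≤ m) :
    ∏ j ∈ Finset.range m, (1 + ((j : ℝ) + 1) / (d : ℝ)) ≤ (2 * (m : ℝ) / (d : ℝ)) ^ m := by
  have hd' : (0 : ℝ) < d := by exact_mod_cast hd
  have := Finset.prod_le_prod (s := Finset.range m)
    (f := fun j : ℕ => 1 + ((j : ℝ) + 1) / (d : ℝ)) (g := fun _ => 2 * (m : ℝ) / (d : ℝ))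
    (fun j _ => by positivity) (fun j hj => by
      have hj' : ((j : ℝ) + 1) ≤ m := by
        have := Finset.mem_range.1 hj
        exact_mod_cast (by omega : j + 1 ≤ m)
      have hm : (d : ℝ) ≤ m := by exact_mod_cast h
      show 1 + ((j : ℝ) + 1) / d ≤ 2 * (m : ℝ) / d
      rw [show 1 + ((j : ℝ) + 1) / d = (d + (j + 1)) / d by field_simp]
      exact div_le_div_of_nonneg_right (by linarith) hd'.le)
  simpa only [Finset.prod_const, Finset.card_range] using this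

lemma term {m d : ℕ} (hd : 0 < d) :
    (d : ℝ) ^ 2 * ∏ j ∈ Finset.range m, (1 + ((j : ℝ) + 1) / (d : ℝ)) ≤
      (d : ℝ) ^ 2 * 2 ^ m + ∑ D ∈ Finset.Icc 1 m,
        if d = D then (D : ℝ) ^ 2 * (2 * (m : ℝ) / (D : ℝ)) ^ m else 0 := by
  rcases Nat.lt_or_ge m d with h | h
  · have h1 := mul_le_mul_of_nonneg_left (prod_big h) (by positivity : (0 : ℝ) ≤ (d : ℝ) ^ 2)
    have h2 : (0 : ℝ) ≤ ∑ D ∈ Finset.Icc 1 m,
        if d = D then (D : ℝ) ^ 2 * (2 * (m : ℝ) / (D : ℝ)) ^ m else 0 :=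
      Finset.sum_nonneg fun D _ => by split_ifs <;> positivity
    linarith
  · have h1 := mul_le_mul_of_nonneg_left (prod_small hd h)
      (by positivity : (0 : ℝ) ≤ (d : ℝ) ^ 2)
    rw [Finset.sum_ite_eq, if_pos (Finset.mem_Icc.2 ⟨hd, h⟩)]
    have : (0 : ℝ) ≤ (d : ℝ) ^ 2 * 2 ^ m := by positivity
    linarith

end Sdeg

open Sdeg in
theorem p_Sdeg : S_Sdeg := by
  intro G _ _ P m
  classical
  calc P.S m ≤ ∑ i, ((P.d i : ℝ) ^ 2 * 2 ^ m + ∑ D ∈ Finset.Icc 1 m,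
        if P.d i = D then (D : ℝ) ^ 2 * (2 * (m : ℝ) / (D : ℝ)) ^ m else 0) :=
        Finset.sum_le_sum fun i _ => term (P.pos i)
    _ = (Nat.card G : ℝ) * 2 ^ m + ∑ D ∈ Finset.Icc 1 m,
        (D : ℝ) ^ 2 * (Nat.card {i : P.ι // P.d i = D} : ℝ) * (2 * (m : ℝ) / (D : ℝ)) ^ m := by
        rw [Finset.sum_add_distrib, ← Finset.sum_mul, sum_sq, Finset.sum_comm]
        congr 1
        refine Finset.sum_congr rfl fun D _ => ?_
        rw [← Finset.sum_filter, Finset.sum_const, Nat.card_eq_fintype_card,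
          Fintype.card_subtype, nsmul_eq_mul]
        ring

end NilCut
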