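import Pool.Agent.Lib.MP_4ddf81_pr.Stm

/-! # The simple hypotheses on a sequence imply the general ones -/

namespace NilCut

open Filter Topology

theorem p_Seq (hE : S_Exist) : S_Seq := by
  intro G _ _ k h
  have hL : Tendsto (fun n => Real.log (Nat.card (G n))) atTop atTop :=
    Real.tendsto_log_atTop.comp h.card
  have hev : ∀ᶠ n in atTop, good (G n) (k n) (nStar (G n) (k n)) ∧
      (nStar (G n) (k n) : ℝ) ≤ 2 * Real.log (Nat.card (G n)) ∧
      2 ≤ Real.log (Nat.card (G n)) ∧
      Real.exp 2 ≤ (k n : ℝ) / Real.log (Nat.card (G n)) := by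
    filter_upwards [hL.eventually_ge_atTop 2, h.big.eventually_ge_atTop (Real.exp 2)]
      with n h2 hx
    have hg := hE (G n) (k n) h2 hx
    have hne : {m | good (G n) (k n) m}.Nonempty := ⟨_, hg⟩
    have hle : nStar (G n) (k n) ≤ ⌈Real.log (Nat.card (G n)) /
        Real.log ((k n : ℝ) / Real.log (Nat.card (G n)))⌉₊ := Nat.sInf_le hg
    have hxpos : 0 < (k n : ℝ) / Real.log (Nat.card (G n)) :=
      lt_of_lt_of_le (Real.exp_pos 2) hx
    have hlogx : 2 ≤ Real.log ((k n : ℝ) / Real.log (Nat.card (G n))) := by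
      rw [Real.le_log_iff_exp_le hxpos]; exact hx
    refine ⟨Nat.sInf_mem hne, ?_, h2, hx⟩
    have hLx : 0 ≤ Real.log (Nat.card (G n)) /
        Real.log ((k n : ℝ) / Real.log (Nat.card (G n))) := by positivity
    have h1 := Nat.ceil_lt_add_one hLx
    have h3 : Real.log (Nat.card (G n)) /
        Real.log ((k n : ℝ) / Real.log (Nat.card (G n))) ≤
        Real.log (Nat.card (G n)) / 2 :=
      div_le_div_of_nonneg_left (by linarith) (by norm_num) hlogx
    have h4 : (nStar (G n) (k n) : ℝ) ≤ (⌈Real.log (Nat.card (G n)) /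
        Real.log ((k n : ℝ) / Real.log (Nat.card (G n)))⌉₊ : ℝ) := by exact_mod_cast hle
    linarith
  refine ⟨h.card, h.small, hev.mono fun n hn => hn.1, ?_⟩
  have hhalf : Tendsto (fun n => (k n : ℝ) / Real.log (Nat.card (G n)) / 2) atTop atTop :=
    h.big.atTop_div_const (by norm_num)
  refine tendsto_atTop_mono' _ ?_ hhalf
  filter_upwards [hev] with n hn
  obtain ⟨hg, hle, h2, hx⟩ := hn
  have hpos : 0 < (nStar (G n) (k n) : ℝ) := by exact_mod_cast hg.1
  have hk : 0 ≤ (k n : ℝ) := Nat.cast_nonneg _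
  rw [div_div]
  apply div_le_div_of_nonneg_left hk hpos
  linarith

end NilCut
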