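import Pool.Agent.Lib.MP_4ddf81_pr.Stm

/-!
# MP_4ddf81_pr : one step of the count of the irreducible characters of a nilpotent group
-/

set_option autoImplicit false

namespace NilCut

namespace Step

theorem log_two_ge : (69 / 100 : ℝ) ≤ Real.log 2 := by
  have := Real.log_two_gt_d9
  linarith

theorem sq_le (x : ℝ) (hx : 0 ≤ x) : 18 / 10 * x ^ 2 ≤ Real.exp x := by
  have h1 : x / 2 ≤ Real.exp (x / 2 - 1) := by
    have := Real.add_one_le_exp (x / 2 - 1)
    linarith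
  have h2 : Real.exp (x / 2) = Real.exp (x / 2 - 1) * Real.exp 1 := by
    rw [← Real.exp_add]; ring_nf
  have h3 : (27 / 10 : ℝ) ≤ Real.exp 1 := by
    have := Real.exp_one_gt_d9
    linarith
  have h4 : x / 2 * (27 / 10) ≤ Real.exp (x / 2) := by
    rw [h2]
    exact mul_le_mul h1 h3 (by norm_num) (Real.exp_pos _).le
  have h5 : Real.exp x = Real.exp (x / 2) ^ 2 := by
    rw [← Real.exp_nat_mul]; push_cast; ring_nf
  rw [h5]
  have h6 : 0 ≤ x / 2 * (27 / 10) := by positivity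
  nlinarith [pow_le_pow_left₀ h6 h4 2]

/-- the number of the levels -/
theorem levels {g : ℕ} (hg : 2 ≤ g) {s : ℝ} (hs : 0 ≤ s) (hs2 : s ^ 2 = Real.log g) :
    (Nat.log 2 g : ℝ) ≤ Real.exp s := by
  have h1 : 2 ^ Nat.log 2 g ≤ g := Nat.pow_log_le_self 2 (by omega)
  have h2 : ((2 : ℝ) ^ Nat.log 2 g) ≤ (g : ℝ) := by exact_mod_cast h1
  have h3 := Real.log_le_log (by positivity) h2
  rw [Real.log_pow, ← hs2] at h3
  have h4 := sq_le s hs
  have h5 := log_two_ge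
  have h6 : (0 : ℝ) ≤ (Nat.log 2 g : ℝ) := Nat.cast_nonneg _
  nlinarith

theorem main {g D P N a m E t : ℕ} (hg : 2 ≤ g) (hD : 2 ≤ D) {s : ℝ} (hs : 0 < s)
    (hs2 : s ^ 2 = Real.log g) (hm : m = ⌈s⌉₊) (hE : E = ⌈Real.exp s⌉₊)
    (ht : t = ⌊2 * s⌋₊ + 1) (ha : a < Nat.log 2 g)
    (h : N ^ m ≤ 2 ^ m * g * ((D ^ 2) ^ (2 * m) * P) ^ m ∨
      N ≤ 2 * (D ^ 2) ^ m * (a * E + (D ^ 2) ^ t) * P) :
    (N : ℝ) ≤ Real.exp ((6 * s + 7) * Real.log D) * (P : ℝ) := by
  set l := Real.log D with hl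
  have hD0 : (0 : ℝ) < D := by positivity
  have hDe : (D : ℝ) = Real.exp l := by rw [hl, Real.exp_log hD0]
  have hl2 : (69 / 100 : ℝ) ≤ l := by
    refine log_two_ge.trans (Real.log_le_log (by norm_num) ?_)
    exact_mod_cast hD
  have h2D : (2 : ℝ) ≤ Real.exp l := by rw [← hDe]; exact_mod_cast hD
  have hm1 : s ≤ m := by rw [hm]; exact Nat.le_ceil s
  have hm2 : (m : ℝ) ≤ s + 1 := by rw [hm]; exact (Nat.ceil_lt_add_one hs.le).le
  have hm0 : m ≠ 0 := by
    rintro rfl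
    push_cast at hm1
    linarith
  have hP : (0 : ℝ) ≤ P := Nat.cast_nonneg _
  rcases h with h | h
  · have e1 : ((N : ℝ)) ^ m ≤ 2 ^ m * g * (((D : ℝ) ^ 2) ^ (2 * m) * P) ^ m := by exact_mod_cast h
    have hg0 : (0 : ℝ) < g := by positivity
    have e2 : (g : ℝ) ≤ Real.exp s ^ m := by
      rw [← Real.exp_log hg0, ← hs2, ← Real.exp_nat_mul]
      apply Real.exp_le_exp.2
      nlinarith
    have e3 : ((N : ℝ)) ^ m ≤ (2 * Real.exp s * (((D : ℝ) ^ 2) ^ (2 * m) * P)) ^ m := by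
      rw [mul_pow, mul_pow 2 (Real.exp s)]
      refine e1.trans ?_
      gcongr
    have e4 : (N : ℝ) ≤ 2 * Real.exp s * (((D : ℝ) ^ 2) ^ (2 * m) * P) :=
      le_of_pow_le_pow_left₀ hm0 (by positivity) e3
    refine e4.trans ?_
    have e5 : ((D : ℝ) ^ 2) ^ (2 * m) = Real.exp (4 * m * l) := by
      rw [hDe, ← pow_mul, ← Real.exp_nat_mul]; push_cast; ring_nf
    have e6 : 2 * Real.exp s * ((D : ℝ) ^ 2) ^ (2 * m) ≤ Real.exp ((6 * s + 7) * l) := by
      calc 2 * Real.exp s * ((D : ℝ) ^ 2) ^ (2 * m)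
          ≤ Real.exp l * Real.exp s * Real.exp (4 * m * l) := by
            rw [e5]; gcongr
        _ = Real.exp (l + s + 4 * m * l) := by rw [← Real.exp_add, ← Real.exp_add]
        _ ≤ _ := by
            apply Real.exp_le_exp.2
            nlinarith [mul_le_mul_of_nonneg_right hm2 (by linarith : (0 : ℝ) ≤ l), mul_pos hs (by linarith : (0 : ℝ) < l)]
    calc 2 * Real.exp s * (((D : ℝ) ^ 2) ^ (2 * m) * P)
        = (2 * Real.exp s * ((D : ℝ) ^ 2) ^ (2 * m)) * P := by ring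
      _ ≤ _ := by gcongr
  · have e1 : (N : ℝ) ≤ 2 * ((D : ℝ) ^ 2) ^ m * (a * E + ((D : ℝ) ^ 2) ^ t) * P := by
      exact_mod_cast h
    refine e1.trans ?_
    have e2 : ((D : ℝ) ^ 2) ^ m = Real.exp (2 * m * l) := by
      rw [hDe, ← pow_mul, ← Real.exp_nat_mul]; push_cast; ring_nf
    have e3 : ((D : ℝ) ^ 2) ^ t = Real.exp (2 * t * l) := by
      rw [hDe, ← pow_mul, ← Real.exp_nat_mul]; push_cast; ring_nf
    have ht2 : (t : ℝ) ≤ 2 * s + 1 := by
      rw [ht]; push_cast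
      have := Nat.floor_le (by positivity : 0 ≤ 2 * s)
      linarith
    have hE2 : (E : ℝ) ≤ 2 * Real.exp s := by
      have h1 : (E : ℝ) ≤ Real.exp s + 1 := by
        rw [hE]; exact (Nat.ceil_lt_add_one (Real.exp_pos s).le).le
      have h2 : 1 ≤ Real.exp s := Real.one_le_exp hs.le
      linarith
    have ha2 : (a : ℝ) ≤ Real.exp s := by
      refine le_trans ?_ (levels hg hs.le hs2)
      exact_mod_cast ha.le
    have e4 : (a : ℝ) * E ≤ Real.exp ((4 * s + 3) * l) := by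
      calc (a : ℝ) * E ≤ Real.exp s * (2 * Real.exp s) := by gcongr
        _ ≤ Real.exp s * (Real.exp l * Real.exp s) := by gcongr
        _ = Real.exp (s + (l + s)) := by rw [← Real.exp_add, ← Real.exp_add]
        _ ≤ _ := by
            apply Real.exp_le_exp.2
            nlinarith [mul_pos hs (by linarith : (0 : ℝ) < l)]
    have e5 : ((D : ℝ) ^ 2) ^ t ≤ Real.exp ((4 * s + 3) * l) := by
      rw [e3]
      apply Real.exp_le_exp.2
      nlinarith [mul_le_mul_of_nonneg_right ht2 (by linarith : (0 : ℝ) ≤ l)]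
    have e6 : 2 * ((D : ℝ) ^ 2) ^ m * (a * E + ((D : ℝ) ^ 2) ^ t) ≤
        Real.exp ((6 * s + 7) * l) := by
      calc 2 * ((D : ℝ) ^ 2) ^ m * (a * E + ((D : ℝ) ^ 2) ^ t)
          ≤ 2 * ((D : ℝ) ^ 2) ^ m * (Real.exp ((4 * s + 3) * l) + Real.exp ((4 * s + 3) * l)) := by
            gcongr
        _ = 2 * Real.exp (2 * m * l) * (2 * Real.exp ((4 * s + 3) * l)) := by rw [e2]; ring
        _ ≤ Real.exp l * Real.exp (2 * m * l) * (Real.exp l * Real.exp ((4 * s + 3) * l)) := by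
            gcongr
        _ = Real.exp (l + 2 * m * l + (l + (4 * s + 3) * l)) := by
            rw [← Real.exp_add, ← Real.exp_add, ← Real.exp_add]
        _ ≤ _ := by
            apply Real.exp_le_exp.2
            nlinarith [mul_le_mul_of_nonneg_right hm2 (by linarith : (0 : ℝ) ≤ l)]
    calc 2 * ((D : ℝ) ^ 2) ^ m * (a * E + ((D : ℝ) ^ 2) ^ t) * P
        ≤ _ := by gcongr

/-- the parameters `E`, `t` -/
theorem param {g : ℕ} (hg : 2 ≤ g) {s : ℝ} (hs : 0 < s) (hs2 : s ^ 2 = Real.log g) :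
    1 ≤ ⌈Real.exp s⌉₊ ∧ g ^ 2 < ⌈Real.exp s⌉₊ ^ (⌊2 * s⌋₊ + 1) := by
  constructor
  · exact Nat.one_le_iff_ne_zero.2 (Nat.ceil_pos.2 (Real.exp_pos s)).ne'
  · have hg0 : (0 : ℝ) < g := by positivity
    have h1 : ((g : ℝ)) ^ 2 < ((⌈Real.exp s⌉₊ : ℕ) : ℝ) ^ (⌊2 * s⌋₊ + 1) := by
      have h2 : Real.exp s ^ (⌊2 * s⌋₊ + 1) ≤ ((⌈Real.exp s⌉₊ : ℕ) : ℝ) ^ (⌊2 * s⌋₊ + 1) := by
        gcongr
        exact Nat.le_ceil _
      refine lt_of_lt_of_le ?_ h2
      have h3 : (g : ℝ) ^ 2 = Real.exp (2 * s ^ 2) := by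
        rw [hs2, two_mul, Real.exp_add, Real.exp_log hg0]; ring
      rw [h3, ← Real.exp_nat_mul]
      apply Real.exp_lt_exp.2
      have h4 := Nat.lt_floor_add_one (2 * s)
      push_cast
      nlinarith
    exact_mod_cast h1

variable {G : Type} [Group G]

theorem yset_eq (hF : S_Form) {j : ℕ} {ω : lc G (j + 1) →* ℂˣ} (hω : Cen ω) :
    ∃ β : lc G j →* (G →* ℂˣ), Yset ω = Set.range β := by
  obtain ⟨β, hβ⟩ := hF G j ω hω
  refine ⟨β, ?_⟩
  ext l
  constructor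
  · rintro ⟨g, hg⟩
    exact ⟨g, by ext x; rw [hβ, hg]⟩
  · rintro ⟨g, rfl⟩
    exact ⟨g, hβ g⟩

end Step

theorem p_Step (hF : S_Form) (hL : S_Lev) (hP : S_Pop) : S_Step := by
  classical
  intro G _ _ hnil D hD F hFne hFirr
  -- the levels of the characters
  have hL' : ∀ x : F, ∃ j : ℕ, 2 ^ (j + 1) ≤ Nat.card G ∧ ∃ ω : lc G (j + 1) →* ℂˣ, Cen ω ∧
      (Yset ω).ncard ≤ D ^ 2 ∧ (∃ l ∈ Yset ω, l ≠ 1) ∧ ∀ l ∈ Yset ω, Twist G D x.1 l :=
    fun x => hL G hnil D hD x.1 (hFirr x.1 x.2)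
  choose j hj ω hC hn hne hT using hL'
  -- the kernels are finite
  have hfin : ∀ x : F, (Yset (ω x)).Finite := by
    intro x
    obtain ⟨β, hβ⟩ := Step.yset_eq hF (hC x)
    rw [hβ]
    exact Set.finite_range _
  set U : Set (G →* ℂˣ) := {l | l ≠ 1 ∧ ∃ x : F, l ∈ Yset (ω x)} with hU
  have hUfin : U.Finite := by
    refine (Set.finite_iUnion hfin).subset ?_
    rintro l ⟨-, x, hx⟩
    exact Set.mem_iUnion.2 ⟨x, hx⟩
  obtain ⟨χ₀, hχ₀⟩ := hFne
  have hUne : U.Nonempty := by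
    obtain ⟨l, h1, h2⟩ := hne ⟨χ₀, hχ₀⟩
    exact ⟨l, h2, _, h1⟩
  obtain ⟨l₁, ⟨hl₁, x₁, hx₁⟩, hmax⟩ :=
    Set.exists_max_image U (fun l => Nat.card {x : F // l ∈ Yset (ω x)}) hUfin hUne
  set P := Nat.card {x : F // l₁ ∈ Yset (ω x)} with hPdef
  have hP1 : 1 ≤ P := by
    rw [hPdef]
    have : Nonempty {x : F // l₁ ∈ Yset (ω x)} := ⟨⟨x₁, hx₁⟩⟩
    exact Nat.one_le_iff_ne_zero.2 Nat.card_pos.ne'
  have hPl : ∀ l : G →* ℂˣ, l ≠ 1 → Nat.card {x : F // l ∈ Yset (ω x)} ≤ P := by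
    intro l hl
    by_cases hx : ∃ x : F, l ∈ Yset (ω x)
    · exact hmax l ⟨hl, hx⟩
    · have : IsEmpty {x : F // l ∈ Yset (ω x)} := ⟨fun x => hx ⟨x.1, x.2⟩⟩
      rw [Nat.card_of_isEmpty]
      exact Nat.zero_le _
  -- the parameters
  have hg : 2 ≤ Nat.card G := by
    have := hj x₁
    have h2 : 2 ^ 1 ≤ 2 ^ (j x₁ + 1) := Nat.pow_le_pow_right (by norm_num) (by omega)
    omega
  set L := Real.log (Nat.card G) with hLdef
  have hL0 : 0 < L := Real.log_pos (by exact_mod_cast (by omega : 1 < Nat.card G))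
  set s := Real.sqrt L with hsdef
  have hs : 0 < s := Real.sqrt_pos.2 hL0
  have hs2 : s ^ 2 = L := Real.sq_sqrt hL0.le
  obtain ⟨hE1, hE2⟩ := Step.param hg hs hs2
  -- one level
  have hlev : ∀ a < Nat.log 2 (Nat.card G), (Nat.card {x : F // j x = a} : ℝ) ≤
      Real.exp ((6 * s + 7) * Real.log D) * (P : ℝ) := by
    intro a ha
    have hex : ∀ x : {x : F // j x = a}, ∃ ω' : lc G (a + 1) →* ℂˣ, Cen ω' ∧
        Yset ω' = Yset (ω x.1) := by
      rintro ⟨x, rfl⟩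
      exact ⟨ω x, hC x, rfl⟩
    choose ω' h1 h2 using hex
    refine Step.main hg hD hs hs2 rfl rfl rfl ha
      (hP G a {x : F // j x = a} ω' (D ^ 2) ⌈s⌉₊ ⌈Real.exp s⌉₊ (⌊2 * s⌋₊ + 1) P hE1 hE2 h1 ?_ ?_ ?_)
    · intro x
      rw [h2 x]
      exact hne x.1
    · intro x
      rw [h2 x]
      exact hn x.1
    · intro l hl
      refine le_trans ?_ (hPl l hl)
      refine Nat.card_le_card_of_injective
        (fun x : {i : {x : F // j x = a} // l ∈ Yset (ω' i)} =>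
          (⟨x.1.1, by rw [← h2 x.1]; exact x.2⟩ : {x : F // l ∈ Yset (ω x)})) ?_
      intro x y hxy
      have := congrArg (fun z : {x : F // l ∈ Yset (ω x)} => z.1) hxy
      exact Subtype.ext (Subtype.ext this)
  -- the sum over the levels
  have hsum : (F.card : ℝ) ≤ Real.exp ((8 * s + 7) * Real.log D) * (P : ℝ) := by
    have e1 : F.card = ∑ a ∈ Finset.range (Nat.log 2 (Nat.card G)),
        Nat.card {x : F // j x = a} := by
      have e2 : (Finset.univ : Finset F).card = F.card := by simp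
      rw [← e2, Finset.card_eq_sum_card_fiberwise (f := j)
        (t := Finset.range (Nat.log 2 (Nat.card G)))]
      · refine Finset.sum_congr rfl fun a _ => ?_
        rw [Nat.card_eq_fintype_card, Fintype.card_subtype]
      · intro x _
        have h3 : j x + 1 ≤ Nat.log 2 (Nat.card G) := by
          exact Nat.le_log_of_pow_le (by norm_num) (hj x)
        simp only [Finset.coe_range, Set.mem_Iio]
        omega
    rw [e1]
    push_cast
    have e3 : ∑ a ∈ Finset.range (Nat.log 2 (Nat.card G)), (Nat.card {x : F // j x = a} : ℝ) ≤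
        ∑ _a ∈ Finset.range (Nat.log 2 (Nat.card G)),
          Real.exp ((6 * s + 7) * Real.log D) * (P : ℝ) :=
      Finset.sum_le_sum fun a ha => hlev a (Finset.mem_range.1 ha)
    refine e3.trans ?_
    rw [Finset.sum_const, Finset.card_range, nsmul_eq_mul, ← mul_assoc]
    refine mul_le_mul_of_nonneg_right ?_ (Nat.cast_nonneg _)
    have e4 := Step.levels hg hs.le hs2
    have hl2 : (69 / 100 : ℝ) ≤ Real.log D := by
      refine Step.log_two_ge.trans (Real.log_le_log (by norm_num) ?_)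
      exact_mod_cast hD
    calc (Nat.log 2 (Nat.card G) : ℝ) * Real.exp ((6 * s + 7) * Real.log D)
        ≤ Real.exp s * Real.exp ((6 * s + 7) * Real.log D) := by gcongr
      _ = Real.exp (s + (6 * s + 7) * Real.log D) := by rw [← Real.exp_add]
      _ ≤ _ := by
          apply Real.exp_le_exp.2
          nlinarith
  -- the character of prime order
  obtain ⟨β, hβ⟩ := Step.yset_eq hF (hC x₁)
  have hx₁' := hx₁
  rw [hβ] at hx₁'
  obtain ⟨g₁, hg₁⟩ := hx₁'
  have hord : orderOf l₁ ≠ 0 := by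
    rw [← hg₁]
    exact (MonoidHom.isOfFinOrder β (isOfFinOrder_of_finite g₁)).orderOf_pos.ne'
  have hord1 : orderOf l₁ ≠ 1 := by
    rw [Ne, orderOf_eq_one_iff]
    exact hl₁
  set q := (orderOf l₁).minFac with hq
  have hqp : q.Prime := Nat.minFac_prime hord1
  set l := l₁ ^ (orderOf l₁ / q) with hl
  have hlq : orderOf l = q := orderOf_pow_orderOf_div hord (Nat.minFac_dvd _)
  have hlY : ∀ x : F, l₁ ∈ Yset (ω x) → l ∈ Yset (ω x) := by
    intro x hx
    obtain ⟨β', hβ'⟩ := Step.yset_eq hF (hC x)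
    rw [hβ'] at hx ⊢
    obtain ⟨g', hg'⟩ := hx
    exact ⟨g' ^ (orderOf l₁ / q), by rw [map_pow, hg']⟩
  set F₁ := (Finset.univ.filter (fun x : F => l ∈ Yset (ω x))).map
    (Function.Embedding.subtype _) with hF₁
  have hcard : P ≤ F₁.card := by
    rw [hF₁, Finset.card_map, hPdef, Nat.card_eq_fintype_card, Fintype.card_subtype]
    apply Finset.card_le_card
    intro x hx
    rw [Finset.mem_filter] at hx ⊢
    exact ⟨hx.1, hlY x hx.2⟩
  refine ⟨q, l, F₁, hqp, ?_, ?_, ?_, ?_, ?_, ?_⟩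
  · intro h
    rw [h, orderOf_one] at hlq
    exact hqp.one_lt.ne hlq
  · rw [← hlq]; exact pow_orderOf_eq_one l
  · intro χ hχ
    rw [hF₁, Finset.mem_map] at hχ
    obtain ⟨x, -, rfl⟩ := hχ
    exact x.2
  · rw [← Finset.card_pos]
    omega
  · intro χ hχ
    rw [hF₁, Finset.mem_map] at hχ
    obtain ⟨x, hx, rfl⟩ := hχ
    exact hT x l (Finset.mem_filter.1 hx).2
  · refine hsum.trans ?_
    have : (P : ℝ) ≤ (F₁.card : ℝ) := by exact_mod_cast hcard
    gcongr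

end NilCut
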