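import Pool.Agent.Lib.MP_4ddf81_pr.Stm

/-! The total variation distance decreases with the number of jumps. -/

namespace NilCut

namespace T1

theorem wprod_snoc {G : Type} [Group G] {k n : ℕ} (Z : Fin k → G) (w : Fin n → Fin k)
    (i : Fin k) : wprod Z (Fin.snoc w i : Fin (n + 1) → Fin k) = wprod Z w * Z i := by
  unfold wprod
  rw [List.ofFn_succ', List.concat_eq_append, List.prod_append, List.prod_singleton]
  simp

open Classical in
theorem card_eq {G : Type} [Group G] {k n : ℕ} (Z : Fin k → G) (g : G) :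
    (Nat.card {w : Fin n → Fin k // wprod Z w = g} : ℝ) =
      ∑ w : Fin n → Fin k, if wprod Z w = g then (1 : ℝ) else 0 := by
  rw [Nat.card_eq_fintype_card, Fintype.card_subtype, ← Finset.sum_filter, Finset.sum_const,
    nsmul_eq_mul, mul_one]

theorem card_succ {G : Type} [Group G] {k n : ℕ} (Z : Fin k → G) (g : G) :
    (Nat.card {w : Fin (n + 1) → Fin k // wprod Z w = g} : ℝ) =
      ∑ i : Fin k, (Nat.card {w : Fin n → Fin k // wprod Z w = g * (Z i)⁻¹} : ℝ) := by
  classical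
  rw [card_eq]
  simp only [card_eq]
  rw [← Fintype.sum_prod_type' (f := fun (i : Fin k) (w : Fin n → Fin k) =>
    if wprod Z w = g * (Z i)⁻¹ then (1 : ℝ) else 0)]
  symm
  refine Fintype.sum_equiv (Fin.snocEquiv fun _ => Fin k) _ _ ?_
  rintro ⟨i, w⟩
  have h : (Fin.snocEquiv fun _ : Fin (n + 1) => Fin k) (i, w) =
      (Fin.snoc w i : Fin (n + 1) → Fin k) := rfl
  rw [h, wprod_snoc]
  dsimp only
  by_cases e : wprod Z w = g * (Z i)⁻¹
  · rw [if_pos e, if_pos (by rw [e, inv_mul_cancel_right])]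
  · rw [if_neg e, if_neg (fun e' => e (by rw [← e', mul_inv_cancel_right]))]

theorem stepLaw_succ {G : Type} [Group G] {k : ℕ} (n : ℕ) (Z : Fin k → G) (g : G) :
    stepLaw Z (n + 1) g = (1 / (k : ℝ)) * ∑ i : Fin k, stepLaw Z n (g * (Z i)⁻¹) := by
  unfold stepLaw
  rw [card_succ, ← Finset.sum_div, pow_succ, div_mul_eq_div_div]
  ring

end T1

theorem p_T1 : S_T1 := by
  classical
  intro G _ _ k Z hk
  refine antitone_nat_of_succ_le fun n => ?_
  unfold tvStep
  have hk' : (0 : ℝ) < (k : ℝ) := by exact_mod_cast hk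
  have h1 : ∀ g : G, |stepLaw Z (n + 1) g - 1 / (Nat.card G : ℝ)| ≤
      (1 / (k : ℝ)) * ∑ i : Fin k, |stepLaw Z n (g * (Z i)⁻¹) - 1 / (Nat.card G : ℝ)| := by
    intro g
    have e : stepLaw Z (n + 1) g - 1 / (Nat.card G : ℝ) =
        (1 / (k : ℝ)) * ∑ i : Fin k, (stepLaw Z n (g * (Z i)⁻¹) - 1 / (Nat.card G : ℝ)) := by
      rw [T1.stepLaw_succ, Finset.sum_sub_distrib, Finset.sum_const, Finset.card_univ,
        Fintype.card_fin, nsmul_eq_mul, mul_sub]
      congr 1
      field_simp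
    rw [e, abs_mul, abs_of_pos (by positivity : (0 : ℝ) < 1 / (k : ℝ))]
    gcongr
    exact Finset.abs_sum_le_sum_abs _ _
  have h2 : ∑ g : G, |stepLaw Z (n + 1) g - 1 / (Nat.card G : ℝ)| ≤
      ∑ g : G, |stepLaw Z n g - 1 / (Nat.card G : ℝ)| := by
    refine (Finset.sum_le_sum fun g _ => h1 g).trans (le_of_eq ?_)
    rw [← Finset.mul_sum, Finset.sum_comm]
    have h3 : ∀ i : Fin k, ∑ g : G, |stepLaw Z n (g * (Z i)⁻¹) - 1 / (Nat.card G : ℝ)| =
        ∑ g : G, |stepLaw Z n g - 1 / (Nat.card G : ℝ)| := fun i =>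
      Fintype.sum_equiv (Equiv.mulRight (Z i)⁻¹) _ _ (fun g => rfl)
    rw [Finset.sum_congr rfl fun i _ => h3 i, Finset.sum_const, Finset.card_univ,
      Fintype.card_fin, nsmul_eq_mul, ← mul_assoc, one_div_mul_cancel hk'.ne', one_mul]
  gcongr

end NilCut
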