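import Pool.Agent.Lib.MP_4ddf81_pr.Stm

/-! Upper bound for the distance in continuous time. -/

namespace NilCut

namespace T2

theorem pois_nonneg {t : ℝ} (ht : 0 ≤ t) (n : ℕ) : 0 ≤ pois t n := by
  unfold pois; positivity

theorem pois_hasSum (t : ℝ) : HasSum (pois t) 1 := by
  have h1 : HasSum (fun n : ℕ => t ^ n / (n.factorial : ℝ)) (Real.exp t) := by
    have h := NormedSpace.expSeries_div_hasSum_exp (𝔸 := ℝ) t
    rwa [← Real.exp_eq_exp_ℝ] at h
  have h2 := h1.mul_left (Real.exp (-t))
  rw [← Real.exp_add, neg_add_cancel, Real.exp_zero] at h2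
  have h3 : (fun n : ℕ => Real.exp (-t) * (t ^ n / (n.factorial : ℝ))) = pois t := by
    funext n
    unfold pois
    ring
  rwa [h3] at h2

theorem stepLaw_nonneg {G : Type} [Group G] {k : ℕ} (Z : Fin k → G) (n : ℕ) (g : G) :
    0 ≤ stepLaw Z n g := by
  unfold stepLaw; positivity

theorem stepLaw_sum {G : Type} [Group G] [Fintype G] {k : ℕ} (hk : 0 < k) (Z : Fin k → G)
    (n : ℕ) : ∑ g : G, stepLaw Z n g = 1 := by
  classical
  unfold stepLaw
  rw [← Finset.sum_div]
  have h1 : ∑ g : G, (Nat.card {w : Fin n → Fin k // wprod Z w = g} : ℝ) = (k : ℝ) ^ n := by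
    have h2 : ∀ g : G, (Nat.card {w : Fin n → Fin k // wprod Z w = g} : ℝ) =
        ∑ w : Fin n → Fin k, if wprod Z w = g then (1 : ℝ) else 0 := by
      intro g
      rw [Nat.card_eq_fintype_card, Fintype.card_subtype, ← Finset.sum_filter,
        Finset.sum_const, nsmul_eq_mul, mul_one]
    rw [Finset.sum_congr rfl fun g _ => h2 g, Finset.sum_comm]
    simp
  rw [h1]
  have hk' : (k : ℝ) ≠ 0 := by exact_mod_cast hk.ne'
  exact div_self (pow_ne_zero _ hk')

theorem stepLaw_le_one {G : Type} [Group G] [Fintype G] {k : ℕ} (hk : 0 < k) (Z : Fin k → G)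
    (n : ℕ) (g : G) : stepLaw Z n g ≤ 1 := by
  rw [← stepLaw_sum hk Z n]
  exact Finset.single_le_sum (fun x _ => stepLaw_nonneg Z n x) (Finset.mem_univ g)

theorem tvStep_nonneg {G : Type} [Group G] [Fintype G] {k : ℕ} (Z : Fin k → G) (n : ℕ) :
    0 ≤ tvStep Z n := by
  unfold tvStep
  exact mul_nonneg (by norm_num) (Finset.sum_nonneg fun _ _ => abs_nonneg _)

theorem tvStep_le_one {G : Type} [Group G] [Fintype G] {k : ℕ} (hk : 0 < k) (Z : Fin k → G)
    (n : ℕ) : tvStep Z n ≤ 1 := by
  unfold tvStep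
  have hG : (0 : ℝ) < (Nat.card G : ℝ) := by exact_mod_cast Nat.card_pos
  have h1 : ∑ g : G, |stepLaw Z n g - 1 / (Nat.card G : ℝ)| ≤
      ∑ g : G, (stepLaw Z n g + 1 / (Nat.card G : ℝ)) := by
    refine Finset.sum_le_sum fun g _ => ?_
    have h2 := stepLaw_nonneg Z n g
    have h3 : (0 : ℝ) ≤ 1 / (Nat.card G : ℝ) := by positivity
    rw [abs_le]
    constructor <;> linarith
  have h4 : ∑ g : G, (stepLaw Z n g + 1 / (Nat.card G : ℝ)) = 2 := by
    rw [Finset.sum_add_distrib, stepLaw_sum hk, Finset.sum_const, Finset.card_univ,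
      nsmul_eq_mul, ← Nat.card_eq_fintype_card, mul_one_div_cancel hG.ne']
    norm_num
  linarith

theorem law_hasSum {G : Type} [Group G] [Fintype G] {k : ℕ} (hk : 0 < k) (Z : Fin k → G)
    {t : ℝ} (ht : 0 ≤ t) (g : G) :
    HasSum (fun n => pois t n * stepLaw Z n g) (law Z t g) := by
  have h1 : Summable (fun n => pois t n * stepLaw Z n g) := by
    refine Summable.of_nonneg_of_le (fun n => mul_nonneg (pois_nonneg ht n)
      (stepLaw_nonneg Z n g)) (fun n => ?_) (pois_hasSum t).summable
    exact mul_le_of_le_one_right (pois_nonneg ht n) (stepLaw_le_one hk Z n g)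
  exact h1.hasSum

end T2

theorem p_T2 (hT1 : S_T1) : S_T2 := by
  classical
  intro G _ _ k Z t n hk ht
  have hG : (0 : ℝ) < (Nat.card G : ℝ) := by exact_mod_cast Nat.card_pos
  -- every term
  have hs : ∀ g : G, Summable fun i => pois t i * |stepLaw Z i g - 1 / (Nat.card G : ℝ)| := by
    intro g
    refine Summable.of_nonneg_of_le (fun i => mul_nonneg (T2.pois_nonneg ht i) (abs_nonneg _))
      (fun i => ?_) (T2.pois_hasSum t).summable
    refine mul_le_of_le_one_right (T2.pois_nonneg ht i) ?_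
    have h2 := T2.stepLaw_nonneg Z i g
    have h3 : (0 : ℝ) ≤ 1 / (Nat.card G : ℝ) := by positivity
    have h4 := T2.stepLaw_le_one hk Z i g
    have h5 : 1 / (Nat.card G : ℝ) ≤ 1 := by
      rw [div_le_one hG]
      exact_mod_cast Nat.card_pos
    rw [abs_le]
    constructor <;> linarith
  have h1 : ∀ g : G, |law Z t g - 1 / (Nat.card G : ℝ)| ≤
      ∑' i, pois t i * |stepLaw Z i g - 1 / (Nat.card G : ℝ)| := by
    intro g
    have h2 : HasSum (fun i => pois t i * (stepLaw Z i g - 1 / (Nat.card G : ℝ)))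
        (law Z t g - 1 / (Nat.card G : ℝ)) := by
      have h3 := (T2.law_hasSum hk Z ht g).sub
        ((T2.pois_hasSum t).mul_right (1 / (Nat.card G : ℝ)))
      rw [one_mul] at h3
      have h7 : (fun i => pois t i * stepLaw Z i g - pois t i * (1 / (Nat.card G : ℝ))) =
          fun i => pois t i * (stepLaw Z i g - 1 / (Nat.card G : ℝ)) := by
        funext i
        ring
      rwa [h7] at h3
    rw [← h2.tsum_eq]
    have h4 : Summable fun i => ‖pois t i * (stepLaw Z i g - 1 / (Nat.card G : ℝ))‖ := by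
      refine (hs g).congr fun i => ?_
      rw [Real.norm_eq_abs, abs_mul, abs_of_nonneg (T2.pois_nonneg ht i)]
    have h5 := norm_tsum_le_tsum_norm h4
    rw [Real.norm_eq_abs] at h5
    refine h5.trans (le_of_eq (tsum_congr fun i => ?_))
    rw [Real.norm_eq_abs, abs_mul, abs_of_nonneg (T2.pois_nonneg ht i)]
  have h2 : HasSum (fun i => pois t i * tvStep Z i)
      ((1 / 2) * ∑ g : G, ∑' i, pois t i * |stepLaw Z i g - 1 / (Nat.card G : ℝ)|) := by
    have h3 : HasSum (fun i => ∑ g : G, pois t i * |stepLaw Z i g - 1 / (Nat.card G : ℝ)|)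
        (∑ g : G, ∑' i, pois t i * |stepLaw Z i g - 1 / (Nat.card G : ℝ)|) :=
      hasSum_sum fun g _ => (hs g).hasSum
    have h4 := h3.mul_left (1 / 2)
    have h5 : (fun i => (1 / 2 : ℝ) *
        ∑ g : G, pois t i * |stepLaw Z i g - 1 / (Nat.card G : ℝ)|) =
        fun i => pois t i * tvStep Z i := by
      funext i
      unfold tvStep
      rw [← Finset.mul_sum]
      ring
    rwa [h5] at h4
  have h3 : dTV Z t ≤ ∑' i, pois t i * tvStep Z i := by
    rw [h2.tsum_eq]
    unfold dTV
    gcongr with g _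
    exact h1 g
  refine h3.trans ?_
  -- comparison
  have h4 : HasSum (fun i => (if i ∈ Finset.range n then pois t i else 0) +
      pois t i * tvStep Z n) (∑ i ∈ Finset.range n, pois t i + tvStep Z n) := by
    have h5 : HasSum (fun i => if i ∈ Finset.range n then pois t i else 0)
        (∑ i ∈ Finset.range n, pois t i) := by
      have h6 : HasSum (fun i => if i ∈ Finset.range n then pois t i else 0)
          (∑ i ∈ Finset.range n, if i ∈ Finset.range n then pois t i else 0) :=
        hasSum_sum_of_ne_finset_zero (fun b hb => if_neg hb)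
      rwa [Finset.sum_congr rfl (fun i hi => if_pos hi)] at h6
    have h7 := (T2.pois_hasSum t).mul_right (tvStep Z n)
    rw [one_mul] at h7
    exact h5.add h7
  rw [← h4.tsum_eq]
  refine Summable.tsum_le_tsum (fun i => ?_) h2.summable h4.summable
  have hp := T2.pois_nonneg ht i
  have ht1 := T2.tvStep_le_one hk Z i
  have ht0 := T2.tvStep_nonneg Z n
  by_cases hi : i ∈ Finset.range n
  · rw [if_pos hi]
    nlinarith [mul_nonneg hp ht0, mul_le_of_le_one_right hp ht1]
  · rw [if_neg hi, zero_add]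
    have hni : n ≤ i := by simpa using hi
    exact mul_le_mul_of_nonneg_left (hT1 G k Z hk hni) hp

end NilCut
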