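import Pool.Agent.Lib.MP_4ddf81_pr.Stm

set_option autoImplicit false

namespace NilCut

namespace T3

open Finset

variable {G : Type} [Group G]

theorem pois_nonneg {t : ℝ} (ht : 0 ≤ t) (i : ℕ) : 0 ≤ pois t i := by
  unfold pois
  positivity

theorem pois_hasSum (t : ℝ) : HasSum (pois t) 1 := by
  have h1 : HasSum (fun n : ℕ => t ^ n / (n.factorial : ℝ)) (Real.exp t) := by
    rw [Real.exp_eq_exp_ℝ]
    exact NormedSpace.expSeries_div_hasSum_exp t
  have h2 := h1.mul_left (Real.exp (-t))
  rw [← Real.exp_add, neg_add_cancel, Real.exp_zero] at h2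
  refine h2.congr_fun fun n => ?_
  unfold pois
  ring

theorem stepLaw_nonneg {k : ℕ} (Z : Fin k → G) (n : ℕ) (g : G) : 0 ≤ stepLaw Z n g := by
  unfold stepLaw
  positivity

/-- if all words of length `n` have their product in `A` then `A` has mass one -/
theorem sum_stepLaw {k : ℕ} (hk : 0 < k) (Z : Fin k → G) (n : ℕ) (A : Finset G)
    (hA : ∀ w : Fin n → Fin k, wprod Z w ∈ A) : ∑ g ∈ A, stepLaw Z n g = 1 := by
  classical
  have h1 : ∀ g, (Nat.card {w : Fin n → Fin k // wprod Z w = g} : ℝ) =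
      ((univ.filter (fun w : Fin n → Fin k => wprod Z w = g)).card : ℝ) := by
    intro g
    rw [Nat.card_eq_fintype_card, Fintype.card_subtype]
  have h2 : ((univ : Finset (Fin n → Fin k)).card : ℝ) =
      ∑ g ∈ A, ((univ.filter (fun w : Fin n → Fin k => wprod Z w = g)).card : ℝ) := by
    have := Finset.card_eq_sum_card_fiberwise (s := (univ : Finset (Fin n → Fin k)))
      (t := A) (f := fun w => wprod Z w) (fun w _ => by simpa using hA w)
    exact_mod_cast this
  have h3 : ((univ : Finset (Fin n → Fin k)).card : ℝ) = (k : ℝ) ^ n := by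
    rw [card_univ, Fintype.card_fun, Fintype.card_fin, Fintype.card_fin]
    push_cast
    rfl
  unfold stepLaw
  rw [← Finset.sum_div]
  simp only [h1]
  rw [← h2, h3]
  have : (0 : ℝ) < (k : ℝ) ^ n := by positivity
  exact div_self this.ne'

theorem stepLaw_le_one [Fintype G] {k : ℕ} (hk : 0 < k) (Z : Fin k → G) (n : ℕ) (g : G) :
    stepLaw Z n g ≤ 1 := by
  have h1 := sum_stepLaw hk Z n univ (fun _ => mem_univ _)
  rw [← h1]
  exact Finset.single_le_sum (f := fun g => stepLaw Z n g) (fun i _ => stepLaw_nonneg Z n i)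
    (mem_univ g)

theorem summable_law [Fintype G] {k : ℕ} (hk : 0 < k) (Z : Fin k → G) {t : ℝ} (ht : 0 ≤ t)
    (g : G) : Summable (fun i => pois t i * stepLaw Z i g) := by
  refine Summable.of_nonneg_of_le (fun i => mul_nonneg (pois_nonneg ht i) (stepLaw_nonneg Z i g))
    (fun i => ?_) (pois_hasSum t).summable
  have h1 := stepLaw_le_one hk Z i g
  have h2 := pois_nonneg ht i
  nlinarith

theorem sum_law [Fintype G] {k : ℕ} (hk : 0 < k) (Z : Fin k → G) {t : ℝ} (ht : 0 ≤ t)
    (A : Finset G) :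
    ∑ g ∈ A, law Z t g = ∑' i, pois t i * ∑ g ∈ A, stepLaw Z i g := by
  have h1 : ∀ g, law Z t g = ∑' i, pois t i * stepLaw Z i g := fun g => rfl
  simp only [h1, Finset.mul_sum]
  rw [Summable.tsum_finsetSum (fun g _ => summable_law hk Z ht g)]

end T3

open Finset in
theorem p_T3 : S_T3 := by
  classical
  intro G _ _ k Z t n hk ht
  have hfin : (reach Z n).Finite := Set.toFinite _
  set A : Finset G := hfin.toFinset with hA
  have hAm : ∀ i ≤ n, ∀ w : Fin i → Fin k, wprod Z w ∈ A := by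
    intro i hi w
    rw [hA, Set.Finite.mem_toFinset]
    exact ⟨i, hi, w, rfl⟩
  have hcard : (Nat.card (reach Z n) : ℝ) = (A.card : ℝ) := by
    rw [hA]
    have := Nat.card_eq_card_finite_toFinset hfin
    exact_mod_cast this
  have hN : (0 : ℝ) < (Nat.card G : ℝ) := by
    have := Nat.card_pos (α := G)
    exact_mod_cast this
  have h1 : ∑ i ∈ Finset.range (n + 1), pois t i ≤ ∑ g ∈ A, law Z t g := by
    rw [T3.sum_law hk Z ht A]
    have hs : Summable (fun i => pois t i * ∑ g ∈ A, stepLaw Z i g) := by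
      simp only [Finset.mul_sum]
      exact summable_sum (fun g _ => T3.summable_law hk Z ht g)
    have h2 := hs.sum_le_tsum (Finset.range (n + 1)) (fun i _ =>
      mul_nonneg (T3.pois_nonneg ht i) (Finset.sum_nonneg fun g _ => T3.stepLaw_nonneg Z i g))
    refine le_trans (le_of_eq ?_) h2
    refine Finset.sum_congr rfl fun i hi => ?_
    rw [T3.sum_stepLaw hk Z i A (hAm i (by have := Finset.mem_range.mp hi; omega)), mul_one]
  have h3 : ∑ g : G, law Z t g = 1 := by
    rw [T3.sum_law hk Z ht univ]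
    have : (fun i => pois t i * ∑ g : G, stepLaw Z i g) = pois t := by
      funext i
      rw [T3.sum_stepLaw hk Z i univ (fun _ => mem_univ _), mul_one]
    rw [this]
    exact (T3.pois_hasSum t).tsum_eq
  have h4 : ∑ g : G, (law Z t g - 1 / (Nat.card G : ℝ)) = 0 := by
    rw [Finset.sum_sub_distrib, h3, Finset.sum_const, card_univ, nsmul_eq_mul,
      ← Nat.card_eq_fintype_card]
    field_simp
    ring
  have h5 : ∑ g ∈ A, (law Z t g - 1 / (Nat.card G : ℝ)) =
      ∑ g ∈ A, law Z t g - (A.card : ℝ) / (Nat.card G : ℝ) := by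
    rw [Finset.sum_sub_distrib, Finset.sum_const, nsmul_eq_mul]
    ring
  have h6 : ∑ g ∈ A, (law Z t g - 1 / (Nat.card G : ℝ)) ≤ dTV Z t := by
    unfold dTV
    have h7 := Finset.sum_add_sum_compl A (fun g => law Z t g - 1 / (Nat.card G : ℝ))
    have h8 := Finset.sum_add_sum_compl A (fun g => |law Z t g - 1 / (Nat.card G : ℝ)|)
    rw [h4] at h7
    rw [← h8]
    have h9 : ∑ g ∈ A, (law Z t g - 1 / (Nat.card G : ℝ)) ≤
        ∑ g ∈ A, |law Z t g - 1 / (Nat.card G : ℝ)| :=
      Finset.sum_le_sum fun g _ => le_abs_self _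
    have h10 : -∑ g ∈ Aᶜ, (law Z t g - 1 / (Nat.card G : ℝ)) ≤
        ∑ g ∈ Aᶜ, |law Z t g - 1 / (Nat.card G : ℝ)| := by
      rw [← Finset.sum_neg_distrib]
      exact Finset.sum_le_sum fun g _ => neg_le_abs _
    linarith
  rw [hcard]
  linarith

end NilCut
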