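import Pool.Agent.Lib.MP_4ddf81_pr.Stm

/-!
# MP_4ddf81_pr : piece Three
-/

namespace NilCut

open scoped commutatorElement

namespace Three

variable {G : Type} [Group G]

theorem three_mod (K A B C : Subgroup G) [K.Normal] (h1 : ⁅⁅B, C⁆, A⁆ ≤ K)
    (h2 : ⁅⁅C, A⁆, B⁆ ≤ K) : ⁅⁅A, B⁆, C⁆ ≤ K := by
  have key : ∀ X Y Z : Subgroup G, ⁅⁅X, Y⁆, Z⁆ ≤ K ↔
      ⁅⁅X.map (QuotientGroup.mk' K), Y.map (QuotientGroup.mk' K)⁆,
        Z.map (QuotientGroup.mk' K)⁆ = ⊥ := by
    intro X Y Z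
    rw [← Subgroup.map_commutator, ← Subgroup.map_commutator, Subgroup.map_eq_bot_iff,
      QuotientGroup.ker_mk']
  rw [key] at h1 h2 ⊢
  exact Subgroup.commutator_commutator_eq_bot_of_rotate h1 h2

theorem lc_normal (a : ℕ) : (lc G a).Normal := by
  unfold lc
  infer_instance

theorem lc_succ (a : ℕ) : lc G (a + 1) = ⁅lc G a, (⊤ : Subgroup G)⁆ := rfl

theorem lc_comm (b : ℕ) : ∀ a : ℕ, ⁅lc G a, lc G b⁆ ≤ lc G (a + b + 1) := by
  induction b with
  | zero => intro a; exact le_of_eq rfl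
  | succ b ih =>
    intro a
    have hn : (lc G (a + (b + 1) + 1)).Normal := lc_normal _
    rw [Subgroup.commutator_comm, lc_succ b]
    refine three_mod _ _ _ _ ?_ ?_
    · rw [Subgroup.commutator_comm ⊤, ← lc_succ]
      refine (ih (a + 1)).trans (le_of_eq ?_)
      congr 1
      ring
    · rw [lc_succ (a + (b + 1))]
      exact Subgroup.commutator_mono (ih a) le_rfl

/-- the kernel of `ω` as a subgroup of `G` -/
def KK {j : ℕ} (ω : lc G (j + 1) →* ℂˣ) : Subgroup G := (ω.ker).map (lc G (j + 1)).subtype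

theorem mem_KK {j : ℕ} (ω : lc G (j + 1) →* ℂˣ) (x : G) (hx : x ∈ lc G (j + 1)) :
    x ∈ KK ω ↔ ω ⟨x, hx⟩ = 1 := by
  unfold KK
  rw [Subgroup.mem_map]
  constructor
  · rintro ⟨y, hy, hyx⟩
    subst hyx
    exact hy
  · intro h
    exact ⟨⟨x, hx⟩, h, rfl⟩

theorem KK_le {j : ℕ} (ω : lc G (j + 1) →* ℂˣ) : KK ω ≤ lc G (j + 1) := by
  unfold KK
  exact Subgroup.map_subtype_le _

theorem le_KK {j : ℕ} (ω : lc G (j + 1) →* ℂˣ) (hω : Cen ω) : lc G (j + 2) ≤ KK ω := by
  intro x hx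
  have hx' : x ∈ lc G (j + 1) :=
    Subgroup.lowerCentralSeries_antitone (⊤ : Subgroup G) (Nat.le_succ (j + 1)) hx
  rw [mem_KK ω x hx']
  exact hω ⟨x, hx'⟩ hx

theorem KK_normal {j : ℕ} (ω : lc G (j + 1) →* ℂˣ) (hω : Cen ω) : (KK ω).Normal := by
  constructor
  intro n hn g
  have h1 : g * n * g⁻¹ = ⁅g, n⁆ * n := by
    rw [commutatorElement_def]
    group
  rw [h1]
  refine (KK ω).mul_mem (le_KK ω hω ?_) hn
  rw [lc_succ, Subgroup.commutator_comm]
  exact Subgroup.commutator_mem_commutator (Subgroup.mem_top g) (KK_le ω hn)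

theorem R_le (R : Subgroup G) (i : ℕ) : R.lowerCentralSeries i ≤ lc G i := by
  induction i with
  | zero => exact le_top
  | succ i ih =>
    rw [Subgroup.lowerCentralSeries_succ, lc_succ]
    exact Subgroup.commutator_mono ih le_top

theorem claim {j : ℕ} (ω : lc G (j + 1) →* ℂˣ) (hω : Cen ω) (R : Subgroup G)
    (hR : ∀ (g : lc G j), ∀ x ∈ R, ω (brk g x) = 1) (i : ℕ) :
    i ≤ j → ⁅R.lowerCentralSeries i, lc G (j - i)⁆ ≤ KK ω := by
  have hn := KK_normal ω hω
  have h0 : ⁅lc G j, R⁆ ≤ KK ω := by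
    rw [Subgroup.commutator_le]
    intro g hg x hx
    exact (mem_KK ω _ _).2 (hR ⟨g, hg⟩ x hx)
  induction i with
  | zero =>
    intro _
    rw [Subgroup.commutator_comm]
    exact h0
  | succ i ih =>
    intro hi
    obtain ⟨d, hd⟩ : ∃ d, j = i + 1 + d := Nat.exists_eq_add_of_le hi
    have e1 : j - (i + 1) = d := by omega
    have e2 : j - i = d + 1 := by omega
    have ih' := ih (by omega)
    rw [e2] at ih'
    rw [e1, Subgroup.lowerCentralSeries_succ]
    refine three_mod _ _ _ _ ?_ ?_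
    · refine le_trans ?_ ih'
      rw [Subgroup.commutator_comm (R.lowerCentralSeries i) (lc G (d + 1))]
      refine Subgroup.commutator_mono ?_ le_rfl
      rw [lc_succ, Subgroup.commutator_comm]
      exact Subgroup.commutator_mono le_rfl le_top
    · refine le_trans ?_ h0
      refine Subgroup.commutator_mono ?_ le_rfl
      refine (Subgroup.commutator_mono le_rfl (R_le R i)).trans ?_
      refine (lc_comm i d).trans (le_of_eq ?_)
      congr 1
      omega

theorem lnc_mem (R : Subgroup G) (h : ℕ → G) (i : ℕ) : (∀ l ≤ i, h l ∈ R) →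
    (lncE h i : G) ∈ R.lowerCentralSeries i := by
  induction i with
  | zero => intro hh; exact hh 0 le_rfl
  | succ i ih =>
    intro hh
    rw [Subgroup.lowerCentralSeries_succ]
    exact Subgroup.commutator_mem_commutator (ih fun l hl => hh l (by omega))
      (hh (i + 1) le_rfl)

end Three

open Three in
theorem p_Three : S_Three := by
  intro G _ j ω hω R hR h hh x
  have h1 := claim ω hω R hR j le_rfl
  rw [Nat.sub_self] at h1
  have h2 : ⁅(lncE h j : G), x⁆ ∈ KK ω :=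
    h1 (Subgroup.commutator_mem_commutator (lnc_mem R h j hh) (Subgroup.mem_top x))
  exact (mem_KK ω _ (brk (lncE h j) x).2).1 h2

end NilCut
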