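import Pool.Agent.Lib.MP_4ddf81_pr.Stm

set_option autoImplicit false

namespace NilCut

namespace Tr

/-- a root of the characteristic polynomial of a matrix of finite order has norm one -/
theorem root_norm {d N : ℕ} (hN : N ≠ 0) (M : Matrix (Fin d) (Fin d) ℂ) (hM : M ^ N = 1) {μ : ℂ}
    (hμ : μ ∈ M.charpoly.roots) : ‖μ‖ = 1 := by
  have h1 : M.charpoly.eval μ = 0 := (Polynomial.mem_roots'.mp hμ).2
  rw [Matrix.eval_charpoly] at h1
  obtain ⟨v, hv, h2⟩ := Matrix.exists_mulVec_eq_zero_iff.mpr h1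
  have h3 : M.mulVec v = μ • v := by
    rw [Matrix.sub_mulVec, sub_eq_zero] at h2
    rw [← h2]
    ext i
    simp [Matrix.scalar_apply, Matrix.mulVec_diagonal]
  have h4 : ∀ n : ℕ, (M ^ n).mulVec v = μ ^ n • v := by
    intro n
    induction n with
    | zero => simp
    | succ n ih =>
      rw [pow_succ, ← Matrix.mulVec_mulVec, h3, Matrix.mulVec_smul, ih, smul_smul, pow_succ,
        mul_comm]
  have h5 := h4 N
  rw [hM, Matrix.one_mulVec] at h5
  have h6 : (μ ^ N - 1) • v = 0 := by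
    rw [sub_smul, one_smul, ← h5, sub_self]
  rcases smul_eq_zero.mp h6 with h7 | h7
  · exact Complex.norm_eq_one_of_pow_eq_one (sub_eq_zero.mp h7) hN
  · exact absurd h7 hv

end Tr

theorem p_Tr : S_Tr := by
  intro G _ _ d ρ g
  have hM : (ρ g) ^ (orderOf g) = 1 := by
    rw [← map_pow, pow_orderOf_eq_one, map_one]
  have hN : orderOf g ≠ 0 := (orderOf_pos g).ne'
  rw [Matrix.trace_eq_sum_roots_charpoly]
  have h1 : ‖(ρ g).charpoly.roots.sum‖ ≤ ((ρ g).charpoly.roots.map fun x => ‖x‖).sum :=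
    norm_multiset_sum_le _
  have h2 : ((ρ g).charpoly.roots.map fun x => ‖x‖) =
      Multiset.replicate (ρ g).charpoly.roots.card (1 : ℝ) := by
    rw [Multiset.eq_replicate]
    refine ⟨by simp, fun b hb => ?_⟩
    obtain ⟨μ, hμ, rfl⟩ := Multiset.mem_map.mp hb
    exact Tr.root_norm hN _ hM hμ
  rw [h2, Multiset.sum_replicate, nsmul_eq_mul, mul_one] at h1
  refine h1.trans ?_
  have h3 := Polynomial.card_roots' (ρ g).charpoly
  rw [Matrix.charpoly_natDegree_eq_dim, Fintype.card_fin] at h3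
  exact_mod_cast h3

end NilCut
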