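import Pool.Agent.Lib.MP_4ddf81_pr.Stm

/-!
# MP_4ddf81_pr : the discrete time upper bound
-/

namespace NilCut

open Filter Topology

namespace Up

lemma tvStep_nonneg {G : Type} [Group G] [Fintype G] {k : ℕ} (Z : Fin k → G) (n : ℕ) :
    0 ≤ tvStep Z n := by
  unfold tvStep
  have : 0 ≤ ∑ g : G, |stepLaw Z n g - 1 / (Nat.card G : ℝ)| :=
    Finset.sum_nonneg fun g _ => abs_nonneg _
  linarith

/-- the bracket of `S_SBound` -/
noncomputable def Bb (L : ℝ) (k N : ℕ) (ε : ℝ) : ℝ :=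
  (64 : ℝ) ^ N * ((N : ℝ) / (k : ℝ)) ^ (ε * (N : ℝ)) *
    (1 + (2 * (N : ℝ)) ^ 3 * Real.exp (12 * (1 + Real.sqrt L) * Real.log (2 * (N : ℝ)) ^ 2))

lemma Bb_nonneg (L : ℝ) (k N : ℕ) (ε : ℝ) : 0 ≤ Bb L k N ε := by
  unfold Bb
  positivity

lemma one_group (hWed : S_Wed) (hW : S_W) (hB : S_SBound) (G : Type) [Group G] [Fintype G]
    (hnil : Group.IsNilpotent G) (k N : ℕ) (ε : ℝ) (hε : 0 < ε) (hε1 : ε ≤ 1)
    (hgood : good G k N) (hN : 2 ≤ N) (hk : 4 * N ≤ k) :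
    (∑ Z : Fin k → G, tvStep Z ⌈(1 + ε / 2) * (N : ℝ)⌉₊) / (Nat.card G : ℝ) ^ k ≤
      (16 / ε) * ((N : ℝ) / (k : ℝ)) +
        Real.sqrt (Bb (Real.log (Nat.card G)) k N (ε / 4)) / 2 := by
  obtain ⟨P⟩ := hWed G
  set n₁ : ℕ := ⌈(1 + ε / 2) * (N : ℝ)⌉₊ with hn₁
  set r : ℕ := ⌊(ε / 4) * (N : ℝ)⌋₊ with hr
  have hNr : (2 : ℝ) ≤ (N : ℝ) := by exact_mod_cast hN
  have hn1 : n₁ ≤ 2 * N := by
    rw [hn₁]
    apply Nat.ceil_le.2
    push_cast
    nlinarith
  have hle : (1 + ε / 2) * (N : ℝ) ≤ (n₁ : ℝ) := Nat.le_ceil _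
  have hr1 : (r : ℝ) ≤ (ε / 4) * (N : ℝ) := Nat.floor_le (by positivity)
  have hr2 : (ε / 4) * (N : ℝ) < (r : ℝ) + 1 := Nat.lt_floor_add_one _
  have hBn := Bb_nonneg (Real.log (Nat.card G)) k N (ε / 4)
  have h1 := hW G P k n₁ r (Real.sqrt (Bb (Real.log (Nat.card G)) k N (ε / 4)))
    (by omega) (Real.sqrt_nonneg _) (by
      intro m hm1 hm2
      have hm1r : (n₁ : ℝ) ≤ (m : ℝ) + (r : ℝ) := by exact_mod_cast hm1
      have h2 := hB G hnil P k N n₁ m (ε / 4) hgood (by positivity) hN (by omega) hn1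
        (by omega) hm2 (by nlinarith)
      rw [Real.sq_sqrt hBn]
      exact h2)
  have hG0 : 0 < (Nat.card G : ℝ) ^ k := by
    have : 0 < Nat.card G := Nat.card_pos
    positivity
  rw [div_le_iff₀ hG0]
  refine h1.trans ?_
  rw [mul_comm ((16 / ε) * _ + _)]
  apply mul_le_mul_of_nonneg_left _ hG0.le
  have hk0 : (0 : ℝ) < (k : ℝ) := by
    have : 0 < k := by omega
    exact_mod_cast this
  have hn1r : (n₁ : ℝ) ≤ 2 * (N : ℝ) := by exact_mod_cast hn1
  have h3 : (n₁ : ℝ) ^ 2 / ((k : ℝ) * ((r : ℝ) + 1)) ≤ (16 / ε) * ((N : ℝ) / (k : ℝ)) := by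
    have e : (16 / ε) * ((N : ℝ) / (k : ℝ)) =
        (2 * (N : ℝ)) ^ 2 / ((k : ℝ) * ((ε / 4) * (N : ℝ))) := by
      field_simp
      ring
    rw [e]
    apply div_le_div₀ (by positivity) _ (by positivity) _
    · exact pow_le_pow_left₀ (by positivity) hn1r 2
    · exact mul_le_mul_of_nonneg_left hr2.le hk0.le
  linarith

end Up

open Up in
/-- The discrete time upper bound. -/
theorem p_Up (hWed : S_Wed) (hW : S_W) (hB : S_SBound) (hL : S_LimUp) (hS : S_Reg) : S_Up := by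
  intro G _ _ k hnil hReg ε hε hε1
  obtain ⟨hN, hL1, hL2⟩ := hS G k hReg
  have hLt : Tendsto (fun n => Real.log (Nat.card (G n))) atTop atTop :=
    Real.tendsto_log_atTop.comp hReg.card
  have hB0 : Tendsto (fun n => Bb (Real.log (Nat.card (G n))) (k n) (nStar (G n) (k n)) (ε / 4))
      atTop (𝓝 0) :=
    hL _ k (fun n => nStar (G n) (k n)) (ε / 4) (by positivity) hLt hN hReg.sub hL1 hL2
  have hNk : Tendsto (fun n => (nStar (G n) (k n) : ℝ) / (k n : ℝ)) atTop (𝓝 0) := by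
    have h := hReg.sub.inv_tendsto_atTop
    refine h.congr fun n => ?_
    simp only [Pi.inv_apply, inv_div]
  have hlim : Tendsto (fun n => (16 / ε) * ((nStar (G n) (k n) : ℝ) / (k n : ℝ)) +
      Real.sqrt (Bb (Real.log (Nat.card (G n))) (k n) (nStar (G n) (k n)) (ε / 4)) / 2)
      atTop (𝓝 0) := by
    have h1 := hNk.const_mul (16 / ε)
    have h2 := ((Real.continuous_sqrt.tendsto 0).comp hB0).div_const 2
    have h3 := h1.add h2
    simp only [mul_zero, Real.sqrt_zero, zero_div, add_zero] at h3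
    exact h3
  refine squeeze_zero' ?_ ?_ hlim
  · refine Eventually.of_forall fun n => ?_
    apply div_nonneg (Finset.sum_nonneg fun Z _ => tvStep_nonneg Z _)
    positivity
  · filter_upwards [hReg.adm, hN.eventually_ge_atTop 2, hReg.sub.eventually_ge_atTop 4]
      with n h1 h2 h3
    have hN2 : 2 ≤ nStar (G n) (k n) := by exact_mod_cast h2
    have hk4 : 4 * nStar (G n) (k n) ≤ k n := by
      have hpos : (0 : ℝ) < (nStar (G n) (k n) : ℝ) := by linarith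
      rw [le_div_iff₀ hpos] at h3
      exact_mod_cast h3
    exact one_group hWed hW hB (G n) (hnil n) (k n) (nStar (G n) (k n)) ε hε hε1 h1 hN2 hk4

end NilCut
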