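import Pool.Agent.Lib.MP_4ddf81_pr.Stm

/-!
# MP_4ddf81_pr: the expected total variation distance after `n` jumps
-/

namespace NilCut

namespace W

theorem sameSk_refl {k n : ℕ} (w : Fin n → Fin k) : sameSk w w :=
  ⟨fun _ => Iff.rfl, fun _ _ => rfl⟩

theorem sameSk_symm {k n : ℕ} {w w' : Fin n → Fin k} (h : sameSk w w') : sameSk w' w :=
  ⟨fun i => (h.1 i).symm, fun i hi => (h.2 i fun hu => hi ((h.1 i).mp hu)).symm⟩

theorem sameSk_trans {k n : ℕ} {w w' w'' : Fin n → Fin k} (h : sameSk w w')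
    (h' : sameSk w' w'') : sameSk w w'' :=
  ⟨fun i => (h.1 i).trans (h'.1 i), fun i hi =>
    (h.2 i hi).trans (h'.2 i fun hu => hi ((h.1 i).mpr hu))⟩

open Classical in
theorem card_sum {α : Type} [Fintype α] (p : α → Prop) :
    (Nat.card {a // p a} : ℝ) = ∑ a, if p a then (1 : ℝ) else 0 := by
  rw [Nat.card_eq_fintype_card, Fintype.card_subtype, Finset.card_filter]
  push_cast
  rfl

/-- size of the class -/
noncomputable def N {k n : ℕ} (w : Fin n → Fin k) : ℝ :=
  (Nat.card {w' : Fin n → Fin k // sameSk w w'} : ℝ)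

theorem N_pos {k n : ℕ} (w : Fin n → Fin k) : 0 < N w := by
  unfold N
  have : Nonempty {w' : Fin n → Fin k // sameSk w w'} := ⟨⟨w, sameSk_refl w⟩⟩
  exact_mod_cast Nat.card_pos

theorem N_congr {k n : ℕ} {w w' : Fin n → Fin k} (h : sameSk w w') : N w = N w' := by
  unfold N
  have : (fun u : Fin n → Fin k => sameSk w u) = fun u => sameSk w' u := by
    funext u
    exact propext ⟨fun hu => sameSk_trans (sameSk_symm h) hu, fun hu => sameSk_trans h hu⟩
  rw [this]

open Classical in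
theorem class_sum {k n : ℕ} (f : (Fin n → Fin k) → ℝ) :
    ∑ w, (1 / N w) * (∑ w' : Fin n → Fin k, if sameSk w w' then f w' else 0) = ∑ w', f w' := by
  have h1 : ∀ w : Fin n → Fin k, (1 / N w) * (∑ w' : Fin n → Fin k, if sameSk w w' then f w' else 0) =
      ∑ w' : Fin n → Fin k, if sameSk w' w then f w' * (1 / N w') else 0 := by
    intro w
    rw [Finset.mul_sum]
    refine Finset.sum_congr rfl fun w' _ => ?_
    by_cases h : sameSk w w'
    · rw [if_pos h, if_pos (sameSk_symm h), N_congr h]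
      ring
    · rw [if_neg h, if_neg (fun h' => h (sameSk_symm h')), mul_zero]
  rw [Finset.sum_congr rfl fun w _ => h1 w, Finset.sum_comm]
  refine Finset.sum_congr rfl fun w' _ => ?_
  have h2 : ∀ w : Fin n → Fin k, (if sameSk w' w then f w' * (1 / N w') else 0) =
      (f w' * (1 / N w')) * (if sameSk w' w then (1 : ℝ) else 0) := by
    intro w
    split_ifs <;> simp
  rw [Finset.sum_congr rfl fun w _ => h2 w, ← Finset.mul_sum, ← card_sum (fun w => sameSk w' w)]
  show f w' * (1 / N w') * N w' = f w'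
  have := (N_pos w').ne'
  field_simp

variable {G : Type} [Group G] [Fintype G]

/-- number of words of the class with product `g` -/
noncomputable def X {k n : ℕ} (Z : Fin k → G) (w : Fin n → Fin k) (g : G) : ℝ :=
  (Nat.card {w' : Fin n → Fin k // sameSk w w' ∧ wprod Z w' = g} : ℝ)

omit [Fintype G] in
theorem X_nonneg {k n : ℕ} (Z : Fin k → G) (w : Fin n → Fin k) (g : G) : 0 ≤ X Z w g :=
  Nat.cast_nonneg _

omit [Fintype G] in
open Classical in
theorem X_eq {k n : ℕ} (Z : Fin k → G) (w : Fin n → Fin k) (g : G) :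
    X Z w g = ∑ w' : Fin n → Fin k, if sameSk w w' then
      (if wprod Z w' = g then (1 : ℝ) else 0) else 0 := by
  unfold X
  rw [card_sum]
  refine Finset.sum_congr rfl fun w' _ => ?_
  by_cases h : sameSk w w'
  · by_cases h' : wprod Z w' = g
    · rw [if_pos ⟨h, h'⟩, if_pos h, if_pos h']
    · rw [if_neg (fun hh => h' hh.2), if_pos h, if_neg h']
  · rw [if_neg (fun hh => h hh.1), if_neg h]

open Classical in
theorem X_total {k n : ℕ} (Z : Fin k → G) (w : Fin n → Fin k) : ∑ g, X Z w g = N w := by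
  rw [Finset.sum_congr rfl fun g _ => X_eq Z w g, Finset.sum_comm]
  unfold N
  rw [card_sum]
  refine Finset.sum_congr rfl fun w' _ => ?_
  by_cases h : sameSk w w'
  · simp only [if_pos h]
    rw [Finset.sum_ite_eq, if_pos (Finset.mem_univ _)]
  · simp only [if_neg h, Finset.sum_const_zero]

open Classical in
theorem step_eq {k n : ℕ} (hk : 0 < k) (Z : Fin k → G) (g : G) :
    (k : ℝ) ^ n * (stepLaw Z n g - 1 / (Nat.card G : ℝ)) =
      ∑ w : Fin n → Fin k, (1 / N w) * (X Z w g - N w / (Nat.card G : ℝ)) := by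
  have hk0 : (k : ℝ) ^ n ≠ 0 := by positivity
  have h1 : ∑ w : Fin n → Fin k, (1 / N w) * X Z w g =
      (Nat.card {w : Fin n → Fin k // wprod Z w = g} : ℝ) := by
    rw [Finset.sum_congr rfl fun w _ => by rw [X_eq Z w g],
      class_sum (fun w' => if wprod Z w' = g then (1 : ℝ) else 0), card_sum]
  have h2 : ∑ w : Fin n → Fin k, (1 / N w) * (N w / (Nat.card G : ℝ)) =
      (k : ℝ) ^ n / (Nat.card G : ℝ) := by
    have h3 : ∀ w : Fin n → Fin k, (1 / N w) * (N w / (Nat.card G : ℝ)) = 1 / (Nat.card G : ℝ) := by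
      intro w
      have := (N_pos w).ne'
      field_simp
    rw [Finset.sum_congr rfl fun w _ => h3 w, Finset.sum_const, Finset.card_univ,
      Fintype.card_fun, Fintype.card_fin, Fintype.card_fin, nsmul_eq_mul]
    push_cast
    ring
  rw [Finset.sum_congr rfl fun w _ => mul_sub _ _ _, Finset.sum_sub_distrib, h1, h2]
  unfold stepLaw
  field_simp

theorem card_pos' : (0 : ℝ) < (Nat.card G : ℝ) := by
  exact_mod_cast Nat.card_pos

theorem sum_const_div (c : ℝ) : ∑ _g : G, c / (Nat.card G : ℝ) = c := by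
  rw [Finset.sum_const, Finset.card_univ, nsmul_eq_mul, ← Nat.card_eq_fintype_card]
  have := (card_pos' (G := G)).ne'
  field_simp

/-- trivial bound -/
theorem bad_bound {k n : ℕ} (w : Fin n → Fin k) :
    ∑ Z : Fin k → G, ∑ g : G, |X Z w g - N w / (Nat.card G : ℝ)| ≤
      (Nat.card G : ℝ) ^ k * (2 * N w) := by
  have h1 : ∀ Z : Fin k → G, ∑ g : G, |X Z w g - N w / (Nat.card G : ℝ)| ≤ 2 * N w := by
    intro Z
    have h2 : ∀ g : G, |X Z w g - N w / (Nat.card G : ℝ)| ≤ X Z w g + N w / (Nat.card G : ℝ) := by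
      intro g
      have h3 := X_nonneg Z w g
      have h4 : 0 ≤ N w / (Nat.card G : ℝ) := div_nonneg (N_pos w).le card_pos'.le
      rw [abs_le]
      constructor <;> linarith
    refine (Finset.sum_le_sum fun g _ => h2 g).trans ?_
    rw [Finset.sum_add_distrib, X_total, sum_const_div]
    linarith
  refine (Finset.sum_le_sum fun Z _ => h1 Z).trans ?_
  rw [Finset.sum_const, Finset.card_univ, Fintype.card_fun, Fintype.card_fin, nsmul_eq_mul,
    ← Nat.card_eq_fintype_card]
  push_cast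
  exact le_rfl

end W

open Classical in
theorem p_W (hW4 : S_W4) (hW5 : S_W5) : S_W := by
  intro G _ _ P k n r b hnk hb hP
  have hk : 0 < k := by omega
  have hkR : (0 : ℝ) < k := by exact_mod_cast hk
  have hkn : (0 : ℝ) < (k : ℝ) - (n : ℝ) := by
    have : (n : ℝ) < k := by exact_mod_cast hnk
    linarith
  have hG : (0 : ℝ) < (Nat.card G : ℝ) := W.card_pos'
  have hGk : (0 : ℝ) < (Nat.card G : ℝ) ^ k := by positivity
  -- bound for one word
  have hword : ∀ w : Fin n → Fin k,
      (1 / W.N w) * ∑ Z : Fin k → G, ∑ g : G, |W.X Z w g - W.N w / (Nat.card G : ℝ)| ≤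
        (Nat.card G : ℝ) ^ k * b +
          (Nat.card G : ℝ) ^ k * (2 * if r < n - (uq w).card then (1 : ℝ) else 0) := by
    intro w
    have hN := W.N_pos w
    rw [one_div, inv_mul_le_iff₀ hN]
    by_cases hbad : r < n - (uq w).card
    · rw [if_pos hbad]
      refine (W.bad_bound w).trans ?_
      have : 0 ≤ W.N w * ((Nat.card G : ℝ) ^ k * b) := by positivity
      nlinarith
    · rw [if_neg hbad, mul_zero, mul_zero, add_zero]
      have hle : (uq w).card ≤ n := by
        have := Finset.card_le_univ (uq w)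
        rwa [Fintype.card_fin] at this
      have h1 := hW4 G P k n w hnk
      have h2 := hP (uq w).card (by omega) hle
      have hpow : 0 < ((k : ℝ) - (n : ℝ)) ^ (uq w).card := by positivity
      have h3 : Real.sqrt (P.S (uq w).card / ((k : ℝ) - (n : ℝ)) ^ (uq w).card) ≤ b := by
        rw [Real.sqrt_le_left hb, div_le_iff₀ hpow]
        exact h2
      refine h1.trans ?_
      calc (Nat.card G : ℝ) ^ k * (Nat.card {w' : Fin n → Fin k // sameSk w w'} : ℝ) *
            Real.sqrt (P.S (uq w).card / ((k : ℝ) - (n : ℝ)) ^ (uq w).card)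
          ≤ (Nat.card G : ℝ) ^ k * (Nat.card {w' : Fin n → Fin k // sameSk w w'} : ℝ) * b :=
            mul_le_mul_of_nonneg_left h3 (by positivity)
        _ = W.N w * ((Nat.card G : ℝ) ^ k * b) := by
          unfold W.N
          ring
  -- sum over the words
  have hsum : (k : ℝ) ^ n * ∑ Z : Fin k → G, ∑ g : G, |stepLaw Z n g - 1 / (Nat.card G : ℝ)| ≤
      ∑ w : Fin n → Fin k, (1 / W.N w) *
        ∑ Z : Fin k → G, ∑ g : G, |W.X Z w g - W.N w / (Nat.card G : ℝ)| := by
    have h1 : ∀ (Z : Fin k → G) (g : G), (k : ℝ) ^ n * |stepLaw Z n g - 1 / (Nat.card G : ℝ)| ≤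
        ∑ w : Fin n → Fin k, (1 / W.N w) * |W.X Z w g - W.N w / (Nat.card G : ℝ)| := by
      intro Z g
      rw [← abs_of_pos (show (0 : ℝ) < (k : ℝ) ^ n by positivity), ← abs_mul, W.step_eq hk]
      refine (Finset.abs_sum_le_sum_abs _ _).trans (Finset.sum_le_sum fun w _ => ?_)
      rw [abs_mul, abs_of_pos (show 0 < 1 / W.N w from one_div_pos.mpr (W.N_pos w))]
    rw [Finset.mul_sum]
    have h2 : ∀ Z : Fin k → G, (k : ℝ) ^ n * ∑ g : G, |stepLaw Z n g - 1 / (Nat.card G : ℝ)| ≤
        ∑ w : Fin n → Fin k, (1 / W.N w) * ∑ g : G, |W.X Z w g - W.N w / (Nat.card G : ℝ)| := by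
      intro Z
      rw [Finset.mul_sum]
      refine (Finset.sum_le_sum fun g _ => h1 Z g).trans ?_
      rw [Finset.sum_comm]
      exact Finset.sum_le_sum fun w _ => by rw [Finset.mul_sum]
    refine (Finset.sum_le_sum fun Z _ => h2 Z).trans ?_
    rw [Finset.sum_comm]
    exact Finset.sum_le_sum fun w _ => by rw [Finset.mul_sum]
  have hbadcard := hW5 k n r hk
  set Bd : ℝ := ∑ w : Fin n → Fin k, if r < n - (uq w).card then (1 : ℝ) else 0 with hBd
  have hBd' : (Nat.card {w : Fin n → Fin k // r < n - (uq w).card} : ℝ) = Bd := by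
    rw [W.card_sum (fun w : Fin n → Fin k => r < n - (uq w).card), hBd]
    refine Finset.sum_congr rfl fun w _ => ?_
    by_cases hw : r < n - (uq w).card
    · rw [if_pos hw, if_pos hw]
    · rw [if_neg hw, if_neg hw]
  rw [hBd'] at hbadcard
  have htot : (k : ℝ) ^ n * ∑ Z : Fin k → G, ∑ g : G, |stepLaw Z n g - 1 / (Nat.card G : ℝ)| ≤
      (k : ℝ) ^ n * ((Nat.card G : ℝ) ^ k * b) + (Nat.card G : ℝ) ^ k * (2 * Bd) := by
    refine hsum.trans ((Finset.sum_le_sum fun w _ => hword w).trans (le_of_eq ?_))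
    rw [Finset.sum_add_distrib, Finset.sum_const, Finset.card_univ, Fintype.card_fun,
      Fintype.card_fin, Fintype.card_fin, nsmul_eq_mul, ← Finset.mul_sum, ← Finset.mul_sum]
    push_cast
    rfl
  have hr : (0 : ℝ) < (r : ℝ) + 1 := by positivity
  have hkn' : (0 : ℝ) < (k : ℝ) ^ n := by positivity
  have hB : Bd ≤ (k : ℝ) ^ n * ((n : ℝ) ^ 2 / ((k : ℝ) * ((r : ℝ) + 1))) := by
    rw [← le_div_iff₀ hr] at hbadcard
    refine hbadcard.trans (le_of_eq ?_)
    field_simp
  have h5 : ∑ Z : Fin k → G, ∑ g : G, |stepLaw Z n g - 1 / (Nat.card G : ℝ)| ≤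
      (Nat.card G : ℝ) ^ k * b +
        (Nat.card G : ℝ) ^ k * (2 * ((n : ℝ) ^ 2 / ((k : ℝ) * ((r : ℝ) + 1)))) := by
    have h6 : (k : ℝ) ^ n * ∑ Z : Fin k → G, ∑ g : G, |stepLaw Z n g - 1 / (Nat.card G : ℝ)| ≤
        (k : ℝ) ^ n * ((Nat.card G : ℝ) ^ k * b +
          (Nat.card G : ℝ) ^ k * (2 * ((n : ℝ) ^ 2 / ((k : ℝ) * ((r : ℝ) + 1))))) := by
      refine htot.trans ?_
      have := mul_le_mul_of_nonneg_left hB (show (0 : ℝ) ≤ (Nat.card G : ℝ) ^ k * 2 by positivity)
      linarith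
    exact le_of_mul_le_mul_left h6 hkn'
  unfold tvStep
  rw [← Finset.mul_sum]
  linarith

end NilCut
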