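import Pool.Agent.Lib.MP_4ddf81_pr.Stm

/-!
# MP_4ddf81_pr : piece W1
-/

namespace NilCut

open scoped Classical in
theorem W1.card_eq_sum {α : Type} [Fintype α] (P : α → Prop) :
    (Nat.card {x // P x} : ℝ) = ∑ x, if P x then (1 : ℝ) else 0 := by
  rw [Finset.sum_boole, Nat.card_eq_fintype_card, Fintype.card_subtype]

theorem W1.avg {G : Type} [Fintype G] {k m : ℕ} (u : Fin m → Fin k)
    (hu : Function.Injective u) (F : (Fin k → G) → ℝ) :
    (Nat.card G : ℝ) ^ m * ∑ Z, F Z =
      ∑ Z0 : Fin k → G, ∑ z : Fin m → G, F (Function.extend u z Z0) := by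
  classical
  let τ : (Fin k → G) × (Fin m → G) → (Fin k → G) × (Fin m → G) := fun p =>
    (Function.extend u p.2 p.1, p.1 ∘ u)
  have hτ : Function.Involutive τ := by
    rintro ⟨Z, z⟩
    refine Prod.ext ?_ ?_
    · funext a
      change Function.extend u (Z ∘ u) (Function.extend u z Z) a = Z a
      by_cases h : ∃ l, u l = a
      · obtain ⟨l, rfl⟩ := h
        rw [hu.extend_apply]
        rfl
      · rw [Function.extend_apply' _ _ _ h, Function.extend_apply' _ _ _ h]
    · funext l
      change Function.extend u z Z (u l) = z l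
      rw [hu.extend_apply]
  have h1 : ∑ p : (Fin k → G) × (Fin m → G), F (τ p).1 =
      ∑ p : (Fin k → G) × (Fin m → G), F p.1 :=
    Equiv.sum_comp hτ.toPerm (fun p : (Fin k → G) × (Fin m → G) => F p.1)
  have h2 : ∑ Z0 : Fin k → G, ∑ z : Fin m → G, F (Function.extend u z Z0) =
      ∑ p : (Fin k → G) × (Fin m → G), F (τ p).1 := by
    rw [Fintype.sum_prod_type]
  rw [h2, h1, Fintype.sum_prod_type]
  simp only [Finset.sum_const, Finset.card_univ, Fintype.card_fun, Fintype.card_fin, nsmul_eq_mul,
    Nat.card_eq_fintype_card, Nat.cast_pow, Finset.mul_sum]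

theorem W1.S_nonneg {G : Type} [Group G] (P : Planch G) (m : ℕ) : 0 ≤ P.S m := by
  unfold Planch.S
  positivity

open scoped Classical in
theorem p_W1 (hA : S_Alt) (hP : S_Perm) : S_W1 := by
  intro G _ _ P k n w
  set I := uq w with hI
  have memI : ∀ i, i ∈ I ↔ uniq w i := fun i => by rw [hI]; simp [uq]
  set m := I.card with hm
  let e : Fin m ↪o Fin n := I.orderEmbOfFin rfl
  have he : ∀ l, e l ∈ I := fun l => I.orderEmbOfFin_mem rfl l
  have hrange : ∀ i, i ∈ Set.range e ↔ i ∈ I := by
    intro i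
    rw [Finset.range_orderEmbOfFin]
    exact Finset.mem_coe
  let u : Fin m → Fin k := fun l => w (e l)
  have hu : Function.Injective u := by
    intro l l' h
    by_contra hne
    have h1 : e l ≠ e l' := fun h' => hne (e.injective h')
    exact (memI _).1 (he l') (e l) h1 h
  have hu2 : ∀ i, i ∉ I → ∀ l, u l ≠ w i := by
    intro i hi l h
    have h1 : i ≠ e l := fun h' => hi (h' ▸ he l)
    exact (memI _).1 (he l) i h1 h.symm
  -- the isomorphism of `Fin m` with the subtype
  let f : Fin m ≃ {i // i ∈ I} := (I.orderIsoOfFin rfl).toEquiv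
  have hf : ∀ l, ((f l : {i // i ∈ I}) : Fin n) = e l := fun l => rfl
  let Ψ : Equiv.Perm (Fin m) → Equiv.Perm (Fin n) := fun σ => σ.extendDomain f
  have Ψ1 : ∀ σ l, Ψ σ (e l) = e (σ l) := by
    intro σ l
    have := Equiv.Perm.extendDomain_apply_image σ f l
    exact this
  have Ψ2 : ∀ σ i, i ∉ I → Ψ σ i = i := fun σ i hi =>
    Equiv.Perm.extendDomain_apply_not_subtype σ f hi
  have Ψinj : Function.Injective Ψ := by
    intro σ σ' h
    ext l
    have h1 : e (σ l) = e (σ' l) := by rw [← Ψ1, ← Ψ1, h]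
    exact congrArg Fin.val (e.injective h1)
  have Ψsurj : ∀ σ : Equiv.Perm (Fin n), (∀ i, i ∉ I → σ i = i) → ∃ σ', Ψ σ' = σ := by
    intro σ hσ
    have h1 : ∀ i, i ∈ I ↔ σ i ∈ I := by
      intro i
      constructor
      · intro hi
        by_contra hc
        have := hσ _ hc
        exact hc (by rw [σ.injective this]; exact hi)
      · intro hi
        by_contra hc
        exact hc (by rw [hσ i hc] at hi; exact hi)
    let τ : Equiv.Perm {i // i ∈ I} := σ.subtypePerm (fun i => (h1 i).symm)
    refine ⟨(f.trans τ).trans f.symm, ?_⟩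
    ext i
    by_cases hi : i ∈ I
    · obtain ⟨l, hl⟩ := (hrange i).2 hi
      have h2 : Ψ ((f.trans τ).trans f.symm) (e l) = σ (e l) := by
        rw [Ψ1]
        change e (f.symm (τ (f l))) = σ (e l)
        rw [← hf, f.apply_symm_apply]
        rfl
      rw [← hl, h2]
    · rw [Ψ2 _ i hi, hσ i hi]
  -- the pointwise bound
  have key : ∀ Z0 : Fin k → G,
      ∑ σ ∈ (Finset.univ.filter fun σ : Equiv.Perm (Fin n) => ∀ i, i ∉ I → σ i = i),
        (Nat.card G : ℝ) * ∑ z : Fin m → G,
          (if wprod (Function.extend u z Z0) w = wprod (Function.extend u z Z0) (w ∘ σ)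
            then (1 : ℝ) else 0) ≤ (Nat.card G : ℝ) ^ m * P.S m := by
    intro Z0
    obtain ⟨c, hc⟩ := hA G n m e (fun i => Z0 (w i))
    have hoff : ∀ (z : Fin m → G) (i : Fin n), i ∉ I →
        Function.extend u z Z0 (w i) = Z0 (w i) := by
      intro z i hi
      apply Function.extend_apply'
      rintro ⟨l, hl⟩
      exact hu2 i hi l hl
    have hon : ∀ (z : Fin m → G) (l : Fin m),
        Function.extend u z Z0 (w (e l)) = z l := fun z l => hu.extend_apply z Z0 l
    have hw1 : ∀ z : Fin m → G, wprod (Function.extend u z Z0) w = altW c z := by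
      intro z
      have h1 := hc (fun i => Function.extend u z Z0 (w i)) (fun i hi =>
        hoff z i (fun h => hi ((hrange i).2 h)))
      have h2 : (fun i => Function.extend u z Z0 (w i)) ∘ e = z := funext fun l => hon z l
      rw [h2] at h1
      exact h1
    have hw2 : ∀ (σ : Equiv.Perm (Fin m)) (z : Fin m → G),
        wprod (Function.extend u z Z0) (w ∘ Ψ σ) = altW c (z ∘ σ) := by
      intro σ z
      have h1 := hc (fun i => Function.extend u z Z0 (w (Ψ σ i))) (fun i hi => by
        have hi' : i ∉ I := fun h => hi ((hrange i).2 h)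
        change Function.extend u z Z0 (w (Ψ σ i)) = Z0 (w i)
        rw [Ψ2 σ i hi']
        exact hoff z i hi')
      have h2 : (fun i => Function.extend u z Z0 (w (Ψ σ i))) ∘ e = z ∘ σ := by
        funext l
        change Function.extend u z Z0 (w (Ψ σ (e l))) = z (σ l)
        rw [Ψ1]
        exact hon z (σ l)
      rw [h2] at h1
      exact h1
    have hsub : (Finset.univ.filter fun σ : Equiv.Perm (Fin n) => ∀ i, i ∉ I → σ i = i) ⊆
        Finset.univ.image Ψ := by
      intro σ hσ
      rw [Finset.mem_filter] at hσ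
      obtain ⟨σ', h⟩ := Ψsurj σ hσ.2
      exact Finset.mem_image.2 ⟨σ', Finset.mem_univ _, h⟩
    refine le_trans (Finset.sum_le_sum_of_subset_of_nonneg hsub ?_) ?_
    · intro σ _ _
      refine mul_nonneg (Nat.cast_nonneg _) (Finset.sum_nonneg fun z _ => ?_)
      split_ifs <;> norm_num
    rw [Finset.sum_image (fun σ _ σ' _ h => Ψinj h)]
    refine le_trans (le_of_eq ?_) (hP G P m c)
    refine Finset.sum_congr rfl fun σ _ => ?_
    rw [W1.card_eq_sum]
    congr 1
    refine Finset.sum_congr rfl fun z _ => ?_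
    rw [hw1, hw2]
  -- averaging
  have hq : (0 : ℝ) < (Nat.card G : ℝ) ^ m := by
    have : 0 < Nat.card G := Nat.card_pos
    positivity
  refine le_of_mul_le_mul_left ?_ hq
  calc (Nat.card G : ℝ) ^ m * ∑ σ ∈ (Finset.univ.filter fun σ : Equiv.Perm (Fin n) =>
          ∀ i, i ∉ I → σ i = i),
        (Nat.card G : ℝ) * (Nat.card {Z : Fin k → G // wprod Z w = wprod Z (w ∘ σ)} : ℝ)
      = ∑ Z0 : Fin k → G, ∑ σ ∈ (Finset.univ.filter fun σ : Equiv.Perm (Fin n) =>
          ∀ i, i ∉ I → σ i = i), (Nat.card G : ℝ) * ∑ z : Fin m → G,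
          (if wprod (Function.extend u z Z0) w = wprod (Function.extend u z Z0) (w ∘ σ)
            then (1 : ℝ) else 0) := by
        rw [Finset.sum_comm, Finset.mul_sum]
        refine Finset.sum_congr rfl fun σ _ => ?_
        rw [← Finset.mul_sum, W1.card_eq_sum, ← W1.avg u hu
          (fun Z => if wprod Z w = wprod Z (w ∘ σ) then (1 : ℝ) else 0)]
        ring
    _ ≤ ∑ Z0 : Fin k → G, (Nat.card G : ℝ) ^ m * P.S m :=
        Finset.sum_le_sum fun Z0 _ => key Z0
    _ = (Nat.card G : ℝ) ^ m * ((Nat.card G : ℝ) ^ k * P.S m) := by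
        rw [Finset.sum_const, Finset.card_univ, Fintype.card_fun, Fintype.card_fin, nsmul_eq_mul,
          Nat.card_eq_fintype_card, Nat.cast_pow]
        ring

end NilCut
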