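import Pool.Agent.Lib.MP_4ddf81_pr.Stm

/-!
# MP_4ddf81_pr : piece W2
-/

namespace NilCut
namespace W2

variable {G : Type} [Group G]

theorem ofFn_update {n : ℕ} (f : Fin n → G) (i : Fin n) (x : G) :
    List.ofFn (Function.update f i x) = (List.ofFn f).set i x := by
  apply List.ext_getElem
  · simp
  · intro m h1 h2
    rw [List.getElem_ofFn, List.getElem_set]
    by_cases h : (i : ℕ) = m
    · subst h
      simp
    · rw [if_neg h, List.getElem_ofFn, Function.update_of_ne]
      intro h'
      apply h
      rw [← h']

theorem wprod_update {k n : ℕ} (w : Fin n → Fin k) (i : Fin n) (hu : uniq w i)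
    (Z : Fin k → G) : ∃ α β : G, ∀ x : G, wprod (Function.update Z (w i) x) w = α * x * β := by
  refine ⟨((List.ofFn fun j => Z (w j)).take i).prod,
    ((List.ofFn fun j => Z (w j)).drop (i + 1)).prod, fun x => ?_⟩
  unfold wprod
  have h : (fun j => Function.update Z (w i) x (w j)) =
      Function.update (fun j => Z (w j)) i x := by
    funext j
    by_cases hj : j = i
    · subst hj
      simp
    · rw [Function.update_of_ne hj, Function.update_of_ne (hu j hj)]
  rw [h, ofFn_update, List.prod_set, if_pos]
  simp

theorem wprod_update_ne {k n : ℕ} (w' : Fin n → Fin k) (a : Fin k) (ha : ∀ j, w' j ≠ a)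
    (Z : Fin k → G) (x : G) : wprod (Function.update Z a x) w' = wprod Z w' := by
  unfold wprod
  congr 2
  funext j
  rw [Function.update_of_ne (ha j)]

end W2

open W2 in
theorem p_W2 : S_W2 := by
  intro G _ _ k n w w' i hu hw'
  classical
  have key : Nat.card ({Z : Fin k → G // wprod Z w = wprod Z w'} × G) =
      Nat.card (Fin k → G) := by
    apply Nat.card_congr
    apply Equiv.ofBijective (fun p => Function.update p.1.1 (w i) p.2)
    constructor
    · rintro ⟨⟨Z, hZ⟩, x⟩ ⟨⟨Z', hZ'⟩, x'⟩ h
      simp only at h
      have hx : x = x' := by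
        have := congrFun h (w i)
        simpa using this
      have hoff : Z' = Function.update Z (w i) (Z' (w i)) := by
        funext b
        by_cases hb : b = w i
        · subst hb
          simp
        · have := congrFun h b
          rw [Function.update_of_ne hb, Function.update_of_ne hb] at this
          rw [Function.update_of_ne hb, this]
      obtain ⟨α, β, hαβ⟩ := wprod_update w i hu Z
      have h1 : wprod Z' w = α * Z' (w i) * β := by
        rw [← hαβ, ← hoff]
      have h2 : wprod Z w = α * Z (w i) * β := by
        rw [← hαβ, Function.update_eq_self]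
      have h3 : wprod Z' w' = wprod Z w' := by
        rw [hoff]
        exact wprod_update_ne w' (w i) hw' Z _
      have h4 : α * Z' (w i) * β = α * Z (w i) * β := by
        rw [← h1, ← h2, hZ, hZ', h3]
      have h5 : Z' (w i) = Z (w i) := by
        exact mul_left_cancel (mul_right_cancel h4)
      have h6 : Z' = Z := by
        rw [hoff, h5, Function.update_eq_self]
      subst h6
      subst hx
      rfl
    · intro Y
      obtain ⟨α, β, hαβ⟩ := wprod_update w i hu Y
      refine ⟨⟨⟨Function.update Y (w i) (α⁻¹ * wprod Y w' * β⁻¹), ?_⟩, Y (w i)⟩, ?_⟩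
      · rw [hαβ, wprod_update_ne w' (w i) hw']
        group
      · simp
  rw [Nat.card_prod, Nat.card_fun, Nat.card_fin] at key
  have key2 : ((Nat.card {Z : Fin k → G // wprod Z w = wprod Z w'} * Nat.card G : ℕ) : ℝ) =
      ((Nat.card G ^ k : ℕ) : ℝ) := by
    rw [key]
  push_cast at key2
  rw [mul_comm]
  exact key2

end NilCut
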