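import Pool.Agent.Lib.MP_4ddf81_pr.Stm

/-! Size of the classes of words with the same skeleton. -/

namespace NilCut

namespace W3

open Classical in
/-- the word with new unique letters -/
noncomputable def rep {k n : ℕ} (w : Fin n → Fin k) (f : {i : Fin n // uniq w i} → Fin k)
    (i : Fin n) : Fin k := if h : uniq w i then f ⟨i, h⟩ else w i

theorem rep_pos {k n : ℕ} {w : Fin n → Fin k} {f : {i : Fin n // uniq w i} → Fin k}
    {i : Fin n} (h : uniq w i) : rep w f i = f ⟨i, h⟩ := by
  unfold rep; rw [dif_pos h]

theorem rep_neg {k n : ℕ} {w : Fin n → Fin k} {f : {i : Fin n // uniq w i} → Fin k}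
    {i : Fin n} (h : ¬ uniq w i) : rep w f i = w i := by
  unfold rep; rw [dif_neg h]

theorem same {k n : ℕ} {w : Fin n → Fin k} {f : {i : Fin n // uniq w i} → Fin k}
    (hf : Function.Injective f) (hT : ∀ x, ∀ i, ¬ uniq w i → w i ≠ f x) :
    sameSk w (rep w f) := by
  refine ⟨fun i => ⟨fun hi => ?_, fun hi => ?_⟩, fun i hi => (rep_neg hi).symm⟩
  · intro j hj
    rw [rep_pos hi]
    by_cases hu : uniq w j
    · rw [rep_pos hu]
      intro e
      exact hj (congrArg Subtype.val (hf e))
    · rw [rep_neg hu]
      exact hT _ _ hu
  · by_contra hn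
    have hn' : ∃ j, j ≠ i ∧ w j = w i := by
      unfold uniq at hn
      push Not at hn
      exact hn
    obtain ⟨j, hj, e⟩ := hn'
    have hnj : ¬ uniq w j := fun hu => hu i (Ne.symm hj) e.symm
    have h := hi j hj
    rw [rep_neg hn, rep_neg hnj] at h
    exact h e

end W3

theorem p_W3 : S_W3 := by
  classical
  intro k n w hnk
  -- the types of the positions and of the letters
  let I := {i : Fin n // uniq w i}
  let T := {a : Fin k // ∀ i, ¬ uniq w i → w i ≠ a}
  have hI : Fintype.card I = (uq w).card := by
    unfold uq
    exact Fintype.card_subtype _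
  have hmn : (uq w).card ≤ n := by
    have := Finset.card_le_univ (uq w)
    rwa [Fintype.card_fin] at this
  have hT : k ≤ Fintype.card T + (n - (uq w).card) := by
    have h1 : Fintype.card T = (Finset.univ.filter fun a : Fin k =>
        ∀ i, ¬ uniq w i → w i ≠ a).card := Fintype.card_subtype _
    have h2 : (Finset.univ.filter fun a : Fin k => ¬ ∀ i, ¬ uniq w i → w i ≠ a).card ≤
        n - (uq w).card := by
      have h3 : (Finset.univ.filter fun a : Fin k => ¬ ∀ i, ¬ uniq w i → w i ≠ a) ⊆
          ((uq w)ᶜ).image w := by
        intro a ha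
        have := (Finset.mem_filter.1 ha).2
        push Not at this
        obtain ⟨i, hi, e⟩ := this
        refine Finset.mem_image.2 ⟨i, ?_, e⟩
        rw [Finset.mem_compl]
        intro h
        exact hi (Finset.mem_filter.1 h).2
      refine (Finset.card_le_card h3).trans (Finset.card_image_le.trans ?_)
      rw [Finset.card_compl, Fintype.card_fin]
    have h4 := Finset.card_filter_add_card_filter_not (s := (Finset.univ : Finset (Fin k)))
      (fun a : Fin k => ∀ i, ¬ uniq w i → w i ≠ a)
    rw [Finset.card_univ, Fintype.card_fin] at h4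
    omega
  have hcard : Fintype.card (I ↪ T) ≤ Nat.card {w' : Fin n → Fin k // sameSk w w'} := by
    rw [Nat.card_eq_fintype_card]
    refine Fintype.card_le_of_injective
      (fun f : I ↪ T => (⟨W3.rep w (fun x => (f x).1), W3.same ?_ ?_⟩ :
        {w' : Fin n → Fin k // sameSk w w'})) ?_
    · intro x y e
      exact f.injective (Subtype.ext e)
    · intro x i hi
      exact (f x).2 i hi
    · intro f g e
      have e' := congrArg Subtype.val e
      ext x
      have h := congrFun e' x.1
      dsimp only at h
      rw [W3.rep_pos x.2, W3.rep_pos x.2] at h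
      exact congrArg Fin.val h
  rw [Fintype.card_embedding_eq, hI] at hcard
  refine le_trans ?_ hcard
  refine le_trans ?_ (Nat.pow_sub_le_descFactorial _ _)
  exact Nat.pow_le_pow_left (by omega) _

end NilCut
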