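import Pool.Agent.Lib.MP_4ddf81_pr.Stm

/-!
# MP_4ddf81_pr : second moment for one skeleton
-/

namespace NilCut

namespace W4

variable {k n : ℕ}

lemma same_refl (w : Fin n → Fin k) : sameSk w w := ⟨fun _ => Iff.rfl, fun _ _ => rfl⟩

lemma same_symm {w w' : Fin n → Fin k} (h : sameSk w w') : sameSk w' w :=
  ⟨fun i => (h.1 i).symm, fun i hi => (h.2 i (fun hu => hi ((h.1 i).1 hu))).symm⟩

lemma same_trans {w w' w'' : Fin n → Fin k} (h : sameSk w w') (h' : sameSk w' w'') :
    sameSk w w'' :=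
  ⟨fun i => (h.1 i).trans (h'.1 i), fun i hi =>
    (h.2 i hi).trans (h'.2 i (fun hu => hi ((h.1 i).2 hu)))⟩

lemma uq_eq {w w' : Fin n → Fin k} (h : sameSk w w') : uq w = uq w' := by
  classical
  ext i
  simp only [uq, Finset.mem_filter, Finset.mem_univ, true_and]
  exact h.1 i

lemma mem_uq {w : Fin n → Fin k} {i : Fin n} : i ∈ uq w ↔ uniq w i := by
  classical
  simp [uq]

/-- Two words with the same skeleton and the same letters at the unique positions
differ by a permutation. -/
lemma exists_perm {w w' : Fin n → Fin k} (h : sameSk w w')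
    (hc : ∀ i, uniq w i → ∃ j, w' j = w i) :
    ∃ σ : Equiv.Perm (Fin n), (∀ i, i ∉ uq w → σ i = i) ∧ w' = w ∘ σ := by
  classical
  choose! τ hτ using hc
  have hu : ∀ i, uniq w i → uniq w (τ i) := by
    intro i hi
    by_contra hn
    have h1 : w (τ i) = w' (τ i) := h.2 _ hn
    rw [hτ i hi] at h1
    have h2 : τ i = i := by
      by_contra hne
      exact hi _ hne h1
    rw [h2] at hn
    exact hn hi
  let s : Fin n → Fin n := fun i => if uniq w i then τ i else i
  have hs1 : ∀ i, uniq w i → s i = τ i := fun i hi => if_pos hi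
  have hs2 : ∀ i, ¬ uniq w i → s i = i := fun i hi => if_neg hi
  have hinj : Function.Injective s := by
    intro i j hij
    by_cases hi : uniq w i <;> by_cases hj : uniq w j
    · rw [hs1 i hi, hs1 j hj] at hij
      have h1 : w i = w j := by rw [← hτ i hi, ← hτ j hj, hij]
      by_contra hne
      exact hj i hne h1
    · rw [hs1 i hi, hs2 j hj] at hij
      exact absurd (hij ▸ hu i hi) hj
    · rw [hs2 i hi, hs1 j hj] at hij
      exact absurd (hij ▸ hu j hj) hi
    · rw [hs2 i hi, hs2 j hj] at hij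
      exact hij
  have hbij : Function.Bijective s := Finite.injective_iff_bijective.1 hinj
  let e : Equiv.Perm (Fin n) := Equiv.ofBijective s hbij
  have he : ∀ i, e i = s i := fun i => rfl
  have hw : ∀ i, w' (e i) = w i := by
    intro i
    rw [he]
    by_cases hi : uniq w i
    · rw [hs1 i hi, hτ i hi]
    · rw [hs2 i hi, h.2 i hi]
  refine ⟨e.symm, fun i hi => ?_, ?_⟩
  · rw [Equiv.symm_apply_eq, he, hs2 i (fun hu => hi (mem_uq.2 hu))]
  · funext i
    have := hw (e.symm i)
    rw [Equiv.apply_symm_apply] at this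
    exact this

variable {G : Type} [Group G] [Fintype G]

/-- Number of the generator tuples for which the words agree. -/
noncomputable def cn (G : Type) [Group G] {k n : ℕ} (w w' : Fin n → Fin k) : ℝ :=
  (Nat.card {Z : Fin k → G // wprod Z w = wprod Z w'} : ℝ)

omit [Fintype G] in
lemma cn_nonneg (w w' : Fin n → Fin k) : 0 ≤ cn G w w' := Nat.cast_nonneg _

open Classical in
/-- Sum over one class for a fixed first word. -/
lemma inner (hW1 : S_W1) (hW2 : S_W2) (P : Planch G) (w : Fin n → Fin k) :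
    ∑ w' ∈ Finset.univ.filter (fun w' => sameSk w w'), (Nat.card G : ℝ) * cn G w w' ≤
      ((Finset.univ.filter (fun w' => sameSk w w')).card : ℝ) * (Nat.card G : ℝ) ^ k +
        (Nat.card G : ℝ) ^ k * P.S (uq w).card := by
  set W := Finset.univ.filter (fun w' => sameSk w w') with hW
  rw [← Finset.sum_filter_add_sum_filter_not W
    (fun w' => ∃ i, uniq w i ∧ ∀ j, w' j ≠ w i)]
  refine add_le_add ?_ ?_
  · have h1 : ∀ w' ∈ W.filter (fun w' => ∃ i, uniq w i ∧ ∀ j, w' j ≠ w i),
        (Nat.card G : ℝ) * cn G w w' ≤ (Nat.card G : ℝ) ^ k := by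
      intro w' hw'
      obtain ⟨_, i, hi, hj⟩ := Finset.mem_filter.1 hw'
      exact (hW2 G k n w w' i hi hj).le
    refine (Finset.sum_le_sum h1).trans ?_
    rw [Finset.sum_const, nsmul_eq_mul]
    refine mul_le_mul_of_nonneg_right ?_ (by positivity)
    exact_mod_cast Finset.card_filter_le _ _
  · have hex : ∀ w' ∈ W.filter (fun w' => ¬ ∃ i, uniq w i ∧ ∀ j, w' j ≠ w i),
        ∃ σ : Equiv.Perm (Fin n), (∀ i, i ∉ uq w → σ i = i) ∧ w' = w ∘ σ := by
      intro w' hw'
      obtain ⟨h1, h2⟩ := Finset.mem_filter.1 hw'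
      push Not at h2
      exact exists_perm (Finset.mem_filter.1 h1).2 h2
    choose! s hs1 hs2 using hex
    have hW1' := hW1 G P k n w
    refine le_trans ?_ hW1'
    calc ∑ w' ∈ W.filter (fun w' => ¬ ∃ i, uniq w i ∧ ∀ j, w' j ≠ w i),
          (Nat.card G : ℝ) * cn G w w'
        = ∑ w' ∈ W.filter (fun w' => ¬ ∃ i, uniq w i ∧ ∀ j, w' j ≠ w i),
          (Nat.card G : ℝ) * cn G w (w ∘ s w') :=
          Finset.sum_congr rfl fun w' hw' => by rw [← hs2 w' hw']
      _ = ∑ σ ∈ (W.filter (fun w' => ¬ ∃ i, uniq w i ∧ ∀ j, w' j ≠ w i)).image s,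
          (Nat.card G : ℝ) * cn G w (w ∘ σ) := by
          rw [Finset.sum_image]
          intro a ha b hb hab
          rw [hs2 a ha, hs2 b hb, hab]
      _ ≤ _ := by
          refine Finset.sum_le_sum_of_subset_of_nonneg ?_ ?_
          · intro σ hσ
            obtain ⟨w', hw', rfl⟩ := Finset.mem_image.1 hσ
            exact Finset.mem_filter.2 ⟨Finset.mem_univ _, hs1 w' hw'⟩
          · intro σ _ _
            exact mul_nonneg (Nat.cast_nonneg _) (cn_nonneg _ _)

end W4

open W4 in
theorem p_W4 (hW1 : S_W1) (hW2 : S_W2) (hW3 : S_W3) : S_W4 := by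
  intro G _ _ P k n w hnk
  classical
  set W := Finset.univ.filter (fun w' => sameSk w w') with hW
  have hN : (Nat.card {w' : Fin n → Fin k // sameSk w w'} : ℝ) = (W.card : ℝ) := by
    rw [Nat.card_eq_fintype_card, Fintype.card_subtype]
  have hX : ∀ (Z : Fin k → G) (g : G),
      (Nat.card {w' : Fin n → Fin k // sameSk w w' ∧ wprod Z w' = g} : ℝ) =
        ∑ w' ∈ W, if wprod Z w' = g then (1 : ℝ) else 0 := by
    intro Z g
    rw [Nat.card_eq_fintype_card, Fintype.card_subtype, Finset.sum_boole, hW,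
      Finset.filter_filter]
  set N : ℝ := (W.card : ℝ) with hNd
  set Γ : ℝ := (Nat.card G : ℝ) with hΓ
  set m := (uq w).card with hm
  have hΓ0 : 0 < Γ := by
    rw [hΓ]
    exact_mod_cast Nat.card_pos
  have hN0 : 0 < N := by
    have : w ∈ W := Finset.mem_filter.2 ⟨Finset.mem_univ _, same_refl w⟩
    rw [hNd]
    exact_mod_cast Finset.card_pos.2 ⟨w, this⟩
  rw [hN]
  simp only [hX]
  set X : (Fin k → G) → G → ℝ := fun Z g => ∑ w' ∈ W, if wprod Z w' = g then (1 : ℝ) else 0
    with hXd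
  -- sums over `g`
  have hXs : ∀ Z, ∑ g, X Z g = N := by
    intro Z
    rw [hXd]
    simp only
    rw [Finset.sum_comm]
    simp [hNd]
  -- second moments
  have hX2 : ∑ Z : Fin k → G, ∑ g, (X Z g) ^ 2 = ∑ w' ∈ W, ∑ w'' ∈ W, cn G w' w'' := by
    have h1 : ∀ Z : Fin k → G, ∑ g, (X Z g) ^ 2 =
        ∑ w' ∈ W, ∑ w'' ∈ W, if wprod Z w' = wprod Z w'' then (1 : ℝ) else 0 := by
      intro Z
      have h2 : ∀ g, (X Z g) ^ 2 = ∑ w' ∈ W, ∑ w'' ∈ W,
          if wprod Z w' = g then (if wprod Z w'' = g then (1 : ℝ) else 0) else 0 := by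
        intro g
        rw [hXd]
        simp only
        rw [sq, Finset.sum_mul_sum]
        refine Finset.sum_congr rfl fun a _ => Finset.sum_congr rfl fun b _ => ?_
        split_ifs <;> simp
      simp only [h2]
      rw [Finset.sum_comm]
      refine Finset.sum_congr rfl fun a _ => ?_
      rw [Finset.sum_comm]
      refine Finset.sum_congr rfl fun b _ => ?_
      rw [Finset.sum_ite_eq]
      simp [eq_comm]
    simp only [h1]
    rw [Finset.sum_comm]
    refine Finset.sum_congr rfl fun a _ => ?_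
    rw [Finset.sum_comm]
    refine Finset.sum_congr rfl fun b _ => ?_
    rw [cn, Nat.card_eq_fintype_card, Fintype.card_subtype, Finset.sum_boole]
  have hX3 : Γ * ∑ Z : Fin k → G, ∑ g, (X Z g) ^ 2 ≤ N * (N * Γ ^ k + Γ ^ k * P.S m) := by
    rw [hX2, Finset.mul_sum]
    have h1 : ∀ w' ∈ W, Γ * ∑ w'' ∈ W, cn G w' w'' ≤ N * Γ ^ k + Γ ^ k * P.S m := by
      intro w' hw'
      have hs : sameSk w w' := (Finset.mem_filter.1 hw').2
      have hWW : Finset.univ.filter (fun w'' => sameSk w' w'') = W := by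
        rw [hW]
        ext w''
        simp only [Finset.mem_filter, Finset.mem_univ, true_and]
        exact ⟨fun h => same_trans hs h, fun h => same_trans (same_symm hs) h⟩
      have := inner hW1 hW2 P w'
      rw [hWW, ← uq_eq hs] at this
      rw [Finset.mul_sum]
      exact this
    refine (Finset.sum_le_sum h1).trans ?_
    rw [Finset.sum_const, nsmul_eq_mul]
  -- the variance
  have hV : Γ * ∑ Z : Fin k → G, ∑ g, (X Z g - N / Γ) ^ 2 ≤ N * Γ ^ k * P.S m := by
    have h1 : ∀ Z : Fin k → G, ∑ g, (X Z g - N / Γ) ^ 2 = ∑ g, (X Z g) ^ 2 - N ^ 2 / Γ := by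
      intro Z
      have h2 : ∀ g, (X Z g - N / Γ) ^ 2 = (X Z g) ^ 2 - 2 * (N / Γ) * X Z g + (N / Γ) ^ 2 := by
        intro g
        ring
      simp only [h2]
      rw [Finset.sum_add_distrib, Finset.sum_sub_distrib, ← Finset.mul_sum, hXs,
        Finset.sum_const, Finset.card_univ, nsmul_eq_mul, ← Nat.card_eq_fintype_card, ← hΓ]
      field_simp
      ring
    simp only [h1]
    rw [Finset.sum_sub_distrib, Finset.sum_const, Finset.card_univ, nsmul_eq_mul, mul_sub]
    have h3 : ((Fintype.card (Fin k → G) : ℕ) : ℝ) = Γ ^ k := by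
      rw [Fintype.card_fun, Fintype.card_fin, hΓ, Nat.card_eq_fintype_card]
      push_cast
      rfl
    rw [h3]
    have h4 : Γ * (Γ ^ k * (N ^ 2 / Γ)) = Γ ^ k * N ^ 2 := by
      field_simp
    rw [h4]
    nlinarith [hX3]
  -- Cauchy–Schwarz
  have hCS : (∑ Z : Fin k → G, ∑ g, |X Z g - N / Γ|) ^ 2 ≤
      Γ ^ k * Γ * ∑ Z : Fin k → G, ∑ g, (X Z g - N / Γ) ^ 2 := by
    have h1 := sq_sum_le_card_mul_sum_sq
      (s := (Finset.univ : Finset ((Fin k → G) × G))) (f := fun p => |X p.1 p.2 - N / Γ|)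
    simp only [sq_abs] at h1
    rw [Fintype.sum_prod_type, Fintype.sum_prod_type, Finset.card_univ, Fintype.card_prod,
      Fintype.card_fun, Fintype.card_fin] at h1
    push_cast at h1
    rw [← Nat.card_eq_fintype_card, ← hΓ] at h1
    exact h1
  have hL : (∑ Z : Fin k → G, ∑ g, |X Z g - N / Γ|) ^ 2 ≤ (Γ ^ k) ^ 2 * (N * P.S m) := by
    refine hCS.trans ?_
    have := mul_le_mul_of_nonneg_left hV (by positivity : (0 : ℝ) ≤ Γ ^ k)
    nlinarith [this]
  have hS0 : 0 ≤ P.S m := by
    unfold Planch.S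
    exact Finset.sum_nonneg fun i _ =>
      mul_nonneg (by positivity) (Finset.prod_nonneg fun j _ => by positivity)
  have hL2 : ∑ Z : Fin k → G, ∑ g, |X Z g - N / Γ| ≤ Γ ^ k * Real.sqrt (N * P.S m) := by
    refine abs_le_of_sq_le_sq' ?_ (by positivity) |>.2
    rw [mul_pow, Real.sq_sqrt (by positivity)]
    exact hL
  refine hL2.trans ?_
  rw [mul_assoc]
  refine mul_le_mul_of_nonneg_left ?_ (by positivity)
  have h3 := hW3 k n w hnk.le
  have h3' : ((k : ℝ) - (n : ℝ)) ^ m ≤ N := by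
    rw [← hN, ← Nat.cast_sub hnk.le]
    exact_mod_cast h3
  have hkn : (0 : ℝ) < (k : ℝ) - n := by
    have : (n : ℝ) < k := by exact_mod_cast hnk
    linarith
  have h4 : Real.sqrt (N * P.S m) = N * Real.sqrt (P.S m / N) := by
    rw [show N * P.S m = N ^ 2 * (P.S m / N) by field_simp, Real.sqrt_mul (by positivity),
      Real.sqrt_sq hN0.le]
  rw [h4]
  refine mul_le_mul_of_nonneg_left (Real.sqrt_le_sqrt ?_) hN0.le
  exact div_le_div_of_nonneg_left hS0 (by positivity) h3'

end NilCut
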