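import Pool.Agent.Lib.MP_4ddf81_pr.Stm

/-! Few words have many positions with repeated letters (MP_4ddf81_pr). -/

namespace NilCut

namespace W5

open Classical in
/-- The bijection which changes the letter `j`. -/
noncomputable def pairEquiv {k n : ℕ} (i j : Fin n) (hij : i ≠ j) :
    {w : Fin n → Fin k // w j = w i} × Fin k ≃ (Fin n → Fin k) where
  toFun p := Function.update p.1.1 j p.2
  invFun u := (⟨Function.update u j (u i), by
    rw [Function.update_self, Function.update_of_ne hij]⟩, u j)
  left_inv p := by
    obtain ⟨⟨w, hw⟩, x⟩ := p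
    simp only [Prod.mk.injEq, Subtype.mk.injEq, Function.update_self, and_true]
    rw [Function.update_of_ne hij, Function.update_idem, ← hw, Function.update_eq_self]
  right_inv u := by
    simp

lemma card_pair {k n : ℕ} (i j : Fin n) (hij : i ≠ j) :
    Nat.card {w : Fin n → Fin k // w j = w i} * k = k ^ n := by
  have h := Nat.card_congr (pairEquiv (k := k) i j hij)
  rw [Nat.card_prod, Nat.card_fun] at h
  simpa using h

open Classical in
lemma repeat_le {k n : ℕ} (w : Fin n → Fin k) :
    n - (uq w).card ≤ ∑ i : Fin n, ∑ j ∈ Finset.univ.filter (fun j => j ≠ i),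
      if w j = w i then 1 else 0 := by
  have h1 : n - (uq w).card = (Finset.univ.filter fun i : Fin n => ¬ uniq w i).card := by
    have h2 := Finset.card_filter_add_card_filter_not (s := (Finset.univ : Finset (Fin n)))
      (fun i => uniq w i)
    rw [Finset.card_univ, Fintype.card_fin] at h2
    unfold uq
    omega
  rw [h1, Finset.card_filter]
  refine Finset.sum_le_sum (fun i _ => ?_)
  by_cases hi : uniq w i
  · rw [if_neg (not_not.mpr hi)]
    exact Nat.zero_le _
  · rw [if_pos hi]
    have hi' : ∃ j, j ≠ i ∧ w j = w i := by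
      by_contra hcon
      apply hi
      intro j hj hw
      exact hcon ⟨j, hj, hw⟩
    obtain ⟨j, hj, hw⟩ := hi'
    have h3 : (if w j = w i then 1 else 0) ≤
        ∑ j ∈ Finset.univ.filter (fun j => j ≠ i), if w j = w i then 1 else 0 :=
      Finset.single_le_sum (f := fun j => if w j = w i then 1 else 0)
        (fun _ _ => Nat.zero_le _) (by simp [hj])
    rw [if_pos hw] at h3
    exact h3

open Classical in
lemma main (k n r : ℕ) :
    Nat.card {w : Fin n → Fin k // r < n - (uq w).card} * (r + 1) * k ≤ k ^ n * (n * n) := by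
  rw [Nat.card_eq_fintype_card, Fintype.card_subtype, Finset.card_filter, Finset.sum_mul]
  have h1 : ∀ w : Fin n → Fin k, (if r < n - (uq w).card then 1 else 0) * (r + 1) ≤
      ∑ i : Fin n, ∑ j ∈ Finset.univ.filter (fun j => j ≠ i), if w j = w i then 1 else 0 := by
    intro w
    refine le_trans ?_ (repeat_le w)
    split_ifs with h
    · omega
    · omega
  calc (∑ w : Fin n → Fin k, (if r < n - (uq w).card then 1 else 0) * (r + 1)) * k
      ≤ (∑ w : Fin n → Fin k, ∑ i : Fin n, ∑ j ∈ Finset.univ.filter (fun j => j ≠ i),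
          if w j = w i then 1 else 0) * k :=
        Nat.mul_le_mul_right _ (Finset.sum_le_sum (fun w _ => h1 w))
    _ = ∑ i : Fin n, ∑ j ∈ Finset.univ.filter (fun j => j ≠ i),
          (Nat.card {w : Fin n → Fin k // w j = w i}) * k := by
        rw [Finset.sum_comm, Finset.sum_mul]
        refine Finset.sum_congr rfl (fun i _ => ?_)
        rw [Finset.sum_comm, Finset.sum_mul]
        refine Finset.sum_congr rfl (fun j _ => ?_)
        rw [Nat.card_eq_fintype_card, Fintype.card_subtype, Finset.card_filter]
    _ = ∑ i : Fin n, ∑ j ∈ Finset.univ.filter (fun j => j ≠ i), k ^ n := by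
        refine Finset.sum_congr rfl (fun i _ => Finset.sum_congr rfl (fun j hj => ?_))
        exact card_pair i j (Finset.mem_filter.mp hj).2.symm
    _ ≤ ∑ i : Fin n, n * k ^ n := by
        refine Finset.sum_le_sum (fun i _ => ?_)
        rw [Finset.sum_const, smul_eq_mul]
        refine Nat.mul_le_mul_right _ ?_
        refine le_trans (Finset.card_filter_le _ _) ?_
        simp
    _ = k ^ n * (n * n) := by
        rw [Finset.sum_const, smul_eq_mul, Finset.card_univ, Fintype.card_fin]
        ring

end W5

theorem p_W5 : S_W5 := by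
  intro k n r hk
  have h := W5.main k n r
  have hk' : (0 : ℝ) < (k : ℝ) := by exact_mod_cast hk
  have h' : (Nat.card {w : Fin n → Fin k // r < n - (uq w).card} : ℝ) * ((r : ℝ) + 1) * (k : ℝ) ≤
      (k : ℝ) ^ n * ((n : ℝ) * (n : ℝ)) := by exact_mod_cast h
  have h2 : (k : ℝ) ^ n * ((n : ℝ) ^ 2 / (k : ℝ)) = (k : ℝ) ^ n * ((n : ℝ) * (n : ℝ)) / (k : ℝ) := by
    rw [sq]
    ring
  rw [h2, le_div_iff₀ hk']
  exact h'

end NilCut
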