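import Pool.Agent.Lib.MP_4ddf81_pr.Stm

/-!
# MP_4ddf81_pr : the Wedderburn decomposition of the group algebra
-/

namespace NilCut

namespace Wed

open Module

/-- Trace of a linear map through a basis. -/
lemma trace_basis {M ι : Type*} [AddCommGroup M] [Module ℂ M] [Fintype ι]
    (b : Basis ι ℂ M) (f : M →ₗ[ℂ] M) :
    LinearMap.trace ℂ M f = ∑ i, b.repr (f (b i)) i := by
  classical
  rw [LinearMap.trace_eq_matrix_trace ℂ b]
  simp [Matrix.trace, Matrix.diag, LinearMap.toMatrix_apply]

/-- Trace of the left multiplication by a group element. -/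
lemma trace_group (G : Type) [Group G] [Fintype G] [DecidableEq G] (g : G) :
    LinearMap.trace ℂ (MonoidAlgebra ℂ G)
      (LinearMap.mulLeft ℂ (MonoidAlgebra.single g (1 : ℂ))) =
      if g = 1 then (Nat.card G : ℂ) else 0 := by
  rw [trace_basis (MonoidAlgebra.basis G ℂ)]
  have h : ∀ h : G, (MonoidAlgebra.basis G ℂ).repr
      (LinearMap.mulLeft ℂ (MonoidAlgebra.single g (1 : ℂ)) (MonoidAlgebra.basis G ℂ h)) h =
      if g = 1 then 1 else 0 := by
    intro h
    rw [MonoidAlgebra.basis_apply, LinearMap.mulLeft_apply, MonoidAlgebra.single_mul_single]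
    have e1 : (MonoidAlgebra.single (g * h) ((1 : ℂ) * 1)) = MonoidAlgebra.basis G ℂ (g * h) := by
      rw [MonoidAlgebra.basis_apply, mul_one]
    rw [e1, Basis.repr_self, Finsupp.single_apply]
    simp
  simp_rw [h]
  split_ifs with hg
  · simp [Nat.card_eq_fintype_card]
  · simp

/-- Trace of the left multiplication on a product of matrix algebras. -/
lemma trace_pi {n : ℕ} (d : Fin n → ℕ) (X : Π i, Matrix (Fin (d i)) (Fin (d i)) ℂ) :
    LinearMap.trace ℂ (Π i, Matrix (Fin (d i)) (Fin (d i)) ℂ) (LinearMap.mulLeft ℂ X) =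
      ∑ i, (d i : ℂ) * (X i).trace := by
  classical
  rw [trace_basis (Pi.basis fun i => Matrix.stdBasis ℂ (Fin (d i)) (Fin (d i)))]
  rw [Fintype.sum_sigma]
  refine Finset.sum_congr rfl fun i _ => ?_
  rw [Fintype.sum_prod_type]
  have h : ∀ a b : Fin (d i),
      ((Pi.basis fun i => Matrix.stdBasis ℂ (Fin (d i)) (Fin (d i))).repr
        (LinearMap.mulLeft ℂ X
          ((Pi.basis fun i => Matrix.stdBasis ℂ (Fin (d i)) (Fin (d i))) ⟨i, (a, b)⟩)))
        ⟨i, (a, b)⟩ = X i a a := by
    intro a b
    rw [Pi.basis_repr, Pi.basis_apply, LinearMap.mulLeft_apply, Pi.mul_apply, Pi.single_eq_same,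
      Matrix.stdBasis_eq_single]
    have hr : ∀ (M : Matrix (Fin (d i)) (Fin (d i)) ℂ) (p : Fin (d i) × Fin (d i)),
        (Matrix.stdBasis ℂ (Fin (d i)) (Fin (d i))).repr M p = M p.1 p.2 := by
      intro M p
      have h1 : M = ∑ q : Fin (d i) × Fin (d i),
          M q.1 q.2 • Matrix.stdBasis ℂ (Fin (d i)) (Fin (d i)) q := by
        ext u v
        rw [Matrix.sum_apply, Fintype.sum_prod_type]
        rw [Finset.sum_eq_single u, Finset.sum_eq_single v]
        · simp [Matrix.stdBasis_eq_single]
        · intro y _ hy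
          simp [Matrix.stdBasis_eq_single, hy]
        · simp
        · intro y _ hy
          refine Finset.sum_eq_zero fun z _ => ?_
          simp [Matrix.stdBasis_eq_single, hy]
        · simp
      conv_lhs => rw [h1]
      rw [map_sum, Finsupp.coe_finsetSum, Finset.sum_apply]
      simp [Finsupp.single_apply]
    rw [hr]
    simp [Matrix.mul_apply, Matrix.single_apply]
  simp_rw [h]
  simp [Matrix.trace, Finset.mul_sum]

end Wed

open Wed in
theorem p_Wed : S_Wed := by
  classical
  intro G _ _
  have : Fintype G := Fintype.ofFinite G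
  have : NeZero (Nat.card G : ℂ) := ⟨by exact_mod_cast Nat.card_pos.ne'⟩
  have : FiniteDimensional ℂ (MonoidAlgebra ℂ G) :=
    (MonoidAlgebra.basis G ℂ).finiteDimensional_of_finite
  obtain ⟨n, d, hd, ⟨e⟩⟩ :=
    IsSemisimpleRing.exists_algEquiv_pi_matrix_of_isAlgClosed ℂ (MonoidAlgebra ℂ G)
  let ρ : ∀ i, G →* Matrix (Fin (d i)) (Fin (d i)) ℂ := fun i =>
    { toFun := fun g => e (MonoidAlgebra.single g 1) i
      map_one' := by
        have : (MonoidAlgebra.single (1 : G) (1 : ℂ)) = 1 := rfl
        rw [this, map_one, Pi.one_apply]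
      map_mul' := by
        intro x y
        have : (MonoidAlgebra.single (x * y) (1 : ℂ)) =
            MonoidAlgebra.single x (1 : ℂ) * MonoidAlgebra.single y (1 : ℂ) := by
          rw [MonoidAlgebra.single_mul_single, mul_one]
        rw [this, map_mul, Pi.mul_apply] }
  have hρ : ∀ i g, ρ i g = e (MonoidAlgebra.single g 1) i := fun i g => rfl
  -- the span of the basis
  have hspan : ∀ a : MonoidAlgebra ℂ G,
      a = ∑ g, (MonoidAlgebra.basis G ℂ).repr a g • MonoidAlgebra.single g (1 : ℂ) := by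
    intro a
    conv_lhs => rw [← (MonoidAlgebra.basis G ℂ).sum_repr a]
    simp
  have heval : ∀ (a : MonoidAlgebra ℂ G) i,
      e a i = ∑ g, (MonoidAlgebra.basis G ℂ).repr a g • ρ i g := by
    intro a i
    conv_lhs => rw [hspan a]
    rw [map_sum, Finset.sum_apply]
    refine Finset.sum_congr rfl fun g _ => ?_
    rw [map_smul, Pi.smul_apply, hρ]
  refine ⟨⟨Fin n, inferInstance, d, ρ, fun i => Nat.pos_of_ne_zero (hd i).out, ?_, ?_, ?_⟩⟩
  · intro i
    unfold IsIrr
    rw [eq_top_iff]
    intro M _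
    have h1 : M = e (e.symm (Pi.single i M)) i := by
      rw [AlgEquiv.apply_symm_apply, Pi.single_eq_same]
    rw [h1, heval]
    exact Submodule.sum_mem _ fun g _ =>
      Submodule.smul_mem _ _ (Submodule.subset_span ⟨g, rfl⟩)
  · intro i j hij
    by_contra hne
    have htr : ∀ a : MonoidAlgebra ℂ G, (e a i).trace = (e a j).trace := by
      intro a
      rw [heval, heval, Matrix.trace_sum, Matrix.trace_sum]
      refine Finset.sum_congr rfl fun g _ => ?_
      rw [Matrix.trace_smul, Matrix.trace_smul, hij g]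
    have := hd i
    have h2 := htr (e.symm (Pi.single i (Matrix.single 0 0 1)))
    rw [AlgEquiv.apply_symm_apply, Pi.single_eq_same, Pi.single_eq_of_ne (Ne.symm hne),
      Matrix.trace_zero] at h2
    rw [Matrix.trace_single_eq_same] at h2
    exact one_ne_zero h2
  · intro g
    have h1 := trace_group G g
    have h2 : LinearMap.trace ℂ _ (e.toLinearEquiv.conj
        (LinearMap.mulLeft ℂ (MonoidAlgebra.single g (1 : ℂ)))) =
        LinearMap.trace ℂ _ (LinearMap.mulLeft ℂ (MonoidAlgebra.single g (1 : ℂ))) :=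
      LinearMap.trace_conj' _ _
    have h3 : e.toLinearEquiv.conj
        (LinearMap.mulLeft ℂ (MonoidAlgebra.single g (1 : ℂ))) =
        LinearMap.mulLeft ℂ (e (MonoidAlgebra.single g (1 : ℂ))) := by
      refine LinearMap.ext fun x => ?_
      rw [LinearEquiv.conj_apply_apply, LinearMap.mulLeft_apply, LinearMap.mulLeft_apply]
      change e (MonoidAlgebra.single g (1 : ℂ) * e.symm x) = _
      rw [map_mul, AlgEquiv.apply_symm_apply]
    rw [h3, trace_pi, h1] at h2
    rw [← h2]
    refine Finset.sum_congr rfl fun i _ => ?_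
    rw [hρ]

end NilCut
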