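import Pool.Agent.Lib.MP_4ddf81_pr.Stm

/-! A product with marked variable positions is an alternating product (MP_4ddf81_pr). -/

namespace NilCut

namespace Alt

variable {G : Type} [Group G]

lemma altW_snoc {m : ℕ} (c : Fin (m + 1) → G) (u : G) (z : Fin (m + 1) → G) :
    altW (Fin.snoc c u : Fin (m + 2) → G) z =
      altW c (fun i => z i.castSucc) * (z (Fin.last m) * u) := by
  unfold altW
  rw [List.ofFn_succ', List.concat_eq_append, List.prod_append, List.prod_singleton]
  have h0 : (Fin.snoc c u : Fin (m + 2) → G) 0 = c 0 := by
    rw [← Fin.castSucc_zero, Fin.snoc_castSucc]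
  have h1 : (Fin.snoc c u : Fin (m + 2) → G) (Fin.last m).succ = u := by
    rw [Fin.succ_last, Fin.snoc_last]
  have h2 : (fun i : Fin m => z i.castSucc * (Fin.snoc c u : Fin (m + 2) → G) i.castSucc.succ) =
      fun i : Fin m => z i.castSucc * c i.succ := by
    funext i
    rw [Fin.succ_castSucc, Fin.snoc_castSucc]
  rw [h0, h1, h2, mul_assoc]

lemma altW_mul {m : ℕ} (c : Fin (m + 1) → G) (u : G) :
    ∃ c' : Fin (m + 1) → G, ∀ z : Fin m → G, altW c' z = altW c z * u := by
  cases m with
  | zero =>
    refine ⟨fun i => c i * u, fun z => ?_⟩
    simp [altW]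
  | succ m =>
    refine ⟨(Fin.snoc (fun i : Fin (m + 1) => c i.castSucc) (c (Fin.last (m + 1)) * u) :
      Fin (m + 2) → G), fun z => ?_⟩
    have hc : c = (Fin.snoc (fun i : Fin (m + 1) => c i.castSucc) (c (Fin.last (m + 1))) :
        Fin (m + 2) → G) := by
      funext i
      refine Fin.lastCases ?_ (fun i => ?_) i
      · rw [Fin.snoc_last]
      · rw [Fin.snoc_castSucc]
    conv_rhs => rw [hc]
    rw [altW_snoc, altW_snoc]
    simp only [mul_assoc]

lemma main (n : ℕ) : ∀ (m : ℕ) (e : Fin m → Fin n), StrictMono e → ∀ y : Fin n → G,
    ∃ c : Fin (m + 1) → G, ∀ x : Fin n → G, (∀ i, i ∉ Set.range e → x i = y i) →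
      (List.ofFn x).prod = altW c (x ∘ e) := by
  induction n with
  | zero =>
    intro m e _ y
    cases m with
    | zero =>
      refine ⟨fun _ => 1, fun x _ => ?_⟩
      simp [altW]
    | succ m => exact (e 0).elim0
  | succ n ih =>
    intro m e he y
    by_cases hl : Fin.last n ∈ Set.range e
    · obtain ⟨a, ha⟩ := hl
      cases m with
      | zero => exact a.elim0
      | succ m =>
        have hlast : e (Fin.last m) = Fin.last n := by
          apply le_antisymm (Fin.le_last _)
          rw [← ha]
          exact he.monotone (Fin.le_last a)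
        have hlt : ∀ i : Fin m, (e i.castSucc : ℕ) < n := by
          intro i
          have h1 : e i.castSucc < e (Fin.last m) := he (Fin.castSucc_lt_last i)
          rw [hlast] at h1
          exact h1
        obtain ⟨c, hc⟩ := ih m (fun i => (e i.castSucc).castLT (hlt i))
          (fun i j hij => by
            have h1 : e i.castSucc < e j.castSucc := he (Fin.castSucc_lt_castSucc_iff.mpr hij)
            exact h1) (fun i => y i.castSucc)
        refine ⟨(Fin.snoc c 1 : Fin (m + 2) → G), fun x hx => ?_⟩
        rw [List.ofFn_succ', List.concat_eq_append, List.prod_append, List.prod_singleton,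
          altW_snoc, hc (fun i => x i.castSucc)]
        · simp only [Function.comp, mul_one, hlast]
          rfl
        · intro i hi
          apply hx
          rintro ⟨j, hj⟩
          apply hi
          have hjl : j ≠ Fin.last m := by
            rintro rfl
            rw [hlast] at hj
            exact absurd hj.symm (Fin.castSucc_lt_last i).ne
          refine ⟨j.castPred hjl, ?_⟩
          ext
          have : (e j : ℕ) = (i.castSucc : ℕ) := by rw [hj]
          simpa using this
    · have hlt : ∀ i : Fin m, (e i : ℕ) < n := by
        intro i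
        have h1 : e i ≠ Fin.last n := fun h => hl ⟨i, h⟩
        exact Fin.lt_last_iff_ne_last.mpr h1
      obtain ⟨c, hc⟩ := ih m (fun i => (e i).castLT (hlt i))
        (fun i j hij => by
          have h1 : e i < e j := he hij
          exact h1) (fun i => y i.castSucc)
      obtain ⟨c', hc'⟩ := altW_mul c (y (Fin.last n))
      refine ⟨c', fun x hx => ?_⟩
      rw [List.ofFn_succ', List.concat_eq_append, List.prod_append, List.prod_singleton,
        hc', hc (fun i => x i.castSucc), hx _ hl]
      · rfl
      · intro i hi
        apply hx
        rintro ⟨j, hj⟩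
        apply hi
        refine ⟨j, ?_⟩
        ext
        have : (e j : ℕ) = (i.castSucc : ℕ) := by rw [hj]
        simpa using this

end Alt

theorem p_Alt : S_Alt := by
  intro G _ n m e y
  exact Alt.main n m e e.strictMono y

end NilCut
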