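import Pool.Agent.Lib.MP_4ddf81_pr.Stm

/-! The bimultiplicative form of a character (MP_4ddf81_pr). -/

namespace NilCut

namespace Form

open scoped commutatorElement

variable {G : Type} [Group G]

instance lc_normal (j : ℕ) : (lc G j).Normal := by
  unfold lc
  infer_instance

/-- Conjugation of an element of `lc G (j+1)`. -/
def cj {j : ℕ} (x : G) (a : lc G (j + 1)) : lc G (j + 1) :=
  ⟨x * (a : G) * x⁻¹, (lc_normal (G := G) (j + 1)).conj_mem (a : G) a.2 x⟩

lemma omega_cj {j : ℕ} (ω : lc G (j + 1) →* ℂˣ) (h : Cen ω) (x : G) (a : lc G (j + 1)) :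
    ω (cj x a) = ω a := by
  have hm : ⁅x, (a : G)⁆ ∈ lc G (j + 1 + 1) := by
    have h1 : ⁅x, (a : G)⁆ ∈ ⁅(⊤ : Subgroup G), lc G (j + 1)⁆ :=
      Subgroup.commutator_mem_commutator (Subgroup.mem_top x) a.2
    rw [Subgroup.commutator_comm] at h1
    exact h1
  have hm' : ⁅x, (a : G)⁆ ∈ lc G (j + 1) := by
    have : lc G (j + 1 + 1) ≤ lc G (j + 1) :=
      (⊤ : Subgroup G).lowerCentralSeries_antitone (Nat.le_succ (j + 1))
    exact this hm
  have he : cj x a = (⟨⁅x, (a : G)⁆, hm'⟩ : lc G (j + 1)) * a := by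
    ext
    simp [cj, commutatorElement_def]
  rw [he, map_mul, h ⟨⁅x, (a : G)⁆, hm'⟩ hm, one_mul]

lemma brk_mul_right {j : ℕ} (g : lc G j) (x y : G) :
    brk g (x * y) = brk g x * cj x (brk g y) := by
  ext
  simp only [brk, cj, commutatorElement_def, Subgroup.coe_mul]
  group

lemma brk_mul_left {j : ℕ} (g g' : lc G j) (x : G) :
    brk (g * g') x = cj (g : G) (brk g' x) * brk g x := by
  ext
  simp only [brk, cj, commutatorElement_def, Subgroup.coe_mul]
  group

end Form

theorem p_Form : S_Form := by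
  intro G _ j ω h
  refine ⟨MonoidHom.mk' (fun g => MonoidHom.mk' (fun x => ω (brk g x)) ?_) ?_, ?_⟩
  · intro x y
    rw [Form.brk_mul_right, map_mul, Form.omega_cj ω h]
  · intro g g'
    ext x
    simp only [MonoidHom.mk'_apply, MonoidHom.mul_apply]
    rw [Form.brk_mul_left, map_mul, Form.omega_cj ω h, mul_comm]
  · intro g x
    rfl

end NilCut
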