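import Pool.Agent.Lib.MP_4ddf81_pr.Stm

/-!
# MP_4ddf81_pr, piece Loops: index loops of products of matrix entries
-/

set_option autoImplicit false

namespace NilCut

namespace Loops

/-- the permutation induced on the nonzero indices -/
def red {m : ℕ} (φ : Equiv.Perm (Fin (m + 1))) : Equiv.Perm (Fin m) :=
  Equiv.removeNone (((finSuccEquiv m).symm.trans φ).trans (finSuccEquiv m))

lemma red_ne {m : ℕ} (φ : Equiv.Perm (Fin (m + 1))) (a : Fin m) (h : φ a.succ ≠ 0) :
    φ a.succ = (red φ a).succ := by
  obtain ⟨b, hb⟩ := Fin.exists_succ_eq.mpr h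
  have h1 : (((finSuccEquiv m).symm.trans φ).trans (finSuccEquiv m)) (some a) = some b := by
    simp only [Equiv.trans_apply, finSuccEquiv_symm_some]
    rw [← hb, finSuccEquiv_succ]
  have h2 := Equiv.removeNone_some (((finSuccEquiv m).symm.trans φ).trans (finSuccEquiv m))
    ⟨b, h1⟩
  rw [h1] at h2
  have h3 : red φ a = b := Option.some_injective _ h2
  rw [h3, hb]

lemma red_eq {m : ℕ} (φ : Equiv.Perm (Fin (m + 1))) (a : Fin m) (h : φ a.succ = 0) :
    φ 0 = (red φ a).succ := by
  have h1 : (((finSuccEquiv m).symm.trans φ).trans (finSuccEquiv m)) (some a) = none := by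
    simp only [Equiv.trans_apply, finSuccEquiv_symm_some]
    rw [h, finSuccEquiv_zero]
  have h2 := Equiv.removeNone_none (((finSuccEquiv m).symm.trans φ).trans (finSuccEquiv m)) h1
  have h3 : (((finSuccEquiv m).symm.trans φ).trans (finSuccEquiv m)) none =
      finSuccEquiv m (φ 0) := by
    simp only [Equiv.trans_apply, finSuccEquiv_symm_none]
  rw [h3] at h2
  have h4 : (finSuccEquiv m) (red φ a).succ = finSuccEquiv m (φ 0) := by
    rw [finSuccEquiv_succ]; exact h2
  exact ((finSuccEquiv m).injective h4).symm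

lemma sum_cons {d m : ℕ} (F : (Fin (m + 1) → Fin d) → ℂ) :
    ∑ p, F p = ∑ p' : Fin m → Fin d, ∑ x : Fin d, F (Fin.cons x p') := by
  rw [← (Fin.consEquiv (fun _ : Fin (m + 1) => Fin d)).sum_comp, Fintype.sum_prod_type]
  rw [Finset.sum_comm]
  rfl

lemma fix_zero {d m : ℕ} (φ : Equiv.Perm (Fin (m + 1))) (h0 : φ 0 = 0) :
    d * fixN d (red φ) ≤ fixN d φ := by
  have hne : ∀ a : Fin m, φ a.succ ≠ 0 := by
    intro a h
    have := φ.injective (h.trans h0.symm)
    exact Fin.succ_ne_zero a this
  have e1 : d * fixN d (red φ) =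
      Nat.card (Fin d × {p : Fin m → Fin d // ∀ a, p (red φ a) = p a}) := by
    rw [Nat.card_prod, Nat.card_eq_fintype_card, Fintype.card_fin]
    rfl
  rw [e1]
  unfold fixN
  refine Nat.card_le_card_of_injective
    (fun q => (⟨Fin.cons q.1 q.2.1, ?_⟩ : {p : Fin (m + 1) → Fin d // ∀ a, p (φ a) = p a})) ?_
  · intro a
    refine Fin.cases ?_ (fun a => ?_) a
    · rw [h0]
    · rw [red_ne φ a (hne a)]
      simp only [Fin.cons_succ]
      exact q.2.2 a
  · intro q q' h
    have h1 : (Fin.cons q.1 q.2.1 : Fin (m + 1) → Fin d) = Fin.cons q'.1 q'.2.1 :=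
      congrArg Subtype.val h
    have h2 := Fin.cons_injective2 h1
    exact Prod.ext h2.1 (Subtype.ext h2.2)

lemma fix_succ {d m : ℕ} (φ : Equiv.Perm (Fin (m + 1))) (a0 b : Fin m) (h0 : φ 0 = b.succ)
    (ha0 : φ a0.succ = 0) : fixN d (red φ) ≤ fixN d φ := by
  have hb : red φ a0 = b := by
    have := red_eq φ a0 ha0
    rw [h0] at this
    exact (Fin.succ_injective _ this).symm
  have hne : ∀ a : Fin m, a ≠ a0 → φ a.succ ≠ 0 := by
    intro a hna h
    have := φ.injective (h.trans ha0.symm)
    exact hna (Fin.succ_injective _ this)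
  unfold fixN
  refine Nat.card_le_card_of_injective
    (fun q => (⟨Fin.cons (q.1 b) q.1, ?_⟩ : {p : Fin (m + 1) → Fin d // ∀ a, p (φ a) = p a})) ?_
  · intro a
    refine Fin.cases ?_ (fun a => ?_) a
    · rw [h0]
      simp
    · by_cases ha : a = a0
      · rw [ha, ha0]
        simp only [Fin.cons_succ, Fin.cons_zero]
        rw [← hb]
        exact q.2 a0
      · rw [red_ne φ a (hne a ha)]
        simp only [Fin.cons_succ]
        exact q.2 a
  · intro q q' h
    have h1 : (Fin.cons (q.1 b) q.1 : Fin (m + 1) → Fin d) = Fin.cons (q'.1 b) q'.1 :=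
      congrArg Subtype.val h
    have h2 := Fin.cons_injective2 h1
    exact Subtype.ext h2.2

lemma main (hT : S_Tr) {G : Type} [Group G] [Finite G] {d : ℕ}
    (ρ : G →* Matrix (Fin d) (Fin d) ℂ) : ∀ (m : ℕ) (φ : Equiv.Perm (Fin m)) (g : Fin m → G),
    ‖∑ p : Fin m → Fin d, ∏ a, ρ (g a) (p a) (p (φ a))‖ ≤ (fixN d φ : ℝ) := by
  intro m
  induction m with
  | zero =>
    intro φ g
    have e1 : (fixN d φ : ℝ) = 1 := by
      have : fixN d φ = 1 := by
        unfold fixN
        rw [Nat.card_eq_one_iff_unique]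
        refine ⟨⟨fun x y => Subtype.ext (Subsingleton.elim _ _)⟩, ⟨⟨fun a => a.elim0, fun a => a.elim0⟩⟩⟩
      rw [this]
      simp
    rw [e1]
    simp
  | succ m ih =>
    intro φ g
    rw [sum_cons]
    by_cases h0 : φ 0 = 0
    · have hne : ∀ a : Fin m, φ a.succ ≠ 0 := by
        intro a h
        have := φ.injective (h.trans h0.symm)
        exact Fin.succ_ne_zero a this
      have e1 : ∑ p' : Fin m → Fin d, ∑ x : Fin d, ∏ a, ρ (g a)
          ((Fin.cons x p' : Fin (m + 1) → Fin d) a)
          ((Fin.cons x p' : Fin (m + 1) → Fin d) (φ a)) =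
          (ρ (g 0)).trace * ∑ p' : Fin m → Fin d, ∏ a, ρ (g a.succ) (p' a) (p' (red φ a)) := by
        rw [Finset.mul_sum]
        refine Finset.sum_congr rfl fun p' _ => ?_
        rw [Matrix.trace, Finset.sum_mul]
        refine Finset.sum_congr rfl fun x _ => ?_
        rw [Fin.prod_univ_succ, h0]
        simp only [Fin.cons_zero, Matrix.diag_apply]
        congr 1
        refine Finset.prod_congr rfl fun a _ => ?_
        rw [red_ne φ a (hne a)]
        simp only [Fin.cons_succ]
      rw [e1, norm_mul]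
      have h1 := hT G d ρ (g 0)
      have h2 := ih (red φ) (fun a => g a.succ)
      have h3 : ((d * fixN d (red φ) : ℕ) : ℝ) ≤ (fixN d φ : ℝ) := by
        exact_mod_cast fix_zero φ h0
      calc ‖(ρ (g 0)).trace‖ * ‖∑ p' : Fin m → Fin d, ∏ a, ρ (g a.succ) (p' a) (p' (red φ a))‖
          ≤ (d : ℝ) * (fixN d (red φ) : ℝ) := by
            exact mul_le_mul h1 h2 (norm_nonneg _) (by positivity)
        _ ≤ _ := by push_cast at h3; exact h3
    · obtain ⟨b, hb⟩ := Fin.exists_succ_eq.mpr h0
      have h0' : φ 0 = b.succ := hb.symm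
      have hs : φ.symm 0 ≠ 0 := by
        intro h
        apply h0
        have := congrArg φ h
        rw [Equiv.apply_symm_apply] at this
        exact this.symm
      obtain ⟨a0, ha0'⟩ := Fin.exists_succ_eq.mpr hs
      have ha0 : φ a0.succ = 0 := by rw [ha0']; simp
      have hbb : red φ a0 = b := by
        have := red_eq φ a0 ha0
        rw [h0'] at this
        exact (Fin.succ_injective _ this).symm
      have hne : ∀ a : Fin m, a ≠ a0 → φ a.succ ≠ 0 := by
        intro a hna h
        have := φ.injective (h.trans ha0.symm)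
        exact hna (Fin.succ_injective _ this)
      set g' : Fin m → G := Function.update (fun a => g a.succ) a0 (g a0.succ * g 0) with hg'
      have e1 : ∑ p' : Fin m → Fin d, ∑ x : Fin d, ∏ a, ρ (g a)
          ((Fin.cons x p' : Fin (m + 1) → Fin d) a)
          ((Fin.cons x p' : Fin (m + 1) → Fin d) (φ a)) =
          ∑ p' : Fin m → Fin d, ∏ a, ρ (g' a) (p' a) (p' (red φ a)) := by
        refine Finset.sum_congr rfl fun p' _ => ?_
        have e2 : ∏ a, ρ (g' a) (p' a) (p' (red φ a)) =
            ρ (g' a0) (p' a0) (p' (red φ a0)) *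
              ∏ a ∈ Finset.univ.erase a0, ρ (g a.succ) (p' a) (p' (red φ a)) := by
          rw [← Finset.mul_prod_erase Finset.univ _ (Finset.mem_univ a0)]
          congr 1
          refine Finset.prod_congr rfl fun a ha => ?_
          rw [hg', Function.update_of_ne (Finset.ne_of_mem_erase ha)]
        rw [e2, hg', Function.update_self, map_mul, Matrix.mul_apply, Finset.sum_mul, hbb]
        refine Finset.sum_congr rfl fun x _ => ?_
        rw [Fin.prod_univ_succ, h0']
        simp only [Fin.cons_zero, Fin.cons_succ]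
        rw [← Finset.mul_prod_erase Finset.univ _ (Finset.mem_univ a0), ha0]
        simp only [Fin.cons_zero]
        have e3 : ∏ a ∈ Finset.univ.erase a0, ρ (g a.succ) (p' a)
            ((Fin.cons x p' : Fin (m + 1) → Fin d) (φ a.succ)) =
            ∏ a ∈ Finset.univ.erase a0, ρ (g a.succ) (p' a) (p' (red φ a)) := by
          refine Finset.prod_congr rfl fun a ha => ?_
          rw [red_ne φ a (hne a (Finset.ne_of_mem_erase ha))]
          simp only [Fin.cons_succ]
        rw [e3]
        ring
      rw [e1]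
      refine (ih (red φ) g').trans ?_
      exact_mod_cast fix_succ φ a0 b h0' ha0

end Loops

theorem p_Loops (hT : S_Tr) : S_Loops := by
  intro G _ _ d ρ m φ g
  exact Loops.main hT ρ m φ g

end NilCut
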