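import Pool.Agent.Lib.MP_4ddf81_pr.Stm

/-!
# MP_4ddf81_pr : the popular character theorem
-/

namespace NilCut

open scoped commutatorElement

open Classical in
theorem p_Pop (hF : S_Form) (hD2 : S_Dual2) (hC : S_CenCount) (hLp : S_Lprod) (hT : S_Three)
    (hK : S_Ker) (hGr : S_Grow) : S_Pop := by
  intro G _ _ j ι _ ω Q m E t P hE hEt hcen hne hQ hP
  choose β hβ using fun i => hF G j (ω i) (hcen i)
  have hrange : ∀ i, ((β i).range : Set (G →* ℂˣ)) = Yset (ω i) := by
    intro i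
    ext l
    constructor
    · rintro ⟨g, rfl⟩
      exact ⟨g, fun x => hβ i g x⟩
    · rintro ⟨g, hg⟩
      refine ⟨g, ?_⟩
      ext x
      rw [hβ i g x, hg x]
  have hmem : ∀ i l, l ∈ (β i).range ↔ l ∈ Yset (ω i) := by
    intro i l
    rw [← hrange i]
    rfl
  have hQ' : ∀ i, Nat.card (β i).range ≤ Q := by
    intro i
    have h1 : Nat.card (β i).range = (Yset (ω i)).ncard := by
      rw [← hrange i]; rfl
    rw [h1]
    exact hQ i
  have hP' : ∀ l : G →* ℂˣ, l ≠ 1 → Nat.card {i // l ∈ (β i).range} ≤ P := by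
    intro l hl
    simp only [hmem]
    exact hP l hl
  rcases isEmpty_or_nonempty ι with he | ⟨⟨i0⟩⟩
  · right
    rw [Nat.card_of_isEmpty]
    exact Nat.zero_le _
  have hfr : ∀ i, Finite (β i).range := by
    intro i
    have : Finite (Set.range (β i)) := Set.finite_range _
    exact this
  have hQ1 : 1 ≤ Q := by
    refine le_trans ?_ (hQ' i0)
    have := hfr i0
    exact Nat.card_pos
  -- the set of forms
  have hL1 : ∀ i, 1 ≤ Lsz G i := by
    intro i
    exact Nat.one_le_iff_ne_zero.2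
      (Subgroup.index_ne_zero_of_finite (H := (lc G (i + 1)).subgroupOf (lc G i)))
  have hLsz : Lsz G (j + 1) ≤ Nat.card G := by
    refine le_trans ?_ (hLp G (j + 2))
    rw [Finset.prod_range_succ]
    exact Nat.le_mul_of_pos_left _ (Finset.prod_pos fun i _ => hL1 i)
  have hCf : Nat.card {ξ : lc G (j + 1) →* ℂˣ // Cen ξ} = Lsz G (j + 1) := hC G (j + 1)
  have hCfin : Finite {ξ : lc G (j + 1) →* ℂˣ // Cen ξ} :=
    Nat.finite_of_card_ne_zero (by rw [hCf]; have := hL1 (j + 1); omega)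
  have := Fintype.ofFinite {ξ : lc G (j + 1) →* ℂˣ // Cen ξ}
  choose Fm hFm using fun θ : {ξ : lc G (j + 1) →* ℂˣ // Cen ξ} => hF G j θ.1 θ.2
  let Hs : Finset (lc G j →* (G →* ℂˣ)) := Finset.univ.image Fm
  have hHs : Hs.card ≤ Nat.card G := by
    refine Finset.card_image_le.trans ?_
    rw [Finset.card_univ, ← Nat.card_eq_fintype_card, hCf]
    exact hLsz
  have h1Hs : (1 : lc G j →* (G →* ℂˣ)) ∈ Hs := by
    have hc1 : Cen (1 : lc G (j + 1) →* ℂˣ) := fun g _ => rfl
    refine Finset.mem_image.2 ⟨⟨1, hc1⟩, Finset.mem_univ _, ?_⟩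
    ext g x
    rw [hFm]
    rfl
  have hmHs : ∀ i, ∀ h ∈ Hs, β i * h ∈ Hs := by
    intro i h hh
    obtain ⟨θ, -, rfl⟩ := Finset.mem_image.1 hh
    have hc1 : Cen (ω i * θ.1) := by
      intro g hg
      rw [MonoidHom.mul_apply, hcen i g hg, θ.2 g hg, one_mul]
    refine Finset.mem_image.2 ⟨⟨ω i * θ.1, hc1⟩, Finset.mem_univ _, ?_⟩
    ext g x
    rw [hFm, MonoidHom.mul_apply, MonoidHom.mul_apply, MonoidHom.mul_apply, hFm, hβ]
  rcases hGr (lc G j) (G →* ℂˣ) ι β Hs Q m (Nat.card G) P h1Hs hmHs hHs hQ' hP' with h | h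
  · left; exact h
  right
  obtain ⟨J, hJm, hJ⟩ := h
  -- the common kernel
  set KJ : Subgroup (lc G j) := ⨅ i' : J, (β i').ker with hKJ
  have hKJi : KJ.index ≤ Q ^ m := by
    refine (Subgroup.index_iInf_le _).trans ?_
    calc ∏ i' : J, (β i').ker.index ≤ ∏ i' : J, Q := by
          refine Finset.prod_le_prod' fun i' _ => ?_
          rw [Subgroup.index_ker]
          exact hQ' i'
      _ = Q ^ J.card := by simp
      _ ≤ Q ^ m := Nat.pow_le_pow_right hQ1 hJm.le
  have hKJc : commutator (lc G j) ≤ KJ := by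
    rw [hKJ]
    exact le_iInf fun i' => Abelianization.commutator_subset_ker (β i')
  have hCh := (hD2 (lc G j) KJ hKJc).2
  have hChfin : Finite {l : lc G j →* ℂˣ // ∀ a ∈ KJ, l a = 1} :=
    Nat.finite_of_card_ne_zero (by rw [hCh]; exact Subgroup.index_ne_zero_of_finite)
  have := Fintype.ofFinite {l : lc G j →* ℂˣ // ∀ a ∈ KJ, l a = 1}
  -- the characters
  have hx : ∀ i, ∃ x : G, ∃ ξ : lc G j →* ℂˣ, (∀ a, ξ a = β i a x) ∧ ξ ≠ 1 := by
    intro i
    obtain ⟨l, ⟨g, hg⟩, hl1⟩ := hne i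
    obtain ⟨x, hx⟩ : ∃ x, l x ≠ 1 := by
      by_contra hcon
      push Not at hcon
      exact hl1 (by ext x; rw [hcon x]; rfl)
    refine ⟨x, ⟨⟨fun a => β i a x, by simp⟩, fun a b => by simp⟩, fun a => rfl, ?_⟩
    intro h
    have := DFunLike.congr_fun h g
    apply hx
    rw [hg x, ← hβ i g x]
    exact this
  choose xi ξ hξ hξ1 using hx
  set Q' : ι → Prop := fun i => ∀ a : lc G j, (∀ i' ∈ J, β i' a = 1) → β i a = 1 with hQ'def
  have htriv : ∀ i, Q' i → ∀ a ∈ KJ, ξ i a = 1 := by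
    intro i hi a ha
    rw [hξ, hi a]
    · rfl
    · intro i' hi'
      rw [hKJ, Subgroup.mem_iInf] at ha
      exact MonoidHom.mem_ker.1 (ha ⟨i', hi'⟩)
  have hxcen : ∀ i, Cen (ξ i) := by
    intro i g hg
    rw [hξ, hβ]
    refine hcen i _ ?_
    exact Subgroup.commutator_mem_commutator hg (Subgroup.mem_top _)
  have hfib : ∀ ξ₀ : lc G j →* ℂˣ,
      (Finset.univ.filter fun i => Q' i ∧ ξ i = ξ₀).card ≤ (j * E + Q ^ t) * P := by
    intro ξ₀
    by_cases h0 : ξ₀ = 1
    · have : (Finset.univ.filter fun i => Q' i ∧ ξ i = ξ₀) = ∅ := by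
        rw [Finset.filter_eq_empty_iff]
        rintro i - ⟨-, h⟩
        exact hξ1 i (h.trans h0)
      rw [this]
      simp
    rcases (Finset.univ.filter fun i => Q' i ∧ ξ i = ξ₀).eq_empty_or_nonempty with he | ⟨i1, hi1⟩
    · rw [he]; simp
    rw [Finset.mem_filter] at hi1
    have hc0 : Cen ξ₀ := by rw [← hi1.2.2]; exact hxcen i1
    have h1 := hK G j ξ₀ hc0 h0 {i : ι // Q' i ∧ ξ i = ξ₀} (fun i => (β i).range) Q E t P
      hE hEt (fun i => hQ' i) ?_ ?_
    · rwa [Nat.card_eq_fintype_card, Fintype.card_subtype] at h1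
    · intro l hl
      refine le_trans ?_ (hP' l hl)
      refine Nat.card_le_card_of_injective
        (fun p : {i : {i : ι // Q' i ∧ ξ i = ξ₀} // l ∈ (β i).range} =>
          (⟨p.1.1, p.2⟩ : {i // l ∈ (β i).range})) ?_
      intro p q hpq
      have := congrArg Subtype.val hpq
      exact Subtype.ext (Subtype.ext this)
    · intro i h hh
      have h2 := hT G j (ω i) (hcen i) (ann (((β i).range : Subgroup (G →* ℂˣ)) :
        Set (G →* ℂˣ))) ?_ h hh (xi i)
      · rw [← i.2.2, hξ, hβ]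
        exact h2
      · intro g x hxx
        rw [← hβ]
        rw [ann, Subgroup.mem_iInf] at hxx
        have h3 := hxx (β i g)
        rw [Subgroup.mem_iInf] at h3
        exact MonoidHom.mem_ker.1 (h3 ⟨g, rfl⟩)
  have hcard : (Finset.univ.filter fun i => Q' i).card ≤
      ((j * E + Q ^ t) * P) * (Finset.univ.image
        (Subtype.val : {l : lc G j →* ℂˣ // ∀ a ∈ KJ, l a = 1} → _)).card := by
    refine Finset.card_le_mul_card_image_of_maps_to (f := ξ) ?_ _ ?_
    · intro i hi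
      rw [Finset.mem_filter] at hi
      exact Finset.mem_image.2 ⟨⟨ξ i, htriv i hi.2⟩, Finset.mem_univ _, rfl⟩
    · intro ξ₀ _
      rw [Finset.filter_filter]
      exact hfib ξ₀
  have hcard2 : (Finset.univ.image
        (Subtype.val : {l : lc G j →* ℂˣ // ∀ a ∈ KJ, l a = 1} → _)).card ≤ Q ^ m := by
    refine Finset.card_image_le.trans ?_
    rw [Finset.card_univ, ← Nat.card_eq_fintype_card, hCh]
    exact hKJi
  have hJ2 : Nat.card {i // Q' i} = (Finset.univ.filter fun i => Q' i).card := by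
    rw [Nat.card_eq_fintype_card, Fintype.card_subtype]
  calc Nat.card ι ≤ 2 * Nat.card {i // Q' i} := hJ
    _ ≤ 2 * (((j * E + Q ^ t) * P) * Q ^ m) := by
        rw [hJ2]
        exact Nat.mul_le_mul_left _ (hcard.trans (Nat.mul_le_mul_left _ hcard2))
    _ = 2 * Q ^ m * (j * E + Q ^ t) * P := by ring

end NilCut
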