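import Pool.Agent.Lib.MP_4ddf81_pr.Stm

set_option autoImplicit false

namespace NilCut

open scoped commutatorElement

namespace Thin

/-- `ξ [m, x]` depends only on the class of `m` modulo the next term -/
theorem brk_congr {G : Type} [Group G] {i : ℕ} (ξ : lc G (i + 1) →* ℂˣ) (hξ : Cen ξ)
    (m m' : lc G i) (h : ((m⁻¹ * m' : lc G i) : G) ∈ lc G (i + 1)) (x : G) :
    ξ (brk m x) = ξ (brk m' x) := by
  have hu : ⁅((m⁻¹ * m' : lc G i) : G), x⁆ ∈ lc G (i + 1 + 1) :=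
    Subgroup.commutator_mem_commutator h (Subgroup.mem_top x)
  have hn : (lc G (i + 1 + 1)).Normal := by
    unfold lc
    infer_instance
  have hc : (m : G) * ⁅((m⁻¹ * m' : lc G i) : G), x⁆ * (m : G)⁻¹ ∈ lc G (i + 1 + 1) :=
    hn.conj_mem _ hu _
  have hle : lc G (i + 1 + 1) ≤ lc G (i + 1) :=
    (⊤ : Subgroup G).lowerCentralSeries_antitone (Nat.le_succ _)
  have e : brk m' x = ⟨_, hle hc⟩ * brk m x := by
    apply Subtype.ext
    show ⁅(m' : G), x⁆ = (m : G) * ⁅((m⁻¹ * m' : lc G i) : G), x⁆ * (m : G)⁻¹ * ⁅(m : G), x⁆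
    simp only [commutatorElement_def, Subgroup.coe_mul, Subgroup.coe_inv]
    group
  rw [e, map_mul, hξ ⟨_, hle hc⟩ hc, one_mul]

end Thin

theorem p_Thin (hC : S_CenCount) : S_Thin := by
  classical
  intro G _ _ i
  set K : Subgroup (lc G i) := (lc G (i + 1)).subgroupOf (lc G i) with hK
  have h1 : Nat.card (lc G i ⧸ K) = Lsz G i := rfl
  have h2 : Nat.card {ξ : lc G (i + 1) →* ℂˣ // Cen ξ} = Lsz G (i + 1) := hC G (i + 1)
  have h3 : Lsz G (i + 1) ≠ 0 := by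
    have : Nat.card (lc G (i + 1) ⧸ (lc G (i + 1 + 1)).subgroupOf (lc G (i + 1))) ≠ 0 :=
      Nat.card_pos.ne'
    exact this
  have hf : Finite {ξ : lc G (i + 1) →* ℂˣ // Cen ξ} :=
    Nat.finite_of_card_ne_zero (by rw [h2]; exact h3)
  rw [← h1, ← h2, ← Nat.card_prod, ← Nat.card_coe_set_eq]
  have hch : ∀ l : {l : G →* ℂˣ | ∃ (m : lc G i) (ξ : lc G (i + 1) →* ℂˣ), Cen ξ ∧
      ∀ x, l x = ξ (brk m x)}, ∃ p : lc G i × {ξ : lc G (i + 1) →* ℂˣ // Cen ξ},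
      ∀ x, (l : G →* ℂˣ) x = p.2.1 (brk p.1 x) := by
    rintro ⟨l, m, ξ, hξ, hl⟩
    exact ⟨(m, ⟨ξ, hξ⟩), hl⟩
  choose f hf' using hch
  refine Nat.card_le_card_of_injective
    (fun l => (((f l).1 : lc G i ⧸ K), (f l).2)) ?_
  intro l l' hll
  simp only [Prod.mk.injEq] at hll
  apply Subtype.ext
  ext x
  rw [hf' l x, hf' l' x, ← hll.2]
  congr 1
  refine Thin.brk_congr _ (f l).2.2 _ _ ?_ x
  have := QuotientGroup.eq.mp hll.1
  rwa [hK, Subgroup.mem_subgroupOf] at this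

end NilCut
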